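import Pool.Agent.Helper414.CuspDefs

open MeasureTheory Set Metric

open scoped ENNReal InnerProductSpace ComplexConjugate

namespace Pool.Agent.Helper414.Cusp

noncomputable def vec (f : C(UnitAddCircle, ℂ)) : Lp ℂ 2 mT := ContinuousMap.toLp 2 mT ℂ f

theorem vec_add (f g : C(UnitAddCircle, ℂ)) : vec (f + g) = vec f + vec g := by
  simp [vec]

theorem vec_ae (f : C(UnitAddCircle, ℂ)) : vec f =ᵐ[mT] f := by
  exact ContinuousMap.coeFn_toLp mT f

theorem mulOp_vec (g f : C(UnitAddCircle, ℂ)) : mulOp mT g (vec f) = vec (g * f) := by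
  apply Lp.ext
  filter_upwards [mulOp_ae mT g (vec f), vec_ae f, vec_ae (g * f)] with x h1 h2 h3
  rw [h1, h2, h3]; rfl

theorem vec_mem_hardy {f : C(UnitAddCircle, ℂ)} (h : ∀ n : ℤ, n < 0 → fourierCoeff f n = 0) :
    vec f ∈ hardy := by
  intro n hn
  rw [vec, fourierCoeff_toLp]
  exact h n hn

theorem vec_mem_perp {f : C(UnitAddCircle, ℂ)} (h : ∀ n : ℤ, 0 ≤ n → fourierCoeff f n = 0) :
    vec f ∈ hardyᗮ := by
  rw [Submodule.mem_orthogonal]
  intro g hg
  rw [← (fourierBasis (T := 1)).tsum_inner_mul_inner g (vec f)]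
  have h0 : ∀ n : ℤ, ⟪g, (fourierBasis (T := 1)) n⟫_ℂ * ⟪(fourierBasis (T := 1)) n, vec f⟫_ℂ = 0 := by
    intro n
    rcases lt_or_ge n 0 with hn | hn
    · have h1 : ⟪(fourierBasis (T := 1)) n, g⟫_ℂ = 0 := by
        rw [← HilbertBasis.repr_apply_apply, fourierBasis_repr]
        exact hg n hn
      rw [← inner_conj_symm, h1, map_zero, zero_mul]
    · have h1 : ⟪(fourierBasis (T := 1)) n, vec f⟫_ℂ = 0 := by
        rw [← HilbertBasis.repr_apply_apply, fourierBasis_repr, vec, fourierCoeff_toLp]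
        exact h n hn
      rw [h1, mul_zero]
  simp only [h0, tsum_zero]

theorem coeff_ana_aux_fourier (n : ℤ) (x : ℝ) :
    fourier n (x : UnitAddCircle) = Complex.exp (2 * Real.pi * Complex.I * n * x) := by
  rw [fourier_coe_apply]
  congr 1
  push_cast
  ring

theorem coeff_ana_aux_circle (m : ℕ) {q : ℂ → ℂ} (hq : DiffContOnCl ℂ q (ball 0 1)) :
    ∫ θ in (0:ℝ)..2 * Real.pi, circleMap 0 1 θ ^ (m + 1) * q (circleMap 0 1 θ) = 0 := by
  have h1 : DiffContOnCl ℂ (fun z : ℂ => z ^ m • q z) (ball 0 1) :=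
    (differentiable_pow m).diffContOnCl.smul hq
  have h2 := h1.circleIntegral_eq_zero zero_le_one
  rw [circleIntegral] at h2
  simp only [deriv_circleMap, smul_eq_mul] at h2
  have h3 : ∀ θ : ℝ, circleMap 0 1 θ * Complex.I * (circleMap 0 1 θ ^ m * q (circleMap 0 1 θ)) =
      Complex.I * (circleMap 0 1 θ ^ (m + 1) * q (circleMap 0 1 θ)) := by
    intro θ; ring
  simp only [h3] at h2
  rw [intervalIntegral.integral_const_mul] at h2
  exact (mul_eq_zero.mp h2).resolve_left Complex.I_ne_zero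

/-- Negative Fourier coefficients of boundary values of analytic functions vanish. -/
theorem coeff_ana {q : ℂ → ℂ} {f : C(UnitAddCircle, ℂ)} (hq : DiffContOnCl ℂ q (ball 0 1))
    (hf : ∀ t, f t = q (fourier 1 t)) {n : ℤ} (hn : n < 0) : fourierCoeff f n = 0 := by
  obtain ⟨m, hm⟩ : ∃ m : ℕ, -n = ((m + 1 : ℕ) : ℤ) := ⟨(-n - 1).toNat, by omega⟩
  rw [fourierCoeff_eq_intervalIntegral f n 0, zero_add, hm]
  have h1 : ∀ x : ℝ, fourier ((m + 1 : ℕ) : ℤ) (x : UnitAddCircle) • f (x : UnitAddCircle) =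
      (fun θ : ℝ => circleMap 0 1 θ ^ (m + 1) * q (circleMap 0 1 θ)) (2 * Real.pi * x) := by
    intro x
    have h2 : circleMap 0 1 (2 * Real.pi * x) = fourier 1 (x : UnitAddCircle) := by
      rw [coeff_ana_aux_fourier]
      unfold circleMap
      rw [zero_add, Complex.ofReal_one, one_mul]
      congr 1
      push_cast
      ring
    simp only
    rw [h2, hf, smul_eq_mul]
    congr 1
    rw [coeff_ana_aux_fourier, coeff_ana_aux_fourier, ← Complex.exp_nat_mul]
    congr 1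
    push_cast
    ring
  simp only [h1]
  rw [intervalIntegral.integral_comp_mul_left
    (fun θ : ℝ => circleMap 0 1 θ ^ (m + 1) * q (circleMap 0 1 θ)) (by positivity), mul_zero,
    mul_one, coeff_ana_aux_circle m hq, smul_zero, smul_zero]

theorem coeff_coana_aux_neg (n : ℤ) (t : UnitAddCircle) : fourier n (-t) = fourier (-n) t := by
  rw [fourier_apply, fourier_apply, neg_smul, smul_neg]

/-- Nonnegative Fourier coefficients of boundary values of coanalytic functions vanish. -/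
theorem coeff_coana {q : ℂ → ℂ} {f : C(UnitAddCircle, ℂ)} (hq : DiffContOnCl ℂ q (ball 0 1))
    (hf : ∀ t, f t = fourier (-1) t * q (fourier (-1) t)) {n : ℤ} (hn : 0 ≤ n) :
    fourierCoeff f n = 0 := by
  obtain ⟨f', hf'⟩ : ∃ f' : C(UnitAddCircle, ℂ), ∀ t, f' t = fourier (-1) t * f (-t) :=
    ⟨⟨fun t => fourier (-1) t * f (-t), by fun_prop⟩, fun t => rfl⟩
  have h1 : ∀ t, f' t = q (fourier 1 t) := by
    intro t
    rw [hf', hf, coeff_coana_aux_neg, neg_neg, ← mul_assoc, ← fourier_add]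
    norm_num
  have h2 := coeff_ana hq h1 (n := -(n + 1)) (by omega)
  rw [← h2]
  unfold fourierCoeff
  rw [← integral_neg_eq_self]
  congr 1
  funext t
  rw [coeff_coana_aux_neg, neg_neg, neg_neg, hf', smul_eq_mul, smul_eq_mul, ← mul_assoc,
    ← fourier_add]
  congr 3
  ring

theorem norm_vec_sq (f : C(UnitAddCircle, ℂ)) : ‖vec f‖ ^ 2 = ∫ t, ‖f t‖ ^ 2 ∂mT := by
  have h1 : ((‖vec f‖ ^ 2 : ℝ) : ℂ) = ⟪vec f, vec f⟫_ℂ := by
    rw [inner_self_eq_norm_sq_to_K]
    push_cast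
    rfl
  have h2 : ⟪vec f, vec f⟫_ℂ = ∫ t, f t * conj (f t) ∂mT := ContinuousMap.inner_toLp mT f f
  have h3 : ∫ t, f t * conj (f t) ∂mT = ((∫ t, ‖f t‖ ^ 2 ∂mT : ℝ) : ℂ) := by
    rw [← integral_complex_ofReal]
    refine integral_congr_ae (Filter.Eventually.of_forall fun t => ?_)
    change f t * conj (f t) = ((‖f t‖ ^ 2 : ℝ) : ℂ)
    rw [Complex.mul_conj, Complex.normSq_eq_norm_sq]
  have h4 := h1.trans (h2.trans h3)
  exact_mod_cast h4

/-- The Cauchy formula on the circle. -/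
theorem cauchy_circle {q : ℂ → ℂ} (hq : DiffContOnCl ℂ q (ball 0 1)) {w : ℂ} (hw : ‖w‖ < 1) :
    ∫ t : UnitAddCircle, q (fourier 1 t) / (1 - w * fourier (-1) t) ∂mT = q w := by
  have h0 : ∫ t : UnitAddCircle, q (fourier 1 t) / (1 - w * fourier (-1) t) ∂mT
      = ∫ t : UnitAddCircle, q (fourier 1 t) / (1 - w * fourier (-1) t) := by
    rw [AddCircle.integral_haarAddCircle]
    simp
  rw [h0, ← UnitAddCircle.intervalIntegral_preimage 0]
  have hC : (∮ z in C(0, 1), (z - w)⁻¹ • q z) = (2 * Real.pi * Complex.I : ℂ) • q w := by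
    apply DiffContOnCl.circleIntegral_sub_inv_smul hq
    simpa using hw
  rw [circleIntegral] at hC
  have h1 := intervalIntegral.integral_comp_mul_left (a := (0 : ℝ)) (b := 1)
    (fun θ : ℝ => deriv (circleMap 0 1) θ • ((circleMap 0 1 θ - w)⁻¹ • q (circleMap 0 1 θ)))
    (c := 2 * Real.pi) (by positivity)
  rw [mul_zero, mul_one, hC] at h1
  have h2 : ∀ a : ℝ, deriv (circleMap 0 1) (2 * Real.pi * a) •
      ((circleMap 0 1 (2 * Real.pi * a) - w)⁻¹ • q (circleMap 0 1 (2 * Real.pi * a)))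
      = Complex.I * (q (fourier 1 (a : UnitAddCircle)) /
        (1 - w * fourier (-1) (a : UnitAddCircle))) := by
    intro a
    have e1 : (fourier 1 (a : UnitAddCircle) : ℂ) = circleMap 0 1 (2 * Real.pi * a) := by
      rw [fourier_coe_apply, circleMap]
      simp only [Complex.ofReal_one, one_mul, zero_add, Int.cast_one, mul_one, div_one]
      congr 1
      push_cast
      ring
    have e2 : (fourier (-1) (a : UnitAddCircle) : ℂ) = (circleMap 0 1 (2 * Real.pi * a))⁻¹ := by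
      rw [← e1, fourier_coe_apply, fourier_coe_apply, ← Complex.exp_neg]
      congr 1
      push_cast
      ring
    rw [e1, e2, deriv_circleMap]
    set z := circleMap 0 1 (2 * Real.pi * a) with hz
    have hz1 : ‖z‖ = 1 := by
      rw [hz]
      simp
    have hz0 : z ≠ 0 := by
      intro h
      rw [h, norm_zero] at hz1
      exact zero_ne_one hz1
    have hzw : z - w ≠ 0 := by
      intro h
      have : z = w := sub_eq_zero.1 h
      rw [this] at hz1
      linarith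
    have hzw2 : 1 - w * z⁻¹ ≠ 0 := by
      intro h
      apply hzw
      field_simp at h
      rw [h]
      simp
    simp only [smul_eq_mul]
    field_simp
  simp only [h2] at h1
  rw [intervalIntegral.integral_const_mul] at h1
  rw [zero_add]
  have hI : Complex.I ≠ 0 := Complex.I_ne_zero
  have hpi : (Real.pi : ℂ) ≠ 0 := by exact_mod_cast Real.pi_ne_zero
  apply mul_left_cancel₀ hI
  rw [h1]
  rw [Complex.real_smul, smul_eq_mul]
  push_cast
  field_simp

/-- Invariance of the norm under the substitution `t ↦ N t`. -/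
theorem norm_vec_comp {N : ℕ} (hN : 1 ≤ N) {f g : C(UnitAddCircle, ℂ)}
    (hfg : ∀ t : UnitAddCircle, g t = f (N • t)) : ‖vec g‖ = ‖vec f‖ := by
  have hmp : MeasurePreserving (fun t : UnitAddCircle => N • t) mT mT := by
    have hN0 : (N : ℤ) ≠ 0 := by omega
    have h := Measure.measurePreserving_zsmul mT hN0
    simpa only [natCast_zsmul] using h
  have h : ‖vec g‖ ^ 2 = ‖vec f‖ ^ 2 := by
    rw [norm_vec_sq, norm_vec_sq]
    simp only [hfg]
    have hae : AEStronglyMeasurable (fun t : UnitAddCircle => ‖f t‖ ^ 2)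
        (Measure.map (fun t : UnitAddCircle => N • t) mT) := by
      apply Continuous.aestronglyMeasurable
      fun_prop
    rw [← integral_map hmp.measurable.aemeasurable hae, hmp.map_eq]
  exact (sq_eq_sq₀ (norm_nonneg _) (norm_nonneg _)).1 h

theorem ker_den_ne {p z : ℂ} (hp : ‖p‖ < 1) (hz : ‖z‖ ≤ 1) : 1 - conj p * z ≠ 0 := by
  intro h
  have h1 : conj p * z = 1 := (sub_eq_zero.1 h).symm
  have h2 : ‖conj p * z‖ = 1 := by rw [h1]; simp
  rw [norm_mul, RCLike.norm_conj] at h2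
  have h3 : ‖p‖ * ‖z‖ ≤ ‖p‖ * 1 := mul_le_mul_of_nonneg_left hz (norm_nonneg _)
  linarith

theorem ker_dcc {p : ℂ} (hp : ‖p‖ < 1) :
    DiffContOnCl ℂ (fun z : ℂ => 1 / (1 - conj p * z)) (ball 0 1) := by
  apply DifferentiableOn.diffContOnCl
  rw [closure_ball _ one_ne_zero]
  intro z hz
  have hz' : ‖z‖ ≤ 1 := by simpa using hz
  apply DifferentiableAt.differentiableWithinAt
  apply DifferentiableAt.div (differentiableAt_const _)
  · exact (differentiableAt_const _).sub ((differentiableAt_const _).mul differentiableAt_id)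
  · exact ker_den_ne hp hz'

theorem norm_fourier_one (t : UnitAddCircle) : ‖(fourier 1 t : ℂ)‖ = 1 := by
  rw [fourier_apply]; exact Circle.norm_coe _

theorem conj_fourier_one (t : UnitAddCircle) : conj (fourier 1 t : ℂ) = fourier (-1) t := by
  rw [fourier_neg]

theorem norm_kernel_one' {f : C(UnitAddCircle, ℂ)} {p : ℂ} (hp : ‖p‖ < 1)
    (hf : ∀ t, f t = 1 / (1 - conj p * fourier 1 t)) : ‖vec f‖ ^ 2 * (1 - ‖p‖ ^ 2) = 1 := by
  have h1 := cauchy_circle (ker_dcc hp) hp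
  have h2 : ∀ t : UnitAddCircle, ((‖f t‖ ^ 2 : ℝ) : ℂ) =
      (1 / (1 - conj p * fourier 1 t)) / (1 - p * fourier (-1) t) := by
    intro t
    have h3 : ((‖f t‖ ^ 2 : ℝ) : ℂ) = f t * conj (f t) := by
      rw [Complex.mul_conj, Complex.normSq_eq_norm_sq]
    rw [h3, hf t, map_div₀, map_one, map_sub, map_one, map_mul, Complex.conj_conj,
      conj_fourier_one]
    rw [mul_one_div]
  have h4 : ((‖vec f‖ ^ 2 : ℝ) : ℂ) = 1 / (1 - conj p * p) := by
    rw [norm_vec_sq, ← h1]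
    have h8 : ((∫ t, ‖f t‖ ^ 2 ∂mT : ℝ) : ℂ) = ∫ t, ((‖f t‖ ^ 2 : ℝ) : ℂ) ∂mT :=
      (integral_ofReal (𝕜 := ℂ) (μ := mT) (f := fun t => ‖f t‖ ^ 2)).symm
    refine h8.trans ?_
    exact integral_congr_ae (Filter.Eventually.of_forall fun t => h2 t)
  have h5 : (1 - conj p * p : ℂ) = ((1 - ‖p‖ ^ 2 : ℝ) : ℂ) := by
    rw [mul_comm, Complex.mul_conj, Complex.normSq_eq_norm_sq]; push_cast; ring
  rw [h5] at h4
  have h6 : ‖vec f‖ ^ 2 = 1 / (1 - ‖p‖ ^ 2) := by exact_mod_cast h4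
  have h7 : (0 : ℝ) < 1 - ‖p‖ ^ 2 := by
    have : ‖p‖ ^ 2 < 1 := by
      have := norm_nonneg p
      nlinarith
    linarith
  rw [h6]
  field_simp

/-- Point evaluation is bounded on analytic functions. -/
theorem eval_bound_one {q : ℂ → ℂ} {f : C(UnitAddCircle, ℂ)} (hq : DiffContOnCl ℂ q (ball 0 1))
    (hf : ∀ t, f t = q (fourier 1 t)) {w : ℂ} (hw : ‖w‖ < 1) :
    ‖q w‖ ^ 2 * (1 - ‖w‖ ^ 2) ≤ ‖vec f‖ ^ 2 := by
  have hcont : Continuous (fun t : UnitAddCircle => 1 / (1 - conj w * fourier 1 t)) := by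
    apply Continuous.div continuous_const
    · exact continuous_const.sub (continuous_const.mul (fourier 1).continuous)
    · intro t
      exact ker_den_ne hw (norm_fourier_one t).le
  set k : C(UnitAddCircle, ℂ) := ⟨fun t => 1 / (1 - conj w * fourier 1 t), hcont⟩ with hk
  have hkt : ∀ t, k t = 1 / (1 - conj w * fourier 1 t) := fun t => rfl
  have h1 := norm_kernel_one' hw hkt
  have h2 : ⟪vec k, vec f⟫_ℂ = q w := by
    rw [MeasureTheory.L2.inner_def, ← cauchy_circle hq hw]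
    apply integral_congr_ae
    filter_upwards [vec_ae k, vec_ae f] with t h3 h4
    rw [h3, h4, hkt, hf]
    show q (fourier 1 t) * conj (1 / (1 - conj w * fourier 1 t)) = _
    rw [map_div₀, map_one, map_sub, map_one, map_mul, Complex.conj_conj,
      conj_fourier_one, mul_one_div]
  have h3 : ‖q w‖ ≤ ‖vec k‖ * ‖vec f‖ := by
    rw [← h2]; exact norm_inner_le_norm _ _
  have h7 : (0 : ℝ) < 1 - ‖w‖ ^ 2 := by
    have : ‖w‖ ^ 2 < 1 := by
      have := norm_nonneg w
      nlinarith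
    linarith
  have h4 : ‖q w‖ ^ 2 ≤ ‖vec k‖ ^ 2 * ‖vec f‖ ^ 2 := by
    rw [← mul_pow]
    exact pow_le_pow_left₀ (norm_nonneg _) h3 2
  calc ‖q w‖ ^ 2 * (1 - ‖w‖ ^ 2) ≤ (‖vec k‖ ^ 2 * ‖vec f‖ ^ 2) * (1 - ‖w‖ ^ 2) :=
        mul_le_mul_of_nonneg_right h4 h7.le
    _ = (‖vec k‖ ^ 2 * (1 - ‖w‖ ^ 2)) * ‖vec f‖ ^ 2 := by ring
    _ = ‖vec f‖ ^ 2 := by rw [h1, one_mul]

theorem norm_kernel_one {f : C(UnitAddCircle, ℂ)} {p : ℂ} (hp : ‖p‖ < 1)
    (hf : ∀ t, f t = 1 / (1 - conj p * fourier 1 t)) : ‖vec f‖ ^ 2 * (1 - ‖p‖ ^ 2) = 1 :=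
  norm_kernel_one' hp hf

theorem proj_kernel_w {t : UnitAddCircle} {N : ℕ} :
    (fourier (N : ℤ) t : ℂ) = (fourier 1 t) ^ N := by
  rw [fourier_one, fourier_apply, AddCircle.toCircle_zsmul]
  simp

theorem proj_kernel_wn {t : UnitAddCircle} {N : ℕ} :
    (fourier (-(N : ℤ)) t : ℂ) = (fourier (-1) t) ^ N := by
  rw [fourier_apply, fourier_apply, AddCircle.toCircle_zsmul, AddCircle.toCircle_zsmul]
  simp

theorem proj_kernel_inv {t : UnitAddCircle} {N : ℤ} :
    (fourier (-N) t : ℂ) * fourier N t = 1 := by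
  rw [← fourier_add]
  simp

theorem proj_kernel_norm {t : UnitAddCircle} {n : ℤ} : ‖(fourier n t : ℂ)‖ = 1 := by
  rw [fourier_apply]
  exact Circle.norm_coe _

theorem proj_kernel_ne {q : ℂ} (hq : ‖q‖ < 1) {z : ℂ} (hz : ‖z‖ ≤ 1) : 1 - q * z ≠ 0 := by
  intro h
  have h1 : q * z = 1 := (sub_eq_zero.1 h).symm
  have h2 : ‖q * z‖ = 1 := by rw [h1]; simp
  rw [norm_mul] at h2
  have h3 : ‖q‖ * ‖z‖ ≤ ‖q‖ * 1 := mul_le_mul_of_nonneg_left hz (norm_nonneg _)
  linarith

/-- `vec f` for `f t = ψ(z̄ ^ N) / (1 - p̄ z ^ N)`: projection onto the Hardy space. -/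
theorem proj_kernel {N : ℕ} (hN : 1 ≤ N) {ψ : ℂ → ℂ}
    (hψ : DifferentiableOn ℂ ψ (closedBall 0 1)) {p : ℂ} (hp : ‖p‖ < 1)
    {f : C(UnitAddCircle, ℂ)}
    (hf : ∀ t, f t = ψ (fourier (-(N : ℤ)) t) / (1 - conj p * fourier (N : ℤ) t)) :
    ‖hardy.orthogonalProjectionOnto (vec f)‖ ^ 2 * (1 - ‖p‖ ^ 2) = ‖ψ (conj p)‖ ^ 2 := by
  obtain ⟨q, hq⟩ : ∃ q : ℂ, q = conj p := ⟨_, rfl⟩
  have hqn : ‖q‖ < 1 := by rw [hq, Complex.norm_conj]; exact hp
  have hden : ∀ n : ℤ, ∀ t : UnitAddCircle, 1 - q * fourier n t ≠ 0 := fun n t =>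
    proj_kernel_ne hqn proj_kernel_norm.le
  -- the kernels
  let k1 : C(UnitAddCircle, ℂ) := ⟨fun t => 1 / (1 - q * fourier 1 t),
    continuous_const.div (continuous_const.sub (continuous_const.mul (fourier 1).continuous))
      (hden 1)⟩
  let g : C(UnitAddCircle, ℂ) := ⟨fun t => 1 / (1 - q * fourier (N : ℤ) t),
    continuous_const.div (continuous_const.sub (continuous_const.mul (fourier N).continuous))
      (hden N)⟩
  have hk1 : ∀ t, k1 t = 1 / (1 - q * fourier 1 t) := fun t => rfl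
  have hg : ∀ t, g t = 1 / (1 - q * fourier (N : ℤ) t) := fun t => rfl
  have hgk : ‖vec g‖ = ‖vec k1‖ := by
    apply norm_vec_comp hN
    intro t
    rw [hg, hk1]
    congr 3
    rw [fourier_apply, fourier_apply, one_zsmul, natCast_zsmul]
  have hk1n : ‖vec k1‖ ^ 2 * (1 - ‖p‖ ^ 2) = 1 := by
    apply norm_kernel_one hp
    intro t
    rw [hk1, hq]
  obtain ⟨a, ha⟩ : ∃ a : C(UnitAddCircle, ℂ), a = ψ q • g := ⟨_, rfl⟩
  obtain ⟨b, hb⟩ : ∃ b : C(UnitAddCircle, ℂ), b = f - a := ⟨_, rfl⟩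
  have hfab : vec f = vec a + vec b := by
    rw [← vec_add, hb]
    congr 1
    abel
  have hva : vec a = ψ q • vec g := by
    rw [ha]; simp [vec]
  have haH : vec a ∈ hardy := by
    rw [hva]
    apply hardy.smul_mem
    apply vec_mem_hardy
    intro n hn
    refine coeff_ana (q := fun z => 1 / (1 - q * z ^ N)) ?_ ?_ hn
    · apply DifferentiableOn.diffContOnCl
      rw [closure_ball _ one_ne_zero]
      intro z hz
      have hz1 : ‖z ^ N‖ ≤ 1 := by
        rw [norm_pow]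
        exact pow_le_one₀ (norm_nonneg _) (by simpa using hz)
      have h1 := proj_kernel_ne hqn hz1
      apply DifferentiableAt.differentiableWithinAt
      fun_prop (disch := assumption)
    · intro t
      rw [hg, proj_kernel_w]
  have hbP : vec b ∈ hardyᗮ := by
    apply vec_mem_perp
    intro n hn
    refine coeff_coana (q := fun z => z ^ (N - 1) * dslope ψ q (z ^ N)) ?_ ?_ hn
    · apply DifferentiableOn.diffContOnCl
      rw [closure_ball _ one_ne_zero]
      have h1 : DifferentiableOn ℂ (dslope ψ q) (closedBall 0 1) := by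
        rw [Complex.differentiableOn_dslope]
        · exact hψ
        · refine Filter.mem_of_superset (isOpen_ball.mem_nhds ?_) ball_subset_closedBall
          simpa using hqn
      refine ((differentiable_id.pow (N - 1)).differentiableOn).mul
        (h1.comp ((differentiable_id.pow N).differentiableOn) ?_)
      intro z hz
      have hz1 : ‖z‖ ≤ 1 := by simpa using hz
      have : ‖z ^ N‖ ≤ 1 := by
        rw [norm_pow]
        exact pow_le_one₀ (norm_nonneg _) hz1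
      simpa using this
    · intro t
      obtain ⟨w, hw⟩ : ∃ w : ℂ, w = fourier (-1) t := ⟨_, rfl⟩
      have hwN : (fourier (-(N : ℤ)) t : ℂ) = w ^ N := by rw [hw]; exact proj_kernel_wn
      have hinv : w ^ N * fourier (N : ℤ) t = 1 := by rw [← hwN]; exact proj_kernel_inv
      have hwn : ‖w ^ N‖ = 1 := by rw [← hwN]; exact proj_kernel_norm
      have hne : w ^ N ≠ q := by
        intro h
        rw [h] at hwn
        linarith
      have h0 : w * w ^ (N - 1) = w ^ N := by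
        rw [← pow_succ']
        congr 1
        omega
      have hd := hden N t
      rw [hb, ContinuousMap.sub_apply, ha, ContinuousMap.smul_apply, hg, hf, ← hq, hwN, ← hw,
        dslope_of_ne _ hne, slope_def_field, smul_eq_mul, ← mul_assoc, h0]
      have h5 : w ^ N - q ≠ 0 := sub_ne_zero.2 hne
      have h6 : w ^ N - q = w ^ N * (1 - q * fourier (N : ℤ) t) := by
        rw [mul_sub, mul_one]
        have : w ^ N * (q * fourier (N : ℤ) t) = q * (w ^ N * fourier (N : ℤ) t) := by ring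
        rw [this, hinv, mul_one]
      have h7 : w ^ N ≠ 0 := by
        intro h
        rw [h] at hwn
        simp at hwn
      rw [h6]
      field_simp
  have hproj : hardy.orthogonalProjectionOnto (vec f) = ⟨vec a, haH⟩ := by
    rw [hfab, map_add]
    have h1 := Submodule.orthogonalProjectionOnto_mem_subspace_eq_self (K := hardy) ⟨vec a, haH⟩
    have h2 : hardy.orthogonalProjectionOnto (vec b) = 0 :=
      Submodule.orthogonalProjectionOnto_eq_zero_iff.2 hbP
    rw [h2, add_zero]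
    exact h1
  rw [hproj]
  have h1 : ‖(⟨vec a, haH⟩ : hardy)‖ = ‖vec a‖ := rfl
  rw [h1, hva, norm_smul, hgk, mul_pow, mul_assoc, hk1n, mul_one, hq]

theorem toeplitz_vec (φ h : C(UnitAddCircle, ℂ)) (hh : vec h ∈ hardy) :
    toeplitz φ ⟨vec h, hh⟩ = hardy.orthogonalProjectionOnto (vec (φ * h)) := by
  simp [toeplitz, mulOp_vec]

theorem vec_sub_smul_aux (φ h : C(UnitAddCircle, ℂ)) (lam : ℂ) :
    vec ((φ - ContinuousMap.const _ lam) * h) = vec (φ * h) - lam • vec h := by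
  have e : (φ - ContinuousMap.const _ lam) * h = φ * h - lam • h := by
    ext t
    simp only [ContinuousMap.mul_apply, ContinuousMap.sub_apply, ContinuousMap.const_apply,
      ContinuousMap.smul_apply, smul_eq_mul]
    ring
  rw [e]
  unfold vec
  rw [map_sub, map_smul]

/-- `(T_φ - λ) h` as a projection. -/
theorem toeplitz_sub_vec (φ h : C(UnitAddCircle, ℂ)) (hh : vec h ∈ hardy) (lam : ℂ) :
    toeplitz φ ⟨vec h, hh⟩ - lam • (⟨vec h, hh⟩ : hardy) =
      hardy.orthogonalProjectionOnto (vec ((φ - ContinuousMap.const _ lam) * h)) := by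
  rw [toeplitz_vec, vec_sub_smul_aux, map_sub, map_smul]
  have h1 : hardy.orthogonalProjectionOnto (vec h) = ⟨vec h, hh⟩ :=
    Submodule.orthogonalProjectionOnto_mem_subspace_eq_self (⟨vec h, hh⟩ : hardy)
  rw [h1]

theorem mulOp_sub_smul (μ : Measure UnitAddCircle) [IsFiniteMeasure μ]
    (g : C(UnitAddCircle, ℂ)) (lam : ℂ) (f : Lp ℂ 2 μ) :
    mulOp μ g f - lam • f = mulOp μ (g - ContinuousMap.const _ lam) f := by
  apply Lp.ext
  filter_upwards [mulOp_ae μ g f, mulOp_ae μ (g - ContinuousMap.const _ lam) f,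
    Lp.coeFn_sub (mulOp μ g f) (lam • f), Lp.coeFn_smul lam f] with x h1 h2 h3 h4
  rw [h3, Pi.sub_apply, h4, h1, h2, Pi.smul_apply, ContinuousMap.sub_apply,
    ContinuousMap.const_apply, smul_eq_mul]
  ring

theorem mulOp_lower (μ : Measure UnitAddCircle) [IsFiniteMeasure μ]
    (g : C(UnitAddCircle, ℂ)) {d : ℝ} (hd : 0 ≤ d) (h : ∀ t, d ≤ ‖g t‖) (f : Lp ℂ 2 μ) :
    d * ‖f‖ ≤ ‖mulOp μ g f‖ := by
  have e : d * ‖f‖ = ‖(d : ℂ) • f‖ := by
    rw [norm_smul, Complex.norm_real, Real.norm_of_nonneg hd]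
  rw [e]
  apply Lp.norm_le_norm_of_ae_le
  filter_upwards [mulOp_ae μ g f, Lp.coeFn_smul (d : ℂ) f] with x h1 h2
  rw [h1, h2, Pi.smul_apply, norm_smul, norm_mul, Complex.norm_real, Real.norm_of_nonneg hd]
  exact mul_le_mul_of_nonneg_right (h x) (norm_nonneg _)

theorem sumMul_lower (φ : C(UnitAddCircle, ℂ)) {n : ℕ} (γ : Fin n → Set UnitAddCircle)
    (lam : ℂ) {d : ℝ} (hd : 0 ≤ d) (h : ∀ t, d ≤ ‖φ t - lam‖)
    (v : ∀ k : Fin n, Lp ℂ 2 (mT.restrict (γ k))) :
    d * ‖v‖ ≤ ‖sumMul φ γ v - lam • v‖ := by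
  rcases hd.eq_or_lt with rfl | hd'
  · rw [zero_mul]; exact norm_nonneg _
  · rw [mul_comm, ← le_div_iff₀ hd']
    rw [pi_norm_le_iff_of_nonneg (div_nonneg (norm_nonneg _) hd)]
    intro k
    rw [le_div_iff₀ hd', mul_comm]
    have h1 : (sumMul φ γ v - lam • v) k =
        mulOp (mT.restrict (γ k)) (φ - ContinuousMap.const _ lam) (v k) := by
      rw [← mulOp_sub_smul]
      rfl
    have h2 := mulOp_lower (mT.restrict (γ k)) (φ - ContinuousMap.const _ lam) hd (fun t => h t) (v k)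
    rw [← h1] at h2
    exact h2.trans (norm_le_pi_norm _ k)

theorem j13037_fourier_pow (t : UnitAddCircle) (n : ℕ) :
    (fourier (n : ℤ) t : ℂ) = (fourier 1 t) ^ n := by
  induction n with
  | zero => simp
  | succ n ih =>
    rw [Nat.cast_succ, fourier_add, ih, pow_succ]

theorem j13037_term {q : ℂ → ℂ} {g : C(UnitAddCircle, ℂ)}
    (hq : DiffContOnCl ℂ q (ball 0 1)) (hg : ∀ t, g t = q (fourier 1 t)) (n : ℕ) :
    vec (g * fourier (n : ℤ)) ∈ hardy := by
  refine vec_mem_hardy fun m hm => ?_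
  refine coeff_ana (q := fun z => q z • z ^ n) (hq.smul
    ((differentiable_pow n).diffContOnCl)) (fun t => ?_) hm
  rw [ContinuousMap.mul_apply, hg, j13037_fourier_pow]
  rfl

theorem j13037_claim {q : ℂ → ℂ} {g : C(UnitAddCircle, ℂ)}
    (hq : DiffContOnCl ℂ q (ball 0 1)) (hg : ∀ t, g t = q (fourier 1 t)) (v : Lp ℂ 2 mT)
    (hv : v ∈ hardy) : mulOp mT g v ∈ hardy := by
  have h1 := (hasSum_fourier_series_L2 (T := 1) v).mapL (mulOp mT g)
  refine isClosed_hardy.mem_of_tendsto h1 (Filter.Eventually.of_forall fun s => ?_)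
  refine Submodule.sum_mem _ fun i _ => ?_
  rcases lt_or_ge i 0 with hi | hi
  · rw [hv i hi, zero_smul, map_zero]
    exact Submodule.zero_mem _
  · rw [map_smul]
    refine Submodule.smul_mem _ _ ?_
    obtain ⟨n, rfl⟩ := Int.eq_ofNat_of_zero_le hi
    have h2 : mulOp mT g (fourierLp 2 (n : ℤ)) = vec (g * fourier (n : ℤ)) := mulOp_vec g _
    rw [h2]
    exact j13037_term hq hg n

/-- Lower bound for the analytic Toeplitz operator. -/
theorem toeplitz_ana_lower {q : ℂ → ℂ} {g : C(UnitAddCircle, ℂ)}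
    (hq : DiffContOnCl ℂ q (ball 0 1)) (hg : ∀ t, g t = q (fourier 1 t)) (lam : ℂ)
    {d : ℝ} (hd : 0 ≤ d) (h : ∀ t, d ≤ ‖g t - lam‖) (v : hardy) :
    d * ‖v‖ ≤ ‖toeplitz g v - lam • v‖ := by
  have hm := j13037_claim hq hg v.1 v.2
  have h1 : toeplitz g v = ⟨mulOp mT g v.1, hm⟩ := by
    have h2 := hardy.orthogonalProjectionOnto_mem_subspace_eq_self ⟨mulOp mT g v.1, hm⟩
    exact h2
  rw [h1]
  have h3 := mulOp_lower mT (g - ContinuousMap.const _ lam) hd (fun t => h t) v.1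
  rw [← mulOp_sub_smul] at h3
  exact h3

/-- The principle: cubic lower bound against quartic test vectors. -/
theorem not_similar_of {E F : Type*} [NormedAddCommGroup E] [NormedSpace ℂ E]
    [NormedAddCommGroup F] [NormedSpace ℂ F] (A : E →L[ℂ] E) (B : F →L[ℂ] F)
    (lam : ℝ → ℂ) {r₀ c C : ℝ} (hr₀ : 0 < r₀) (hc : 0 < c)
    (hB : ∀ r ∈ Ioo 0 r₀, ∀ v : F, c * r ^ 3 * ‖v‖ ≤ ‖B v - lam r • v‖)
    (hA : ∀ r ∈ Ioo 0 r₀, ∃ h : E, h ≠ 0 ∧ ‖A h - lam r • h‖ ≤ C * r ^ 4 * ‖h‖) :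
    ¬ Similar A B := by
  rintro ⟨X, hX⟩
  set K : ℝ := ‖(X : E →L[ℂ] F)‖ with hK
  set K' : ℝ := ‖(X.symm : F →L[ℂ] E)‖ with hK'
  have hK0 : 0 ≤ K := norm_nonneg _
  have hK0' : 0 ≤ K' := norm_nonneg _
  have key : ∀ r ∈ Ioo 0 r₀, c ≤ (|C| * K * K') * r := by
    intro r hr
    obtain ⟨h, hh, hle⟩ := hA r hr
    have hpos : 0 < ‖h‖ := norm_pos_iff.2 hh
    have e : X (A h - lam r • h) = B (X h) - lam r • X h := by
      rw [map_sub, map_smul, hX]
    have h1 : c * r ^ 3 * ‖X h‖ ≤ K * (C * r ^ 4 * ‖h‖) := by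
      refine (hB r hr (X h)).trans ?_
      rw [← e]
      refine ((X : E →L[ℂ] F).le_opNorm _).trans ?_
      exact mul_le_mul_of_nonneg_left hle hK0
    have h2 : ‖h‖ ≤ K' * ‖X h‖ := by
      have := (X.symm : F →L[ℂ] E).le_opNorm (X h)
      simpa using this
    have hr0 : 0 < r := hr.1
    have h3 : c * r ^ 3 * ‖h‖ ≤ K' * (K * (|C| * r ^ 4 * ‖h‖)) := by
      calc c * r ^ 3 * ‖h‖ ≤ c * r ^ 3 * (K' * ‖X h‖) :=
            mul_le_mul_of_nonneg_left h2 (by positivity)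
        _ = K' * (c * r ^ 3 * ‖X h‖) := by ring
        _ ≤ K' * (K * (C * r ^ 4 * ‖h‖)) := mul_le_mul_of_nonneg_left h1 hK0'
        _ ≤ K' * (K * (|C| * r ^ 4 * ‖h‖)) := by
          gcongr
          exact le_abs_self C
    have h4 : c * (r ^ 3 * ‖h‖) ≤ (|C| * K * K') * r * (r ^ 3 * ‖h‖) := by
      calc c * (r ^ 3 * ‖h‖) = c * r ^ 3 * ‖h‖ := by ring
        _ ≤ _ := h3
        _ = _ := by ring
    exact le_of_mul_le_mul_right h4 (by positivity)
  set M : ℝ := |C| * K * K' with hM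
  have hM0 : 0 ≤ M := by positivity
  have hr1 : 0 < min (r₀ / 2) (c / (2 * (M + 1))) := by
    apply lt_min (by positivity) (by positivity)
  have hr2 : min (r₀ / 2) (c / (2 * (M + 1))) < r₀ :=
    (min_le_left _ _).trans_lt (by linarith)
  have h5 := key _ ⟨hr1, hr2⟩
  have h6 : M * min (r₀ / 2) (c / (2 * (M + 1))) ≤ M * (c / (2 * (M + 1))) :=
    mul_le_mul_of_nonneg_left (min_le_right _ _) hM0
  have h7 : M * (c / (2 * (M + 1))) ≤ c / 2 := by
    rw [mul_div_assoc', div_le_div_iff₀ (by positivity) (by norm_num)]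
    nlinarith
  linarith

end Pool.Agent.Helper414.Cusp
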