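import Pool.Agent.Helper414.CuspTop

open MeasureTheory Set
open scoped ENNReal InnerProductSpace

namespace Pool.Agent.Helper414.Cusp

/-- The normalised Lebesgue (Haar) measure of the unit circle, written as the circle R/Z. -/
noncomputable abbrev mT : Measure UnitAddCircle := AddCircle.haarAddCircle

/-- Multiplication by the continuous function g on the space L2 of the measure mu. -/
noncomputable def mulOp (μ : Measure UnitAddCircle) [IsFiniteMeasure μ]
    (g : C(UnitAddCircle, ℂ)) : Lp ℂ 2 μ →L[ℂ] Lp ℂ 2 μ :=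
  (ContinuousLinearMap.mul ℂ ℂ).holderL μ ∞ 2 2 (ContinuousMap.toLp ∞ μ ℂ g)

/-- Sanity check: `mulOp μ g f` is the pointwise product. -/
theorem mulOp_ae (μ : Measure UnitAddCircle) [IsFiniteMeasure μ]
    (g : C(UnitAddCircle, ℂ)) (f : Lp ℂ 2 μ) :
    mulOp μ g f =ᵐ[μ] fun x => g x * f x := by
  have h1 := (ContinuousLinearMap.mul ℂ ℂ).coeFn_holder (r := 2)
    (ContinuousMap.toLp ∞ μ ℂ g) f
  have h2 := ContinuousMap.coeFn_toLp (p := ∞) (𝕜 := ℂ) μ g
  filter_upwards [h1, h2] with x hx1 hx2
  simp only [mulOp, ContinuousLinearMap.holderL_apply_apply]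
  rw [hx1, ← hx2]
  rfl

/-- The Hardy space H2 of the disc, as the space of square integrable functions on the circle
whose Fourier coefficients of negative index vanish. -/
def hardy : Submodule ℂ (Lp ℂ 2 mT) where
  carrier := {f | ∀ n : ℤ, n < 0 → fourierCoeff (f : UnitAddCircle → ℂ) n = 0}
  zero_mem' := by
    intro n _
    rw [← fourierBasis_repr]
    simp
  add_mem' := by
    intro f g hf hg n hn
    have h1 := hf n hn
    have h2 := hg n hn
    rw [← fourierBasis_repr] at *
    simp [h1, h2]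
  smul_mem' := by
    intro c f hf n hn
    have h1 := hf n hn
    rw [← fourierBasis_repr] at *
    simp [h1]

theorem mem_hardy {f : Lp ℂ 2 mT} :
    f ∈ hardy ↔ ∀ n : ℤ, n < 0 → fourierCoeff (f : UnitAddCircle → ℂ) n = 0 := Iff.rfl

theorem isClosed_hardy : IsClosed (hardy : Set (Lp ℂ 2 mT)) := by
  have : (hardy : Set (Lp ℂ 2 mT)) = ⋂ n : ℤ, ⋂ _ : n < 0,
      {f | ⟪(fourierBasis (T := 1)) n, f⟫_ℂ = 0} := by
    ext f
    simp only [SetLike.mem_coe, mem_hardy, mem_iInter, mem_ofPred_eq]
    refine forall_congr' fun n => forall_congr' fun _ => ?_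
    rw [← fourierBasis_repr, HilbertBasis.repr_apply_apply]
  rw [this]
  exact isClosed_iInter fun n => isClosed_iInter fun _ =>
    isClosed_eq (by fun_prop) continuous_const

instance : CompleteSpace hardy := isClosed_hardy.completeSpace_coe

/-- The Toeplitz operator `h ↦ P (g h)` on the Hardy space, `P` the orthogonal projection. -/
noncomputable def toeplitz (g : C(UnitAddCircle, ℂ)) : hardy →L[ℂ] hardy :=
  hardy.orthogonalProjectionOnto ∘L mulOp mT g ∘L hardy.subtypeL

/-- Similarity of bounded operators on two spaces. -/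
def Similar {E F : Type*} [NormedAddCommGroup E] [NormedSpace ℂ E]
    [NormedAddCommGroup F] [NormedSpace ℂ F] (A : E →L[ℂ] E) (B : F →L[ℂ] F) : Prop :=
  ∃ X : E ≃L[ℂ] F, ∀ h : E, X (A h) = B (X h)

/-- The direct sum of the operators of multiplication by `φ` on the spaces `L2 (γ k)`. -/
noncomputable def sumMul (φ : C(UnitAddCircle, ℂ)) {n : ℕ} (γ : Fin n → Set UnitAddCircle) :
    (∀ k : Fin n, Lp ℂ 2 (mT.restrict (γ k))) →L[ℂ] (∀ k : Fin n, Lp ℂ 2 (mT.restrict (γ k))) :=
  ContinuousLinearMap.pi fun k =>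
    (mulOp (mT.restrict (γ k)) φ) ∘L ContinuousLinearMap.proj k

end Pool.Agent.Helper414.Cusp
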