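import Pool.Agent.Helper414.CuspStmt

open MeasureTheory Set
open scoped ENNReal

namespace Pool.Agent.Helper414.CuspStmt

/-- The Hilbert space direct sum of H2 and of the spaces `L2 (γ k)`. -/
def HSum {n : ℕ} (γ : Fin n → Set UnitAddCircle) : Type := WithLp 2 (H2 × SumL2 γ)

noncomputable instance {n : ℕ} (γ : Fin n → Set UnitAddCircle) : NormedAddCommGroup (HSum γ) :=
  (inferInstance : NormedAddCommGroup (WithLp 2 (H2 × SumL2 γ)))

noncomputable instance {n : ℕ} (γ : Fin n → Set UnitAddCircle) : InnerProductSpace ℂ (HSum γ) :=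
  (inferInstance : InnerProductSpace ℂ (WithLp 2 (H2 × SumL2 γ)))

/-- The pair of components of an element of the direct sum. -/
def HSum.pair {n : ℕ} {γ : Fin n → Set UnitAddCircle} (v : HSum γ) : H2 × SumL2 γ :=
  WithLp.ofLp (show WithLp 2 (H2 × SumL2 γ) from v)

/-- The element of the direct sum with given components. -/
def HSum.of {n : ℕ} {γ : Fin n → Set UnitAddCircle} (v : H2 × SumL2 γ) : HSum γ :=
  WithLp.toLp 2 v

/-- The map `(h, v) ↦ (T_g h, (φ v k))`. -/
noncomputable def modelFun (g φ : C(UnitAddCircle, ℂ)) {n : ℕ} (γ : Fin n → Set UnitAddCircle)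
    (v : HSum γ) : HSum γ :=
  HSum.of (toeplitz g v.pair.1, sumMul φ γ v.pair.2)

theorem modelFun_add (g φ : C(UnitAddCircle, ℂ)) {n : ℕ} (γ : Fin n → Set UnitAddCircle)
    (v w : HSum γ) : modelFun g φ γ (v + w) = modelFun g φ γ v + modelFun g φ γ w := by
  refine (WithLp.ofLp_injective 2) ?_
  exact Prod.ext (map_add (toeplitz g) _ _) (map_add (sumMul φ γ) _ _)

theorem modelFun_smul (g φ : C(UnitAddCircle, ℂ)) {n : ℕ} (γ : Fin n → Set UnitAddCircle)
    (c : ℂ) (v : HSum γ) : modelFun g φ γ (c • v) = c • modelFun g φ γ v := by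
  refine (WithLp.ofLp_injective 2) ?_
  exact Prod.ext (map_smul (toeplitz g) c _) (map_smul (sumMul φ γ) c _)

theorem modelFun_cont (g φ : C(UnitAddCircle, ℂ)) {n : ℕ} (γ : Fin n → Set UnitAddCircle) :
    Continuous (modelFun g φ γ) := by
  have h1 : Continuous (HSum.pair (γ := γ)) := WithLp.prod_continuous_ofLp 2 H2 (SumL2 γ)
  have h2 : Continuous (HSum.of (γ := γ)) := WithLp.prod_continuous_toLp 2 H2 (SumL2 γ)
  exact h2.comp ((((toeplitz g).continuous.comp continuous_fst).comp h1).prodMk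
    (((sumMul φ γ).continuous.comp continuous_snd).comp h1))

/-- The direct sum of the Toeplitz operator with symbol `g` and of the operators of
multiplication by `φ` on the spaces `L2 (γ k)`. -/
noncomputable def modelOp (g φ : C(UnitAddCircle, ℂ)) {n : ℕ} (γ : Fin n → Set UnitAddCircle) :
    HSum γ →L[ℂ] HSum γ where
  toFun := modelFun g φ γ
  map_add' := modelFun_add g φ γ
  map_smul' := modelFun_smul g φ γ
  cont := modelFun_cont g φ γ

theorem toeplitz_transfer (φ : C(UnitAddCircle, ℂ)) (v : Cusp.hardy) :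
    toeplitz φ (show H2 from v) = (show H2 from Cusp.toeplitz φ v) := by
  have e2 : mul mT φ (show L2 mT from (v : Lp ℂ 2 Cusp.mT)) =
      Cusp.mulOp Cusp.mT φ (v : Lp ℂ 2 Cusp.mT) := mul_eq mT φ _
  have e3 : toeplitz φ (show H2 from v) = (show H2 from
      Cusp.hardy.orthogonalProjectionOnto
        (mul mT φ (show L2 mT from (v : Lp ℂ 2 Cusp.mT)))) := rfl
  rw [e3, e2]
  rfl

theorem not_similar_transfer_nu {g φ : C(UnitAddCircle, ℂ)} {n : ℕ}
    {γ : Fin n → Set UnitAddCircle}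
    (h : ¬ Cusp.Similar (Cusp.toeplitz φ) ((Cusp.toeplitz g).prodMap (Cusp.sumMul φ γ))) :
    ¬ Similar (toeplitz φ) (modelOp g φ γ) := by
  rintro ⟨X, hX⟩
  apply h
  let X' : Cusp.hardy ≃L[ℂ] WithLp 2 (Cusp.hardy ×
    PiLp 2 (fun k : Fin n => Lp ℂ 2 (Cusp.mT.restrict (γ k)))) := X
  let Y : Cusp.hardy ≃L[ℂ] (Cusp.hardy × ∀ k : Fin n, Lp ℂ 2 (Cusp.mT.restrict (γ k))) :=
    (X'.trans (WithLp.prodContinuousLinearEquiv 2 ℂ _ _)).trans
      ((ContinuousLinearEquiv.refl ℂ Cusp.hardy).prodCongr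
        (PiLp.continuousLinearEquiv 2 ℂ fun k : Fin n => Lp ℂ 2 (Cusp.mT.restrict (γ k))))
  refine ⟨Y, fun v => ?_⟩
  have e4 := hX v
  rw [toeplitz_transfer] at e4
  have e5 : HSum.pair (X (Cusp.toeplitz φ v)) = (toeplitz g (HSum.pair (X v)).1,
    sumMul φ γ (HSum.pair (X v)).2) := congrArg HSum.pair e4
  refine Prod.ext ?_ ?_
  · show (HSum.pair (X (Cusp.toeplitz φ v))).1 = (show H2 from Cusp.toeplitz g (Y v).1)
    rw [e5]
    exact toeplitz_transfer g (Y v).1
  · funext k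
    have e6 := congrArg (fun u : SumL2 γ =>
      (show PiLp 2 fun k : Fin n => L2 (mT.restrict (γ k)) from u) k) (congrArg Prod.snd e5)
    refine Eq.trans e6 ?_
    exact mul_eq (mT.restrict (γ k)) φ _

end Pool.Agent.Helper414.CuspStmt
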