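import Pool.Agent.Helper414.CuspNu1
import Pool.Agent.Helper414.CuspStmtNu

open MeasureTheory Set

namespace Pool.Agent.Helper414.CuspStmt

open Pool.Agent.Helper414.Cusp (SimpleClosedCurve ZeroInnerAngle RationalSymbol interiorDomain
  HasWinding ConformalOnto)

theorem rationalCurve_Gam : ∃ G : C(UnitAddCircle, ℂ), RationalSymbol G ∧
    Function.Injective G ∧ range G = Cusp.Gam := by
  have hn : ∀ t : UnitAddCircle, ‖(fourier 1 t : ℂ)‖ = 1 := fun t => Cusp.norm_fourier_eq 1 t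
  refine ⟨⟨fun t => Cusp.Gf (fourier 1 t), ?_⟩, ?_, ?_, ?_⟩
  · unfold Cusp.Gf
    exact Continuous.div (by fun_prop) (by fun_prop) fun t => Cusp.one_sub_two_mul_ne (hn t)
  · refine ⟨Polynomial.X ^ 2, 1 - 2 * Polynomial.X, ?_, ?_⟩
    · intro z hz
      simpa using Cusp.one_sub_two_mul_ne hz
    · intro t
      simp [Cusp.Gf]
  · intro s t h
    have h1 : (fourier 1 s : ℂ) = fourier 1 t := Cusp.Gf_inj (hn s) (hn t) h
    rw [fourier_one, fourier_one] at h1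
    exact AddCircle.injective_toCircle one_ne_zero (Circle.ext h1)
  · ext s
    constructor
    · rintro ⟨t, rfl⟩
      exact Cusp.Gf_mem (hn t)
    · intro hs
      obtain ⟨β, h1, h2⟩ := Cusp.exists_of_mem hs
      obtain ⟨t, ht⟩ := (AddCircle.homeomorphCircle (T := 1) one_ne_zero).surjective
        ⟨β, mem_sphere_zero_iff_norm.2 h1⟩
      rw [AddCircle.homeomorphCircle_apply] at ht
      refine ⟨t, ?_⟩
      show Cusp.Gf (fourier 1 t) = s
      rw [fourier_one, ht]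
      exact h2

theorem main_all : ∃ (Γ : Set ℂ) (w₀ : ℂ), SimpleClosedCurve Γ ∧ ZeroInnerAngle Γ w₀ ∧
    (∃ G : C(UnitAddCircle, ℂ), RationalSymbol G ∧ Function.Injective G ∧ range G = Γ) ∧
    ∀ ν : ℕ, ∃ φ : C(UnitAddCircle, ℂ), RationalSymbol φ ∧ (∀ t, φ t ∈ Γ) ∧ (∃ t, φ t = w₀) ∧
      (∀ w ∈ interiorDomain Γ, HasWinding φ w ν) ∧
      ∀ (n : ℕ) (γ : Fin n → Set UnitAddCircle), (∀ k, MeasurableSet (γ k)) →
        (ν = 0 → ¬ Similar (toeplitz φ) (sumMul φ γ)) ∧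
        (0 < ν → ∀ (τ : ℂ → ℂ) (g : C(UnitAddCircle, ℂ)), ConformalOnto τ Γ →
          (∀ t, g t = τ (fourier 1 t ^ ν)) → ¬ Similar (toeplitz φ) (modelOp g φ γ)) := by
  refine ⟨Cusp.Gam, -1, Cusp.simple_Gam, Cusp.zeroAngle_Gam, rationalCurve_Gam, fun ν => ?_⟩
  rcases Nat.eq_zero_or_pos ν with h0 | hpos
  · subst h0
    refine ⟨Cusp.phi0, Cusp.phi0_rational, Cusp.phi0_mem, ⟨0, Cusp.phi0_zero⟩,
      fun w hw => ?_, fun n γ _ => ⟨fun _ => ?_, fun h => absurd h (lt_irrefl 0)⟩⟩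
    · simpa using Cusp.phi0_winding hw
    · apply not_similar_transfer
      obtain ⟨r₀, hr₀, hr1, C, hC⟩ := Cusp.test0
      refine Cusp.not_similar_of _ _ Cusp.lam hr₀ (c := 1 / 3) (by norm_num)
        (fun r hr v => ?_) hC
      exact Cusp.sumMul_lower Cusp.phi0 γ (Cusp.lam r) (by have := hr.1; positivity)
        (fun t => Cusp.dist_phi0 ⟨hr.1, hr.2.trans_le hr1⟩ t) v
  · refine ⟨Cusp.phi1 ν, Cusp.phi1_rational ν, Cusp.phi1_mem ν, Cusp.phi1_hit hpos,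
      fun w hw => ?_, fun n γ _ => ⟨fun h => absurd h hpos.ne', fun _ τ g hτ hg => ?_⟩⟩
    · exact Cusp.phi1_winding hw
    · exact not_similar_transfer_nu (Cusp.main1 hpos hτ hg γ)

end Pool.Agent.Helper414.CuspStmt
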