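import Pool.Agent.Helper414.CuspDefs

open MeasureTheory Set Metric

open scoped ENNReal InnerProductSpace ComplexConjugate

namespace Pool.Agent.Helper414.Cusp

/-- The function `β² / (1 - 2 β)`. -/
noncomputable def Gf (β : ℂ) : ℂ := β ^ 2 / (1 - 2 * β)

/-- The defining polynomial of the curve. -/
noncomputable def Phi (s : ℂ) : ℝ :=
  3 * Complex.normSq s ^ 2 + 8 * Complex.normSq s * s.re + 6 * Complex.normSq s - 1

/-- The curve. -/
def Gam : Set ℂ := {s | Phi s = 0}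

theorem one_sub_two_mul_ne {β : ℂ} (hβ : ‖β‖ = 1) : 1 - 2 * β ≠ 0 := by
  intro h
  have h1 : (2 : ℂ) * β = 1 := (sub_eq_zero.1 h).symm
  have h2 : ‖(2 : ℂ) * β‖ = 1 := by rw [h1, norm_one]
  rw [norm_mul, hβ, Complex.norm_ofNat] at h2
  norm_num at h2

theorem Phi_Gf {β : ℂ} (hβ : 1 - 2 * β ≠ 0) :
    Phi (Gf β) * Complex.normSq (1 - 2 * β) ^ 2 =
      (Complex.normSq β - 1) * (3 * Complex.normSq β + 1 - 4 * β.re) *
        (Complex.normSq β ^ 2 + 6 * Complex.normSq β + 1 - 4 * β.re * (Complex.normSq β + 1)) := by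
  have hD : Complex.normSq (1 - 2 * β) ≠ 0 := fun h => hβ (Complex.normSq_eq_zero.1 h)
  have e1 : Complex.normSq (Gf β) = Complex.normSq β ^ 2 / Complex.normSq (1 - 2 * β) := by
    unfold Gf
    rw [Complex.normSq_div, map_pow]
  have e2 : 1 + Gf β = (1 - β) ^ 2 / (1 - 2 * β) := by
    unfold Gf
    rw [eq_div_iff hβ, add_mul, div_mul_cancel₀ _ hβ]
    ring
  have e3 : Complex.normSq (1 + Gf β) =
      Complex.normSq (1 - β) ^ 2 / Complex.normSq (1 - 2 * β) := by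
    rw [e2, Complex.normSq_div, map_pow]
  have e4 : ∀ s : ℂ, Phi s = 4 * Complex.normSq s * Complex.normSq (1 + s)
      - (1 - Complex.normSq s) ^ 2 := by
    intro s
    unfold Phi
    simp only [Complex.normSq_apply, Complex.add_re, Complex.add_im, Complex.one_re,
      Complex.one_im]
    ring
  have e5 : Complex.normSq (1 - β) = 1 - 2 * β.re + Complex.normSq β := by
    simp only [Complex.normSq_apply, Complex.sub_re, Complex.sub_im, Complex.one_re,
      Complex.one_im]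
    ring
  have e6 : Complex.normSq (1 - 2 * β) = 1 - 4 * β.re + 4 * Complex.normSq β := by
    simp only [Complex.normSq_apply, Complex.sub_re, Complex.sub_im, Complex.one_re,
      Complex.one_im, Complex.mul_re, Complex.mul_im, Complex.re_ofNat, Complex.im_ofNat]
    ring
  have e7 : Phi (Gf β) * Complex.normSq (1 - 2 * β) ^ 2 =
      4 * Complex.normSq β ^ 2 * Complex.normSq (1 - β) ^ 2
        - (Complex.normSq (1 - 2 * β) - Complex.normSq β ^ 2) ^ 2 := by
    rw [e4, e1, e3]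
    field_simp
  rw [e7, e5, e6]
  ring

theorem Gf_mem {β : ℂ} (hβ : ‖β‖ = 1) : Gf β ∈ Gam := by
  have h1 := one_sub_two_mul_ne hβ
  have h2 := Phi_Gf h1
  have hN : Complex.normSq β = 1 := by
    rw [Complex.normSq_eq_norm_sq, hβ, one_pow]
  have hD : Complex.normSq (1 - 2 * β) ≠ 0 := fun h => h1 (Complex.normSq_eq_zero.1 h)
  rw [hN, sub_self, zero_mul, zero_mul] at h2
  exact (mul_eq_zero.1 h2).resolve_right (pow_ne_zero 2 hD)

theorem normSq_eq_of_mem {s : ℂ} (hs : s ∈ Gam) :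
    (1 - Complex.normSq s) ^ 2 = 4 * Complex.normSq s * Complex.normSq (1 + s) := by
  have h1 : Phi s = 0 := hs
  unfold Phi at h1
  have h2 : Complex.normSq (1 + s) = 1 + 2 * s.re + Complex.normSq s := by
    simp only [Complex.normSq_apply, Complex.add_re, Complex.add_im, Complex.one_re, Complex.one_im]
    ring
  rw [h2]
  linear_combination -h1

theorem exists_of_mem {s : ℂ} (hs : s ∈ Gam) : ∃ β : ℂ, ‖β‖ = 1 ∧ Gf β = s := by
  by_cases hs1 : s = -1
  · refine ⟨1, by simp, ?_⟩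
    rw [hs1]
    unfold Gf
    norm_num
  have hs0 : s ≠ 0 := by
    rintro rfl
    have h1 : Phi 0 = 0 := hs
    unfold Phi at h1
    simp at h1
  have h1s : 1 + s ≠ 0 := by
    intro h
    apply hs1
    linear_combination h
  set t : ℂ := (starRingEnd ℂ) s with ht
  have ht0 : t ≠ 0 := by
    rw [ht]
    exact (map_ne_zero _).mpr hs0
  have hst : s * t = (Complex.normSq s : ℂ) := Complex.mul_conj s
  have h1st : (1 + s) * (1 + t) = (Complex.normSq (1 + s) : ℂ) := by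
    rw [← Complex.mul_conj (1 + s), map_add, map_one]
  have hreal := normSq_eq_of_mem hs
  have hkey : (1 - s * t) ^ 2 = 4 * (s * t) * ((1 + s) * (1 + t)) := by
    rw [hst, h1st]
    exact_mod_cast hreal
  set D : ℂ := 2 * t * (1 + s) with hD
  have hD0 : D ≠ 0 := mul_ne_zero (mul_ne_zero two_ne_zero ht0) h1s
  set β : ℂ := -(1 - s * t) / D with hβ
  have hβD : β * D + (1 - s * t) = 0 := by
    rw [hβ, div_mul_cancel₀ _ hD0]; ring
  have hn0 : Complex.normSq s ≠ 0 := fun h => hs0 (Complex.normSq_eq_zero.mp h)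
  have hn1 : Complex.normSq (1 + s) ≠ 0 := fun h => h1s (Complex.normSq_eq_zero.mp h)
  have hnorm : ‖β‖ = 1 := by
    have e1 : β * D = -(1 - s * t) := by linear_combination hβD
    have e2 : Complex.normSq β * Complex.normSq D = (1 - Complex.normSq s) ^ 2 := by
      rw [← Complex.normSq_mul, e1, Complex.normSq_neg, hst]
      have : (1 : ℂ) - (Complex.normSq s : ℂ) = ((1 - Complex.normSq s : ℝ) : ℂ) := by push_cast; ring
      rw [this, Complex.normSq_ofReal]; ring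
    have e3 : Complex.normSq D = 4 * Complex.normSq s * Complex.normSq (1 + s) := by
      rw [hD, Complex.normSq_mul, Complex.normSq_mul, ht, Complex.normSq_conj]
      have : Complex.normSq 2 = 4 := by
        rw [Complex.normSq_apply]; norm_num
      rw [this]
    rw [hreal, e3] at e2
    have e4 : 4 * Complex.normSq s * Complex.normSq (1 + s) ≠ 0 :=
      mul_ne_zero (mul_ne_zero (by norm_num) hn0) hn1
    have e5 : Complex.normSq β = 1 := by
      have : Complex.normSq β * (4 * Complex.normSq s * Complex.normSq (1 + s)) =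
          1 * (4 * Complex.normSq s * Complex.normSq (1 + s)) := by rw [e2, one_mul]
      exact mul_right_cancel₀ e4 this
    rw [Complex.normSq_eq_norm_sq] at e5
    have e6 : 0 ≤ ‖β‖ := norm_nonneg _
    have : (‖β‖ - 1) * (‖β‖ + 1) = 0 := by linear_combination e5
    rcases mul_eq_zero.mp this with h | h
    · linarith
    · linarith
  refine ⟨β, hnorm, ?_⟩
  unfold Gf
  rw [div_eq_iff (one_sub_two_mul_ne hnorm)]
  have hD2 : D ^ 2 ≠ 0 := pow_ne_zero 2 hD0
  refine mul_left_cancel₀ hD2 ?_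
  linear_combination (β * D - (1 - s * t) + 2 * s * D) * hβD + hkey

theorem unimodular_mul_conj {β : ℂ} (hβ : ‖β‖ = 1) : β * (starRingEnd ℂ) β = 1 := by
  rw [Complex.mul_conj, Complex.normSq_eq_norm_sq, hβ]
  norm_num

theorem eq_one_of_re {β : ℂ} (hβ : ‖β‖ = 1) (h : β.re = 1) : β = 1 := by
  have h1 : β.re ^ 2 + β.im ^ 2 = 1 := by
    have h2 : Complex.normSq β = 1 := by rw [Complex.normSq_eq_norm_sq, hβ]; norm_num
    rw [Complex.normSq_apply] at h2
    linear_combination h2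
  have h3 : β.im ^ 2 = 0 := by
    rw [h] at h1; linear_combination h1
  have h4 : β.im = 0 := pow_eq_zero_iff (two_ne_zero) |>.mp h3
  exact Complex.ext h h4

theorem Gf_inj {β β' : ℂ} (hβ : ‖β‖ = 1) (hβ' : ‖β'‖ = 1) (h : Gf β = Gf β') : β = β' := by
  by_contra hne
  have h1 := one_sub_two_mul_ne hβ
  have h2 := one_sub_two_mul_ne hβ'
  unfold Gf at h
  rw [div_eq_div_iff h1 h2] at h
  have h3 : (β - β') * (β + β' - 2 * β * β') = 0 := by linear_combination h
  have h4 : β + β' - 2 * β * β' = 0 := (mul_eq_zero.mp h3).resolve_left (sub_ne_zero.mpr hne)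
  have u1 := unimodular_mul_conj hβ
  have u2 := unimodular_mul_conj hβ'
  have h5 : (starRingEnd ℂ) β + (starRingEnd ℂ) β' = 2 := by
    set c := (starRingEnd ℂ) β
    set c' := (starRingEnd ℂ) β'
    linear_combination c * c' * h4 - (c' - 2 * β' * c') * u1 - (c - 2) * u2
  have h6 : β.re + β'.re = 2 := by
    have h7 := congrArg Complex.re h5
    simpa using h7
  have h8 : β.re ≤ 1 := by
    have := Complex.re_le_norm β
    rwa [hβ] at this
  have h9 : β'.re ≤ 1 := by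
    have := Complex.re_le_norm β'
    rwa [hβ'] at this
  apply hne
  rw [eq_one_of_re hβ (by linarith), eq_one_of_re hβ' (by linarith)]

theorem simple_Gam : SimpleClosedCurve Gam := by
  refine ⟨fun z : Circle => Gf z, ?_, ?_, ?_⟩
  · unfold Gf
    refine Continuous.div (by fun_prop) (by fun_prop) fun z => ?_
    exact one_sub_two_mul_ne (Circle.norm_coe z)
  · intro z z' h
    exact Circle.ext (Gf_inj (Circle.norm_coe z) (Circle.norm_coe z') h)
  · ext s
    constructor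
    · rintro ⟨z, rfl⟩
      exact Gf_mem (Circle.norm_coe z)
    · intro hs
      obtain ⟨β, h1, h2⟩ := exists_of_mem hs
      exact ⟨⟨β, mem_sphere_zero_iff_norm.2 h1⟩, h2⟩

theorem Phi_nonneg_of_one_le {s : ℂ} (hs : 1 ≤ ‖s‖) : 0 ≤ Phi s := by
  unfold Phi
  rw [Complex.normSq_eq_norm_sq]
  have h1 : -‖s‖ ≤ s.re := (abs_le.1 (Complex.abs_re_le_norm s)).1
  have h2 : 0 ≤ (‖s‖ - 1) ^ 3 * (3 * ‖s‖ + 1) :=
    mul_nonneg (pow_nonneg (sub_nonneg.2 hs) 3) (by positivity)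
  have h3 : ‖s‖ ^ 2 * (-‖s‖) ≤ ‖s‖ ^ 2 * s.re := mul_le_mul_of_nonneg_left h1 (sq_nonneg _)
  generalize ‖s‖ = q at *
  linarith only [h2, h3]

theorem Phi_ray_aux (x t : ℝ) (ht : 1 ≤ t) :
    0 ≤ 3 * x ^ 2 * ((t + 1) * (t ^ 2 + 1)) + 8 * x * (t ^ 2 + t + 1) + 6 * (t + 1) := by
  have ha : 0 < 3 * ((t + 1) * (t ^ 2 + 1)) := by positivity
  have h1 : 4 * (3 * ((t + 1) * (t ^ 2 + 1))) *
      (3 * x ^ 2 * ((t + 1) * (t ^ 2 + 1)) + 8 * x * (t ^ 2 + t + 1) + 6 * (t + 1)) =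
      (2 * (3 * ((t + 1) * (t ^ 2 + 1))) * x + 8 * (t ^ 2 + t + 1)) ^ 2 +
        8 * (t - 1) ^ 2 * (t ^ 2 + 4 * t + 1) := by ring
  have h2 : 0 ≤ 8 * (t - 1) ^ 2 * (t ^ 2 + 4 * t + 1) := by positivity
  have h3 : 0 ≤ 4 * (3 * ((t + 1) * (t ^ 2 + 1))) *
      (3 * x ^ 2 * ((t + 1) * (t ^ 2 + 1)) + 8 * x * (t ^ 2 + t + 1) + 6 * (t + 1)) := by
    rw [h1]
    exact add_nonneg (sq_nonneg _) h2
  exact nonneg_of_mul_nonneg_right h3 (by positivity)

theorem Phi_ray {s : ℂ} (hs : 0 < Phi s) {t : ℝ} (ht : 1 ≤ t) : 0 < Phi ((t : ℂ) * s) := by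
  refine hs.trans_le ?_
  unfold Phi
  have e1 : Complex.normSq ((t : ℂ) * s) = t ^ 2 * Complex.normSq s := by
    rw [map_mul, Complex.normSq_ofReal]; ring
  have e2 : ((t : ℂ) * s).re = t * s.re := by simp
  have e3 : s.re ^ 2 ≤ Complex.normSq s := by
    rw [Complex.normSq_apply]
    linarith only [mul_self_nonneg s.im]
  have e4 : 0 ≤ Complex.normSq s := Complex.normSq_nonneg s
  rw [e1, e2]
  generalize Complex.normSq s = n at *
  generalize s.re = x at *
  have h1 := Phi_ray_aux x t ht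
  have h2 : 3 * x ^ 2 * ((t + 1) * (t ^ 2 + 1)) ≤ 3 * n * ((t + 1) * (t ^ 2 + 1)) :=
    mul_le_mul_of_nonneg_right (mul_le_mul_of_nonneg_left e3 (by norm_num)) (by positivity)
  have h3 : 0 ≤ 3 * n * ((t + 1) * (t ^ 2 + 1)) + 8 * x * (t ^ 2 + t + 1) + 6 * (t + 1) := by
    linarith only [h1, h2]
  have h4 : 0 ≤ n * (t - 1) *
      (3 * n * ((t + 1) * (t ^ 2 + 1)) + 8 * x * (t ^ 2 + t + 1) + 6 * (t + 1)) :=
    mul_nonneg (mul_nonneg e4 (sub_nonneg.2 ht)) h3
  linarith only [h4]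

theorem interior_Gam_cont : Continuous Phi := by
  unfold Phi
  have h1 : Continuous fun s : ℂ => Complex.normSq s := Complex.continuous_normSq
  have h2 : Continuous fun s : ℂ => s.re := Complex.continuous_re
  exact ((((continuous_const.mul (h1.pow 2)).add ((continuous_const.mul h1).mul h2)).add
    (continuous_const.mul h1)).sub continuous_const)

theorem interior_Gam : interiorDomain Gam = {s | Phi s < 0} := by
  ext w
  constructor
  · rintro ⟨hw, hb⟩
    have hw' : Phi w ≠ 0 := hw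
    show Phi w < 0
    by_contra hneg
    have hpos : 0 < Phi w := lt_of_le_of_ne (not_lt.1 hneg) hw'.symm
    have hw0 : w ≠ 0 := by
      rintro rfl
      simp [Phi] at hpos
      linarith
    have hnw : 0 < ‖w‖ := norm_pos_iff.2 hw0
    let R : Set ℂ := (fun t : ℝ => (t : ℂ) * w) '' Ici 1
    have hRc : IsPreconnected R :=
      isPreconnected_Ici.image _ (by fun_prop)
    have hRw : w ∈ R := ⟨1, mem_Ici.2 le_rfl, by simp⟩
    have hRs : R ⊆ Gamᶜ := by
      rintro z ⟨t, ht, rfl⟩ hz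
      have h1 := Phi_ray hpos (mem_Ici.1 ht)
      have h2 : Phi ((t : ℂ) * w) = 0 := hz
      rw [h2] at h1
      exact lt_irrefl _ h1
    have hRC := hRc.subset_connectedComponentIn hRw hRs
    have hRb := hb.subset hRC
    obtain ⟨M, hM⟩ := hRb.exists_norm_le
    have h1 : (((max 1 ((M + 1) / ‖w‖) : ℝ) : ℂ) * w) ∈ R :=
      ⟨max 1 ((M + 1) / ‖w‖), mem_Ici.2 (le_max_left _ _), rfl⟩
    have h2 := hM _ h1
    rw [norm_mul, Complex.norm_real, Real.norm_eq_abs, abs_of_pos (lt_of_lt_of_le one_pos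
      (le_max_left _ _))] at h2
    have h3 : (M + 1) / ‖w‖ * ‖w‖ ≤ max 1 ((M + 1) / ‖w‖) * ‖w‖ :=
      mul_le_mul_of_nonneg_right (le_max_right _ _) hnw.le
    rw [div_mul_cancel₀ _ hnw.ne'] at h3
    linarith
  · intro hw
    have hw : Phi w < 0 := hw
    have hwG : w ∉ Gam := fun h => by
      have h' : Phi w = 0 := h
      linarith
    refine ⟨hwG, ?_⟩
    have hwc : w ∈ Gamᶜ := hwG
    have hC : IsPreconnected (connectedComponentIn Gamᶜ w) := isPreconnected_connectedComponentIn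
    have hmem : w ∈ connectedComponentIn Gamᶜ w := mem_connectedComponentIn hwc
    have hsub : connectedComponentIn Gamᶜ w ⊆ Gamᶜ := connectedComponentIn_subset _ _
    refine (isBounded_closedBall (x := (0:ℂ)) (r := 1)).subset ?_
    intro z hz
    rw [mem_closedBall_zero_iff]
    by_contra hz1
    have hz2 : 0 ≤ Phi z := Phi_nonneg_of_one_le (not_le.1 hz1).le
    have him : (0:ℝ) ∈ Phi '' (connectedComponentIn Gamᶜ w) :=
      hC.intermediate_value hmem hz interior_Gam_cont.continuousOn ⟨hw.le, hz2⟩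
    obtain ⟨y, hy, hy0⟩ := him
    exact hsub hy hy0

theorem zeroAngle_Gam_Phi (s : ℂ) : Phi s = (s.re + 1) ^ 3 * (3 * (s.re + 1) - 4) +
    (4 - 4 * (s.re + 1) + 6 * (s.re + 1) ^ 2) * s.im ^ 2 + 3 * s.im ^ 4 := by
  unfold Phi
  rw [Complex.normSq_apply]
  ring

theorem zeroAngle_Gam_real {x y r ε : ℝ} (hε : 0 < ε) (hr0 : 0 ≤ r) (hr : r < 1 / 2)
    (hr2 : r < (ε / 3) ^ 2) (hx : |x| ≤ r) (hrxy : r ≤ |x| + |y|)
    (hP : x ^ 3 * (3 * x - 4) + (4 - 4 * x + 6 * x ^ 2) * y ^ 2 + 3 * y ^ 4 ≤ 0) :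
    |x - r| + |y| ≤ ε * r := by
  have hx' := abs_le.1 hx
  have h1 : 2 * y ^ 2 ≤ x ^ 3 * (4 - 3 * x) := by
    have e1 : 0 ≤ (6 * x ^ 2 - 4 * x + 2) * y ^ 2 := by
      have : 0 ≤ 6 * x ^ 2 - 4 * x + 2 := by nlinarith [sq_nonneg (3 * x - 1)]
      positivity
    have e2 : 0 ≤ 3 * y ^ 4 := by positivity
    nlinarith
  have h2 : 0 < 4 - 3 * x := by linarith
  have h3 : 0 ≤ x := by
    by_contra hneg
    push Not at hneg
    have e1 : x ^ 3 < 0 := by
      have : 0 < x ^ 2 := by nlinarith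
      have e : x ^ 3 = x * x ^ 2 := by ring
      rw [e]
      exact mul_neg_of_neg_of_pos hneg this
    have e2 : x ^ 3 * (4 - 3 * x) < 0 := mul_neg_of_neg_of_pos e1 h2
    nlinarith [sq_nonneg y]
  have h4 : y ^ 2 ≤ 2 * x ^ 3 := by
    have e1 : 0 ≤ x ^ 3 * (3 * x) := by positivity
    nlinarith
  rw [abs_of_nonneg h3] at hx hrxy
  have h5 : |x - r| ≤ |y| := by
    rw [abs_sub_comm, abs_of_nonneg (by linarith)]
    linarith
  have h6 : 2 * |y| ≤ ε * r := by
    apply abs_le_of_sq_le_sq' _ (by positivity) |>.2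
    have e1 : (2 * |y|) ^ 2 = 4 * y ^ 2 := by rw [mul_pow, sq_abs]; norm_num
    have e2 : x ^ 3 ≤ r ^ 3 := pow_le_pow_left₀ h3 hx 3
    have e3 : 8 * r ≤ ε ^ 2 := by nlinarith
    have e4 : 8 * r * r ^ 2 ≤ ε ^ 2 * r ^ 2 := mul_le_mul_of_nonneg_right e3 (sq_nonneg r)
    rw [e1]
    nlinarith
  linarith

theorem zeroAngle_Gam : ZeroInnerAngle Gam (-1) := by
  refine ⟨?_, ?_, 1, norm_one, ?_⟩
  · show Phi (-1) = 0
    rw [zeroAngle_Gam_Phi]
    norm_num
  · rw [interior_Gam, Metric.mem_closure_iff]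
    intro ε hε
    set x : ℝ := min (1 / 2) (ε / 2) with hx
    have hx0 : 0 < x := by rw [hx]; positivity
    have hx1 : x ≤ 1 / 2 := min_le_left _ _
    have hx2 : x ≤ ε / 2 := min_le_right _ _
    refine ⟨((-1 + x : ℝ) : ℂ), ?_, ?_⟩
    · show Phi ((-1 + x : ℝ) : ℂ) < 0
      rw [zeroAngle_Gam_Phi, Complex.ofReal_re, Complex.ofReal_im]
      have e : (-1 + x + 1) ^ 3 * (3 * (-1 + x + 1) - 4) +
        (4 - 4 * (-1 + x + 1) + 6 * (-1 + x + 1) ^ 2) * (0 : ℝ) ^ 2 + 3 * (0 : ℝ) ^ 4 =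
          x ^ 3 * (3 * x - 4) := by ring
      rw [e]
      exact mul_neg_of_pos_of_neg (by positivity) (by linarith)
    · rw [dist_eq_norm]
      have e : (-1 : ℂ) - ((-1 + x : ℝ) : ℂ) = ((-x : ℝ) : ℂ) := by push_cast; ring
      rw [e, Complex.norm_real, Real.norm_eq_abs, abs_neg, abs_of_pos hx0]
      linarith
  · intro ε hε
    refine ⟨min (1 / 2) ((ε / 3) ^ 2), by positivity, ?_⟩
    intro w hw hd
    have hP : Phi w ≤ 0 := by
      rcases hw with hw | hw
      · exact le_of_eq hw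
      · rw [interior_Gam] at hw
        exact le_of_lt hw
    rw [zeroAngle_Gam_Phi] at hP
    have e1 : w - -1 = ((w.re + 1 : ℝ) : ℂ) + ((w.im : ℝ) : ℂ) * Complex.I := by
      apply Complex.ext <;> simp
    have hre : (w - -1).re = w.re + 1 := by simp
    have him : (w - -1).im = w.im := by simp
    set r : ℝ := ‖w - -1‖ with hr
    have h1 : |w.re + 1| ≤ r := by
      rw [← hre]; exact Complex.abs_re_le_norm _
    have h2 : r ≤ |w.re + 1| + |w.im| := by
      rw [hr, ← hre, ← him]; exact Complex.norm_le_abs_re_add_abs_im _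
    have h3 : ‖w - -1 - (r : ℂ) * 1‖ ≤ |w.re + 1 - r| + |w.im| := by
      have e2 := Complex.norm_le_abs_re_add_abs_im (w - -1 - (r : ℂ) * 1)
      have e3 : (w - -1 - (r : ℂ) * 1).re = w.re + 1 - r := by simp
      have e4 : (w - -1 - (r : ℂ) * 1).im = w.im := by simp
      rwa [e3, e4] at e2
    exact le_trans h3 (zeroAngle_Gam_real hε (norm_nonneg _) (lt_of_lt_of_le hd (min_le_left _ _))
      (lt_of_lt_of_le hd (min_le_right _ _)) h1 h2 hP)

/-- The points `lam r` approaching the cusp. -/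
noncomputable def lam (r : ℝ) : ℂ := ((r ^ 2 - 1) / (1 + 3 * r ^ 2) : ℝ)

theorem dist_lower {r : ℝ} (hr : r ∈ Ioo (0 : ℝ) 1) {β : ℂ} (hβ : ‖β‖ = 1) :
    1 / 3 * r ^ 3 ≤ ‖Gf β - lam r‖ := by
  obtain ⟨hr0, hr1⟩ := hr
  set L : ℝ := (r ^ 2 - 1) / (1 + 3 * r ^ 2) with hL
  have hlam : lam r = (L : ℂ) := rfl
  have hden : 0 < 1 + 3 * r ^ 2 := by positivity
  have hr2 : r ^ 2 < 1 := by nlinarith
  have hL1 : 1 + L = 4 * r ^ 2 / (1 + 3 * r ^ 2) := by
    rw [hL]; field_simp; ring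
  have hL0 : L ≤ 0 := by
    rw [hL]
    exact div_nonpos_of_nonpos_of_nonneg (by linarith) hden.le
  have hL2 : r ^ 2 ≤ 1 + L := by
    rw [hL1, le_div_iff₀ hden]
    have h0 : 0 ≤ r ^ 2 := by positivity
    nlinarith [mul_nonneg h0 (sub_nonneg.2 hr2.le)]
  have hne : 1 - 2 * β ≠ 0 := one_sub_two_mul_ne hβ
  have hxy : β.re ^ 2 + β.im ^ 2 = 1 := by
    have h := Complex.sq_norm β
    rw [hβ, Complex.normSq_apply] at h
    nlinarith
  have hform : Gf β - lam r = (β ^ 2 + 2 * L * β - L) / (1 - 2 * β) := by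
    rw [hlam]
    unfold Gf
    rw [eq_div_iff hne, sub_mul, div_mul_cancel₀ _ hne]
    ring
  have hN1 : Complex.normSq (β ^ 2 + 2 * L * β - L) =
      (1 + L) ^ 3 - L * (2 * β.re - (1 - L)) ^ 2 := by
    rw [Complex.normSq_apply]
    simp only [sq, Complex.sub_re, Complex.add_re, Complex.mul_re, Complex.mul_im, Complex.ofReal_re,
      Complex.ofReal_im, Complex.sub_im, Complex.add_im, Complex.re_ofNat, Complex.im_ofNat]
    have hy : β.im ^ 2 = 1 - β.re ^ 2 := by linarith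
    have hy4 : β.im ^ 4 = (1 - β.re ^ 2) ^ 2 := by
      rw [← hy]; ring
    ring_nf
    rw [hy4, hy]
    ring
  have hN2 : Complex.normSq (1 - 2 * β) ≤ 9 := by
    rw [Complex.normSq_apply]
    simp only [Complex.sub_re, Complex.mul_re, Complex.mul_im, Complex.sub_im, Complex.re_ofNat,
      Complex.im_ofNat, Complex.one_re, Complex.one_im]
    nlinarith [sq_nonneg (β.re + 1)]
  have hN3 : 0 < Complex.normSq (1 - 2 * β) := Complex.normSq_pos.2 hne
  have hsq : (1 / 3 * r ^ 3) ^ 2 ≤ ‖Gf β - lam r‖ ^ 2 := by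
    rw [Complex.sq_norm, hform, Complex.normSq_div, le_div_iff₀ hN3, hN1]
    have h1 : (r ^ 2) ^ 3 ≤ (1 + L) ^ 3 := pow_le_pow_left₀ (by positivity) hL2 3
    have h2 : 0 ≤ -L * (2 * β.re - (1 - L)) ^ 2 := mul_nonneg (by linarith) (sq_nonneg _)
    calc (1 / 3 * r ^ 3) ^ 2 * Complex.normSq (1 - 2 * β) ≤ (1 / 3 * r ^ 3) ^ 2 * 9 :=
          mul_le_mul_of_nonneg_left hN2 (by positivity)
      _ = (r ^ 2) ^ 3 := by ring
      _ ≤ (1 + L) ^ 3 := h1
      _ ≤ _ := by linarith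
  exact (pow_le_pow_iff_left₀ (by positivity) (norm_nonneg _) two_ne_zero).1 hsq

theorem roots_in_disc_aux {w : ℂ} (hw : Phi w < 0) {β : ℂ} (h : β ^ 2 = w * (1 - 2 * β)) :
    ‖β‖ < 1 := by
  by_contra hcon
  push Not at hcon
  have hne : 1 - 2 * β ≠ 0 := by
    intro h0
    rw [h0, mul_zero] at h
    have hβ0 : β = 0 := by simpa using h
    rw [hβ0] at h0
    norm_num at h0
  have hG : Gf β = w := by
    unfold Gf
    rw [h, mul_div_assoc, div_self hne, mul_one]
  have hP := Phi_Gf hne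
  rw [hG] at hP
  set q : ℝ := ‖β‖ with hq
  have hN : Complex.normSq β = q ^ 2 := Complex.normSq_eq_norm_sq β
  have hx : β.re ≤ q := Complex.re_le_norm β
  rw [hN] at hP
  have hD : 0 < Complex.normSq (1 - 2 * β) ^ 2 := by
    have := Complex.normSq_pos.2 hne
    positivity
  have hq1 : 0 ≤ q - 1 := by linarith
  have h1 : 0 ≤ q ^ 2 - 1 := by nlinarith
  have h2 : 0 ≤ 3 * q ^ 2 + 1 - 4 * β.re := by
    have : 0 ≤ (q - 1) * (3 * q - 1) := mul_nonneg hq1 (by linarith)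
    nlinarith
  have h3 : 0 ≤ (q ^ 2) ^ 2 + 6 * q ^ 2 + 1 - 4 * β.re * (q ^ 2 + 1) := by
    have h4 : 0 ≤ (q - β.re) * (q ^ 2 + 1) := mul_nonneg (by linarith) (by positivity)
    have h5 : 0 ≤ (q - 1) ^ 4 := by positivity
    have h6 : (q ^ 2) ^ 2 + 6 * q ^ 2 + 1 - 4 * β.re * (q ^ 2 + 1) =
        (q - 1) ^ 4 + 4 * ((q - β.re) * (q ^ 2 + 1)) := by ring
    rw [h6]
    linarith
  have h7 : 0 ≤ Phi w * Complex.normSq (1 - 2 * β) ^ 2 := by
    rw [hP]
    exact mul_nonneg (mul_nonneg h1 h2) h3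
  have h8 : Phi w * Complex.normSq (1 - 2 * β) ^ 2 < 0 := mul_neg_of_neg_of_pos hw hD
  linarith

theorem roots_in_disc {w : ℂ} (hw : Phi w < 0) : ∃ β₁ β₂ : ℂ, ‖β₁‖ < 1 ∧ ‖β₂‖ < 1 ∧
    ∀ β : ℂ, β ^ 2 + 2 * w * β - w = (β - β₁) * (β - β₂) := by
  obtain ⟨d, hd⟩ := IsAlgClosed.exists_pow_nat_eq (w ^ 2 + w) (n := 2) (by norm_num)
  refine ⟨-w + d, -w - d, ?_, ?_, ?_⟩
  · apply roots_in_disc_aux hw
    linear_combination hd
  · apply roots_in_disc_aux hw
    linear_combination hd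
  · intro β
    linear_combination hd

theorem winding_comp_slit {β ζ : ℂ} (hβ : ‖β‖ < 1) (hζ : ‖ζ‖ = 1) :
    1 + -(β * ζ) ∈ Complex.slitPlane := by
  apply Complex.mem_slitPlane_of_norm_lt_one
  rw [norm_neg, norm_mul, hζ, mul_one]
  exact hβ

theorem winding_comp_alg {b z w β₁ β₂ : ℂ} (hne : 1 - 2 * b ≠ 0) (hne2 : 1 + -(1 / 2 * z) ≠ 0)
    (e3 : b * z = 1) (e2 : b ^ 2 + 2 * w * b - w = (b - β₁) * (b - β₂)) :
    b ^ 2 / (1 - 2 * b) - w = b * (-1 / 2) * (1 + -(β₁ * z)) * (1 + -(β₂ * z)) /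
      (1 + -(1 / 2 * z)) := by
  have e4 : b ^ 2 / (1 - 2 * b) - w = (b ^ 2 + 2 * w * b - w) / (1 - 2 * b) := by
    rw [eq_div_iff hne, sub_mul, div_mul_cancel₀ _ hne]
    ring
  rw [e4, e2, div_eq_div_iff hne hne2]
  have hb0 : b ≠ 0 := left_ne_zero_of_mul_eq_one e3
  have e5 : z = b⁻¹ := eq_inv_of_mul_eq_one_right e3
  rw [e5]
  field_simp
  ring

theorem winding_comp {φ B : C(UnitAddCircle, ℂ)} {n : ℤ} (hB : ∀ t, ‖B t‖ = 1)
    (hφ : ∀ t, φ t = Gf (B t)) (hw : HasWinding B 0 n) {w : ℂ} (h : Phi w < 0) :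
    HasWinding φ w n := by
  obtain ⟨β₁, β₂, h1, h2, hββ⟩ := roots_in_disc h
  obtain ⟨Lam, hLc, hLe, hLp⟩ := hw
  have hBe : ∀ t : ℝ, B (t : UnitAddCircle) = Complex.exp (Lam t) := fun t => by
    rw [← hLe t, sub_zero]
  obtain ⟨ζ, hζd⟩ : ∃ ζ : ℝ → ℂ, ∀ t, ζ t = Complex.exp (-Lam t) := ⟨_, fun _ => rfl⟩
  have hζc : Continuous ζ := by
    have : ζ = fun t => Complex.exp (-Lam t) := funext hζd
    rw [this]
    fun_prop
  have hζB : ∀ t, Complex.exp (Lam t) * ζ t = 1 := fun t => by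
    rw [hζd, ← Complex.exp_add, add_neg_cancel, Complex.exp_zero]
  have hζn : ∀ t, ‖ζ t‖ = 1 := fun t => by
    have e1 := congrArg norm (hζB t)
    rw [norm_mul, ← hBe, hB, one_mul, norm_one] at e1
    exact e1
  have hζp : ∀ t, ζ (t + 1) = ζ t := fun t => by
    rw [hζd, hζd, hLp]
    have e1 : -(Lam t + 2 * Real.pi * Complex.I * n) =
      -Lam t + ((-n : ℤ) : ℂ) * (2 * Real.pi * Complex.I) := by push_cast; ring
    rw [e1, Complex.exp_add, Complex.exp_int_mul_two_pi_mul_I, mul_one]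
  have hs : ∀ β : ℂ, ‖β‖ < 1 → ∀ t, 1 + -(β * ζ t) ∈ Complex.slitPlane := fun β hβ t =>
    winding_comp_slit hβ (hζn t)
  have hc : ∀ β : ℂ, ‖β‖ < 1 → Continuous (fun t => Complex.log (1 + -(β * ζ t))) := fun β hβ =>
    Continuous.clog (by fun_prop) (hs β hβ)
  have hexp : ∀ β : ℂ, ‖β‖ < 1 → ∀ t, Complex.exp (Complex.log (1 + -(β * ζ t))) =
      1 + -(β * ζ t) := fun β hβ t => Complex.exp_log (Complex.slitPlane_ne_zero (hs β hβ t))
  have h3 : ‖(1 / 2 : ℂ)‖ < 1 := by norm_num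
  refine ⟨fun t => Lam t + Complex.log (-1 / 2) + Complex.log (1 + -(β₁ * ζ t)) +
    Complex.log (1 + -(β₂ * ζ t)) - Complex.log (1 + -(1 / 2 * ζ t)), ?_, ?_, ?_⟩
  · exact (((hLc.add continuous_const).add (hc β₁ h1)).add (hc β₂ h2)).sub (hc (1 / 2) h3)
  · intro t
    simp only
    rw [Complex.exp_sub, Complex.exp_add, Complex.exp_add, Complex.exp_add, hexp β₁ h1, hexp β₂ h2,
      hexp (1 / 2) h3, Complex.exp_log (by norm_num), hφ, Gf]
    have hne := one_sub_two_mul_ne (hB t)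
    rw [hBe] at hne ⊢
    have hne2 : 1 + -(1 / 2 * ζ t) ≠ 0 := Complex.slitPlane_ne_zero (hs (1 / 2) h3 t)
    exact winding_comp_alg hne hne2 (hζB t) (hββ (Complex.exp (Lam t)))
  · intro t
    simp only
    rw [hζp, hLp]
    ring

/-- The symbol as a function of an imaginary variable `y`. -/
noncomputable def Fy (y : ℂ) : ℂ := -(1 + y) ^ 2 / ((1 - y) * (1 + 3 * y))

theorem one_sub_ne_of_re {y : ℂ} (hy : y.re = 0) : (1 : ℂ) - y ≠ 0 := by
  intro h
  have h1 := congrArg Complex.re h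
  rw [Complex.sub_re, Complex.one_re, hy, Complex.zero_re] at h1
  norm_num at h1

theorem one_add_three_ne_of_re {y : ℂ} (hy : y.re = 0) : (1 : ℂ) + 3 * y ≠ 0 := by
  intro h
  have h1 := congrArg Complex.re h
  have h3 : ((3 : ℂ) * y).re = 3 * y.re := by
    simp [Complex.mul_re]
  rw [Complex.add_re, Complex.one_re, h3, hy, Complex.zero_re] at h1
  norm_num at h1

theorem Fy_eq {y : ℂ} (hy : y.re = 0) : Fy y = Gf ((1 + y) / (1 - y)) := by
  have h1 := one_sub_ne_of_re hy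
  have h2 := one_add_three_ne_of_re hy
  unfold Fy Gf
  have h3 : (1 : ℂ) - 2 * ((1 + y) / (1 - y)) = -(1 + 3 * y) / (1 - y) := by
    rw [eq_div_iff h1, sub_mul, mul_assoc, div_mul_cancel₀ _ h1]
    ring
  rw [h3, div_pow]
  have h4 : -(1 + 3 * y) ≠ 0 := neg_ne_zero.2 h2
  field_simp

theorem norm_div_eq_one {y : ℂ} (hy : y.re = 0) : ‖(1 + y) / (1 - y)‖ = 1 := by
  have h1 := one_sub_ne_of_re hy
  have h2 : (1 : ℂ) - y = conj (1 + y) := by
    apply Complex.ext
    · simp [hy]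
    · simp
  have h3 : ‖(1 : ℂ) - y‖ = ‖1 + y‖ := by
    rw [h2, Complex.norm_conj]
  rw [norm_div, ← h3]
  exact div_self (norm_ne_zero_iff.2 h1)

theorem Fy_sub {r : ℝ} {y y₁ : ℂ} (hy : y.re = 0) (h1 : y₁.re = - r ^ 2)
    (h2 : Complex.normSq y₁ = r ^ 2) :
    Fy y - lam r = -(4 / (1 + 3 * r ^ 2 : ℂ)) * ((y - y₁) * (y - conj y₁)) /
      ((1 - y) * (1 + 3 * y)) := by
  have e1 := one_sub_ne_of_re hy
  have e2 := one_add_three_ne_of_re hy
  have e3 : (1 + 3 * r ^ 2 : ℂ) ≠ 0 := by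
    have : (1 + 3 * r ^ 2 : ℝ) ≠ 0 := by positivity
    exact_mod_cast this
  have hsum : y₁ + conj y₁ = -2 * (r : ℂ) ^ 2 := by
    rw [Complex.add_conj, h1]
    push_cast
    ring
  have hprod : y₁ * conj y₁ = (r : ℂ) ^ 2 := by
    rw [Complex.mul_conj, h2]
    push_cast
    ring
  have hq : (y - y₁) * (y - conj y₁) = y ^ 2 + 2 * (r : ℂ) ^ 2 * y + (r : ℂ) ^ 2 := by
    linear_combination (-y) * hsum + hprod
  rw [hq]
  unfold Fy lam
  push_cast
  rw [div_sub_div _ _ (mul_ne_zero e1 e2) e3, div_eq_div_iff (mul_ne_zero (mul_ne_zero e1 e2) e3)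
    (mul_ne_zero e1 e2)]
  have e4 : (4 / (1 + 3 * r ^ 2 : ℂ)) * (1 + 3 * r ^ 2 : ℂ) = 4 := div_mul_cancel₀ _ e3
  linear_combination ((y ^ 2 + 2 * (r : ℂ) ^ 2 * y + (r : ℂ) ^ 2) * ((1 - y) * (1 + 3 * y))) * e4

theorem aux_y0 (t : UnitAddCircle) :
    (fourier (-1) t : ℂ) = (fourier 1 t : ℂ)⁻¹ ∧ ‖(fourier 1 t : ℂ)‖ = 1 := by
  have hn : ‖(fourier 1 t : ℂ)‖ = 1 := by
    rw [fourier_apply]
    exact Circle.norm_coe _
  refine ⟨?_, hn⟩
  rw [fourier_neg]
  rw [Complex.inv_def, Complex.normSq_eq_norm_sq, hn]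
  simp

theorem re_y0 (t : UnitAddCircle) : (fourier 1 t - fourier (-1) t : ℂ).re = 0 := by
  rw [fourier_neg, Complex.sub_re, Complex.conj_re, sub_self]

theorem aux_den {y : ℂ} (hy : y.re = 0) : (1 - y) * (1 + 3 * y) ≠ 0 := by
  apply mul_ne_zero
  · intro h
    have := congrArg Complex.re h
    rw [Complex.sub_re, hy] at this
    simp at this
  · intro h
    have := congrArg Complex.re h
    simp [hy] at this

/-- The symbol for winding number zero. -/
noncomputable def phi0 : C(UnitAddCircle, ℂ) where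
  toFun t := Fy (fourier 1 t - fourier (-1) t)
  continuous_toFun := by
    unfold Fy
    have h1 : Continuous fun t : UnitAddCircle => (fourier 1 t - fourier (-1) t : ℂ) :=
      (fourier 1).continuous.sub (fourier (-1)).continuous
    exact Continuous.div (((continuous_const.add h1).pow 2).neg)
      ((continuous_const.sub h1).mul (continuous_const.add (continuous_const.mul h1)))
      (fun t => aux_den (re_y0 t))

theorem phi0_mem (t : UnitAddCircle) : phi0 t ∈ Gam := by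
  show Fy _ ∈ Gam
  rw [Fy_eq (re_y0 t)]
  exact Gf_mem (norm_div_eq_one (re_y0 t))

theorem phi0_zero : phi0 0 = -1 := by
  show Fy (fourier 1 (0 : UnitAddCircle) - fourier (-1) (0 : UnitAddCircle)) = -1
  rw [fourier_eval_zero, fourier_eval_zero, sub_self]
  unfold Fy
  norm_num

theorem phi0_rational : RationalSymbol phi0 := by
  refine ⟨(Polynomial.X ^ 2 + Polynomial.X - 1) ^ 2,
    (Polynomial.X ^ 2 - Polynomial.X - 1) * (3 * Polynomial.X ^ 2 + Polynomial.X - 3), ?_, ?_⟩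
  · intro z hz
    have hz0 : z ≠ 0 := by
      intro h
      rw [h, norm_zero] at hz
      exact zero_ne_one hz
    have hy : (z - z⁻¹).re = 0 := by
      have h1 : z⁻¹ = conj z := by
        rw [Complex.inv_def, Complex.normSq_eq_norm_sq, hz]
        simp
      rw [h1, Complex.sub_re, Complex.conj_re, sub_self]
    have h2 := aux_den hy
    intro h3
    apply h2
    have h4 : Polynomial.eval z ((Polynomial.X ^ 2 - Polynomial.X - 1) *
        (3 * Polynomial.X ^ 2 + Polynomial.X - 3)) = (z ^ 2 - z - 1) * (3 * z ^ 2 + z - 3) := by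
      simp
    rw [h4] at h3
    have h5 : (1 - (z - z⁻¹)) * (1 + 3 * (z - z⁻¹)) = -((z ^ 2 - z - 1) * (3 * z ^ 2 + z - 3)) / z ^ 2 := by
      field_simp
      ring
    rw [h5, h3]
    simp
  · intro t
    obtain ⟨h1, hz⟩ := aux_y0 t
    show Fy (fourier 1 t - fourier (-1) t) = _
    have h2 := aux_den (re_y0 t)
    rw [h1] at h2 ⊢
    set z : ℂ := fourier 1 t with hzdef
    have hz0 : z ≠ 0 := by
      intro h
      rw [h, norm_zero] at hz
      exact zero_ne_one hz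
    have h4 : Polynomial.eval z ((Polynomial.X ^ 2 - Polynomial.X - 1) *
        (3 * Polynomial.X ^ 2 + Polynomial.X - 3)) = (z ^ 2 - z - 1) * (3 * z ^ 2 + z - 3) := by
      simp
    have h4' : Polynomial.eval z ((Polynomial.X ^ 2 + Polynomial.X - 1) ^ 2) =
        (z ^ 2 + z - 1) ^ 2 := by
      simp
    have h5 : (1 - (z - z⁻¹)) * (1 + 3 * (z - z⁻¹)) = -((z ^ 2 - z - 1) * (3 * z ^ 2 + z - 3)) / z ^ 2 := by
      field_simp
      ring
    have h6 : (z ^ 2 - z - 1) * (3 * z ^ 2 + z - 3) ≠ 0 := by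
      intro h
      apply h2
      rw [h5, h]
      simp
    have h7 : (1 + (z - z⁻¹)) ^ 2 = (z ^ 2 + z - 1) ^ 2 / z ^ 2 := by
      field_simp
      ring
    rw [h4, h4']
    unfold Fy
    rw [h5, h7]
    have hz2 : z ^ 2 ≠ 0 := pow_ne_zero 2 hz0
    rw [neg_div, neg_div, div_neg, neg_neg, div_div_div_cancel_right₀ hz2]

theorem phi0_winding_slit {y : ℂ} (hy : y.re = 0) :
    1 + y ∈ Complex.slitPlane ∧ 1 - y ∈ Complex.slitPlane := by
  constructor
  · left
    rw [Complex.add_re, hy, Complex.one_re]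
    norm_num
  · left
    rw [Complex.sub_re, hy, Complex.one_re]
    norm_num

theorem phi0_winding {w : ℂ} (hw : w ∈ interiorDomain Gam) : HasWinding phi0 w 0 := by
  have hw' : Phi w < 0 := by
    rw [interior_Gam] at hw
    exact hw
  obtain ⟨Y, hY⟩ : ∃ Y : UnitAddCircle → ℂ, Y = fun t => (fourier 1 t - fourier (-1) t : ℂ) :=
    ⟨_, rfl⟩
  have hYc : Continuous Y := by
    rw [hY]
    exact (fourier 1).continuous.sub (fourier (-1)).continuous
  have hYr : ∀ t, (Y t).re = 0 := by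
    intro t
    rw [hY]
    exact re_y0 t
  have hsl := fun t => phi0_winding_slit (hYr t)
  have hBc : Continuous (fun t => (1 + Y t) / (1 - Y t)) :=
    (continuous_const.add hYc).div (continuous_const.sub hYc)
      (fun t => Complex.slitPlane_ne_zero (hsl t).2)
  obtain ⟨B, hB⟩ : ∃ B : C(UnitAddCircle, ℂ), ∀ t, B t = (1 + Y t) / (1 - Y t) :=
    ⟨⟨_, hBc⟩, fun t => rfl⟩
  apply winding_comp (B := B) _ _ _ hw'
  · intro t
    rw [hB]
    exact norm_div_eq_one (hYr t)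
  · intro t
    rw [hB, ← Fy_eq (hYr t), hY]
    rfl
  · refine ⟨fun t => Complex.log (1 + Y t) - Complex.log (1 - Y t), ?_, ?_, ?_⟩
    · have hYc' : Continuous (fun t : ℝ => Y (t : UnitAddCircle)) :=
        hYc.comp (AddCircle.continuous_mk' 1)
      exact ((continuous_const.add hYc').clog (fun t => (hsl _).1)).sub
        ((continuous_const.sub hYc').clog (fun t => (hsl _).2))
    · intro t
      rw [hB, sub_zero, Complex.exp_sub, Complex.exp_log (Complex.slitPlane_ne_zero (hsl _).1),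
        Complex.exp_log (Complex.slitPlane_ne_zero (hsl _).2)]
    · intro t
      have e : ((t + 1 : ℝ) : UnitAddCircle) = (t : UnitAddCircle) :=
        AddCircle.coe_add_period 1 t
      show Complex.log (1 + Y ((t + 1 : ℝ) : UnitAddCircle)) -
        Complex.log (1 - Y ((t + 1 : ℝ) : UnitAddCircle)) = _
      rw [e]
      simp

end Pool.Agent.Helper414.Cusp
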