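import Pool.Agent.Helper414.CuspBasic

import Pool.Agent.Helper414.CuspGeom

open MeasureTheory Set Metric

open scoped ENNReal InnerProductSpace ComplexConjugate

namespace Pool.Agent.Helper414.Cusp

theorem r2_norm_fourier (n : ℤ) (t : UnitAddCircle) : ‖(fourier n t : ℂ)‖ = 1 := by
  rw [fourier_apply]
  exact Circle.norm_coe _

theorem r2_fourier_mem (n : ℤ) (t : UnitAddCircle) : (fourier n t : ℂ) ∈ closedBall (0 : ℂ) 1 := by
  rw [mem_closedBall_zero_iff, r2_norm_fourier]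

theorem r2_fj {N : ℕ} {ψ : ℂ → ℂ} (hψ : DifferentiableOn ℂ ψ (closedBall 0 1)) {p : ℂ}
    (hp : ‖p‖ < 1) : ∃ f : C(UnitAddCircle, ℂ),
      ∀ t, f t = ψ (fourier (-(N : ℤ)) t) / (1 - conj p * fourier (N : ℤ) t) := by
  have hne : ∀ t : UnitAddCircle, (1 - conj p * fourier (N : ℤ) t : ℂ) ≠ 0 := by
    intro t h0
    have h1 : (1 : ℂ) = conj p * fourier (N : ℤ) t := sub_eq_zero.1 h0
    have h2 : ‖(1 : ℂ)‖ = ‖conj p * fourier (N : ℤ) t‖ := by rw [← h1]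
    rw [norm_one, norm_mul, r2_norm_fourier, mul_one, RCLike.norm_conj] at h2
    linarith
  refine ⟨⟨fun t => ψ (fourier (-(N : ℤ)) t) / (1 - conj p * fourier (N : ℤ) t), ?_⟩,
    fun t => rfl⟩
  refine Continuous.div ?_ ?_ hne
  · exact hψ.continuousOn.comp_continuous (fourier (-(N : ℤ))).continuous
      (fun t => r2_fourier_mem _ t)
  · exact continuous_const.sub (continuous_const.mul (fourier (N : ℤ)).continuous)

theorem r2_fourier_pow (N : ℕ) (t : UnitAddCircle) :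
    (fourier (N : ℤ) t : ℂ) = (fourier 1 t : ℂ) ^ N := by
  induction N with
  | zero => simp
  | succ N ih =>
    rw [pow_succ, ← ih, ← fourier_add]
    push_cast
    rfl

theorem r2_mem {h : C(UnitAddCircle, ℂ)} {N : ℕ} (hN : 1 ≤ N) {q : ℂ → ℂ}
    (hq : DiffContOnCl ℂ q (ball 0 1)) (hh : ∀ t, h t = q (fourier (N : ℤ) t)) :
    vec h ∈ hardy := by
  have hpow : DiffContOnCl ℂ (fun z : ℂ => z ^ N) (ball 0 1) :=
    (differentiable_id.pow N).diffContOnCl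
  have hmaps : MapsTo (fun z : ℂ => z ^ N) (ball 0 1) (ball 0 1) := by
    intro z hz
    rw [mem_ball_zero_iff] at hz ⊢
    rw [norm_pow]
    exact pow_lt_one₀ (norm_nonneg z) hz (by omega)
  have hQ : DiffContOnCl ℂ (q ∘ fun z : ℂ => z ^ N) (ball 0 1) := hq.comp hpow hmaps
  refine vec_mem_hardy fun n hn => coeff_ana hQ (fun t => ?_) hn
  rw [hh, r2_fourier_pow]
  rfl

theorem r2_norm {h : C(UnitAddCircle, ℂ)} {N : ℕ} (hN : 1 ≤ N) {q : ℂ → ℂ} {w : ℂ}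
    (hw : ‖w‖ < 1)
    (hq : DiffContOnCl ℂ q (ball 0 1)) (hh : ∀ t, h t = q (fourier (N : ℤ) t)) :
    ‖q w‖ ^ 2 * (1 - ‖w‖ ^ 2) ≤ ‖vec h‖ ^ 2 := by
  have hc : Continuous (fun t : UnitAddCircle => q (fourier 1 t)) := by
    refine hq.continuousOn.comp_continuous (fourier 1).continuous fun t => ?_
    rw [closure_ball (0 : ℂ) one_ne_zero]
    exact r2_fourier_mem 1 t
  have h1 : ‖vec h‖ = ‖vec (⟨fun t => q (fourier 1 t), hc⟩ : C(UnitAddCircle, ℂ))‖ := by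
    refine norm_vec_comp hN fun t => ?_
    rw [hh]
    change q (fourier (N : ℤ) t) = q (fourier 1 (N • t))
    rw [fourier_apply, fourier_apply, one_zsmul, natCast_zsmul]
  rw [h1]
  exact eval_bound_one hq (fun t => rfl) hw

theorem r2_proj {N : ℕ} (hN : 1 ≤ N) {ψ : ℂ → ℂ}
    (hψ : DifferentiableOn ℂ ψ (closedBall 0 1)) {p : ℂ} (hp : ‖p‖ < 1)
    {f : C(UnitAddCircle, ℂ)}
    (hf : ∀ t, f t = ψ (fourier (-(N : ℤ)) t) / (1 - conj p * fourier (N : ℤ) t))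
    {M A V : ℝ} (hM : 0 ≤ M) (hV : 0 ≤ V) (hAV : A ≤ V ^ 2)
    (h1 : ‖ψ (conj p)‖ ^ 2 ≤ M ^ 2 * A * (1 - ‖p‖ ^ 2)) :
    ‖hardy.orthogonalProjectionOnto (vec f)‖ ≤ M * V := by
  have h2 := proj_kernel hN hψ hp hf
  have hp2 : 0 < 1 - ‖p‖ ^ 2 := by
    have := pow_lt_one₀ (norm_nonneg p) hp two_ne_zero
    linarith
  have h3 : ‖hardy.orthogonalProjectionOnto (vec f)‖ ^ 2 ≤ M ^ 2 * A := by
    refine le_of_mul_le_mul_right ?_ hp2
    rw [h2]; exact h1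
  have h4 : ‖hardy.orthogonalProjectionOnto (vec f)‖ ^ 2 ≤ (M * V) ^ 2 := by
    refine h3.trans ?_
    rw [mul_pow]
    exact mul_le_mul_of_nonneg_left hAV (sq_nonneg M)
  exact le_of_sq_le_sq h4 (mul_nonneg hM hV)

/-- The master estimate: a test vector with two kernels. -/
theorem ratio_two {φ h : C(UnitAddCircle, ℂ)} {N : ℕ} (hN : 1 ≤ N) {q ψ₁ ψ₂ : ℂ → ℂ}
    {p₁ p₂ w l : ℂ} {M₁ M₂ : ℝ} (hM₁ : 0 ≤ M₁) (hM₂ : 0 ≤ M₂)
    (hq : DiffContOnCl ℂ q (ball 0 1)) (hh : ∀ t, h t = q (fourier (N : ℤ) t))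
    (hψ₁ : DifferentiableOn ℂ ψ₁ (closedBall 0 1)) (hψ₂ : DifferentiableOn ℂ ψ₂ (closedBall 0 1))
    (hp₁ : ‖p₁‖ < 1) (hp₂ : ‖p₂‖ < 1) (hw : ‖w‖ < 1) (hqw : q w ≠ 0)
    (e : ∀ t, (φ t - l) * h t =
      ψ₁ (fourier (-(N : ℤ)) t) / (1 - conj p₁ * fourier (N : ℤ) t) +
      ψ₂ (fourier (-(N : ℤ)) t) / (1 - conj p₂ * fourier (N : ℤ) t))
    (h1 : ‖ψ₁ (conj p₁)‖ ^ 2 ≤ M₁ ^ 2 * (‖q w‖ ^ 2 * (1 - ‖w‖ ^ 2)) * (1 - ‖p₁‖ ^ 2))
    (h2 : ‖ψ₂ (conj p₂)‖ ^ 2 ≤ M₂ ^ 2 * (‖q w‖ ^ 2 * (1 - ‖w‖ ^ 2)) * (1 - ‖p₂‖ ^ 2)) :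
    ∃ v : hardy, v ≠ 0 ∧ ‖toeplitz φ v - l • v‖ ≤ (M₁ + M₂) * ‖v‖ := by
  have hmem := r2_mem hN hq hh
  have hA := r2_norm hN hw hq hh
  obtain ⟨f₁, hf₁⟩ := r2_fj (N := N) hψ₁ hp₁
  obtain ⟨f₂, hf₂⟩ := r2_fj (N := N) hψ₂ hp₂
  have hq0 : 0 < ‖q w‖ := norm_pos_iff.2 hqw
  have hw2 : 0 < 1 - ‖w‖ ^ 2 := by
    have := pow_lt_one₀ (norm_nonneg w) hw two_ne_zero
    linarith
  have hApos : 0 < ‖q w‖ ^ 2 * (1 - ‖w‖ ^ 2) := by positivity
  have hnv : ‖(⟨vec h, hmem⟩ : hardy)‖ = ‖vec h‖ := rfl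
  refine ⟨⟨vec h, hmem⟩, ?_, ?_⟩
  · intro h0
    have h3 : ‖(⟨vec h, hmem⟩ : hardy)‖ = 0 := by rw [h0, norm_zero]
    rw [hnv] at h3
    rw [h3] at hA
    norm_num at hA
    linarith
  · rw [toeplitz_sub_vec]
    have hsum : (φ - ContinuousMap.const _ l) * h = f₁ + f₂ := by
      ext t
      change (φ t - l) * h t = f₁ t + f₂ t
      rw [e, hf₁, hf₂]
    rw [hsum, vec_add, map_add, hnv, add_mul]
    refine (norm_add_le _ _).trans (add_le_add ?_ ?_)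
    · exact r2_proj hN hψ₁ hp₁ hf₁ hM₁ (norm_nonneg _) hA h1
    · exact r2_proj hN hψ₂ hp₂ hf₂ hM₂ (norm_nonneg _) hA h2

theorem exists_p_re {r : ℝ} {p y : ℂ} (hy : y.re = - r ^ 2) (hp : p ^ 2 - 1 = y * p) :
    p.re * (1 - Complex.normSq p) = r ^ 2 * Complex.normSq p := by
  have h1 : p * (Complex.normSq p : ℂ) - conj p = y * (Complex.normSq p : ℂ) := by
    rw [Complex.normSq_eq_conj_mul_self]
    linear_combination conj p * hp
  have h2 := congrArg Complex.re h1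
  rw [Complex.sub_re, Complex.re_mul_ofReal, Complex.re_mul_ofReal, Complex.conj_re, hy] at h2
  linarith

theorem exists_p_pos {r : ℝ} (hr : r ∈ Ioo (0 : ℝ) (1 / 2)) {p y : ℂ} (hy : y.re = - r ^ 2)
    (hp : p ^ 2 - 1 = y * p) : 0 < p.re * (1 - Complex.normSq p) := by
  rw [exists_p_re hy hp]
  have h0 : p ≠ 0 := by
    rintro rfl
    norm_num at hp
  have h1 := Complex.normSq_pos.2 h0
  have h2 := hr.1
  positivity

theorem exists_p_main {r : ℝ} (hr : r ∈ Ioo (0 : ℝ) (1 / 2)) {p y : ℂ} (hy : y.re = - r ^ 2)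
    (hy2 : Complex.normSq y = r ^ 2) (hp : p ^ 2 - 1 = y * p) (hp1 : ‖p‖ < 1) :
    1 / 2 ≤ p.re ∧ 1 - ‖p‖ ^ 2 ≤ 2 * r ^ 2 ∧ ‖1 - p ^ 2‖ ≤ r := by
  have h1 := exists_p_re hy hp
  have h2 := exists_p_pos hr hy hp
  have hns : Complex.normSq p = ‖p‖ ^ 2 := Complex.normSq_eq_norm_sq p
  have hns1 : Complex.normSq p < 1 := by
    rw [hns]
    nlinarith [norm_nonneg p]
  have hns0 : 0 ≤ Complex.normSq p := Complex.normSq_nonneg p
  have hre : 0 < p.re := by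
    by_contra h
    push Not at h
    nlinarith
  have hyn : ‖y‖ = r := by
    have h3 : ‖y‖ ^ 2 = r ^ 2 := by rw [← Complex.normSq_eq_norm_sq, hy2]
    exact (pow_left_inj₀ (norm_nonneg _) hr.1.le two_ne_zero).1 h3
  have hn : ‖1 - p ^ 2‖ ≤ r := by
    rw [norm_sub_rev, hp, norm_mul, hyn]
    nlinarith [hr.1]
  have hre2 : 1 / 2 ≤ (p ^ 2).re := by
    have h3 := Complex.abs_re_le_norm (1 - p ^ 2)
    rw [Complex.sub_re, Complex.one_re] at h3
    have h4 := abs_le.1 (h3.trans hn)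
    linarith [hr.2, h4.2]
  have hsq : (p ^ 2).re = p.re ^ 2 - p.im ^ 2 := by
    rw [pow_two, Complex.mul_re]
    ring
  rw [hsq] at hre2
  have hhalf : 1 / 2 ≤ p.re := by
    nlinarith [sq_nonneg p.im]
  refine ⟨hhalf, ?_, hn⟩
  rw [← hns]
  have h5 : r ^ 2 * Complex.normSq p ≤ r ^ 2 := by
    have := mul_le_mul_of_nonneg_left hns1.le (sq_nonneg r)
    linarith
  have h6 := mul_le_mul_of_nonneg_right hhalf (show 0 ≤ 1 - Complex.normSq p by linarith)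
  linarith

theorem exists_p {r : ℝ} (hr : r ∈ Ioo (0 : ℝ) (1 / 2)) : ∃ p y : ℂ, y.re = - r ^ 2 ∧
    Complex.normSq y = r ^ 2 ∧ p ^ 2 - 1 = y * p ∧ ‖p‖ < 1 ∧ 1 / 2 ≤ p.re ∧
    1 - ‖p‖ ^ 2 ≤ 2 * r ^ 2 ∧ ‖1 - p ^ 2‖ ≤ r := by
  obtain ⟨hr0, hr1⟩ := hr
  have hr2 : 0 ≤ 1 - r ^ 2 := by nlinarith
  obtain ⟨y, hyd⟩ : ∃ y : ℂ, y = ⟨-r ^ 2, r * Real.sqrt (1 - r ^ 2)⟩ := ⟨_, rfl⟩
  have hy : y.re = - r ^ 2 := by rw [hyd]
  have hy2 : Complex.normSq y = r ^ 2 := by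
    rw [hyd, Complex.normSq_mk]
    have := Real.mul_self_sqrt hr2
    linear_combination r ^ 2 * this
  obtain ⟨d, hd⟩ := IsAlgClosed.exists_pow_nat_eq ((y / 2) ^ 2 + 1) (show 0 < 2 by norm_num)
  have e1 : (y / 2 + d) ^ 2 - 1 = y * (y / 2 + d) := by linear_combination hd
  have e2 : (y / 2 - d) ^ 2 - 1 = y * (y / 2 - d) := by linear_combination hd
  have e3 : (y / 2 + d) * (y / 2 - d) = -1 := by linear_combination -hd
  have e4 : ‖y / 2 + d‖ * ‖y / 2 - d‖ = 1 := by rw [← norm_mul, e3]; simp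
  have hne : ∀ p : ℂ, p ^ 2 - 1 = y * p → ‖p‖ ≠ 1 := by
    intro p hp h
    have h1 := exists_p_pos ⟨hr0, hr1⟩ hy hp
    rw [Complex.normSq_eq_norm_sq, h] at h1
    norm_num at h1
  rcases lt_or_ge ‖y / 2 + d‖ 1 with h | h
  · exact ⟨y / 2 + d, y, hy, hy2, e1, h, exists_p_main ⟨hr0, hr1⟩ hy hy2 e1 h⟩
  · have h' : ‖y / 2 - d‖ < 1 := by
      have h1 : 1 < ‖y / 2 + d‖ := lt_of_le_of_ne h (hne _ e1).symm
      have h2 : 0 ≤ ‖y / 2 - d‖ := norm_nonneg _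
      by_contra h3
      push Not at h3
      nlinarith
    exact ⟨y / 2 - d, y, hy, hy2, e2, h', exists_p_main ⟨hr0, hr1⟩ hy hy2 e2 h'⟩

/-- The two fixed auxiliary numbers. -/
theorem exists_ab : ∃ a b : ℝ, a ^ 2 - 1 = a ∧ b ^ 2 - 1 = - b / 3 ∧ |a| ≤ 2 / 3 ∧ |b| ≤ 9 / 10 ∧
    a ≠ 0 ∧ b ≠ 0 := by
  have h5 : Real.sqrt 5 ^ 2 = 5 := Real.sq_sqrt (by norm_num)
  have h37 : Real.sqrt 37 ^ 2 = 37 := Real.sq_sqrt (by norm_num)
  have l5 : (2 : ℝ) < Real.sqrt 5 := by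
    rw [Real.lt_sqrt (by norm_num)]; norm_num
  have u5 : Real.sqrt 5 < 7 / 3 := by
    rw [Real.sqrt_lt' (by norm_num)]; norm_num
  have l37 : (6 : ℝ) < Real.sqrt 37 := by
    rw [Real.lt_sqrt (by norm_num)]; norm_num
  have u37 : Real.sqrt 37 < 6.4 := by
    rw [Real.sqrt_lt' (by norm_num)]; norm_num
  refine ⟨(1 - Real.sqrt 5) / 2, (-1 + Real.sqrt 37) / 6, by nlinarith, by nlinarith, ?_, ?_,
    ?_, ?_⟩
  · rw [abs_le]; constructor <;> linarith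
  · rw [abs_le]; constructor <;> linarith
  · intro h; linarith
  · intro h; linarith

theorem fact0 {r : ℝ} {p y z x : ℂ} {a b : ℝ} (h1 : y.re = - r ^ 2)
    (h2 : Complex.normSq y = r ^ 2) (h3 : p ^ 2 - 1 = y * p) (hp : p ≠ 0) (hz : ‖z‖ = 1)
    (hx : z * x = 1) (ha : a ^ 2 - 1 = a) (hb : b ^ 2 - 1 = - b / 3) (ha0 : a ≠ 0) (hb0 : b ≠ 0) :
    Fy (z - x) - lam r = (4 / (1 + 3 * r ^ 2) * (a * b) / (3 * (p * conj p))) *
      ((1 - p * x) * (1 + p * z) * ((1 - conj p * x) * (1 + conj p * z))) /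
      ((1 - a * x) * (1 + a * z) * ((1 - b * x) * (1 + b * z))) := by
  have hz0 : z ≠ 0 := by
    intro h
    rw [h, norm_zero] at hz
    exact zero_ne_one hz
  have hxc : x = conj z := by
    have h : z * x = z * conj z := by
      rw [hx, Complex.mul_conj, Complex.normSq_eq_norm_sq, hz]
      norm_num
    exact mul_left_cancel₀ hz0 h
  have hY : (z - x).re = 0 := by
    rw [hxc, Complex.sub_re, Complex.conj_re, sub_self]
  rw [Fy_sub hY h1 h2]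
  obtain ⟨Y, hYd⟩ : ∃ Y, Y = z - x := ⟨_, rfl⟩
  rw [← hYd] at hY ⊢
  have hpc : conj p ≠ 0 := by
    rw [Ne, map_eq_zero]
    exact hp
  have h3c : (conj p) ^ 2 - 1 = conj y * conj p := by
    have := congrArg conj h3
    simpa using this
  have hac : (a : ℂ) ^ 2 - 1 = a := by exact_mod_cast ha
  have hbc : (b : ℂ) ^ 2 - 1 = -b / 3 := by exact_mod_cast hb
  have ha0c : (a : ℂ) ≠ 0 := by exact_mod_cast ha0
  have hb0c : (b : ℂ) ≠ 0 := by exact_mod_cast hb0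
  have i1 : (1 - p * x) * (1 + p * z) = p * (Y - y) := by
    rw [hYd]
    linear_combination (-p ^ 2) * hx - h3
  have i2 : (1 - conj p * x) * (1 + conj p * z) = conj p * (Y - conj y) := by
    rw [hYd]
    linear_combination (-(conj p) ^ 2) * hx - h3c
  have i3 : (1 - (a : ℂ) * x) * (1 + a * z) = -a * (1 - Y) := by
    rw [hYd]
    linear_combination (-(a : ℂ) ^ 2) * hx - hac
  have i4 : (1 - (b : ℂ) * x) * (1 + b * z) = b / 3 * (1 + 3 * Y) := by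
    rw [hYd]
    linear_combination (-(b : ℂ) ^ 2) * hx - hbc
  rw [i1, i2, i3, i4]
  have n1 : 1 - Y ≠ 0 := by
    intro h
    have := congrArg Complex.re h
    simp [hY] at this
  have n2 : 1 + 3 * Y ≠ 0 := by
    intro h
    have := congrArg Complex.re h
    simp [hY] at this
  have n3 : (1 + 3 * r ^ 2 : ℂ) ≠ 0 := by
    have : (1 + 3 * r ^ 2 : ℝ) ≠ 0 := by positivity
    exact_mod_cast this
  field_simp

theorem t0_ne {c z : ℂ} (hc : ‖c‖ < 1) (hz : ‖z‖ ≤ 1) : 1 + c * z ≠ 0 ∧ 1 - c * z ≠ 0 := by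
  have h1 : ‖c * z‖ < 1 := by
    rw [norm_mul]
    have := norm_nonneg c
    have := norm_nonneg z
    nlinarith
  constructor
  · intro h
    have : c * z = -1 := by linear_combination h
    rw [this, norm_neg, norm_one] at h1
    exact lt_irrefl _ h1
  · intro h
    have : c * z = 1 := by linear_combination -h
    rw [this, norm_one] at h1
    exact lt_irrefl _ h1

theorem t0_low {c z : ℂ} {d : ℝ} (hc : ‖c‖ ≤ d) (hz : ‖z‖ ≤ 1) : 1 - d ≤ ‖1 - c * z‖ := by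
  have h1 : ‖c * z‖ ≤ d := by
    rw [norm_mul]
    have := norm_nonneg c
    have := norm_nonneg z
    nlinarith
  have h2 : ‖(1:ℂ)‖ - ‖c * z‖ ≤ ‖1 - c * z‖ := norm_sub_norm_le _ _
  rw [norm_one] at h2
  linarith

theorem test0 : ∃ r₀ > (0 : ℝ), r₀ ≤ 1 ∧ ∃ C : ℝ, ∀ r ∈ Ioo (0 : ℝ) r₀,
    ∃ h : hardy, h ≠ 0 ∧ ‖toeplitz phi0 h - lam r • h‖ ≤ C * r ^ 4 * ‖h‖ := by
  refine ⟨1 / 2, by norm_num, by norm_num, 21600, ?_⟩
  intro r hr
  have hr0 : 0 < r := hr.1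
  obtain ⟨p, y, hy1, hy2, hpy, hp1, hpre, hA, hB⟩ := exists_p hr
  obtain ⟨a, b, ha, hb, haa, hbb, ha0, hb0⟩ := exists_ab
  have hp0 : p ≠ 0 := by
    rintro rfl
    norm_num at hpre
  have hcp : ‖conj p‖ = ‖p‖ := Complex.norm_conj p
  have hcp1 : ‖conj p‖ < 1 := by rw [hcp]; exact hp1
  have hcp0 : conj p ≠ 0 := by
    rw [← norm_pos_iff, hcp, norm_pos_iff]; exact hp0
  have hay : y ≠ 0 := by
    rintro rfl
    rw [Complex.normSq_zero] at hy2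
    nlinarith
  have ha1 : ‖(a : ℂ)‖ ≤ 2 / 3 := by rw [Complex.norm_real]; exact haa
  have hb1 : ‖(b : ℂ)‖ ≤ 9 / 10 := by rw [Complex.norm_real]; exact hbb
  have ha2 : ‖(a : ℂ)‖ < 1 := by linarith
  have hb2 : ‖(b : ℂ)‖ < 1 := by linarith
  set A : ℝ := 1 - ‖p‖ ^ 2 with hAdef
  set Bn : ℝ := ‖1 - p ^ 2‖ with hBdef
  have hA0 : 0 < A := by
    have := norm_nonneg p
    rw [hAdef]; nlinarith
  have hB0 : 0 < Bn := by
    rw [hBdef, norm_pos_iff]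
    intro h
    have : y * p = 0 := by rw [← hpy]; linear_combination -h
    rcases mul_eq_zero.mp this with h | h
    · exact hay h
    · exact hp0 h
  set K : ℂ := (4 / (1 + 3 * r ^ 2) * (a * b) / (3 * (p * conj p))) with hK
  set q : ℂ → ℂ := fun z => (1 + a * z) * (1 + b * z) / ((1 - conj p * z) * (1 + p * z) * (1 + conj p * z)) with hq
  set ψ : ℂ → ℂ := fun x => K * ((1 - p * x) * (1 - conj p * x)) / ((1 - a * x) * (1 - b * x)) with hψ
  have hqd : DifferentiableOn ℂ q (closedBall 0 1) := by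
    rw [hq]
    refine DifferentiableOn.div (by fun_prop) (by fun_prop) ?_
    intro z hz
    have hz' : ‖z‖ ≤ 1 := by simpa using hz
    exact mul_ne_zero (mul_ne_zero (t0_ne hcp1 hz').2 (t0_ne hp1 hz').1) (t0_ne hcp1 hz').1
  have hψd : DifferentiableOn ℂ ψ (closedBall 0 1) := by
    rw [hψ]
    refine DifferentiableOn.div (by fun_prop) (by fun_prop) ?_
    intro z hz
    have hz' : ‖z‖ ≤ 1 := by simpa using hz
    exact mul_ne_zero (t0_ne ha2 hz').2 (t0_ne hb2 hz').2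
  have hqD : DiffContOnCl ℂ q (ball 0 1) := by
    apply DifferentiableOn.diffContOnCl
    rw [closure_ball (0:ℂ) one_ne_zero]
    exact hqd
  have hfn : ∀ t : UnitAddCircle, ‖(fourier 1 t : ℂ)‖ = 1 := by
    intro t
    rw [fourier_apply]
    exact Circle.norm_coe _
  have hzx : ∀ t : UnitAddCircle, (fourier 1 t : ℂ) * fourier (-1) t = 1 := by
    intro t
    rw [← fourier_add]; simp
  have hhc : Continuous (fun t : UnitAddCircle => q (fourier 1 t)) := by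
    refine hqd.continuousOn.comp_continuous (fourier (T := (1:ℝ)) 1).continuous ?_
    intro t
    rw [mem_closedBall_zero_iff]
    exact (hfn t).le
  set h : C(UnitAddCircle, ℂ) := ⟨fun t => q (fourier 1 t), hhc⟩ with hh
  have hw : ‖-conj p‖ < 1 := by rw [norm_neg]; exact hcp1
  have hwn : ‖-conj p‖ = ‖p‖ := by rw [norm_neg]; exact hcp
  have hqw : q (-conj p) = (1 - a * conj p) * (1 - b * conj p) / ((1 + conj p ^ 2) * (1 - p * conj p) * (1 - conj p ^ 2)) := by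
    rw [hq]
    simp only []
    congr 1 <;> ring
  have hψp : ψ (conj p) = K * ((1 - p * conj p) * (1 - conj p ^ 2)) / ((1 - a * conj p) * (1 - b * conj p)) := by
    rw [hψ]
    simp only []
    congr 3; ring
  -- norms
  have n1 : ‖(1 : ℂ) - p * conj p‖ = A := by
    rw [Complex.mul_conj, Complex.normSq_eq_norm_sq]
    have : (1 : ℂ) - ((‖p‖ ^ 2 : ℝ) : ℂ) = ((A : ℝ) : ℂ) := by rw [hAdef]; push_cast; ring
    rw [this, Complex.norm_real, Real.norm_eq_abs, abs_of_pos hA0]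
  have n2 : ‖(1 : ℂ) - conj p ^ 2‖ = Bn := by
    have : (1 : ℂ) - conj p ^ 2 = conj (1 - p ^ 2) := by simp
    rw [this, Complex.norm_conj]
  have n3 : ‖(1 : ℂ) + conj p ^ 2‖ ≤ 2 := by
    refine (norm_add_le _ _).trans ?_
    rw [norm_one, norm_pow, hcp]
    have := norm_nonneg p
    nlinarith
  have n3' : 0 < ‖(1 : ℂ) + conj p ^ 2‖ := by
    rw [norm_pos_iff]
    have := (t0_ne hcp1 hcp1.le).1
    rwa [← pow_two] at this
  have n4 : 1 / 3 ≤ ‖(1 : ℂ) - a * conj p‖ := by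
    have := t0_low ha1 hcp1.le
    linarith
  have n5 : 1 / 10 ≤ ‖(1 : ℂ) - b * conj p‖ := by
    have := t0_low hb1 hcp1.le
    linarith
  have hKn : ‖K‖ ≤ 6 := by
    have e1 : ‖K‖ = 4 / (1 + 3 * r ^ 2) * (|a| * |b|) / (3 * ‖p‖ ^ 2) := by
      rw [hK]
      have e2 : (4 / (1 + 3 * (r:ℂ) ^ 2) * (a * b) / (3 * (p * conj p))) =
          ((4 / (1 + 3 * r ^ 2) * (a * b) / (3 * ‖p‖ ^ 2) : ℝ) : ℂ) := by
        rw [Complex.mul_conj, Complex.normSq_eq_norm_sq]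
        push_cast
        ring
      rw [e2, Complex.norm_real, Real.norm_eq_abs, abs_div, abs_mul, abs_mul, abs_div]
      rw [abs_of_pos (by positivity : (0:ℝ) < 1 + 3 * r ^ 2), abs_of_pos (by norm_num : (0:ℝ) < 4),
        abs_of_nonneg (by positivity : (0:ℝ) ≤ 3 * ‖p‖ ^ 2)]
    rw [e1]
    have hpn : 1 / 2 ≤ ‖p‖ := hpre.trans (Complex.re_le_norm p)
    have hp4 : 1 / 4 ≤ ‖p‖ ^ 2 := by nlinarith
    have e3 : 4 / (1 + 3 * r ^ 2) ≤ 4 := by
      rw [div_le_iff₀ (by positivity)]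
      nlinarith [sq_nonneg r]
    have e4 : |a| * |b| ≤ 1 := by
      have := abs_nonneg a
      have := abs_nonneg b
      nlinarith
    have e5 : 0 ≤ |a| * |b| := by positivity
    have e6 : 4 / (1 + 3 * r ^ 2) * (|a| * |b|) ≤ 4 := by
      have : 0 < 4 / (1 + 3 * r ^ 2) := by positivity
      nlinarith
    rw [div_le_iff₀ (by positivity)]
    nlinarith
  have b1 : ‖ψ (conj p)‖ ≤ 180 * (A * Bn) := by
    rw [hψp, norm_div, norm_mul, norm_mul, norm_mul, n1, n2]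
    rw [div_le_iff₀ (by positivity)]
    have e1 : 1 / 30 ≤ ‖(1 : ℂ) - a * conj p‖ * ‖(1 : ℂ) - b * conj p‖ := by
      have := mul_le_mul n4 n5 (by norm_num) (by linarith)
      linarith
    have e2 : 0 < A * Bn := by positivity
    have e3 : ‖K‖ * (A * Bn) ≤ 6 * (A * Bn) := mul_le_mul_of_nonneg_right hKn e2.le
    have e4 : 180 * (A * Bn) * (1 / 30) ≤ 180 * (A * Bn) * (‖(1 : ℂ) - a * conj p‖ * ‖(1 : ℂ) - b * conj p‖) :=
      mul_le_mul_of_nonneg_left e1 (by positivity)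
    linarith
  have b2 : 1 / (60 * (A * Bn)) ≤ ‖q (-conj p)‖ := by
    rw [hqw, norm_div, norm_mul, norm_mul, norm_mul, n1, n2]
    rw [div_le_div_iff₀ (by positivity) (by positivity)]
    have e1 : 1 / 30 ≤ ‖(1 : ℂ) - a * conj p‖ * ‖(1 : ℂ) - b * conj p‖ := by
      have := mul_le_mul n4 n5 (by norm_num) (by linarith)
      linarith
    have e2 : 0 < A * Bn := by positivity
    have e3 : ‖(1 : ℂ) + conj p ^ 2‖ * A * Bn ≤ 2 * (A * Bn) := by
      rw [mul_assoc]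
      exact mul_le_mul_of_nonneg_right n3 e2.le
    have e4 : (1 / 30) * (60 * (A * Bn)) ≤ ‖(1 : ℂ) - a * conj p‖ * ‖(1 : ℂ) - b * conj p‖ * (60 * (A * Bn)) :=
      mul_le_mul_of_nonneg_right e1 (by positivity)
    linarith
  have hqw0 : q (-conj p) ≠ 0 := by
    rw [← norm_pos_iff]
    exact lt_of_lt_of_le (by positivity) b2
  have key : ‖ψ (conj p)‖ ≤ 21600 * r ^ 4 * ‖q (-conj p)‖ * A := by
    have e1 : 21600 * r ^ 4 * (1 / (60 * (A * Bn))) * A ≤ 21600 * r ^ 4 * ‖q (-conj p)‖ * A := by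
      gcongr
    have e2 : 21600 * r ^ 4 * (1 / (60 * (A * Bn))) * A = 360 * r ^ 4 / Bn := by
      field_simp
      norm_num
    have e3 : 180 * (A * Bn) ≤ 360 * r ^ 4 / Bn := by
      rw [le_div_iff₀ hB0]
      have f1 : Bn ^ 2 ≤ r ^ 2 := pow_le_pow_left₀ hB0.le hB 2
      have f2 : A * Bn ^ 2 ≤ (2 * r ^ 2) * r ^ 2 := mul_le_mul hA f1 (by positivity) (by positivity)
      nlinarith
    linarith
  obtain ⟨v, hv0, hv⟩ := ratio_two (φ := phi0) (h := h) (N := 1) le_rfl (q := q) (ψ₁ := ψ) (ψ₂ := fun _ => 0)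
    (p₁ := p) (p₂ := p) (w := -conj p) (l := lam r) (M₁ := 21600 * r ^ 4) (M₂ := 0) (by positivity) le_rfl
    hqD (by intro t; rfl) hψd (differentiableOn_const _) hp1 hp1 hw hqw0
    (by
      intro t
      have hz := hfn t
      have hx := hzx t
      have hxn : ‖(fourier (-1) t : ℂ)‖ = 1 := by
        have := congrArg norm hx
        rw [norm_mul, hz, one_mul, norm_one] at this
        exact this
      have hf := fact0 (r := r) (p := p) (y := y) (z := fourier 1 t) (x := fourier (-1) t) hy1 hy2 hpy hp0 hz hx ha hb ha0 hb0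
      show (Fy (fourier 1 t - fourier (-1) t) - lam r) * q (fourier 1 t) =
        ψ (fourier (-1) t) / (1 - conj p * fourier 1 t) + 0 / (1 - conj p * fourier 1 t)
      rw [hf, ← hK, hq, hψ]
      simp only []
      have c1 := (t0_ne ha2 hz.le).1
      have c2 := (t0_ne ha2 hxn.le).2
      have c3 := (t0_ne hb2 hz.le).1
      have c4 := (t0_ne hb2 hxn.le).2
      have c5 := (t0_ne hp1 hz.le).1
      have c6 := (t0_ne hcp1 hz.le).1
      have c7 := (t0_ne hcp1 hz.le).2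
      rw [zero_div, add_zero]
      generalize (fourier 1 t : ℂ) = z at *
      generalize (fourier (-1) t : ℂ) = x at *
      generalize conj p = p' at *
      generalize K = K' at *
      rw [div_mul_div_comm, div_div, div_eq_div_iff
        (mul_ne_zero (mul_ne_zero (mul_ne_zero c2 c1) (mul_ne_zero c4 c3)) (mul_ne_zero (mul_ne_zero c7 c5) c6))
        (mul_ne_zero (mul_ne_zero c2 c4) c7)]
      ring)
    (by
      rw [hwn]
      have h0 := norm_nonneg (ψ (conj p))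
      calc ‖ψ (conj p)‖ ^ 2 ≤ (21600 * r ^ 4 * ‖q (-conj p)‖ * A) ^ 2 := pow_le_pow_left₀ h0 key 2
        _ = (21600 * r ^ 4) ^ 2 * (‖q (-conj p)‖ ^ 2 * A) * A := by ring)
    (by simp)
  refine ⟨v, hv0, ?_⟩
  rw [add_zero] at hv
  exact hv

theorem dist_phi0 {r : ℝ} (hr : r ∈ Ioo (0 : ℝ) 1) (t : UnitAddCircle) :
    1 / 3 * r ^ 3 ≤ ‖phi0 t - lam r‖ := by
  show _ ≤ ‖Fy _ - lam r‖
  rw [Fy_eq (re_y0 t)]
  exact dist_lower hr (norm_div_eq_one (re_y0 t))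

theorem main0 : ∃ (Γ : Set ℂ) (w₀ : ℂ), SimpleClosedCurve Γ ∧ ZeroInnerAngle Γ w₀ ∧
    ∃ φ : C(UnitAddCircle, ℂ), RationalSymbol φ ∧ (∀ t, φ t ∈ Γ) ∧ (∃ t, φ t = w₀) ∧
      (∀ w ∈ interiorDomain Γ, HasWinding φ w 0) ∧
      ∀ (n : ℕ) (γ : Fin n → Set UnitAddCircle), (∀ k, MeasurableSet (γ k)) →
        ¬ Similar (toeplitz φ) (sumMul φ γ) := by
  refine ⟨Gam, -1, simple_Gam, zeroAngle_Gam, phi0, phi0_rational, phi0_mem, ⟨0, phi0_zero⟩,
    fun w hw => phi0_winding hw, fun n γ _ => ?_⟩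
  obtain ⟨r₀, hr₀, hr1, C, hC⟩ := test0
  refine not_similar_of _ _ lam hr₀ (c := 1 / 3) (by norm_num) (fun r hr v => ?_) hC
  exact sumMul_lower phi0 γ (lam r) (by have := hr.1; positivity)
    (fun t => dist_phi0 ⟨hr.1, hr.2.trans_le hr1⟩ t) v

end Pool.Agent.Helper414.Cusp
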