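import Pool.Agent.Helper414.CuspNu0

open MeasureTheory Set Metric

open scoped ENNReal InnerProductSpace ComplexConjugate

namespace Pool.Agent.Helper414.Cusp

noncomputable def uu (Z : ℂ) : ℂ := (1 - Z) ^ 3

noncomputable def vv (Z : ℂ) : ℂ := 4 * (1 + Z ^ 3)

noncomputable def B1 (Z : ℂ) : ℂ := (uu Z + vv Z) / (uu Z - vv Z)

noncomputable def F1 (Z : ℂ) : ℂ := -(uu Z + vv Z) ^ 2 / ((uu Z - vv Z) * (uu Z + 3 * vv Z))

theorem cj_uu {Z : ℂ} (hZ : ‖Z‖ = 1) : Z ^ 3 * conj (uu Z) = - uu Z := by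
  have h : Z * conj Z = 1 := by
    rw [Complex.mul_conj, Complex.normSq_eq_norm_sq, hZ]; simp
  unfold uu
  simp only [map_pow, map_sub, map_one]
  have h2 : Z * (1 - conj Z) = Z - 1 := by rw [mul_sub, h, mul_one]
  calc Z ^ 3 * (1 - conj Z) ^ 3 = (Z * (1 - conj Z)) ^ 3 := by ring
    _ = -(1 - Z) ^ 3 := by rw [h2]; ring

theorem cj_vv {Z : ℂ} (hZ : ‖Z‖ = 1) : Z ^ 3 * conj (vv Z) = vv Z := by
  have h : Z * conj Z = 1 := by
    rw [Complex.mul_conj, Complex.normSq_eq_norm_sq, hZ]; simp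
  unfold vv
  simp only [map_mul, map_add, map_pow, map_one, map_ofNat]
  calc Z ^ 3 * (4 * (1 + conj Z ^ 3)) = 4 * (Z ^ 3 + (Z * conj Z) ^ 3) := by ring
    _ = 4 * (1 + Z ^ 3) := by rw [h]; ring

theorem uu_vv_zero {Z : ℂ} (h : uu Z = 0) (h' : vv Z = 0) : False := by
  unfold uu at h
  unfold vv at h'
  have h1 : 1 - Z = 0 := by
    exact pow_eq_zero_iff (three_ne_zero) |>.1 h
  have h2 : Z = 1 := by linear_combination -h1
  rw [h2] at h'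
  norm_num at h'

theorem den1_ne {Z : ℂ} (hZ : ‖Z‖ = 1) : uu Z - vv Z ≠ 0 ∧ uu Z + 3 * vv Z ≠ 0 := by
  have h1 := cj_uu hZ
  have h2 := cj_vv hZ
  constructor
  · intro h
    have h3 := congrArg conj h
    simp only [map_sub, map_zero] at h3
    have h4 : - uu Z - vv Z = 0 := by
      rw [← h1]
      conv_lhs => rw [← h2]
      rw [← mul_sub, h3, mul_zero]
    exact uu_vv_zero (by linear_combination (h - h4) / 2) (by linear_combination (-h - h4) / 2)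
  · intro h
    have h3 := congrArg conj h
    simp only [map_add, map_zero, map_mul, map_ofNat] at h3
    have h4 : - uu Z + 3 * vv Z = 0 := by
      linear_combination Z ^ 3 * h3 - h1 - 3 * h2
    exact uu_vv_zero (by linear_combination (h - h4) / 2) (by linear_combination (h + h4) / 6)

theorem norm_B1 {Z : ℂ} (hZ : ‖Z‖ = 1) : ‖B1 Z‖ = 1 := by
  have h1 := cj_uu hZ
  have h2 := cj_vv hZ
  have h3 : ‖uu Z + vv Z‖ = ‖uu Z - vv Z‖ := by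
    calc ‖uu Z + vv Z‖ = ‖conj (uu Z + vv Z)‖ := (Complex.norm_conj _).symm
      _ = ‖Z ^ 3 * conj (uu Z + vv Z)‖ := by rw [norm_mul, norm_pow, hZ, one_pow, one_mul]
      _ = ‖uu Z - vv Z‖ := by
        rw [map_add, mul_add, h1, h2, ← norm_neg]
        congr 1
        ring
  unfold B1
  rw [norm_div, h3, div_self]
  exact norm_ne_zero_iff.2 (den1_ne hZ).1

theorem F1_eq {Z : ℂ} (hZ : ‖Z‖ = 1) : F1 Z = Gf (B1 Z) := by
  obtain ⟨h1, h2⟩ := den1_ne hZ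
  unfold F1 Gf B1
  have h3 : 1 - 2 * ((uu Z + vv Z) / (uu Z - vv Z)) = -(uu Z + 3 * vv Z) / (uu Z - vv Z) := by
    field_simp
    ring
  rw [h3]
  field_simp

theorem F1_sub {r : ℝ} {Z y : ℂ} (hZ : ‖Z‖ = 1) (h1 : y.re = - r ^ 2)
    (h2 : Complex.normSq y = r ^ 2) :
    F1 Z - lam r = -(4 / (1 + 3 * r ^ 2 : ℂ)) *
      ((vv Z - y * uu Z) * (vv Z - conj y * uu Z)) / ((uu Z - vv Z) * (uu Z + 3 * vv Z)) := by
  obtain ⟨h3, h4⟩ := den1_ne hZ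
  have h5 : y + conj y = -2 * (r : ℂ) ^ 2 := by
    rw [Complex.add_conj, h1]; push_cast; ring
  have h6 : y * conj y = (r : ℂ) ^ 2 := by
    rw [Complex.mul_conj, h2]; push_cast; ring
  have h7 : (1 + 3 * (r : ℂ) ^ 2) ≠ 0 := by
    have : (1 + 3 * r ^ 2 : ℝ) ≠ 0 := by positivity
    exact_mod_cast this
  have h8 : (vv Z - y * uu Z) * (vv Z - conj y * uu Z) =
      vv Z ^ 2 + 2 * (r : ℂ) ^ 2 * uu Z * vv Z + (r : ℂ) ^ 2 * uu Z ^ 2 := by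
    linear_combination (-(uu Z * vv Z)) * h5 + uu Z ^ 2 * h6
  rw [h8]
  unfold F1 lam
  push_cast
  generalize uu Z = U at *
  generalize vv Z = V at *
  have h9 : (U - V) * (U + 3 * V) ≠ 0 := mul_ne_zero h3 h4
  rw [div_sub_div _ _ h9 h7, ← neg_div (1 + 3 * (r : ℂ) ^ 2) 4, div_mul_eq_mul_div, div_div,
    div_eq_div_iff (mul_ne_zero h9 h7) (mul_ne_zero h7 h9)]
  ring

/-- The symbol for winding number `N ≥ 1`. -/
noncomputable def phi1 (N : ℕ) : C(UnitAddCircle, ℂ) where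
  toFun t := F1 (fourier (N : ℤ) t)
  continuous_toFun := by
    have hn : ∀ t : UnitAddCircle, ‖(fourier (N : ℤ) t : ℂ)‖ = 1 := fun t => by
      rw [fourier_apply]; exact Circle.norm_coe _
    have hc : Continuous fun t : UnitAddCircle => (fourier (N : ℤ) t : ℂ) :=
      (fourier (N : ℤ)).continuous
    unfold F1 uu vv
    refine Continuous.div (by fun_prop) (by fun_prop) fun t => ?_
    have h := den1_ne (hn t)
    exact mul_ne_zero h.1 h.2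

theorem norm_fourier_eq (n : ℤ) (t : UnitAddCircle) : ‖(fourier n t : ℂ)‖ = 1 := by
  rw [fourier_apply]; exact Circle.norm_coe _

theorem phi1_mem (N : ℕ) (t : UnitAddCircle) : phi1 N t ∈ Gam := by
  show F1 _ ∈ Gam
  rw [F1_eq (norm_fourier_eq _ t)]
  exact Gf_mem (norm_B1 (norm_fourier_eq _ t))

theorem phi1_hit {N : ℕ} (hN : 1 ≤ N) : ∃ t, phi1 N t = -1 := by
  refine ⟨((1 / (2 * N) : ℝ) : UnitAddCircle), ?_⟩
  show F1 (fourier (N : ℤ) _) = -1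
  have h1 : (fourier (N : ℤ) (((1 / (2 * N) : ℝ)) : UnitAddCircle) : ℂ) = -1 := by
    rw [fourier_coe_apply]
    have hN' : (N : ℂ) ≠ 0 := by
      have : N ≠ 0 := by omega
      exact_mod_cast this
    have h2 : (2 * Real.pi * Complex.I * ((N : ℤ) : ℂ) * ((1 / (2 * N) : ℝ) : ℂ) / ((1 : ℝ) : ℂ)) =
        Real.pi * Complex.I := by
      push_cast
      field_simp
    rw [h2, Complex.exp_pi_mul_I]
  rw [h1]
  unfold F1 uu vv
  norm_num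

theorem fourier_natCast_eq (N : ℕ) (t : UnitAddCircle) :
    (fourier (N : ℤ) t : ℂ) = (fourier 1 t : ℂ) ^ N := by
  induction N with
  | zero => simp
  | succ N ih =>
    rw [Nat.cast_succ, fourier_add, ih, pow_succ]

theorem phi1_rational (N : ℕ) : RationalSymbol (phi1 N) := by
  refine ⟨-((1 - Polynomial.X ^ N) ^ 3 + 4 * (1 + (Polynomial.X ^ N) ^ 3)) ^ 2,
    ((1 - Polynomial.X ^ N) ^ 3 - 4 * (1 + (Polynomial.X ^ N) ^ 3)) *
      ((1 - Polynomial.X ^ N) ^ 3 + 3 * (4 * (1 + (Polynomial.X ^ N) ^ 3))), ?_, ?_⟩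
  · intro z hz
    have h := den1_ne (Z := z ^ N) (by rw [norm_pow, hz, one_pow])
    have h1 := mul_ne_zero h.1 h.2
    unfold uu vv at h1
    simpa using h1
  · intro t
    show F1 (fourier (N : ℤ) t) = _
    rw [fourier_natCast_eq]
    generalize (fourier 1 t : ℂ) = z
    unfold F1 uu vv
    simp

theorem dist_phi1 (N : ℕ) {r : ℝ} (hr : r ∈ Ioo (0 : ℝ) 1) (t : UnitAddCircle) :
    1 / 3 * r ^ 3 ≤ ‖phi1 N t - lam r‖ := by
  show _ ≤ ‖F1 _ - lam r‖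
  rw [F1_eq (norm_fourier_eq _ t)]
  exact dist_lower hr (norm_B1 (norm_fourier_eq _ t))

theorem aux_plus_ne {c : ℂ} (hc : 0 < c.re) : c + 1 ≠ 0 := by
  intro h
  have := congrArg Complex.re h
  simp at this
  linarith

theorem aux_mob {c : ℂ} (hc : 0 < c.re) : ‖(c - 1) / (c + 1)‖ < 1 := by
  rw [norm_div, div_lt_one (norm_pos_iff.2 (aux_plus_ne hc))]
  have h2 : ‖c - 1‖ ^ 2 < ‖c + 1‖ ^ 2 := by
    rw [← Complex.normSq_eq_norm_sq, ← Complex.normSq_eq_norm_sq, Complex.normSq_apply,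
      Complex.normSq_apply]
    simp only [Complex.sub_re, Complex.one_re, Complex.sub_im, Complex.one_im, Complex.add_re,
      Complex.add_im]
    nlinarith
  exact lt_of_pow_lt_pow_left₀ 2 (norm_nonneg _) h2

theorem aux_cubic {y : ℝ} (hy : y < 0) : ∃ d : ℝ, d < 0 ∧ d ^ 3 + 3 * d = y := by
  have hcont : ContinuousOn (fun x : ℝ => x ^ 3 + 3 * x) (Set.Icc y 0) := by fun_prop
  have h := intermediate_value_Icc hy.le hcont
  have hm : y ∈ Set.Icc ((fun x : ℝ => x ^ 3 + 3 * x) y) ((fun x : ℝ => x ^ 3 + 3 * x) 0) := by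
    constructor
    · show y ^ 3 + 3 * y ≤ y
      nlinarith [mul_pos_of_neg_of_neg hy hy, mul_pos (mul_pos_of_neg_of_neg hy hy) (neg_pos.2 hy)]
    · show y ≤ (0:ℝ) ^ 3 + 3 * 0
      linarith
  obtain ⟨d, hd1, hd2⟩ := h hm
  have hd2' : d ^ 3 + 3 * d = y := hd2
  refine ⟨d, ?_, hd2'⟩
  rcases lt_or_eq_of_le hd1.2 with h | h
  · exact h
  · exfalso
    rw [h] at hd2'
    linarith

/-- Factorisation for real negative `y`. -/
theorem factN_real {y : ℝ} (hy : y < 0) : ∃ K a₁ a₂ a₀ : ℂ, K ≠ 0 ∧ ‖a₁‖ < 1 ∧ ‖a₂‖ < 1 ∧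
    ‖a₀‖ < 1 ∧ ∀ Z : ℂ, vv Z - y * uu Z = K * ((Z - a₁) * (Z - a₂) * (1 - a₀ * Z)) := by
  obtain ⟨d, hd, hdy⟩ := aux_cubic hy
  obtain ⟨e, he⟩ : ∃ e : ℝ, e ^ 2 = 3 * (d ^ 2 + 4) / 4 :=
    ⟨Real.sqrt (3 * (d ^ 2 + 4) / 4), Real.sq_sqrt (by positivity)⟩
  have heC : (e : ℂ) ^ 2 = 3 * ((d : ℂ) ^ 2 + 4) / 4 := by
    exact_mod_cast congrArg (fun x : ℝ => (x : ℂ)) he
  have hyC : (d : ℂ) ^ 3 + 3 * (d : ℂ) = (y : ℂ) := by
    exact_mod_cast congrArg (fun x : ℝ => (x : ℂ)) hdy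
  obtain ⟨c1, hc1⟩ : ∃ c1 : ℂ, c1 = -(d : ℂ) / 2 + e * Complex.I := ⟨_, rfl⟩
  obtain ⟨c2, hc2⟩ : ∃ c2 : ℂ, c2 = -(d : ℂ) / 2 - e * Complex.I := ⟨_, rfl⟩
  obtain ⟨c3, hc3⟩ : ∃ c3 : ℂ, c3 = -(d : ℂ) := ⟨_, rfl⟩
  have r1 : 0 < c1.re := by
    have : c1 = ((-d / 2 : ℝ) : ℂ) + (e : ℝ) * Complex.I := by
      rw [hc1]; push_cast; ring
    rw [this]
    simp
    linarith
  have r2 : 0 < c2.re := by
    have : c2 = ((-d / 2 : ℝ) : ℂ) + ((-e : ℝ) : ℂ) * Complex.I := by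
      rw [hc2]; push_cast; ring
    rw [this]
    simp
    linarith
  have r3 : 0 < c3.re := by
    rw [hc3]
    simp
    linarith
  have n1 := aux_plus_ne r1
  have n2 := aux_plus_ne r2
  have n3 := aux_plus_ne r3
  refine ⟨(c1 + 1) * (c2 + 1) * (c3 + 1), (c1 - 1) / (c1 + 1), (c2 - 1) / (c2 + 1),
    (c3 - 1) / (c3 + 1), mul_ne_zero (mul_ne_zero n1 n2) n3, aux_mob r1, aux_mob r2, aux_mob r3, ?_⟩
  intro Z
  have k1 : (c1 + 1) * (Z - (c1 - 1) / (c1 + 1)) = (1 + Z) - c1 * (1 - Z) := by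
    field_simp
    ring
  have k2 : (c2 + 1) * (Z - (c2 - 1) / (c2 + 1)) = (1 + Z) - c2 * (1 - Z) := by
    field_simp
    ring
  have k3 : (c3 + 1) * (1 - (c3 - 1) / (c3 + 1) * Z) = (1 + Z) + c3 * (1 - Z) := by
    field_simp
    ring
  have k4 : (c1 + 1) * (c2 + 1) * (c3 + 1) * ((Z - (c1 - 1) / (c1 + 1)) * (Z - (c2 - 1) / (c2 + 1)) *
      (1 - (c3 - 1) / (c3 + 1) * Z)) = ((1 + Z) - c1 * (1 - Z)) * ((1 + Z) - c2 * (1 - Z)) *
      ((1 + Z) + c3 * (1 - Z)) := by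
    rw [← k1, ← k2, ← k3]
    ring
  rw [k4]
  have hprod : c1 * c2 = (d : ℂ) ^ 2 + 3 := by
    rw [hc1, hc2]
    have : (-(d : ℂ) / 2 + e * Complex.I) * (-(d : ℂ) / 2 - e * Complex.I) =
        (d : ℂ) ^ 2 / 4 - (e : ℂ) ^ 2 * Complex.I ^ 2 := by ring
    rw [this, Complex.I_sq, heC]
    ring
  have hsum : c1 + c2 = -(d : ℂ) := by
    rw [hc1, hc2]
    ring
  have hq : ((1 + Z) - c1 * (1 - Z)) * ((1 + Z) - c2 * (1 - Z)) =
      (1 + Z) ^ 2 - (c1 + c2) * (1 + Z) * (1 - Z) + (c1 * c2) * (1 - Z) ^ 2 := by ring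
  rw [hq, hprod, hsum, hc3]
  unfold vv uu
  rw [← hyC]
  ring

theorem slit_aux {a Z : ℂ} (ha : ‖a‖ < 1) (hZ : ‖Z‖ = 1) : 1 - a * Z ∈ Complex.slitPlane := by
  rw [Complex.mem_slitPlane_iff]
  left
  have h1 : (a * Z).re ≤ ‖a * Z‖ := Complex.re_le_norm _
  rw [norm_mul, hZ, mul_one] at h1
  rw [Complex.sub_re, Complex.one_re]
  linarith

theorem fourier_one_aux (t : ℝ) :
    (fourier 1 (t : UnitAddCircle) : ℂ) = Complex.exp (2 * Real.pi * Complex.I * t) := by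
  rw [fourier_coe_apply]; congr 1; push_cast; ring

theorem norm_exp_aux (t : ℝ) : ‖Complex.exp (2 * Real.pi * Complex.I * t)‖ = 1 := by
  rw [← fourier_one_aux]; exact norm_fourier_eq _ _

theorem B1_fact_aux {K a₁ a₂ a₀ Z X : ℂ} (hK : K ≠ 0) (h1 : ‖a₁‖ < 1) (h2 : ‖a₂‖ < 1)
    (h0 : ‖a₀‖ < 1) (hZ : ‖Z‖ = 1) (hX : ‖X‖ = 1) (hZX : Z * X = 1)
    (hf : ∀ Z : ℂ, vv Z - ((-1 : ℝ) : ℂ) * uu Z = K * ((Z - a₁) * (Z - a₂) * (1 - a₀ * Z))) :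
    B1 Z = -1 * Z * (1 - a₁ * X) * (1 - a₂ * X) * (1 - a₀ * Z) / (1 - a₁ * Z) / (1 - a₂ * Z) /
      (1 - a₀ * X) := by
  have n1 := Complex.slitPlane_ne_zero (slit_aux h1 hZ)
  have n2 := Complex.slitPlane_ne_zero (slit_aux h2 hZ)
  have n3 := Complex.slitPlane_ne_zero (slit_aux h0 hX)
  have hd := (den1_ne hZ).1
  have e1 : uu Z + vv Z = K * ((Z - a₁) * (Z - a₂) * (1 - a₀ * Z)) := by
    rw [← hf Z]; push_cast; ring
  have hu : uu Z = - (Z ^ 3 * uu X) := by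
    have : Z ^ 3 * uu X = (Z - Z * X) ^ 3 := by unfold uu; ring
    rw [this, hZX]; unfold uu; ring
  have hv : vv Z = Z ^ 3 * vv X := by
    have : Z ^ 3 * vv X = 4 * (Z ^ 3 + (Z * X) ^ 3) := by unfold vv; ring
    rw [this, hZX]; unfold vv; ring
  have e2 : uu Z - vv Z = -(K * ((1 - a₁ * Z) * (1 - a₂ * Z) * (Z - a₀))) := by
    have h3 : uu Z - vv Z = -(Z ^ 3 * (vv X - ((-1 : ℝ) : ℂ) * uu X)) := by
      rw [hu, hv]; push_cast; ring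
    rw [h3, hf X]
    have h4 : Z ^ 3 * (K * ((X - a₁) * (X - a₂) * (1 - a₀ * X))) =
      K * ((Z * X - a₁ * Z) * (Z * X - a₂ * Z) * (Z - a₀ * (Z * X))) := by ring
    rw [h4, hZX]; ring
  have e3 : Z - a₀ = Z * (1 - a₀ * X) := by
    have : Z * (1 - a₀ * X) = Z - a₀ * (Z * X) := by ring
    rw [this, hZX]; ring
  have e4 : Z - a₁ = Z * (1 - a₁ * X) := by
    have : Z * (1 - a₁ * X) = Z - a₁ * (Z * X) := by ring
    rw [this, hZX]; ring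
  have e5 : Z - a₂ = Z * (1 - a₂ * X) := by
    have : Z * (1 - a₂ * X) = Z - a₂ * (Z * X) := by ring
    rw [this, hZX]; ring
  have hZ0 : Z ≠ 0 := by
    intro h; rw [h] at hZX; simp at hZX
  unfold B1
  rw [e1, e2, e3, e4, e5]
  field_simp

theorem winding_B1 {B : C(UnitAddCircle, ℂ)} (hB : ∀ t, B t = B1 (fourier 1 t)) :
    HasWinding B 0 1 := by
  obtain ⟨K, a₁, a₂, a₀, hK, h1, h2, h0, hf⟩ := factN_real (y := -1) (by norm_num)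
  set z : ℝ → ℂ := fun t => Complex.exp (2 * Real.pi * Complex.I * t) with hz
  set x : ℝ → ℂ := fun t => Complex.exp (2 * Real.pi * Complex.I * (-t : ℝ)) with hx
  have nz : ∀ t, ‖z t‖ = 1 := fun t => norm_exp_aux t
  have nx : ∀ t, ‖x t‖ = 1 := fun t => norm_exp_aux (-t)
  have zx : ∀ t, z t * x t = 1 := by
    intro t
    rw [hz, hx]
    simp only
    rw [← Complex.exp_add]
    push_cast
    rw [show 2 * (Real.pi : ℂ) * Complex.I * t + 2 * Real.pi * Complex.I * -t = 0 by ring,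
      Complex.exp_zero]
  have cz : Continuous z := by rw [hz]; fun_prop
  have cx : Continuous x := by rw [hx]; fun_prop
  have pz : ∀ t, z (t + 1) = z t := by
    intro t
    rw [hz]
    simp only
    rw [← fourier_one_aux, ← fourier_one_aux]
    push_cast
    congr 1
    simp
  have px : ∀ t, x (t + 1) = x t := by
    intro t
    have e1 := zx t
    have e2 := zx (t + 1)
    rw [pz] at e2
    have hz0 : z t ≠ 0 := by
      intro h; rw [h] at e1; simp at e1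
    exact mul_left_cancel₀ hz0 (e2.trans e1.symm)
  refine ⟨fun t => Complex.log (-1) + 2 * Real.pi * Complex.I * t + Complex.log (1 - a₁ * x t) +
    Complex.log (1 - a₂ * x t) + Complex.log (1 - a₀ * z t) - Complex.log (1 - a₁ * z t) -
    Complex.log (1 - a₂ * z t) - Complex.log (1 - a₀ * x t), ?_, ?_, ?_⟩
  · have c1 : Continuous fun t => Complex.log (1 - a₁ * x t) :=
      (continuous_const.sub (continuous_const.mul cx)).clog fun t => slit_aux h1 (nx t)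
    have c2 : Continuous fun t => Complex.log (1 - a₂ * x t) :=
      (continuous_const.sub (continuous_const.mul cx)).clog fun t => slit_aux h2 (nx t)
    have c3 : Continuous fun t => Complex.log (1 - a₀ * z t) :=
      (continuous_const.sub (continuous_const.mul cz)).clog fun t => slit_aux h0 (nz t)
    have c4 : Continuous fun t => Complex.log (1 - a₁ * z t) :=
      (continuous_const.sub (continuous_const.mul cz)).clog fun t => slit_aux h1 (nz t)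
    have c5 : Continuous fun t => Complex.log (1 - a₂ * z t) :=
      (continuous_const.sub (continuous_const.mul cz)).clog fun t => slit_aux h2 (nz t)
    have c6 : Continuous fun t => Complex.log (1 - a₀ * x t) :=
      (continuous_const.sub (continuous_const.mul cx)).clog fun t => slit_aux h0 (nx t)
    have c0 : Continuous fun t : ℝ => Complex.log (-1) + 2 * Real.pi * Complex.I * t := by
      fun_prop
    exact ((((((c0.add c1).add c2).add c3).sub c4).sub c5).sub c6)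
  · intro t
    have hzt : (fourier 1 (t : UnitAddCircle) : ℂ) = z t := fourier_one_aux t
    rw [sub_zero, hB, hzt, B1_fact_aux hK h1 h2 h0 (nz t) (nx t) (zx t) hf]
    simp only [Complex.exp_add, Complex.exp_sub]
    rw [Complex.exp_log (Complex.slitPlane_ne_zero (slit_aux h1 (nx t))),
      Complex.exp_log (Complex.slitPlane_ne_zero (slit_aux h2 (nx t))),
      Complex.exp_log (Complex.slitPlane_ne_zero (slit_aux h0 (nz t))),
      Complex.exp_log (Complex.slitPlane_ne_zero (slit_aux h1 (nz t))),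
      Complex.exp_log (Complex.slitPlane_ne_zero (slit_aux h2 (nz t))),
      Complex.exp_log (Complex.slitPlane_ne_zero (slit_aux h0 (nx t))),
      Complex.exp_log (by norm_num : (-1 : ℂ) ≠ 0)]
  · intro t
    simp only [pz, px]
    push_cast
    ring

theorem winding_nsmul {φ ψ : C(UnitAddCircle, ℂ)} {w : ℂ} {n : ℤ} (N : ℕ)
    (h : HasWinding φ w n) (e : ∀ t : UnitAddCircle, ψ t = φ (N • t)) :
    HasWinding ψ w (n * N) := by
  obtain ⟨L, hL, h1, h2⟩ := h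
  refine ⟨fun t => L (N * t), hL.comp (by fun_prop), ?_, ?_⟩
  · intro t
    rw [e, ← AddCircle.coe_nsmul, nsmul_eq_mul]
    exact h1 _
  · intro t
    have key : ∀ (m : ℕ) (s : ℝ), L (s + m) = L s + 2 * Real.pi * Complex.I * n * m := by
      intro m
      induction m with
      | zero => intro s; simp
      | succ m ih =>
        intro s
        have : s + ((m + 1 : ℕ) : ℝ) = (s + m) + 1 := by push_cast; ring
        rw [this, h2, ih]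
        push_cast; ring
    have h3 : (N : ℝ) * (t + 1) = N * t + N := by ring
    simp only
    rw [h3, key]
    push_cast
    ring

theorem phi1_winding {N : ℕ} {w : ℂ} (hw : w ∈ interiorDomain Gam) :
    HasWinding (phi1 N) w N := by
  rw [interior_Gam] at hw
  have hc : ∀ n : ℤ, Continuous (fun t : UnitAddCircle => B1 (fourier n t)) := by
    intro n
    unfold B1 uu vv
    refine Continuous.div (by fun_prop) (by fun_prop) ?_
    intro t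
    exact (den1_ne (norm_fourier_eq n t)).1
  let B : C(UnitAddCircle, ℂ) := ⟨fun t => B1 (fourier 1 t), hc 1⟩
  let BN : C(UnitAddCircle, ℂ) := ⟨fun t => B1 (fourier (N : ℤ) t), hc N⟩
  have hB : HasWinding B 0 1 := winding_B1 (fun t => rfl)
  have hBN : HasWinding BN 0 (1 * N) := by
    apply winding_nsmul N hB
    intro t
    show B1 (fourier (N : ℤ) t) = B1 (fourier 1 (N • t))
    congr 1
    rw [fourier_apply, fourier_apply, one_zsmul, natCast_zsmul]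
  rw [one_mul] at hBN
  exact winding_comp (fun t => norm_B1 (norm_fourier_eq _ t))
    (fun t => F1_eq (norm_fourier_eq _ t)) hBN hw

theorem cube_root {p : ℂ} (hp : ‖p‖ < 1) (h : 1 / 2 ≤ p.re) : ∃ w : ℂ, w ^ 3 = p ∧
    9 / 10 * ‖w‖ ≤ w.re ∧ |w.im| ≤ 35 / 100 * ‖w‖ := by
  have hp0 : p ≠ 0 := by
    rintro rfl
    rw [Complex.zero_re] at h
    linarith
  have hn0 : 0 < ‖p‖ := norm_pos_iff.2 hp0
  have hcos : Real.cos (Complex.arg p) = p.re / ‖p‖ := Complex.cos_arg hp0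
  have hcos2 : 1 / 2 ≤ Real.cos (Complex.arg p) := by
    rw [hcos, le_div_iff₀ hn0]
    linarith
  have harg : |Complex.arg p| ≤ Real.pi / 3 := by
    by_contra hlt
    push Not at hlt
    have h1 := Real.cos_lt_cos_of_nonneg_of_le_pi (by positivity) (Complex.abs_arg_le_pi p) hlt
    rw [Real.cos_abs, Real.cos_pi_div_three] at h1
    linarith
  set t : ℝ := Complex.arg p / 3 with ht
  have htabs : |t| ≤ 35 / 100 := by
    rw [ht, abs_div, abs_of_pos (by norm_num : (0:ℝ) < 3)]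
    have := Real.pi_lt_d2
    linarith
  have him : (Complex.log p / 3).im = t := by
    rw [show (3 : ℂ) = ((3 : ℝ) : ℂ) by norm_num, Complex.div_ofReal_im, Complex.log_im]
  refine ⟨Complex.exp (Complex.log p / 3), ?_, ?_, ?_⟩
  · rw [← Complex.exp_nat_mul]
    have : ((3 : ℕ) : ℂ) * (Complex.log p / 3) = Complex.log p := by
      push_cast
      ring
    rw [this, Complex.exp_log hp0]
  · rw [Complex.norm_exp, Complex.exp_re, him, mul_comm]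
    refine mul_le_mul_of_nonneg_left ?_ (Real.exp_pos _).le
    have h1 := Real.one_sub_sq_div_two_le_cos (x := t)
    have h2 : t ^ 2 ≤ (35 / 100) ^ 2 := by
      rw [← sq_abs]
      exact pow_le_pow_left₀ (abs_nonneg _) htabs 2
    nlinarith
  · rw [Complex.norm_exp, Complex.exp_im, him, abs_mul, abs_of_pos (Real.exp_pos _), mul_comm]
    refine mul_le_mul_of_nonneg_right ?_ (Real.exp_pos _).le
    have h1 : |Real.sin t| ≤ |t| := by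
      exact Real.abs_sin_le_abs
    exact h1.trans htabs

theorem j15179_alg {w u ρ ρ' y : ℂ} (h1 : w * u = 1) (h2 : ρ + ρ' = -1) (h3 : ρ * ρ' = 1)
    (hy : y = w ^ 3 - u ^ 3) (x : ℂ) :
    x ^ 3 + 3 * x - y = (x - (w - u)) * (x - (w * ρ - u * ρ')) * (x - (w * ρ' - u * ρ)) := by
  have hs : (w * ρ - u * ρ') + (w * ρ' - u * ρ) = -(w - u) := by
    linear_combination (w - u) * h2
  have h4 : ρ ^ 2 + ρ' ^ 2 = -1 := by
    linear_combination (ρ + ρ' - 1) * h2 - 2 * h3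
  have hp : (w * ρ - u * ρ') * (w * ρ' - u * ρ) = w ^ 2 + u ^ 2 + w * u := by
    linear_combination (w ^ 2 + u ^ 2) * h3 - w * u * h4
  have e : (x - (w - u)) * (x - (w * ρ - u * ρ')) * (x - (w * ρ' - u * ρ)) =
      (x - (w - u)) * (x ^ 2 - ((w * ρ - u * ρ') + (w * ρ' - u * ρ)) * x +
        (w * ρ - u * ρ') * (w * ρ' - u * ρ)) := by ring
  rw [e, hs, hp, hy]
  linear_combination (-3 * x) * h1

theorem j15179_norm_one {s : ℝ} (hs : s ^ 2 = 3 / 4) : ‖(⟨-1/2, s⟩ : ℂ)‖ = 1 := by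
  have h : ‖(⟨-1/2, s⟩ : ℂ)‖ ^ 2 = 1 := by
    rw [Complex.sq_norm, Complex.normSq_apply]
    nlinarith
  nlinarith [norm_nonneg (⟨-1/2, s⟩ : ℂ)]

theorem j15179_m {m : ℝ} (hm0 : 0 ≤ m) (h1 : 1 / 2 ≤ m ^ 3) (h2 : m ^ 3 < 1) :
    m < 1 ∧ 1 / 2 ≤ m := by
  have hm1 : m < 1 := by
    by_contra h
    push Not at h
    have := one_le_pow₀ h (n := 3)
    linarith
  refine ⟨hm1, ?_⟩
  have : m ^ 3 ≤ m := by
    calc m ^ 3 = m * (m * m) := by ring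
      _ ≤ m * 1 := mul_le_mul_of_nonneg_left (by nlinarith) hm0
      _ = m := mul_one m
  linarith

theorem j15179_s : (√3 / 2) ^ 2 = (3 / 4 : ℝ) ∧ √3 / 2 ≤ (867 / 1000 : ℝ) ∧
    (866 / 1000 : ℝ) ≤ √3 / 2 ∧ (0:ℝ) < √3 / 2 := by
  have h0 : (0:ℝ) < √3 / 2 := by positivity
  have h1 : (√3 / 2) ^ 2 = (3 / 4 : ℝ) := by
    rw [div_pow, Real.sq_sqrt (by norm_num)]; norm_num
  refine ⟨h1, ?_, ?_, h0⟩
  · by_contra h
    push Not at h
    have h9 : (867 / 1000 : ℝ) ^ 2 < (√3 / 2) ^ 2 :=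
      pow_lt_pow_left₀ h (by norm_num) two_ne_zero
    rw [h1] at h9
    norm_num at h9
  · by_contra h
    push Not at h
    have h9 : (√3 / 2) ^ 2 < (866 / 1000 : ℝ) ^ 2 := pow_lt_pow_left₀ h h0.le two_ne_zero
    rw [h1] at h9
    norm_num at h9

theorem j15179_bs {m b s : ℝ} (hm : 0 ≤ m) (hb1 : -(35 / 100 * m) ≤ b) (hb2 : b ≤ 35 / 100 * m)
    (hs0 : 0 < s) (hs3 : s ≤ 867 / 1000) : b * s ≤ 31 / 100 * m ∧ -(31 / 100 * m) ≤ b * s := by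
  have h1 : b * s ≤ (35 / 100 * m) * s := mul_le_mul_of_nonneg_right hb2 hs0.le
  have h2 : -(35 / 100 * m) * s ≤ b * s := mul_le_mul_of_nonneg_right hb1 hs0.le
  have h3 : (35 / 100 * m) * s ≤ (35 / 100 * m) * (867 / 1000) :=
    mul_le_mul_of_nonneg_left hs3 (by positivity)
  constructor
  · linarith
  · linarith

theorem j15179_q {q r : ℝ} (hq0 : 0 < q) (hq1 : q < 1) (h3 : 1 / 4 ≤ q ^ 3)
    (h : 1 - q ^ 3 ≤ 2 * r ^ 2) : 0 < 1 / q - 1 ∧ 1 / q - 1 ≤ 8 * r ^ 2 := by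
  have hqq : q ^ 3 ≤ q := by
    calc q ^ 3 = q * (q * q) := by ring
      _ ≤ q * 1 := mul_le_mul_of_nonneg_left (by nlinarith) hq0.le
      _ = q := mul_one q
  have hq4 : 1 / 4 ≤ q := h3.trans hqq
  have hδ : 1 / q - 1 = (1 - q) / q := by field_simp
  rw [hδ]
  constructor
  · exact div_pos (by linarith) hq0
  · rw [div_le_iff₀ hq0]
    have h4 : 8 * r ^ 2 * (1 / 4) ≤ 8 * r ^ 2 * q :=
      mul_le_mul_of_nonneg_left hq4 (by positivity)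
    linarith

theorem j15179_ge {m a b q : ℝ} (hm : 0 ≤ m) (hq : q = m ^ 2) (hab : a ^ 2 + b ^ 2 = q)
    (hq1 : q ≤ 1) (hq0 : 0 ≤ q) (ha : 9 / 10 * m ≤ a) (hb1 : -(35 / 100 * m) ≤ b)
    (hb2 : b ≤ 35 / 100 * m) :
    1 ≤ 1 + (a ^ 2 - b ^ 2) + ((a ^ 2 - b ^ 2) ^ 2 - (2 * a * b) ^ 2) := by
  have h3 : (9 / 10 * m) ^ 2 ≤ a ^ 2 := pow_le_pow_left₀ (by positivity) ha 2
  have h4 : b ^ 2 ≤ (35 / 100 * m) ^ 2 := sq_le_sq' hb1 hb2
  have h3' : 81 / 100 * q ≤ a ^ 2 := by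
    rw [hq]
    have : (9 / 10 * m) ^ 2 = 81 / 100 * m ^ 2 := by ring
    linarith
  have h4' : b ^ 2 ≤ 1225 / 10000 * q := by
    rw [hq]
    have : (35 / 100 * m) ^ 2 = 1225 / 10000 * m ^ 2 := by ring
    linarith
  have h5 : a ^ 2 ≤ q := by
    have := sq_nonneg b
    linarith
  have h6 : a ^ 2 * b ^ 2 ≤ q * (1225 / 10000 * q) := mul_le_mul h5 h4' (sq_nonneg b) hq0
  have h7 : q * q ≤ q * 1 := mul_le_mul_of_nonneg_left hq1 hq0
  have h8 := sq_nonneg (a ^ 2 - b ^ 2)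
  have h9 : (2 * a * b) ^ 2 = 4 * (a ^ 2 * b ^ 2) := by ring
  have h10 : q * (1225 / 10000 * q) = 1225 / 10000 * (q * q) := by ring
  linarith

theorem j15179_im {m a b s q : ℝ} (_hm : 0 ≤ m) (hmh : 1 / 2 ≤ m) (ha : 9 / 10 * m ≤ a)
    (hb2 : b ≤ 35 / 100 * m) (hs4 : 866 / 1000 ≤ s) (hq : 0 < 1 / q - 1) :
    1 / 2 ≤ (a * s - b / 2) * (1 + 1 / q) := by
  have h0 : (9 / 10 * m) * (866 / 1000) ≤ a * s :=
    mul_le_mul ha hs4 (by norm_num) (by linarith)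
  have h1 : 60 / 100 * m ≤ a * s - b / 2 := by linarith
  have h3 : 60 / 100 * m * (1 + 1 / q) ≤ (a * s - b / 2) * (1 + 1 / q) :=
    mul_le_mul_of_nonneg_right h1 (by linarith)
  have h4 : 60 / 100 * m * 2 ≤ 60 / 100 * m * (1 + 1 / q) :=
    mul_le_mul_of_nonneg_left (by linarith) (by positivity)
  linarith

theorem exists_c {r : ℝ} (hr : r ∈ Ioo (0 : ℝ) (1 / 2)) : ∃ y c₀ c₁ c₂ : ℂ, y.re = - r ^ 2 ∧
    Complex.normSq y = r ^ 2 ∧ (∀ x : ℂ, x ^ 3 + 3 * x - y = (x - c₀) * (x - c₁) * (x - c₂)) ∧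
    c₀.re < 0 ∧ 0 < c₁.re ∧ 0 < c₂.re ∧ - c₀.re ≤ 8 * r ^ 2 ∧ c₁.re ≤ 8 * r ^ 2 ∧
    ‖c₀‖ ≤ 2 * r ∧ ‖c₁‖ ≤ 3 ∧ ‖c₂‖ ≤ 3 ∧ 1 / 2 ≤ c₁.im := by
  obtain ⟨p, y, hy1, hy2, hpy, hp1, hp2, hp3, hp4⟩ := exists_p hr
  obtain ⟨w, hw, hwa, hwb⟩ := cube_root hp1 hp2
  set m : ℝ := ‖w‖ with hm
  have hm0 : 0 ≤ m := norm_nonneg _
  have hm3 : m ^ 3 = ‖p‖ := by rw [← hw, norm_pow]
  have hpre : 1 / 2 ≤ ‖p‖ := hp2.trans (Complex.re_le_norm p)
  have hm3' : 1 / 2 ≤ m ^ 3 := by rw [hm3]; exact hpre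
  have hm3'' : m ^ 3 < 1 := by rw [hm3]; exact hp1
  obtain ⟨hm1, hmh⟩ := j15179_m hm0 hm3' hm3''
  have hmpos : 0 < m := by linarith
  have hw0 : w ≠ 0 := norm_pos_iff.1 hmpos
  set q : ℝ := m ^ 2 with hq
  have hqn : Complex.normSq w = q := by rw [hq, hm, Complex.sq_norm]
  have hqab : w.re ^ 2 + w.im ^ 2 = q := by
    rw [← hqn, Complex.normSq_apply]; ring
  have hqpos : 0 < q := by rw [hq]; positivity
  have hq1 : q < 1 := by rw [hq]; exact pow_lt_one₀ hm0 hm1 two_ne_zero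
  have hq3 : q ^ 3 = ‖p‖ ^ 2 := by rw [hq, ← hm3]; ring
  have hq3' : 1 / 4 ≤ q ^ 3 := by
    rw [hq3]
    have := pow_le_pow_left₀ (by norm_num) hpre 2
    norm_num at this ⊢
    linarith
  obtain ⟨hδ0, hδ8⟩ := j15179_q hqpos hq1 hq3' (by rw [hq3]; exact hp3)
  set a : ℝ := w.re with ha
  set b : ℝ := w.im with hb
  obtain ⟨hb1, hb2⟩ := abs_le.1 hwb
  have ha1 : a ≤ m := Complex.re_le_norm w
  set s : ℝ := √3 / 2 with hs
  obtain ⟨hs2, hs3, hs4, hspos⟩ := j15179_s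
  rw [← hs] at hs2 hs3 hs4 hspos
  obtain ⟨hbs1, hbs2⟩ := j15179_bs hm0 hb1 hb2 hspos hs3
  have hur : (w⁻¹).re = a / q := by rw [Complex.inv_re, hqn]
  have hui : (w⁻¹).im = -b / q := by rw [Complex.inv_im, hqn]
  set ρ : ℂ := ⟨-1/2, s⟩ with hρ
  set ρ' : ℂ := ⟨-1/2, -s⟩ with hρ'
  have hρn : ‖ρ‖ = 1 := j15179_norm_one hs2
  have hρn' : ‖ρ'‖ = 1 := j15179_norm_one (by rw [neg_sq]; exact hs2)
  have hρs : ρ + ρ' = -1 := by
    apply Complex.ext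
    · simp [hρ, hρ']
    · simp [hρ, hρ']
  have hρp : ρ * ρ' = 1 := by
    apply Complex.ext
    · simp [hρ, hρ']; linarith [hs2, pow_two s]
    · simp [hρ, hρ']; ring
  have hp0 : p ≠ 0 := by
    intro h
    rw [h, norm_zero] at hpre
    norm_num at hpre
  have hwu : w * w⁻¹ = 1 := mul_inv_cancel₀ hw0
  have hyw : y = w ^ 3 - w⁻¹ ^ 3 := by
    have h1 : y * p = (w ^ 3 - w⁻¹ ^ 3) * p := by
      rw [← hpy, sub_mul, ← hw, ← mul_pow w⁻¹ w, inv_mul_cancel₀ hw0]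
      ring
    exact mul_right_cancel₀ hp0 h1
  have hnu : ‖w⁻¹‖ ≤ 2 := by
    rw [norm_inv, ← hm, inv_eq_one_div, div_le_iff₀ hmpos]
    linarith
  have c0re : (w - w⁻¹).re = -(a * (1 / q - 1)) := by
    rw [Complex.sub_re, hur, ← ha]; ring
  have c1re : (w * ρ - w⁻¹ * ρ').re = (a / 2 + b * s) * (1 / q - 1) := by
    rw [Complex.sub_re, Complex.mul_re, Complex.mul_re, hur, hui, ← ha, ← hb]
    simp only [hρ, hρ']
    ring
  have c2re : (w * ρ' - w⁻¹ * ρ).re = (a / 2 - b * s) * (1 / q - 1) := by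
    rw [Complex.sub_re, Complex.mul_re, Complex.mul_re, hur, hui, ← ha, ← hb]
    simp only [hρ, hρ']
    ring
  have c1im : (w * ρ - w⁻¹ * ρ').im = (a * s - b / 2) * (1 + 1 / q) := by
    rw [Complex.sub_im, Complex.mul_im, Complex.mul_im, hur, hui, ← ha, ← hb]
    simp only [hρ, hρ']
    ring
  refine ⟨y, w - w⁻¹, w * ρ - w⁻¹ * ρ', w * ρ' - w⁻¹ * ρ, hy1, hy2,
    fun x => j15179_alg hwu hρs hρp hyw x, ?_, ?_, ?_, ?_, ?_, ?_, ?_, ?_, ?_⟩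
  · rw [c0re]
    have h9 : 0 < a := by linarith
    have := mul_pos h9 hδ0
    linarith
  · rw [c1re]
    exact mul_pos (by linarith) hδ0
  · rw [c2re]
    exact mul_pos (by linarith) hδ0
  · rw [c0re, neg_neg]
    have h1 : a * (1 / q - 1) ≤ 1 * (1 / q - 1) :=
      mul_le_mul_of_nonneg_right (by linarith) hδ0.le
    linarith
  · rw [c1re]
    have h1 : (a / 2 + b * s) * (1 / q - 1) ≤ 1 * (1 / q - 1) :=
      mul_le_mul_of_nonneg_right (by linarith) hδ0.le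
    linarith
  · have h1 : ‖1 - w ^ 2‖ ≤ r := by
      have e1 : 1 - p ^ 2 = (1 - w ^ 2) * (1 + w ^ 2 + w ^ 4) := by rw [← hw]; ring
      rw [e1, norm_mul] at hp4
      have h2 : 1 ≤ ‖1 + w ^ 2 + w ^ 4‖ := by
        refine le_trans ?_ (Complex.re_le_norm _)
        have e2 : (1 + w ^ 2 + w ^ 4).re =
            1 + (a ^ 2 - b ^ 2) + ((a ^ 2 - b ^ 2) ^ 2 - (2 * a * b) ^ 2) := by
          have e3 : w ^ 4 = (w ^ 2) ^ 2 := by ring
          rw [e3, Complex.add_re, Complex.add_re, pow_two (w ^ 2), Complex.mul_re, pow_two w,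
            Complex.mul_re, Complex.mul_im, Complex.one_re]
          ring
        rw [e2]
        exact j15179_ge hm0 hq hqab hq1.le hqpos.le hwa hb1 hb2
      calc ‖1 - w ^ 2‖ = ‖1 - w ^ 2‖ * 1 := (mul_one _).symm
        _ ≤ ‖1 - w ^ 2‖ * ‖1 + w ^ 2 + w ^ 4‖ := mul_le_mul_of_nonneg_left h2 (norm_nonneg _)
        _ ≤ r := hp4
    have e3 : w - w⁻¹ = -((1 - w ^ 2) * w⁻¹) := by
      field_simp
      ring
    rw [e3, norm_neg, norm_mul]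
    calc ‖1 - w ^ 2‖ * ‖w⁻¹‖ ≤ r * 2 := mul_le_mul h1 hnu (norm_nonneg _) hr.1.le
      _ = 2 * r := by ring
  · calc ‖w * ρ - w⁻¹ * ρ'‖ ≤ ‖w * ρ‖ + ‖w⁻¹ * ρ'‖ := norm_sub_le _ _
      _ = m + ‖w⁻¹‖ := by rw [norm_mul, norm_mul, hρn, hρn', mul_one, mul_one]
      _ ≤ 3 := by linarith
  · calc ‖w * ρ' - w⁻¹ * ρ‖ ≤ ‖w * ρ'‖ + ‖w⁻¹ * ρ‖ := norm_sub_le _ _
      _ = m + ‖w⁻¹‖ := by rw [norm_mul, norm_mul, hρn, hρn', mul_one, mul_one]
      _ ≤ 3 := by linarith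
  · rw [c1im]
    exact j15179_im hm0 hmh hwa hb2 hs4 hδ0

theorem zeta_aux_norm {z : ℂ} (h : 1 ≤ z.re) : 1 ≤ ‖z‖ :=
  h.trans ((le_abs_self _).trans (Complex.abs_re_le_norm z))

theorem zeta_aux_sq {z : ℂ} (hz : 0 < z.re) :
    1 - ‖(z - 1) / (z + 1)‖ ^ 2 = 4 * z.re / ‖z + 1‖ ^ 2 := by
  have h1 : 1 ≤ ‖z + 1‖ := zeta_aux_norm (by simp; linarith)
  have h2 : ‖z + 1‖ ^ 2 ≠ 0 := by positivity
  rw [norm_div, div_pow, eq_div_iff h2, sub_mul, div_mul_cancel₀ _ h2, Complex.sq_norm,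
    Complex.sq_norm, Complex.normSq_apply, Complex.normSq_apply]
  simp
  ring

theorem zeta_aux_lt {z : ℂ} (hz : 0 < z.re) : ‖(z - 1) / (z + 1)‖ < 1 := by
  have h1 : 1 ≤ ‖z + 1‖ := zeta_aux_norm (by simp; linarith)
  have h2 := zeta_aux_sq hz
  have h3 : 0 < 4 * z.re / ‖z + 1‖ ^ 2 := by positivity
  have h4 : 0 ≤ ‖(z - 1) / (z + 1)‖ := norm_nonneg _
  nlinarith

theorem zeta_aux_le {z : ℂ} (hz : 0 < z.re) : 1 - ‖(z - 1) / (z + 1)‖ ^ 2 ≤ 4 * z.re := by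
  have h1 : 1 ≤ ‖z + 1‖ := zeta_aux_norm (by simp; linarith)
  rw [zeta_aux_sq hz]
  exact div_le_self (by linarith) (one_le_pow₀ h1)

theorem exists_zeta {r : ℝ} (hr : r ∈ Ioo (0 : ℝ) (1 / 2)) : ∃ y a b c K : ℂ, y.re = - r ^ 2 ∧
    Complex.normSq y = r ^ 2 ∧ ‖a‖ < 1 ∧ ‖b‖ < 1 ∧ ‖c‖ < 1 ∧
    (∀ Z : ℂ, vv Z - y * uu Z = K * ((Z - a) * (Z - b) * (1 - c * Z))) ∧
    1 - ‖a‖ ^ 2 ≤ 32 * r ^ 2 ∧ 1 - ‖c‖ ^ 2 ≤ 32 * r ^ 2 ∧ ‖1 - a * b‖ ≤ 6 * r ∧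
    ‖1 - c ^ 2‖ ≤ 8 * r ∧ 1 / 16 ≤ |a.im| ∧ ‖K‖ ≤ 64 := by
  obtain ⟨y, c₀, c₁, c₂, y1, y2, hp, g0, g1, g2, k0, k1, n0, n1, n2, i1⟩ := exists_c hr
  obtain ⟨hr0, hr1⟩ := hr
  have e0 := hp 0
  have e1 := hp 1
  have e2 := hp (-1)
  have s3 : c₀ * c₁ * c₂ = y := by linear_combination e0
  have s1 : c₀ + c₁ + c₂ = 0 := by linear_combination (1 / 2) * e1 + (1 / 2) * e2 - e0
  have s2 : c₀ * c₁ + c₀ * c₂ + c₁ * c₂ = 3 := by
    linear_combination (-1 / 2) * e1 + (1/2) * e2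
  have p0 : 1 ≤ ‖1 - c₀‖ := zeta_aux_norm (by simp; linarith)
  have p1 : 1 ≤ ‖c₁ + 1‖ := zeta_aux_norm (by simp; linarith)
  have p2 : 1 ≤ ‖c₂ + 1‖ := zeta_aux_norm (by simp; linarith)
  have q0 : 1 - c₀ ≠ 0 := by
    intro h; rw [h, norm_zero] at p0; linarith
  have q1 : c₁ + 1 ≠ 0 := by
    intro h; rw [h, norm_zero] at p1; linarith
  have q2 : c₂ + 1 ≠ 0 := by
    intro h; rw [h, norm_zero] at p2; linarith
  have ec : -(1 + c₀) / (1 - c₀) = (-c₀ - 1) / (-c₀ + 1) := by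
    congr 1 <;> ring
  have g0' : 0 < (-c₀).re := by rw [Complex.neg_re]; linarith
  refine ⟨y, (c₁ - 1) / (c₁ + 1), (c₂ - 1) / (c₂ + 1), -(1 + c₀) / (1 - c₀),
    (c₁ + 1) * (c₂ + 1) * (1 - c₀), y1, y2, zeta_aux_lt g1, zeta_aux_lt g2, ?_, ?_, ?_, ?_, ?_,
    ?_, ?_, ?_⟩
  · rw [ec]; exact zeta_aux_lt g0'
  · intro Z
    have h1 : vv Z - y * uu Z = ((c₁ + 1) * Z + (1 - c₁)) * ((c₂ + 1) * Z + (1 - c₂)) *
        ((1 - c₀) + (1 + c₀) * Z) := by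
      unfold vv uu
      linear_combination (1 - Z) ^ 3 * s3 + (1 + Z) ^ 2 * (1 - Z) * s1 -
        (1 + Z) * (1 - Z) ^ 2 * s2
    rw [h1]
    field_simp
    ring
  · have := zeta_aux_le g1
    linarith
  · rw [ec]
    have := zeta_aux_le g0'
    rw [Complex.neg_re] at this
    linarith
  · have h1 : 1 - (c₁ - 1) / (c₁ + 1) * ((c₂ - 1) / (c₂ + 1)) =
        -(2 * c₀) / ((c₁ + 1) * (c₂ + 1)) := by
      field_simp
      linear_combination 2 * s1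
    rw [h1, norm_div, norm_neg, norm_mul, norm_mul]
    have h2 : 1 ≤ ‖c₁ + 1‖ * ‖c₂ + 1‖ := one_le_mul_of_one_le_of_one_le p1 p2
    refine (div_le_self (by positivity) h2).trans ?_
    rw [Complex.norm_ofNat]
    linarith
  · have h1 : 1 - (-(1 + c₀) / (1 - c₀)) ^ 2 = -(4 * c₀) / (1 - c₀) ^ 2 := by
      field_simp
      ring
    rw [h1, norm_div, norm_neg, norm_mul, norm_pow, Complex.norm_ofNat]
    refine (div_le_self (by positivity) (one_le_pow₀ p0)).trans ?_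
    linarith
  · have h1 : ((c₁ - 1) / (c₁ + 1)).im = 2 * c₁.im / ‖c₁ + 1‖ ^ 2 := by
      rw [Complex.sq_norm, Complex.div_im]
      simp
      ring
    have h2 : ‖c₁ + 1‖ ≤ 4 := by
      have := norm_add_le c₁ 1
      rw [norm_one] at this
      linarith
    have h3 : ‖c₁ + 1‖ ^ 2 ≤ 16 := by nlinarith
    have h4 : 0 < ‖c₁ + 1‖ ^ 2 := by positivity
    rw [h1]
    refine le_trans ?_ (le_abs_self _)
    rw [div_le_div_iff₀ (by norm_num) h4]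
    nlinarith
  · have h1 : ‖c₁ + 1‖ ≤ 4 := by
      have := norm_add_le c₁ 1
      rw [norm_one] at this
      linarith
    have h2 : ‖c₂ + 1‖ ≤ 4 := by
      have := norm_add_le c₂ 1
      rw [norm_one] at this
      linarith
    have h3 : ‖1 - c₀‖ ≤ 4 := by
      have := norm_sub_le 1 c₀
      rw [norm_one] at this
      linarith
    rw [norm_mul, norm_mul]
    calc ‖c₁ + 1‖ * ‖c₂ + 1‖ * ‖1 - c₀‖ ≤ 4 * 4 * 4 := by gcongr
      _ = 64 := by norm_num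

/-- Factorisation of `F1 - lam r` on the circle. -/
theorem fact1 {r : ℝ} {y a b c K K₁ a₁ a₂ a₀ K₂ b₁ b₂ b₀ Z X : ℂ} (h1 : y.re = - r ^ 2)
    (h2 : Complex.normSq y = r ^ 2)
    (hy : ∀ Z : ℂ, vv Z - y * uu Z = K * ((Z - a) * (Z - b) * (1 - c * Z)))
    (h₁ : ∀ Z : ℂ, vv Z - (-1 : ℝ) * uu Z = K₁ * ((Z - a₁) * (Z - a₂) * (1 - a₀ * Z)))
    (h₂ : ∀ Z : ℂ, vv Z - (-1 / 3 : ℝ) * uu Z = K₂ * ((Z - b₁) * (Z - b₂) * (1 - b₀ * Z)))
    (hK₁ : K₁ ≠ 0) (hK₂ : K₂ ≠ 0) (hZ : ‖Z‖ = 1) (hX : Z * X = 1) :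
    F1 Z - lam r = (4 * (K * conj K) / (3 * (1 + 3 * r ^ 2) * (K₁ * K₂))) * Z *
      (((1 - a * X) * (1 - b * X) * ((1 - conj a * X) * (1 - conj b * X))) *
        ((1 - c * Z) * (1 - conj c * Z))) /
      (((1 - a₀ * X) * ((1 - b₁ * X) * (1 - b₂ * X))) *
        ((1 - a₁ * Z) * (1 - a₂ * Z) * (1 - b₀ * Z))) := by
  have hZ0 : Z ≠ 0 := by
    intro h0
    rw [h0, zero_mul] at hX
    exact zero_ne_one hX
  have hr0 : (1 + 3 * (r : ℂ) ^ 2) ≠ 0 := by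
    have : (1 + 3 * r ^ 2 : ℝ) ≠ 0 := by positivity
    exact_mod_cast this
  have A1 : vv Z - y * uu Z = K * Z ^ 2 * ((1 - a * X) * (1 - b * X)) * (1 - c * Z) := by
    rw [hy]
    have e1 : Z - a = Z * (1 - a * X) := by linear_combination a * hX
    have e2 : Z - b = Z * (1 - b * X) := by linear_combination b * hX
    rw [e1, e2]
    ring
  have A2 : vv Z - conj y * uu Z = conj K * Z ^ 2 * ((1 - conj a * X) * (1 - conj b * X)) *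
      (1 - conj c * Z) := by
    have h3 := congrArg conj (hy (conj Z))
    have h4 : conj (vv (conj Z)) = vv Z := by simp [vv, Complex.conj_ofNat]
    have h5 : conj (uu (conj Z)) = uu Z := by simp [uu]
    simp only [map_sub, map_mul, map_one, Complex.conj_conj, h4, h5] at h3
    rw [h3]
    have e1 : Z - conj a = Z * (1 - conj a * X) := by linear_combination (conj a) * hX
    have e2 : Z - conj b = Z * (1 - conj b * X) := by linear_combination (conj b) * hX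
    rw [e1, e2]
    ring
  have A3 : uu Z - vv Z = -(K₁ * Z * ((1 - a₁ * Z) * (1 - a₂ * Z)) * (1 - a₀ * X)) := by
    have h3 := h₁ X
    have e1 : uu X = -(uu Z * X ^ 3) := by
      have : 1 - X = -((1 - Z) * X) := by linear_combination -hX
      rw [uu, uu, this]
      ring
    have e2 : vv X = vv Z * X ^ 3 := by
      rw [vv, vv]
      have : Z ^ 3 * X ^ 3 = 1 := by rw [← mul_pow, hX, one_pow]
      linear_combination -4 * this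
    have hX3 : Z ^ 3 * X ^ 3 = 1 := by rw [← mul_pow, hX, one_pow]
    have e3 : Z * (X - a₁) = 1 - a₁ * Z := by linear_combination hX
    have e4 : Z * (X - a₂) = 1 - a₂ * Z := by linear_combination hX
    rw [← e3, ← e4]
    rw [e1, e2] at h3
    have h4 := congrArg (fun t => Z ^ 3 * t) h3
    simp only [Complex.ofReal_neg, Complex.ofReal_one] at h4
    have h5 : Z ^ 3 * (vv Z * X ^ 3 - -1 * -(uu Z * X ^ 3)) = vv Z - uu Z := by
      linear_combination (vv Z - uu Z) * hX3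
    rw [h5] at h4
    linear_combination -h4
  have A4 : uu Z + 3 * vv Z = 3 * (K₂ * Z ^ 2 * ((1 - b₁ * X) * (1 - b₂ * X)) * (1 - b₀ * Z)) := by
    have h3 := h₂ Z
    have e1 : Z - b₁ = Z * (1 - b₁ * X) := by linear_combination b₁ * hX
    have e2 : Z - b₂ = Z * (1 - b₂ * X) := by linear_combination b₂ * hX
    rw [e1, e2] at h3
    have h4 : ((-1 / 3 : ℝ) : ℂ) = -1 / 3 := by push_cast; ring
    rw [h4] at h3
    linear_combination 3 * h3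
  obtain ⟨hd1, hd2⟩ := den1_ne hZ
  rw [A3] at hd1
  rw [A4] at hd2
  have hD : ((1 - a₀ * X) * ((1 - b₁ * X) * (1 - b₂ * X))) *
        ((1 - a₁ * Z) * (1 - a₂ * Z) * (1 - b₀ * Z)) ≠ 0 := by
    intro h0
    have h6 : (-(K₁ * Z * ((1 - a₁ * Z) * (1 - a₂ * Z)) * (1 - a₀ * X))) *
        (3 * (K₂ * Z ^ 2 * ((1 - b₁ * X) * (1 - b₂ * X)) * (1 - b₀ * Z))) = 0 := by
      linear_combination (-3 * K₁ * K₂ * Z ^ 3) * h0
    rcases mul_eq_zero.1 h6 with h | h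
    · exact hd1 h
    · exact hd2 h
  rw [F1_sub hZ h1 h2, A1, A2, A3, A4]
  set D := ((1 - a₀ * X) * ((1 - b₁ * X) * (1 - b₂ * X))) *
        ((1 - a₁ * Z) * (1 - a₂ * Z) * (1 - b₀ * Z)) with hDdef
  set M := (((1 - a * X) * (1 - b * X) * ((1 - conj a * X) * (1 - conj b * X))) *
        ((1 - c * Z) * (1 - conj c * Z))) with hMdef
  have g1 : K * Z ^ 2 * ((1 - a * X) * (1 - b * X)) * (1 - c * Z) *
      (conj K * Z ^ 2 * ((1 - conj a * X) * (1 - conj b * X)) * (1 - conj c * Z)) =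
      K * conj K * Z ^ 4 * M := by rw [hMdef]; ring
  have g2 : -(K₁ * Z * ((1 - a₁ * Z) * (1 - a₂ * Z)) * (1 - a₀ * X)) *
      (3 * (K₂ * Z ^ 2 * ((1 - b₁ * X) * (1 - b₂ * X)) * (1 - b₀ * Z))) =
      -(3 * K₁ * K₂ * Z ^ 3 * D) := by rw [hDdef]; ring
  rw [g1, g2]
  clear_value D M
  field_simp

theorem t1_low {α z : ℂ} (hz : ‖z‖ ≤ 1) : 1 - ‖α‖ ≤ ‖1 - α * z‖ := by
  have h := norm_sub_norm_le (1 : ℂ) (α * z)
  rw [norm_one, norm_mul] at h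
  have : ‖α‖ * ‖z‖ ≤ ‖α‖ := mul_le_of_le_one_right (norm_nonneg _) hz
  linarith

theorem t1_ne {α z : ℂ} (hα : ‖α‖ < 1) (hz : ‖z‖ ≤ 1) : 1 - α * z ≠ 0 := by
  intro h
  have := t1_low (α := α) hz
  rw [h, norm_zero] at this
  linarith

theorem t1_up {α z : ℂ} (hα : ‖α‖ ≤ 1) (hz : ‖z‖ ≤ 1) : ‖1 - α * z‖ ≤ 2 := by
  have h := norm_sub_le (1 : ℂ) (α * z)
  rw [norm_one, norm_mul] at h
  have : ‖α‖ * ‖z‖ ≤ 1 := mul_le_one₀ hα (norm_nonneg _) hz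
  linarith

theorem t1_alg (G Z A P₁ P₂ Dm Dp a a' : ℂ) (h1 : P₁ ≠ 0) (h2 : P₂ ≠ 0) (h3 : Dm ≠ 0)
    (h4 : Dp ≠ 0) (h5 : 1 - a' * Z ≠ 0) (h6 : 1 - a * Z ≠ 0) (h7 : a' - a ≠ 0) :
    G * Z * (A * (P₁ * P₂)) / (Dm * Dp) * (Dp / (P₁ * P₂ * (1 - a' * Z) * (1 - a * Z))) =
      (G * A / (Dm * (a' - a))) / (1 - a' * Z) + (-(G * A / (Dm * (a' - a)))) / (1 - a * Z) := by
  obtain ⟨U, hU⟩ : ∃ U, U = 1 - a' * Z := ⟨_, rfl⟩
  obtain ⟨W, hW⟩ : ∃ W, W = 1 - a * Z := ⟨_, rfl⟩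
  obtain ⟨D, hD⟩ : ∃ D, D = a' - a := ⟨_, rfl⟩
  rw [← hU] at h5 ⊢
  rw [← hW] at h6 ⊢
  rw [← hD] at h7 ⊢
  have hrel : D * Z = W - U := by rw [hU, hW, hD]; ring
  field_simp
  linear_combination (G * A) * hrel

theorem t1_real {E d r s u v x ψ Q : ℝ} (hE : 0 ≤ E) (hd : 0 < d) (hr : 0 < r) (hs : 0 ≤ s)
    (hs' : s ≤ 32 * r ^ 2) (hu : 0 < u) (hu' : u ≤ 32 * r ^ 2) (hv : 0 ≤ v) (hv' : v ≤ 6 * r)
    (hx : 0 < x) (hx' : x ≤ 8 * r) (hψ : 0 ≤ ψ) (hψ' : ψ ≤ E * s * v)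
    (hQ : d / (4 * (u * x)) ≤ Q) :
    ψ ^ 2 ≤ (6144 * E / d * r ^ 4) ^ 2 * (Q ^ 2 * u) * s := by
  have e1 : s * u * (v ^ 2 * x ^ 2) ≤ 2359296 * r ^ 8 := by
    have h1 : s * u ≤ (32 * r ^ 2) * (32 * r ^ 2) := mul_le_mul hs' hu' hu.le (by positivity)
    have h2 : v ^ 2 ≤ (6 * r) ^ 2 := pow_le_pow_left₀ hv hv' 2
    have h3 : x ^ 2 ≤ (8 * r) ^ 2 := pow_le_pow_left₀ hx.le hx' 2
    have h4 : v ^ 2 * x ^ 2 ≤ (6 * r) ^ 2 * (8 * r) ^ 2 :=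
      mul_le_mul h2 h3 (by positivity) (by positivity)
    calc s * u * (v ^ 2 * x ^ 2) ≤ ((32 * r ^ 2) * (32 * r ^ 2)) * ((6 * r) ^ 2 * (8 * r) ^ 2) :=
          mul_le_mul h1 h4 (by positivity) (by positivity)
      _ = 2359296 * r ^ 8 := by ring
  have e2 : ψ ^ 2 ≤ (E * s * v) ^ 2 := pow_le_pow_left₀ hψ hψ' 2
  have e3 : (d / (4 * (u * x))) ^ 2 ≤ Q ^ 2 := pow_le_pow_left₀ (by positivity) hQ 2
  have e4 : (6144 * E / d * r ^ 4) ^ 2 * ((d / (4 * (u * x))) ^ 2 * u) * s ≤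
      (6144 * E / d * r ^ 4) ^ 2 * (Q ^ 2 * u) * s := by
    have h1 : (d / (4 * (u * x))) ^ 2 * u ≤ Q ^ 2 * u := mul_le_mul_of_nonneg_right e3 hu.le
    exact mul_le_mul_of_nonneg_right (mul_le_mul_of_nonneg_left h1 (by positivity)) hs
  refine e2.trans (le_trans ?_ e4)
  have e5 : (6144 * E / d * r ^ 4) ^ 2 * ((d / (4 * (u * x))) ^ 2 * u) * s =
      (2359296 * r ^ 8) * E ^ 2 * s / (u * x ^ 2) := by
    field_simp
    ring
  rw [e5, le_div_iff₀ (by positivity)]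
  calc (E * s * v) ^ 2 * (u * x ^ 2) = (s * u * (v ^ 2 * x ^ 2)) * (E ^ 2 * s) := by ring
    _ ≤ (2359296 * r ^ 8) * (E ^ 2 * s) := mul_le_mul_of_nonneg_right e1 (by positivity)
    _ = (2359296 * r ^ 8) * E ^ 2 * s := by ring

noncomputable def t1q (a c a₁ a₂ b₀ z : ℂ) : ℂ :=
  ((1 - a₁ * z) * (1 - a₂ * z) * (1 - b₀ * z)) /
    ((1 - c * z) * (1 - conj c * z) * (1 - conj a * z) * (1 - a * z))

noncomputable def t1A (a b x : ℂ) : ℂ :=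
  (1 - a * x) * (1 - b * x) * ((1 - conj a * x) * (1 - conj b * x))

noncomputable def t1D (a₀ b₁ b₂ x : ℂ) : ℂ := (1 - a₀ * x) * ((1 - b₁ * x) * (1 - b₂ * x))

noncomputable def t1psi (G a b a₀ b₁ b₂ x : ℂ) : ℂ :=
  G * t1A a b x / (t1D a₀ b₁ b₂ x * (conj a - a))

theorem t1_prod_low {α β γ z : ℂ} (hα : ‖α‖ < 1) (hβ : ‖β‖ < 1) (hγ : ‖γ‖ < 1) (hz : ‖z‖ ≤ 1) :
    (1 - ‖α‖) * (1 - ‖β‖) * (1 - ‖γ‖) ≤ ‖1 - α * z‖ * ‖1 - β * z‖ * ‖1 - γ * z‖ := by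
  have h1 := t1_low (α := α) hz
  have h2 := t1_low (α := β) hz
  have h3 := t1_low (α := γ) hz
  have p1 : 0 < 1 - ‖α‖ := by linarith
  have p2 : 0 < 1 - ‖β‖ := by linarith
  have p3 : 0 < 1 - ‖γ‖ := by linarith
  exact mul_le_mul (mul_le_mul h1 h2 p2.le (norm_nonneg _)) h3 p3.le (by positivity)

theorem t1q_diff {a c a₁ a₂ b₀ : ℂ} (ha : ‖a‖ < 1) (hc : ‖c‖ < 1) :
    DifferentiableOn ℂ (t1q a c a₁ a₂ b₀) (closedBall 0 1) := by
  have hca : ‖conj a‖ < 1 := by rwa [RCLike.norm_conj]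
  have hcc : ‖conj c‖ < 1 := by rwa [RCLike.norm_conj]
  intro z hz
  have hz' : ‖z‖ ≤ 1 := mem_closedBall_zero_iff.mp hz
  have hne : (1 - c * z) * (1 - conj c * z) * (1 - conj a * z) * (1 - a * z) ≠ 0 :=
    mul_ne_zero (mul_ne_zero (mul_ne_zero (t1_ne hc hz') (t1_ne hcc hz')) (t1_ne hca hz'))
      (t1_ne ha hz')
  have h : DifferentiableAt ℂ (fun z : ℂ => ((1 - a₁ * z) * (1 - a₂ * z) * (1 - b₀ * z)) /
    ((1 - c * z) * (1 - conj c * z) * (1 - conj a * z) * (1 - a * z))) z := by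
    refine DifferentiableAt.div ?_ ?_ hne
    · fun_prop
    · fun_prop
  exact h.differentiableWithinAt

theorem t1psi_diff {G a b a₀ b₁ b₂ : ℂ} (h0 : ‖a₀‖ < 1) (h1 : ‖b₁‖ < 1) (h2 : ‖b₂‖ < 1)
    (ha : conj a - a ≠ 0) :
    DifferentiableOn ℂ (t1psi G a b a₀ b₁ b₂) (closedBall 0 1) := by
  intro z hz
  have hz' : ‖z‖ ≤ 1 := mem_closedBall_zero_iff.mp hz
  have hne : ((1 - a₀ * z) * ((1 - b₁ * z) * (1 - b₂ * z))) * (conj a - a) ≠ 0 :=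
    mul_ne_zero (mul_ne_zero (t1_ne h0 hz') (mul_ne_zero (t1_ne h1 hz') (t1_ne h2 hz'))) ha
  have h : DifferentiableAt ℂ (fun z : ℂ => G * ((1 - a * z) * (1 - b * z) *
      ((1 - conj a * z) * (1 - conj b * z))) /
      (((1 - a₀ * z) * ((1 - b₁ * z) * (1 - b₂ * z))) * (conj a - a))) z := by
    refine DifferentiableAt.div ?_ ?_ hne
    · fun_prop
    · fun_prop
  exact h.differentiableWithinAt

theorem t1_mul_conj {a : ℂ} (ha : ‖a‖ < 1) : ‖1 - a * conj a‖ = 1 - ‖a‖ ^ 2 := by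
  have h1 : 1 - a * conj a = ((1 - ‖a‖ ^ 2 : ℝ) : ℂ) := by
    rw [Complex.mul_conj']
    push_cast
    ring
  rw [h1, Complex.norm_real, Real.norm_eq_abs, abs_of_nonneg]
  nlinarith [norm_nonneg a]

theorem t1A_conj {a b : ℂ} (ha : ‖a‖ < 1) (hb : ‖b‖ < 1) :
    ‖t1A a b (conj a)‖ ≤ 4 * ((1 - ‖a‖ ^ 2) * ‖1 - a * b‖) := by
  have hca : ‖conj a‖ < 1 := by rwa [RCLike.norm_conj]
  unfold t1A
  rw [norm_mul, norm_mul, norm_mul, t1_mul_conj ha]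
  have e1 : ‖1 - conj b * conj a‖ = ‖1 - a * b‖ := by
    rw [← RCLike.norm_conj (1 - a * b)]
    congr 1
    rw [map_sub, map_mul, map_one, mul_comm]
  rw [e1]
  have h1 : ‖1 - b * conj a‖ ≤ 2 := t1_up hb.le hca.le
  have h2 : ‖1 - conj a * conj a‖ ≤ 2 := t1_up hca.le hca.le
  have h3 : 0 ≤ 1 - ‖a‖ ^ 2 := by nlinarith [norm_nonneg a]
  have h4 : ‖1 - b * conj a‖ * ‖1 - conj a * conj a‖ ≤ 2 * 2 :=
    mul_le_mul h1 h2 (norm_nonneg _) (by norm_num)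
  calc (1 - ‖a‖ ^ 2) * ‖1 - b * conj a‖ * (‖1 - conj a * conj a‖ * ‖1 - a * b‖)
      = (‖1 - b * conj a‖ * ‖1 - conj a * conj a‖) * ((1 - ‖a‖ ^ 2) * ‖1 - a * b‖) := by ring
    _ ≤ (2 * 2) * ((1 - ‖a‖ ^ 2) * ‖1 - a * b‖) := mul_le_mul_of_nonneg_right h4 (by positivity)
    _ = 4 * ((1 - ‖a‖ ^ 2) * ‖1 - a * b‖) := by ring

theorem t1A_self {a b : ℂ} (ha : ‖a‖ < 1) (hb : ‖b‖ < 1) :
    ‖t1A a b a‖ ≤ 4 * ((1 - ‖a‖ ^ 2) * ‖1 - a * b‖) := by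
  have hcb : ‖conj b‖ < 1 := by rwa [RCLike.norm_conj]
  unfold t1A
  rw [norm_mul, norm_mul, norm_mul]
  have e1 : ‖1 - conj a * a‖ = 1 - ‖a‖ ^ 2 := by
    rw [mul_comm (conj a) a]; exact t1_mul_conj ha
  have e2 : ‖1 - b * a‖ = ‖1 - a * b‖ := by rw [mul_comm b a]
  rw [e1, e2]
  have h1 : ‖1 - a * a‖ ≤ 2 := t1_up ha.le ha.le
  have h2 : ‖1 - conj b * a‖ ≤ 2 := t1_up hcb.le ha.le
  have h3 : 0 ≤ 1 - ‖a‖ ^ 2 := by nlinarith [norm_nonneg a]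
  have h4 : ‖1 - a * a‖ * ‖1 - conj b * a‖ ≤ 2 * 2 :=
    mul_le_mul h1 h2 (norm_nonneg _) (by norm_num)
  calc ‖1 - a * a‖ * ‖1 - a * b‖ * ((1 - ‖a‖ ^ 2) * ‖1 - conj b * a‖)
      = (‖1 - a * a‖ * ‖1 - conj b * a‖) * ((1 - ‖a‖ ^ 2) * ‖1 - a * b‖) := by ring
    _ ≤ (2 * 2) * ((1 - ‖a‖ ^ 2) * ‖1 - a * b‖) := mul_le_mul_of_nonneg_right h4 (by positivity)
    _ = 4 * ((1 - ‖a‖ ^ 2) * ‖1 - a * b‖) := by ring

theorem t1psi_bound {G a b a₀ b₁ b₂ x : ℂ} {g S d : ℝ} (hG : ‖G‖ ≤ g)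
    (hS : ‖t1A a b x‖ ≤ 4 * S) (hd : 0 < d)
    (hd' : d ≤ ‖t1D a₀ b₁ b₂ x‖) (ha : 1 / 8 ≤ ‖conj a - a‖) :
    ‖t1psi G a b a₀ b₁ b₂ x‖ ≤ 32 * g / d * S := by
  have hS0 : 0 ≤ S := by
    have := norm_nonneg (t1A a b x)
    linarith
  have hg0 : 0 ≤ g := (norm_nonneg _).trans hG
  unfold t1psi
  rw [norm_div, norm_mul, norm_mul]
  have h1 : ‖G‖ * ‖t1A a b x‖ ≤ g * (4 * S) := mul_le_mul hG hS (norm_nonneg _) hg0
  have h2 : d * (1 / 8) ≤ ‖t1D a₀ b₁ b₂ x‖ * ‖conj a - a‖ :=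
    mul_le_mul hd' ha (by norm_num) (norm_nonneg _)
  calc ‖G‖ * ‖t1A a b x‖ / (‖t1D a₀ b₁ b₂ x‖ * ‖conj a - a‖)
      ≤ g * (4 * S) / (d * (1 / 8)) := by
        apply div_le_div₀ (by positivity) h1 (by positivity) h2
    _ = 32 * g / d * S := by
        field_simp
        ring

theorem t1_im {a : ℂ} (ha : 1 / 16 ≤ |a.im|) : 1 / 8 ≤ ‖conj a - a‖ := by
  have h1 : |(conj a - a).im| ≤ ‖conj a - a‖ := Complex.abs_im_le_norm _
  have h2 : (conj a - a).im = -2 * a.im := by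
    simp
    ring
  rw [h2, abs_mul] at h1
  norm_num at h1
  linarith

theorem t1q_low {a c a₁ a₂ b₀ : ℂ} (ha : ‖a‖ < 1) (hc : ‖c‖ < 1) (h1 : ‖a₁‖ < 1)
    (h2 : ‖a₂‖ < 1) (h3 : ‖b₀‖ < 1) :
    (1 - ‖a₁‖) * (1 - ‖a₂‖) * (1 - ‖b₀‖) / (4 * ((1 - ‖c‖ ^ 2) * ‖1 - c ^ 2‖)) ≤
      ‖t1q a c a₁ a₂ b₀ (conj c)‖ := by
  have hca : ‖conj a‖ < 1 := by rwa [RCLike.norm_conj]
  have hcc : ‖conj c‖ < 1 := by rwa [RCLike.norm_conj]
  unfold t1q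
  rw [norm_div, norm_mul, norm_mul, norm_mul, norm_mul, norm_mul, t1_mul_conj hc]
  have e1 : ‖1 - conj c * conj c‖ = ‖1 - c ^ 2‖ := by
    rw [← RCLike.norm_conj (1 - c ^ 2)]
    congr 1
    rw [map_sub, map_pow, map_one, pow_two]
  rw [e1]
  have u1 : ‖1 - conj a * conj c‖ ≤ 2 := t1_up hca.le hcc.le
  have u2 : ‖1 - a * conj c‖ ≤ 2 := t1_up ha.le hcc.le
  have n1 : 0 < ‖1 - conj a * conj c‖ := norm_pos_iff.mpr (t1_ne hca hcc.le)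
  have n2 : 0 < ‖1 - a * conj c‖ := norm_pos_iff.mpr (t1_ne ha hcc.le)
  have n3 : 0 < 1 - ‖c‖ ^ 2 := by nlinarith [norm_nonneg c]
  have n4 : 0 < ‖1 - c ^ 2‖ := by
    rw [pow_two]
    exact norm_pos_iff.mpr (t1_ne hc hc.le)
  have hp := t1_prod_low h1 h2 h3 hcc.le
  have hD : (1 - ‖c‖ ^ 2) * ‖1 - c ^ 2‖ * ‖1 - conj a * conj c‖ * ‖1 - a * conj c‖ ≤
      4 * ((1 - ‖c‖ ^ 2) * ‖1 - c ^ 2‖) := by
    have h4 : ‖1 - conj a * conj c‖ * ‖1 - a * conj c‖ ≤ 2 * 2 :=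
      mul_le_mul u1 u2 (norm_nonneg _) (by norm_num)
    calc (1 - ‖c‖ ^ 2) * ‖1 - c ^ 2‖ * ‖1 - conj a * conj c‖ * ‖1 - a * conj c‖
        = (‖1 - conj a * conj c‖ * ‖1 - a * conj c‖) * ((1 - ‖c‖ ^ 2) * ‖1 - c ^ 2‖) := by ring
      _ ≤ (2 * 2) * ((1 - ‖c‖ ^ 2) * ‖1 - c ^ 2‖) :=
          mul_le_mul_of_nonneg_right h4 (by positivity)
      _ = 4 * ((1 - ‖c‖ ^ 2) * ‖1 - c ^ 2‖) := by ring
  exact div_le_div₀ (by positivity) hp (by positivity) hD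

theorem t1_main (N : ℕ) (hN : 1 ≤ N) {r : ℝ} (hr : r ∈ Ioo (0 : ℝ) (1 / 2))
    {K₁ a₁ a₂ a₀ K₂ b₁ b₂ b₀ : ℂ}
    (h₁ : ∀ Z : ℂ, vv Z - (-1 : ℝ) * uu Z = K₁ * ((Z - a₁) * (Z - a₂) * (1 - a₀ * Z)))
    (h₂ : ∀ Z : ℂ, vv Z - (-1 / 3 : ℝ) * uu Z = K₂ * ((Z - b₁) * (Z - b₂) * (1 - b₀ * Z)))
    (hK₁ : K₁ ≠ 0) (hK₂ : K₂ ≠ 0) (ha₁ : ‖a₁‖ < 1) (ha₂ : ‖a₂‖ < 1) (ha₀ : ‖a₀‖ < 1)
    (hb₁ : ‖b₁‖ < 1) (hb₂ : ‖b₂‖ < 1) (hb₀ : ‖b₀‖ < 1) {g dp dm : ℝ}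
    (hg : g = 4 * 64 ^ 2 / (3 * (‖K₁‖ * ‖K₂‖)))
    (hdp : dp = (1 - ‖a₁‖) * (1 - ‖a₂‖) * (1 - ‖b₀‖))
    (hdm : dm = (1 - ‖a₀‖) * (1 - ‖b₁‖) * (1 - ‖b₂‖)) :
    ∃ h : hardy, h ≠ 0 ∧ ‖toeplitz (phi1 N) h - lam r • h‖ ≤
      (2 * (6144 * (32 * g / dm) / dp)) * r ^ 4 * ‖h‖ := by
  obtain ⟨y, a, b, c, K, hy1, hy2, ha, hb, hc, hK, hsa, huc, hab, hcc, him, hK64⟩ :=
    exists_zeta hr
  have hr0 : 0 < r := hr.1
  have hca : ‖conj a‖ < 1 := by rwa [RCLike.norm_conj]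
  have hccn : ‖conj c‖ < 1 := by rwa [RCLike.norm_conj]
  have hdp0 : 0 < dp := by
    rw [hdp]
    have p1 : 0 < 1 - ‖a₁‖ := by linarith
    have p2 : 0 < 1 - ‖a₂‖ := by linarith
    have p3 : 0 < 1 - ‖b₀‖ := by linarith
    positivity
  have hdm0 : 0 < dm := by
    rw [hdm]
    have p1 : 0 < 1 - ‖a₀‖ := by linarith
    have p2 : 0 < 1 - ‖b₁‖ := by linarith
    have p3 : 0 < 1 - ‖b₂‖ := by linarith
    positivity
  have hK₁' : 0 < ‖K₁‖ := norm_pos_iff.mpr hK₁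
  have hK₂' : 0 < ‖K₂‖ := norm_pos_iff.mpr hK₂
  have hg0 : 0 ≤ g := by rw [hg]; positivity
  set G : ℂ := 4 * (K * conj K) / (3 * (1 + 3 * r ^ 2) * (K₁ * K₂)) with hGdef
  have hG : ‖G‖ ≤ g := by
    rw [hGdef, hg, norm_div, norm_mul, norm_mul, norm_mul, norm_mul, norm_mul, RCLike.norm_conj]
    have e1 : ‖(1 + 3 * (r : ℂ) ^ 2)‖ = 1 + 3 * r ^ 2 := by
      have : (1 + 3 * (r : ℂ) ^ 2) = ((1 + 3 * r ^ 2 : ℝ) : ℂ) := by push_cast; ring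
      rw [this, Complex.norm_real, Real.norm_eq_abs, abs_of_pos (by positivity)]
    have e2 : ‖(4 : ℂ)‖ = 4 := by simp
    have e3 : ‖(3 : ℂ)‖ = 3 := by simp
    rw [e1, e2, e3]
    apply div_le_div₀ (by positivity) _ (by positivity) _
    · have : ‖K‖ * ‖K‖ ≤ 64 * 64 := mul_le_mul hK64 hK64 (norm_nonneg _) (by norm_num)
      nlinarith
    · have h1 : (1 : ℝ) ≤ 1 + 3 * r ^ 2 := by nlinarith
      have h2 : 3 * (‖K₁‖ * ‖K₂‖) * 1 ≤ 3 * (‖K₁‖ * ‖K₂‖) * (1 + 3 * r ^ 2) :=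
        mul_le_mul_of_nonneg_left h1 (by positivity)
      nlinarith
  have haim : 1 / 8 ≤ ‖conj a - a‖ := t1_im him
  have hane : conj a - a ≠ 0 := by
    intro h
    rw [h, norm_zero] at haim
    norm_num at haim
  have hqd := t1q_diff (a₁ := a₁) (a₂ := a₂) (b₀ := b₀) ha hc
  have hq : DiffContOnCl ℂ (t1q a c a₁ a₂ b₀) (ball 0 1) := by
    refine DifferentiableOn.diffContOnCl ?_
    rw [closure_ball (0 : ℂ) one_ne_zero]
    exact hqd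
  have hfm : ∀ (n : ℤ) (t : UnitAddCircle), (fourier n t : ℂ) ∈ closedBall (0 : ℂ) 1 := by
    intro n t
    rw [mem_closedBall_zero_iff, norm_fourier_eq]
  let h : C(UnitAddCircle, ℂ) :=
    ⟨fun t => t1q a c a₁ a₂ b₀ (fourier (N : ℤ) t),
      hqd.continuousOn.comp_continuous (map_continuous _) (hfm _)⟩
  have hψd := t1psi_diff (G := G) (b := b) ha₀ hb₁ hb₂ hane
  have hqlow := t1q_low (a := a) ha hc ha₁ ha₂ hb₀
  rw [← hdp] at hqlow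
  have n3 : 0 < 1 - ‖c‖ ^ 2 := by nlinarith [norm_nonneg c]
  have n4 : 0 < ‖1 - c ^ 2‖ := by
    rw [pow_two]
    exact norm_pos_iff.mpr (t1_ne hc hc.le)
  have n5 : 0 ≤ 1 - ‖a‖ ^ 2 := by nlinarith [norm_nonneg a]
  have hqw : t1q a c a₁ a₂ b₀ (conj c) ≠ 0 := by
    intro h0
    rw [h0, norm_zero] at hqlow
    have : 0 < dp / (4 * ((1 - ‖c‖ ^ 2) * ‖1 - c ^ 2‖)) := by positivity
    linarith
  have hDlow : ∀ x : ℂ, ‖x‖ ≤ 1 → dm ≤ ‖t1D a₀ b₁ b₂ x‖ := by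
    intro x hx
    unfold t1D
    rw [norm_mul, norm_mul, ← mul_assoc, hdm]
    exact t1_prod_low ha₀ hb₁ hb₂ hx
  have hb1 := t1psi_bound (x := conj a) hG (t1A_conj ha hb) hdm0 (hDlow _ hca.le) haim
  have hb2 := t1psi_bound (x := a) hG (t1A_self ha hb) hdm0 (hDlow _ ha.le) haim
  have hE0 : 0 ≤ 32 * g / dm := by positivity
  have hM0 : 0 ≤ 6144 * (32 * g / dm) / dp * r ^ 4 := by positivity
  have key1 := t1_real hE0 hdp0 hr0 n5 hsa n3 huc (norm_nonneg _) hab n4 hcc (norm_nonneg _)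
    (by rw [mul_assoc]; exact hb1) hqlow
  have key2 := t1_real hE0 hdp0 hr0 n5 hsa n3 huc (norm_nonneg _) hab n4 hcc (norm_nonneg _)
    (by rw [mul_assoc]; exact hb2) hqlow
  have hψd2 : DifferentiableOn ℂ (fun x => -t1psi G a b a₀ b₁ b₂ x) (closedBall 0 1) := hψd.neg
  obtain ⟨v, hv0, hv⟩ := ratio_two (φ := phi1 N) (h := h) hN (q := t1q a c a₁ a₂ b₀)
    (ψ₁ := t1psi G a b a₀ b₁ b₂) (ψ₂ := fun x => -t1psi G a b a₀ b₁ b₂ x)
    (p₁ := a) (p₂ := conj a) (w := conj c) (l := lam r)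
    (M₁ := 6144 * (32 * g / dm) / dp * r ^ 4) (M₂ := 6144 * (32 * g / dm) / dp * r ^ 4)
    hM0 hM0 hq (fun t => rfl) hψd hψd2 ha hca hccn hqw (by
      intro t
      have hZ : ‖(fourier (N : ℤ) t : ℂ)‖ = 1 := norm_fourier_eq _ t
      have hX1 : ‖(fourier (-(N : ℤ)) t : ℂ)‖ = 1 := norm_fourier_eq _ t
      have hZX : (fourier (N : ℤ) t : ℂ) * fourier (-(N : ℤ)) t = 1 := by
        rw [← fourier_add, add_neg_cancel, fourier_zero]
      have hf := fact1 hy1 hy2 hK h₁ h₂ hK₁ hK₂ hZ hZX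
      have e1 : phi1 N t - lam r = F1 (fourier (N : ℤ) t) - lam r := rfl
      have e2 : h t = t1q a c a₁ a₂ b₀ (fourier (N : ℤ) t) := rfl
      rw [e1, e2, hf, Complex.conj_conj]
      set Z : ℂ := fourier (N : ℤ) t
      set X : ℂ := fourier (-(N : ℤ)) t
      have h := t1_alg G Z (t1A a b X) (1 - c * Z) (1 - conj c * Z) (t1D a₀ b₁ b₂ X)
        ((1 - a₁ * Z) * (1 - a₂ * Z) * (1 - b₀ * Z)) a (conj a)
        (t1_ne hc hZ.le) (t1_ne hccn hZ.le)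
        (mul_ne_zero (t1_ne ha₀ hX1.le) (mul_ne_zero (t1_ne hb₁ hX1.le) (t1_ne hb₂ hX1.le)))
        (mul_ne_zero (mul_ne_zero (t1_ne ha₁ hZ.le) (t1_ne ha₂ hZ.le)) (t1_ne hb₀ hZ.le))
        (t1_ne hca hZ.le) (t1_ne ha hZ.le) hane
      exact h)
    (by
      rw [RCLike.norm_conj c]
      exact key1)
    (by
      rw [RCLike.norm_conj c, RCLike.norm_conj a, Complex.conj_conj, norm_neg]
      exact key2)
  refine ⟨v, hv0, hv.trans (le_of_eq ?_)⟩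
  ring

theorem test1 : ∃ r₀ > (0 : ℝ), r₀ ≤ 1 ∧ ∃ C : ℝ, ∀ N : ℕ, 1 ≤ N → ∀ r ∈ Ioo (0 : ℝ) r₀,
    ∃ h : hardy, h ≠ 0 ∧ ‖toeplitz (phi1 N) h - lam r • h‖ ≤ C * r ^ 4 * ‖h‖ := by
  obtain ⟨K₁, a₁, a₂, a₀, hK₁, ha₁, ha₂, ha₀, h₁⟩ := factN_real (y := -1) (by norm_num)
  obtain ⟨K₂, b₁, b₂, b₀, hK₂, hb₁, hb₂, hb₀, h₂⟩ := factN_real (y := -1 / 3) (by norm_num)
  refine ⟨1 / 2, by norm_num, by norm_num,
    (2 * (6144 * (32 * (4 * 64 ^ 2 / (3 * (‖K₁‖ * ‖K₂‖))) /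
      ((1 - ‖a₀‖) * (1 - ‖b₁‖) * (1 - ‖b₂‖))) /
      ((1 - ‖a₁‖) * (1 - ‖a₂‖) * (1 - ‖b₀‖)))), fun N hN r hr => ?_⟩
  exact t1_main N hN hr h₁ h₂ hK₁ hK₂ ha₁ ha₂ ha₀ hb₁ hb₂ hb₀ rfl rfl rfl

theorem ana_comp {τ : ℂ → ℂ} (h1 : ContinuousOn τ (closedBall 0 1))
    (h2 : DifferentiableOn ℂ τ (ball 0 1)) {N : ℕ} (hN : 1 ≤ N) :
    DiffContOnCl ℂ (fun z => τ (z ^ N)) (ball 0 1) := by
  have hN0 : N ≠ 0 := by omega
  refine ⟨?_, ?_⟩
  · refine DifferentiableOn.comp (g := τ) (f := fun z : ℂ => z ^ N) (t := ball (0 : ℂ) 1) h2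
      (by fun_prop) ?_
    intro z hz
    rw [mem_ball_zero_iff] at hz ⊢
    show ‖z ^ N‖ < 1
    rw [norm_pow]
    exact pow_lt_one₀ (norm_nonneg z) hz hN0
  · rw [closure_ball (0 : ℂ) one_ne_zero]
    refine ContinuousOn.comp (g := τ) (f := fun z : ℂ => z ^ N) (t := closedBall (0 : ℂ) 1) h1
      (by fun_prop) ?_
    intro z hz
    rw [mem_closedBall_zero_iff] at hz ⊢
    show ‖z ^ N‖ ≤ 1
    rw [norm_pow]
    exact pow_le_one₀ (norm_nonneg z) hz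

theorem main1 {N : ℕ} (hN : 1 ≤ N) {τ : ℂ → ℂ} (hτ : ConformalOnto τ Gam)
    {g : C(UnitAddCircle, ℂ)} (hg : ∀ t, g t = τ (fourier 1 t ^ N)) {n : ℕ}
    (γ : Fin n → Set UnitAddCircle) :
    ¬ Similar (toeplitz (phi1 N)) ((toeplitz g).prodMap (sumMul (phi1 N) γ)) := by
  obtain ⟨r₀, hr₀, hr1, C, hC⟩ := test1
  refine not_similar_of _ _ lam hr₀ (c := 1 / 3) (by norm_num) (fun r hr v => ?_) (hC N hN)
  have hr' : r ∈ Ioo (0 : ℝ) 1 := ⟨hr.1, hr.2.trans_le hr1⟩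
  have hd : (0 : ℝ) ≤ 1 / 3 * r ^ 3 := by have := hr.1; positivity
  have hgd : ∀ t, 1 / 3 * r ^ 3 ≤ ‖g t - lam r‖ := by
    intro t
    have hm : g t ∈ Gam := by
      rw [hg, ← hτ.2.2.2.2]
      refine mem_image_of_mem _ ?_
      rw [mem_sphere_zero_iff_norm, norm_pow, norm_fourier_eq, one_pow]
    obtain ⟨β, hβ, hβ2⟩ := exists_of_mem hm
    rw [← hβ2]
    exact dist_lower hr' hβ
  have e1 := sumMul_lower (phi1 N) γ (lam r) hd (dist_phi1 N hr') v.2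
  have e2 := toeplitz_ana_lower (ana_comp hτ.1 hτ.2.1 hN) hg (lam r) hd hgd v.1
  show _ ≤ ‖((toeplitz g v.1 - lam r • v.1, sumMul (phi1 N) γ v.2 - lam r • v.2) : _ × _)‖
  rw [Prod.norm_def, Prod.norm_def]
  rcases le_total ‖v.1‖ ‖v.2‖ with h | h
  · rw [max_eq_right h]
    exact e1.trans (le_max_right _ _)
  · rw [max_eq_left h]
    exact e2.trans (le_max_left _ _)

end Pool.Agent.Helper414.Cusp
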