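import Pool.Agent.Helper414.CuspDefs

open MeasureTheory Set
open scoped ENNReal

namespace Pool.Agent.Helper414.CuspStmt

/-- The normalised Lebesgue (Haar) measure of the unit circle, written as the circle R/Z. -/
noncomputable def mT : Measure UnitAddCircle := AddCircle.haarAddCircle

instance : IsFiniteMeasure mT :=
  (inferInstance : IsFiniteMeasure (AddCircle.haarAddCircle (T := 1)))

/-- The Hilbert space of square integrable functions for a measure on the circle. -/
def L2 (μ : Measure UnitAddCircle) : Type := Lp ℂ 2 μ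

noncomputable instance (μ : Measure UnitAddCircle) : NormedAddCommGroup (L2 μ) :=
  (inferInstance : NormedAddCommGroup (Lp ℂ 2 μ))

noncomputable instance (μ : Measure UnitAddCircle) : InnerProductSpace ℂ (L2 μ) :=
  (inferInstance : InnerProductSpace ℂ (Lp ℂ 2 μ))

instance (μ : Measure UnitAddCircle) : CompleteSpace (L2 μ) :=
  (inferInstance : CompleteSpace (Lp ℂ 2 μ))

/-- The underlying function of an element of `L2 μ`. -/
noncomputable def L2.fn {μ : Measure UnitAddCircle} (f : L2 μ) : UnitAddCircle → ℂ :=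
  AEEqFun.cast (Subtype.val (show Lp ℂ 2 μ from f))

theorem memLp_mul (μ : Measure UnitAddCircle) [IsFiniteMeasure μ]
    (g : C(UnitAddCircle, ℂ)) (f : L2 μ) : MemLp (fun t => g t * f.fn t) 2 μ := by
  have h1 : MemLp (f.fn) 2 μ := Lp.memLp (show Lp ℂ 2 μ from f)
  have h2 : MemLp (fun t => g t) ∞ μ := by
    have := Lp.memLp (ContinuousMap.toLp ∞ μ ℂ g)
    exact this.ae_eq (ContinuousMap.coeFn_toLp μ g)
  exact h1.mul h2

/-- The pointwise product `g f`. -/
noncomputable def mul (μ : Measure UnitAddCircle) [IsFiniteMeasure μ]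
    (g : C(UnitAddCircle, ℂ)) (f : L2 μ) : L2 μ :=
  (memLp_mul μ g f).toLp

theorem mul_eq (μ : Measure UnitAddCircle) [IsFiniteMeasure μ]
    (g : C(UnitAddCircle, ℂ)) (f : L2 μ) : mul μ g f = Cusp.mulOp μ g (show Lp ℂ 2 μ from f) := by
  apply Lp.ext
  refine (MemLp.coeFn_toLp _).trans ?_
  filter_upwards [Cusp.mulOp_ae μ g (show Lp ℂ 2 μ from f)] with x hx
  exact hx.symm

theorem mul_add (μ : Measure UnitAddCircle) [IsFiniteMeasure μ]
    (g : C(UnitAddCircle, ℂ)) (f h : L2 μ) : mul μ g (f + h) = mul μ g f + mul μ g h := by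
  rw [mul_eq, mul_eq, mul_eq]
  exact map_add (Cusp.mulOp μ g) (show Lp ℂ 2 μ from f) (show Lp ℂ 2 μ from h)

theorem mul_smul (μ : Measure UnitAddCircle) [IsFiniteMeasure μ]
    (g : C(UnitAddCircle, ℂ)) (c : ℂ) (f : L2 μ) : mul μ g (c • f) = c • mul μ g f := by
  rw [mul_eq, mul_eq]
  exact map_smul (Cusp.mulOp μ g) c (show Lp ℂ 2 μ from f)

theorem mul_cont (μ : Measure UnitAddCircle) [IsFiniteMeasure μ]
    (g : C(UnitAddCircle, ℂ)) : Continuous (mul μ g) := by
  have : mul μ g = Cusp.mulOp μ g := by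
    funext f
    exact mul_eq μ g f
  rw [this]
  exact (Cusp.mulOp μ g).continuous

/-- The operator of multiplication by `g` on `L2 μ`. -/
noncomputable def mulOp (μ : Measure UnitAddCircle) [IsFiniteMeasure μ]
    (g : C(UnitAddCircle, ℂ)) : L2 μ →L[ℂ] L2 μ where
  toFun := mul μ g
  map_add' := mul_add μ g
  map_smul' := mul_smul μ g
  cont := mul_cont μ g

/-- The set of elements of `L2` whose Fourier coefficients of negative index vanish. -/
def hardySet : Set (L2 mT) := {f | ∀ n : ℤ, n < 0 → fourierCoeff f.fn n = 0}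

theorem hardySet_eq : hardySet = (Cusp.hardy : Set (Lp ℂ 2 Cusp.mT)) := rfl

theorem hardy_zero : (0 : L2 mT) ∈ hardySet := Cusp.hardy.zero_mem

theorem hardy_add {f g : L2 mT} (hf : f ∈ hardySet) (hg : g ∈ hardySet) : f + g ∈ hardySet :=
  Cusp.hardy.add_mem hf hg

theorem hardy_smul (c : ℂ) {f : L2 mT} (hf : f ∈ hardySet) : c • f ∈ hardySet :=
  Cusp.hardy.smul_mem c hf

/-- The Hardy space H2 of the disc as a subspace of L2 of the circle. -/
def hardy : Submodule ℂ (L2 mT) where
  carrier := hardySet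
  zero_mem' := hardy_zero
  add_mem' := hardy_add
  smul_mem' := hardy_smul

/-- The Hardy space H2 as a Hilbert space. -/
def H2 : Type := hardy

noncomputable instance : NormedAddCommGroup H2 := (inferInstance : NormedAddCommGroup hardy)

noncomputable instance : InnerProductSpace ℂ H2 := (inferInstance : InnerProductSpace ℂ hardy)

instance : CompleteSpace hardy := Cusp.isClosed_hardy.completeSpace_coe

instance : hardy.HasOrthogonalProjection := inferInstance

/-- The inclusion of H2 in L2. -/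
noncomputable def incl : H2 →L[ℂ] L2 mT := hardy.subtypeL

/-- The orthogonal projection of L2 onto H2. -/
noncomputable def proj : L2 mT →L[ℂ] H2 := hardy.orthogonalProjectionOnto

/-- The Toeplitz operator `h ↦ P (g h)` on the Hardy space. -/
noncomputable def toeplitz (g : C(UnitAddCircle, ℂ)) : H2 →L[ℂ] H2 :=
  proj ∘L mulOp mT g ∘L incl

/-- Similarity of bounded operators on two spaces. -/
def Similar {E F : Type*} [NormedAddCommGroup E] [NormedSpace ℂ E]
    [NormedAddCommGroup F] [NormedSpace ℂ F] (A : E →L[ℂ] E) (B : F →L[ℂ] F) : Prop :=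
  ∃ X : E ≃L[ℂ] F, ∀ h : E, X (A h) = B (X h)

/-- The Hilbert space direct sum of the spaces `L2 (γ k)`. -/
def SumL2 {n : ℕ} (γ : Fin n → Set UnitAddCircle) : Type :=
  PiLp 2 fun k : Fin n => L2 (mT.restrict (γ k))

noncomputable instance {n : ℕ} (γ : Fin n → Set UnitAddCircle) : NormedAddCommGroup (SumL2 γ) :=
  (inferInstance : NormedAddCommGroup (PiLp 2 fun k : Fin n => L2 (mT.restrict (γ k))))

noncomputable instance {n : ℕ} (γ : Fin n → Set UnitAddCircle) : InnerProductSpace ℂ (SumL2 γ) :=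
  (inferInstance : InnerProductSpace ℂ (PiLp 2 fun k : Fin n => L2 (mT.restrict (γ k))))

/-- The map `(v k) ↦ (φ v k)`. -/
noncomputable def sumFun (φ : C(UnitAddCircle, ℂ)) {n : ℕ} (γ : Fin n → Set UnitAddCircle)
    (v : SumL2 γ) : SumL2 γ :=
  WithLp.toLp 2 fun k => mulOp (mT.restrict (γ k)) φ
    ((show PiLp 2 fun k : Fin n => L2 (mT.restrict (γ k)) from v) k)

theorem sumFun_add (φ : C(UnitAddCircle, ℂ)) {n : ℕ} (γ : Fin n → Set UnitAddCircle)
    (v w : SumL2 γ) : sumFun φ γ (v + w) = sumFun φ γ v + sumFun φ γ w := by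
  refine PiLp.ext fun k => ?_
  exact map_add (mulOp (mT.restrict (γ k)) φ) _ _

theorem sumFun_smul (φ : C(UnitAddCircle, ℂ)) {n : ℕ} (γ : Fin n → Set UnitAddCircle)
    (c : ℂ) (v : SumL2 γ) : sumFun φ γ (c • v) = c • sumFun φ γ v := by
  refine PiLp.ext fun k => ?_
  exact map_smul (mulOp (mT.restrict (γ k)) φ) c _

theorem sumFun_cont (φ : C(UnitAddCircle, ℂ)) {n : ℕ} (γ : Fin n → Set UnitAddCircle) :
    Continuous (sumFun φ γ) := by
  refine (PiLp.continuous_toLp 2 _).comp (continuous_pi fun k => ?_)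
  exact (mulOp (mT.restrict (γ k)) φ).continuous.comp
    ((continuous_apply k).comp (PiLp.continuous_ofLp 2 _))

/-- The direct sum of the operators of multiplication by `φ` on the spaces `L2 (γ k)`. -/
noncomputable def sumMul (φ : C(UnitAddCircle, ℂ)) {n : ℕ} (γ : Fin n → Set UnitAddCircle) :
    SumL2 γ →L[ℂ] SumL2 γ where
  toFun := sumFun φ γ
  map_add' := sumFun_add φ γ
  map_smul' := sumFun_smul φ γ
  cont := sumFun_cont φ γ

theorem not_similar_transfer {φ : C(UnitAddCircle, ℂ)} {n : ℕ} {γ : Fin n → Set UnitAddCircle}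
    (h : ¬ Cusp.Similar (Cusp.toeplitz φ) (Cusp.sumMul φ γ)) :
    ¬ Similar (toeplitz φ) (sumMul φ γ) := by
  rintro ⟨X, hX⟩
  apply h
  let Y : (Cusp.hardy) ≃L[ℂ] (∀ k : Fin n, Lp ℂ 2 (Cusp.mT.restrict (γ k))) :=
    (show Cusp.hardy ≃L[ℂ] PiLp 2 (fun k : Fin n => Lp ℂ 2 (Cusp.mT.restrict (γ k))) from X).trans
      (PiLp.continuousLinearEquiv 2 ℂ fun k : Fin n => Lp ℂ 2 (Cusp.mT.restrict (γ k)))
  refine ⟨Y, fun v => ?_⟩
  have e1 : toeplitz φ (show H2 from v) = (show H2 from Cusp.toeplitz φ v) := by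
    have e2 : mul mT φ (show L2 mT from (v : Lp ℂ 2 Cusp.mT)) =
        Cusp.mulOp Cusp.mT φ (v : Lp ℂ 2 Cusp.mT) := mul_eq mT φ _
    have e3 : toeplitz φ (show H2 from v) = (show H2 from
        Cusp.hardy.orthogonalProjectionOnto
          (mul mT φ (show L2 mT from (v : Lp ℂ 2 Cusp.mT)))) := rfl
    rw [e3, e2]
    rfl
  have e4 := hX v
  rw [e1] at e4
  funext k
  have e5 := congrArg (fun u : SumL2 γ =>
    (show PiLp 2 fun k : Fin n => L2 (mT.restrict (γ k)) from u) k) e4
  refine Eq.trans e5 ?_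
  exact mul_eq (mT.restrict (γ k)) φ _

end Pool.Agent.Helper414.CuspStmt
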