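import Mathlib

open Set

namespace Pool.Agent.Helper414.Cusp

/-- `Γ` is a simple closed curve in the plane. -/
def SimpleClosedCurve (Γ : Set ℂ) : Prop :=
  ∃ γ : Circle → ℂ, Continuous γ ∧ Function.Injective γ ∧ range γ = Γ

/-- The interior of a simple closed curve: the points whose connected component in the
complement is bounded. -/
def interiorDomain (Γ : Set ℂ) : Set ℂ :=
  {w | w ∉ Γ ∧ Bornology.IsBounded (connectedComponentIn Γᶜ w)}

/-- The curve `Γ` has at `w₀` a singular point of inner angle zero: `w₀` is a point of the curve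
and of the closure of the interior domain, and near `w₀` the whole closed interior domain lies
in arbitrarily thin sectors around a fixed direction `u`. -/
def ZeroInnerAngle (Γ : Set ℂ) (w₀ : ℂ) : Prop :=
  w₀ ∈ Γ ∧ w₀ ∈ closure (interiorDomain Γ) ∧ ∃ u : ℂ, ‖u‖ = 1 ∧ ∀ ε > 0, ∃ δ > 0,
    ∀ w ∈ Γ ∪ interiorDomain Γ, ‖w - w₀‖ < δ →
      ‖(w - w₀) - (‖w - w₀‖ : ℂ) * u‖ ≤ ε * ‖w - w₀‖

/-- The closed curve `t ↦ φ (t mod 1)` has winding number `n` about `w`. -/
def HasWinding (φ : C(UnitAddCircle, ℂ)) (w : ℂ) (n : ℤ) : Prop :=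
  ∃ L : ℝ → ℂ, Continuous L ∧ (∀ t : ℝ, φ (t : UnitAddCircle) - w = Complex.exp (L t)) ∧
    ∀ t : ℝ, L (t + 1) = L t + 2 * Real.pi * Complex.I * n

/-- `φ` is the restriction to the unit circle of a rational function without poles there;
`fourier 1 t` is the point `exp (2 π i t)` of the unit circle. -/
def RationalSymbol (φ : C(UnitAddCircle, ℂ)) : Prop :=
  ∃ P Q : Polynomial ℂ, (∀ z : ℂ, ‖z‖ = 1 → Q.eval z ≠ 0) ∧
    ∀ t : UnitAddCircle, φ t = P.eval (fourier 1 t) / Q.eval (fourier 1 t)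

/-- `τ` is a conformal map of the unit disc onto the interior of `Γ`, extended to a
homeomorphism of the closures. -/
def ConformalOnto (τ : ℂ → ℂ) (Γ : Set ℂ) : Prop :=
  ContinuousOn τ (Metric.closedBall 0 1) ∧ DifferentiableOn ℂ τ (Metric.ball 0 1) ∧
    InjOn τ (Metric.closedBall 0 1) ∧ τ '' Metric.ball 0 1 = interiorDomain Γ ∧
    τ '' Metric.sphere 0 1 = Γ

end Pool.Agent.Helper414.Cusp
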