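import Pool.Agent.Helper414.HgDefs

set_option autoImplicit false

namespace Pool.Agent.Helper414.HG

open Finset

/-- absolutely summable coefficients give a bounded function -/
theorem bounded_of_summable (c : ℕ → ℂ) (h : Summable (fun k => ‖c k‖)) :
    ∃ M : ℝ, ∀ z : ℂ, ‖z‖ < 1 → ‖F c z‖ ≤ M := by
  refine ⟨∑' k : ℕ, ‖c k‖, fun z hz => ?_⟩
  have hle : ∀ k : ℕ, ‖c k * z ^ k‖ ≤ ‖c k‖ := by
    intro k
    rw [norm_mul, norm_pow]
    have h1 : ‖z‖ ^ k ≤ 1 := pow_le_one₀ (norm_nonneg z) hz.le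
    calc ‖c k‖ * ‖z‖ ^ k ≤ ‖c k‖ * 1 := mul_le_mul_of_nonneg_left h1 (norm_nonneg _)
      _ = ‖c k‖ := mul_one _
  have hs : Summable (fun k : ℕ => ‖c k * z ^ k‖) :=
    Summable.of_nonneg_of_le (fun k => norm_nonneg _) hle h
  calc ‖F c z‖ ≤ ∑' k : ℕ, ‖c k * z ^ k‖ := norm_tsum_le_tsum_norm hs
    _ ≤ ∑' k : ℕ, ‖c k‖ := Summable.tsum_le_tsum hle hs h

/-- star-shaped sets: the criterion implies absolute summability of a gap series bounded on `S` -/
theorem summable_of_crit (S : Set ℂ) (hS : ∀ z ∈ S, ‖z‖ < 1)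
    (hstar : ∀ z ∈ S, ∀ t : ℝ, 0 ≤ t → t ≤ 1 → (t : ℂ) * z ∈ S) (hcrit : Crit S)
    (q : ℝ) (c : ℕ → ℂ) (hq : 1 < q) (hc : IsGap q c) (M : ℝ) (hM : ∀ z ∈ S, ‖F c z‖ ≤ M) :
    Summable (fun k => ‖c k‖) := by
  classical
  obtain ⟨δ, hδ, m0, hm⟩ := hcrit q hq
  set C0 : ℝ := ∑ k ∈ Finset.range m0, ‖c k‖ with hC0
  set Kc : ℝ := (M + C0 + 1) / δ with hKc
  -- claim A
  have claimA : ∀ ρ : ℝ, 0 < ρ → ρ < 1 → ∀ T : Finset ℕ,
      ∑ k ∈ T, (if m0 ≤ k then ‖c k‖ * ρ ^ k else 0) ≤ Kc := by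
    intro ρ hρ0 hρ1 T
    have hnρ : ‖(ρ : ℂ)‖ = ρ := by
      rw [Complex.norm_real, Real.norm_eq_abs, abs_of_pos hρ0]
    have hsρ : Summable (fun k : ℕ => ‖c k‖ * ρ ^ k) := by
      have h := (hc.conv (ρ : ℂ) (by rw [hnρ]; exact hρ1)).norm
      refine h.congr fun k => ?_
      rw [norm_mul, norm_pow, hnρ]
    have htail := tendsto_sum_nat_add (fun k : ℕ => ‖c k‖ * ρ ^ k)
    obtain ⟨N0, hN0⟩ := (htail.eventually (ge_mem_nhds (show (0 : ℝ) < 1 by norm_num))).exists_forall_of_atTop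
    set N : ℕ := max N0 (T.sup id + 1) with hN
    have hNt : ∑' k : ℕ, ‖c (k + N)‖ * ρ ^ (k + N) ≤ 1 := hN0 N (le_max_left _ _)
    have hTN : ∀ k ∈ T, k < N := by
      intro k hk
      have h1 : k ≤ T.sup id := Finset.le_sup (f := id) hk
      have h2 : T.sup id + 1 ≤ N := le_max_right _ _
      omega
    set c' : ℕ → ℂ := fun k => if m0 ≤ k ∧ k < N then c k * (ρ : ℂ) ^ k else 0 with hc'
    have hsuppN : ∀ k, k ∉ Finset.range N → c' k = 0 := by
      intro k hk
      rw [Finset.mem_range] at hk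
      simp only [hc']
      rw [if_neg]
      rintro ⟨_, h⟩
      exact hk h
    have hfin : (Function.support c').Finite := by
      refine (Finset.range N).finite_toSet.subset ?_
      intro k hk
      by_contra h
      exact hk (hsuppN k h)
    have hsub : Function.support c' ⊆ Function.support c := by
      intro k hk h
      apply hk
      simp only [hc']
      rw [h]
      simp
    have hlac : Lac q (Function.support c') := fun m h1 m' h2 h3 => hc.lac m (hsub h1) m' (hsub h2) h3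
    have hge : ∀ k, c' k ≠ 0 → m0 ≤ k := by
      intro k hk
      by_contra h
      apply hk
      simp only [hc']
      rw [if_neg]
      rintro ⟨h1, _⟩
      exact h h1
    have hB : ∀ z ∈ S, ‖F c' z‖ ≤ M + C0 + 1 := by
      intro z hz
      have hz1 := hS z hz
      have hρz : (ρ : ℂ) * z ∈ S := hstar z hz ρ hρ0.le hρ1.le
      have hnz : ‖(ρ : ℂ) * z‖ ≤ ρ := by
        rw [norm_mul, hnρ]
        nlinarith [norm_nonneg z]
      have hsz := hc.conv _ (hS _ hρz)
      have e1 : F c' z = ∑ k ∈ Finset.range N, c' k * z ^ k := by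
        unfold F
        refine tsum_eq_sum fun k hk => ?_
        rw [hsuppN k hk, zero_mul]
      have e2 : F c ((ρ : ℂ) * z) = ∑ k ∈ Finset.range N, c k * ((ρ : ℂ) * z) ^ k +
          ∑' k : ℕ, c (k + N) * ((ρ : ℂ) * z) ^ (k + N) := by
        unfold F
        exact (hsz.sum_add_tsum_nat_add N).symm
      have e3 : ∑ k ∈ Finset.range N, c k * ((ρ : ℂ) * z) ^ k =
          ∑ k ∈ Finset.range N, c' k * z ^ k +
          ∑ k ∈ Finset.range N, (if k < m0 then c k * ((ρ : ℂ) * z) ^ k else 0) := by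
        rw [← Finset.sum_add_distrib]
        refine Finset.sum_congr rfl fun k hk => ?_
        rw [Finset.mem_range] at hk
        simp only [hc']
        by_cases h : m0 ≤ k
        · rw [if_pos ⟨h, hk⟩, if_neg (by omega), add_zero, mul_pow]
          ring
        · rw [if_neg (fun hh => h hh.1), if_pos (by omega), zero_mul, zero_add]
      have e4 : F c' z = F c ((ρ : ℂ) * z) -
          ∑ k ∈ Finset.range N, (if k < m0 then c k * ((ρ : ℂ) * z) ^ k else 0) -
          ∑' k : ℕ, c (k + N) * ((ρ : ℂ) * z) ^ (k + N) := by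
        rw [e2, e3, e1]; ring
      have hterm : ∀ k : ℕ, ‖((ρ : ℂ) * z) ^ k‖ ≤ ρ ^ k := by
        intro k
        rw [norm_pow]
        exact pow_le_pow_left₀ (norm_nonneg _) hnz k
      have b1 : ‖F c ((ρ : ℂ) * z)‖ ≤ M := hM _ hρz
      have b2 : ‖∑ k ∈ Finset.range N, (if k < m0 then c k * ((ρ : ℂ) * z) ^ k else 0)‖ ≤ C0 := by
        calc ‖∑ k ∈ Finset.range N, (if k < m0 then c k * ((ρ : ℂ) * z) ^ k else 0)‖
            ≤ ∑ k ∈ Finset.range N, ‖(if k < m0 then c k * ((ρ : ℂ) * z) ^ k else 0)‖ :=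
              norm_sum_le _ _
          _ ≤ ∑ k ∈ Finset.range N, (if k < m0 then ‖c k‖ else 0) := by
              refine Finset.sum_le_sum fun k _ => ?_
              split_ifs with h
              · rw [norm_mul]
                have h1 : ‖((ρ : ℂ) * z) ^ k‖ ≤ 1 := (hterm k).trans (pow_le_one₀ hρ0.le hρ1.le)
                nlinarith [norm_nonneg (c k)]
              · simp
          _ = ∑ k ∈ (Finset.range N).filter (fun k => k < m0), ‖c k‖ := by
              rw [Finset.sum_filter]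
          _ ≤ C0 := by
              rw [hC0]
              refine Finset.sum_le_sum_of_subset_of_nonneg ?_ fun _ _ _ => norm_nonneg _
              intro k hk
              rw [Finset.mem_filter] at hk
              exact Finset.mem_range.mpr hk.2
      have b3 : ‖∑' k : ℕ, c (k + N) * ((ρ : ℂ) * z) ^ (k + N)‖ ≤ 1 := by
        refine le_trans (tsum_of_norm_bounded (g := fun k : ℕ => ‖c (k + N)‖ * ρ ^ (k + N))
          ((summable_nat_add_iff N).mpr hsρ).hasSum fun k => ?_) hNt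
        rw [norm_mul]
        exact mul_le_mul_of_nonneg_left (hterm _) (norm_nonneg _)
      rw [e4]
      calc _ ≤ ‖F c ((ρ : ℂ) * z)‖ +
          ‖∑ k ∈ Finset.range N, (if k < m0 then c k * ((ρ : ℂ) * z) ^ k else 0)‖ +
          ‖∑' k : ℕ, c (k + N) * ((ρ : ℂ) * z) ^ (k + N)‖ := by
            refine (norm_sub_le _ _).trans ?_
            gcongr
            exact norm_sub_le _ _
        _ ≤ M + C0 + 1 := by linarith
    have hfinal := hm c' hfin hlac hge (M + C0 + 1) hB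
    have e5 : ∑' k : ℕ, ‖c' k‖ = ∑ k ∈ Finset.range N, ‖c' k‖ := by
      refine tsum_eq_sum fun k hk => ?_
      rw [hsuppN k hk, norm_zero]
    have e6 : ∑ k ∈ T, (if m0 ≤ k then ‖c k‖ * ρ ^ k else 0) ≤ ∑ k ∈ Finset.range N, ‖c' k‖ := by
      calc ∑ k ∈ T, (if m0 ≤ k then ‖c k‖ * ρ ^ k else 0) = ∑ k ∈ T, ‖c' k‖ := by
            refine Finset.sum_congr rfl fun k hk => ?_
            simp only [hc']
            by_cases h : m0 ≤ k
            · rw [if_pos h, if_pos ⟨h, hTN k hk⟩, norm_mul, norm_pow, hnρ]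
            · rw [if_neg h, if_neg (fun hh => h hh.1), norm_zero]
        _ ≤ _ := by
            refine Finset.sum_le_sum_of_subset_of_nonneg ?_ fun _ _ _ => norm_nonneg _
            intro k hk
            exact Finset.mem_range.mpr (hTN k hk)
    rw [e5] at hfinal
    rw [hKc, le_div_iff₀ hδ]
    nlinarith
  -- let ρ tend to 1
  have claimB : ∀ T : Finset ℕ, ∑ k ∈ T, (if m0 ≤ k then ‖c k‖ else 0) ≤ Kc := by
    intro T
    have hcont : Continuous (fun ρ : ℝ => ∑ k ∈ T, (if m0 ≤ k then ‖c k‖ * ρ ^ k else 0)) := by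
      refine continuous_finset_sum _ fun k _ => ?_
      split_ifs
      · fun_prop
      · exact continuous_const
    have ht : Filter.Tendsto (fun ρ : ℝ => ∑ k ∈ T, (if m0 ≤ k then ‖c k‖ * ρ ^ k else 0))
        (nhdsWithin 1 (Set.Iio 1)) (nhds (∑ k ∈ T, (if m0 ≤ k then ‖c k‖ * (1 : ℝ) ^ k else 0))) :=
      (hcont.tendsto 1).mono_left nhdsWithin_le_nhds
    simp only [one_pow, mul_one] at ht
    refine le_of_tendsto ht ?_
    have hev : ∀ᶠ ρ : ℝ in nhdsWithin 1 (Set.Iio 1), ρ ∈ Set.Ioo (0 : ℝ) 1 :=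
      Ioo_mem_nhdsLT (by norm_num)
    filter_upwards [hev] with ρ hρ
    exact claimA ρ hρ.1 hρ.2 T
  have hs : Summable (fun k : ℕ => if m0 ≤ k then ‖c k‖ else 0) :=
    summable_of_sum_le (fun k => by split_ifs <;> simp) claimB
  have hs2 := (summable_nat_add_iff m0).mpr hs
  rw [← summable_nat_add_iff m0]
  refine hs2.congr fun k => ?_
  simp

theorem glue_aux (q : ℝ) (hq : 1 < q) (p : ℕ → ℕ → ℂ) (m : ℕ → ℕ) (hm0 : 1 ≤ m 0)
    (hmono : ∀ j, m j < m (j + 1))
    (hsupp : ∀ j k, p j k ≠ 0 → m j ≤ k ∧ q * (k : ℝ) ≤ (m (j + 1) : ℝ)) :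
    StrictMono m ∧ (∀ j, j + 1 ≤ m j) ∧ (∀ j k, p j k ≠ 0 → m j ≤ k ∧ k < m (j + 1)) ∧
      ∀ j k, m j ≤ k → k < m (j + 1) → ∑ i ∈ range (k + 1), p i k = p j k := by
  have hm : StrictMono m := strictMono_nat_of_lt_succ hmono
  have hmj : ∀ j, j + 1 ≤ m j := by
    intro j
    induction j with
    | zero => exact hm0
    | succ j ih => have := hmono j; omega
  have hS : ∀ j k, p j k ≠ 0 → m j ≤ k ∧ k < m (j + 1) := by
    intro j k h
    obtain ⟨h1, h2⟩ := hsupp j k h
    refine ⟨h1, ?_⟩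
    have hk : (1 : ℝ) ≤ k := by exact_mod_cast (le_trans (by have := hmj j; omega) h1 : 1 ≤ k)
    have : (k : ℝ) < (m (j + 1) : ℝ) := by nlinarith
    exact_mod_cast this
  refine ⟨hm, hmj, hS, ?_⟩
  intro j k h1 h2
  rw [Finset.sum_eq_single j]
  · intro i _ hij
    by_contra hne
    obtain ⟨h3, h4⟩ := hS i k hne
    rcases lt_or_gt_of_ne hij with h | h
    · have : m (i + 1) ≤ m j := hm.monotone (by omega)
      omega
    · have : m (j + 1) ≤ m i := hm.monotone (by omega)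
      omega
  · intro h
    exfalso
    apply h
    rw [Finset.mem_range]
    have := hmj j
    omega

/-- gluing lacunary polynomials -/
theorem glue (q : ℝ) (hq : 1 < q) (p : ℕ → ℕ → ℂ) (m : ℕ → ℕ) (hm0 : 1 ≤ m 0)
    (hmono : ∀ j, m j < m (j + 1)) (hsupp : ∀ j k, p j k ≠ 0 → m j ≤ k ∧ q * (k : ℝ) ≤ (m (j + 1) : ℝ))
    (hlac : ∀ j, Lac q (Function.support (p j))) (hsum : ∀ j, ∑' k, ‖p j k‖ = 1) :
    ∃ c : ℕ → ℂ, IsGap q c ∧ (¬ Summable (fun k => ‖c k‖)) ∧
      ∀ z : ℂ, ‖z‖ < 1 → Filter.Tendsto (fun J => ∑ j ∈ range J, F (p j) z) Filter.atTop (nhds (F c z)) := by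
  obtain ⟨hm, hmj, hS, hC⟩ := glue_aux q hq p m hm0 hmono hsupp
  set c : ℕ → ℂ := fun k => ∑ i ∈ range (k + 1), p i k with hc
  have hC1 : ∀ k, c k ≠ 0 → ∃ j, m j ≤ k ∧ k < m (j + 1) ∧ c k = p j k ∧ p j k ≠ 0 := by
    intro k hk
    obtain ⟨j, _, hj⟩ := Finset.exists_ne_zero_of_sum_ne_zero hk
    obtain ⟨h1, h2⟩ := hS j k hj
    exact ⟨j, h1, h2, hC j k h1 h2, hj⟩
  have hC0 : ∀ k, k < m 0 → c k = 0 := by
    intro k hk
    by_contra h
    obtain ⟨j, h1, _⟩ := hC1 k h
    have : m 0 ≤ m j := hm.monotone (Nat.zero_le j)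
    omega
  have hps : ∀ j, Summable fun k => ‖p j k‖ := by
    intro j
    by_contra h
    have := tsum_eq_zero_of_not_summable h
    rw [hsum j] at this
    exact one_ne_zero this
  have hc1 : ∀ k, ‖c k‖ ≤ 1 := by
    intro k
    by_cases h : c k = 0
    · rw [h, norm_zero]; exact zero_le_one
    · obtain ⟨j, _, _, h3, _⟩ := hC1 k h
      rw [h3, ← hsum j]
      exact (hps j).le_tsum k (fun _ _ => norm_nonneg _)
  have hconv : ∀ z : ℂ, ‖z‖ < 1 → Summable (fun k : ℕ => c k * z ^ k) := by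
    intro z hz
    apply Summable.of_norm_bounded (summable_geometric_of_lt_one (norm_nonneg z) hz)
    intro k
    rw [norm_mul, norm_pow]
    calc ‖c k‖ * ‖z‖ ^ k ≤ 1 * ‖z‖ ^ k :=
          mul_le_mul_of_nonneg_right (hc1 k) (by positivity)
      _ = _ := one_mul _
  refine ⟨c, ⟨?_, ?_, hconv⟩, ?_, ?_⟩
  · exact hC0 0 (by omega)
  · intro k hk k' hk' hlt
    obtain ⟨i, hi1, hi2, hi3, hi4⟩ := hC1 k hk
    obtain ⟨j, hj1, hj2, hj3, hj4⟩ := hC1 k' hk'
    rcases lt_trichotomy i j with h | h | h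
    · have h1 : m (i + 1) ≤ m j := hm.monotone (by omega)
      have h2 : (m (i + 1) : ℝ) ≤ (k' : ℝ) := by exact_mod_cast h1.trans hj1
      exact (hsupp i k hi4).2.trans h2
    · subst h
      exact hlac i k hi4 k' hj4 hlt
    · exfalso
      have h1 : m (j + 1) ≤ m i := hm.monotone (by omega)
      omega
  · intro hs
    have hJ : ∀ J : ℕ, (J : ℝ) ≤ ∑ k ∈ range (m J), ‖c k‖ := by
      intro J
      induction J with
      | zero => push_cast; exact Finset.sum_nonneg fun _ _ => norm_nonneg _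
      | succ J ih =>
        rw [← Finset.sum_range_add_sum_Ico (fun k => ‖c k‖) (hmono J).le]
        have h1 : ∑ k ∈ Finset.Ico (m J) (m (J + 1)), ‖c k‖ = 1 := by
          rw [← hsum J, tsum_eq_sum (s := Finset.Ico (m J) (m (J + 1)))]
          · refine Finset.sum_congr rfl fun k hk => ?_
            rw [Finset.mem_Ico] at hk
            have he : c k = p J k := hC J k hk.1 hk.2
            rw [he]
          · intro k hk
            by_contra hne
            rw [norm_eq_zero] at hne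
            exact hk (Finset.mem_Ico.2 (hS J k hne))
        rw [h1]; push_cast; linarith
    obtain ⟨J, hJ2⟩ := exists_nat_gt (∑' k, ‖c k‖)
    have h1 := hs.sum_le_tsum (range (m J)) (fun _ _ => norm_nonneg _)
    have h2 := hJ J
    linarith
  · intro z hz
    have h1 : ∀ J, ∑ k ∈ range (m J), c k * z ^ k = ∑ j ∈ range J, F (p j) z := by
      intro J
      induction J with
      | zero =>
        rw [Finset.range_zero, Finset.sum_empty]
        apply Finset.sum_eq_zero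
        intro k hk
        rw [hC0 k (Finset.mem_range.1 hk), zero_mul]
      | succ J ih =>
        rw [← Finset.sum_range_add_sum_Ico (fun k => c k * z ^ k) (hmono J).le, ih,
          Finset.sum_range_succ]
        congr 1
        unfold F
        rw [tsum_eq_sum (s := Finset.Ico (m J) (m (J + 1)))]
        · refine Finset.sum_congr rfl fun k hk => ?_
          rw [Finset.mem_Ico] at hk
          have he : c k = p J k := hC J k hk.1 hk.2
          rw [he]
        · intro k hk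
          have : p J k = 0 := by
            by_contra hne
            exact hk (Finset.mem_Ico.2 (hS J k hne))
          rw [this, zero_mul]
    have h2 := (hconv z hz).hasSum.tendsto_sum_nat.comp hm.tendsto_atTop
    refine h2.congr fun J => ?_
    exact h1 J

/-- if the criterion fails there is a bad gap series -/
theorem exists_bad_of_not_crit (S : Set ℂ) (hne : S.Nonempty) (hS : ∀ z ∈ S, ‖z‖ < 1)
    (hcrit : ¬ Crit S) :
    ∃ (q : ℝ) (c : ℕ → ℂ), 1 < q ∧ IsGap q c ∧ (¬ Summable (fun k => ‖c k‖)) ∧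
      ∀ z ∈ S, ‖F c z‖ ≤ 2 := by
  unfold Crit at hcrit
  push Not at hcrit
  obtain ⟨q, hq, hc⟩ := hcrit
  obtain ⟨z0, hz0⟩ := hne
  have step : ∀ (m j : ℕ), ∃ p : ℕ → ℂ, ∃ M : ℕ, m < M ∧
      (∀ k, p k ≠ 0 → m ≤ k ∧ q * (k:ℝ) ≤ (M:ℝ)) ∧ Lac q (Function.support p) ∧
      ∑' k, ‖p k‖ = 1 ∧ ∀ z ∈ S, ‖F p z‖ ≤ (1/2:ℝ)^j := by
    intro m j
    obtain ⟨c, hfin, hlac, hm, B, hB, hlt⟩ := hc ((1/2:ℝ)^j) (by positivity) m
    have hB0 : 0 ≤ B := (norm_nonneg _).trans (hB z0 hz0)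
    obtain ⟨T, hT⟩ : ∃ T : ℝ, T = ∑' k, ‖c k‖ := ⟨_, rfl⟩
    rw [← hT] at hlt
    have hTpos : 0 < T := by
      by_contra h
      push Not at h
      have : (1/2:ℝ)^j * T ≤ 0 := mul_nonpos_of_nonneg_of_nonpos (by positivity) h
      linarith
    have hsupp : Function.support (fun k => c k / (T:ℂ)) = Function.support c := by
      ext k
      simp [hTpos.ne']
    obtain ⟨N, hN⟩ := hfin.bddAbove
    obtain ⟨M0, hM0⟩ := exists_nat_ge (q * (N:ℝ))
    refine ⟨fun k => c k / (T:ℂ), max M0 (m+1), ?_, ?_, ?_, ?_, ?_⟩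
    · exact lt_of_lt_of_le (Nat.lt_succ_self m) (le_max_right _ _)
    · intro k hk
      have hk' : c k ≠ 0 := by
        intro h0
        apply hk
        simp [h0]
      refine ⟨hm k hk', ?_⟩
      have h1 : k ≤ N := hN hk'
      have h2 : (k:ℝ) ≤ N := by exact_mod_cast h1
      calc q * (k:ℝ) ≤ q * N := by nlinarith
        _ ≤ M0 := hM0
        _ ≤ ((max M0 (m+1) : ℕ) : ℝ) := by exact_mod_cast le_max_left _ _
    · rw [hsupp]
      exact hlac
    · have h3 : ∀ k, ‖c k / (T:ℂ)‖ = ‖c k‖ / T := by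
        intro k
        rw [norm_div, Complex.norm_real, Real.norm_of_nonneg hTpos.le]
      simp only [h3]
      rw [tsum_div_const, ← hT]
      exact div_self hTpos.ne'
    · intro z hz
      have h4 : F (fun k => c k / (T:ℂ)) z = F c z / T := by
        unfold F
        rw [← tsum_div_const]
        congr 1
        funext k
        ring
      rw [h4, norm_div, Complex.norm_real, Real.norm_of_nonneg hTpos.le, div_le_iff₀ hTpos]
      exact (hB z hz).trans hlt.le
  choose p M hM hp hl hs hF using step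
  obtain ⟨m, hm0, hmS⟩ : ∃ m : ℕ → ℕ, m 0 = 1 ∧ ∀ j, m (j+1) = M (m j) j :=
    ⟨fun j => Nat.rec 1 (fun j m => M m j) j, rfl, fun j => rfl⟩
  obtain ⟨c, hgap, hns, hlim⟩ := glue q hq (fun j => p (m j) j) m hm0.ge
    (fun j => by rw [hmS]; exact hM _ _) (fun j k hk => by rw [hmS]; exact hp _ _ k hk)
    (fun j => hl _ _) (fun j => hs _ _)
  refine ⟨q, c, hq, hgap, hns, fun z hz => ?_⟩
  refine le_of_tendsto (hlim z (hS z hz)).norm (Filter.Eventually.of_forall fun J => ?_)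
  refine (norm_sum_le _ _).trans ((Finset.sum_le_sum (fun j _ => hF _ _ z hz)).trans ?_)
  exact sum_geometric_two_le J

/-- elementary inequality -/
theorem min_le_two_mul (r : ℝ) (h0 : 0 ≤ r) (h1 : r ≤ 1) (d : ℕ) :
    min 1 ((d : ℝ) * (1 - r)) ≤ 2 * (1 - r ^ d) := by
  have key : r ^ d * (1 + (d : ℝ) * (1 - r)) ≤ 1 := by
    induction d with
    | zero => simp
    | succ d ih =>
      have hp : 0 ≤ r ^ d := pow_nonneg h0 d
      have h2 : r ^ (d + 1) * (1 + ((d + 1 : ℕ) : ℝ) * (1 - r)) ≤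
          r ^ d * (1 + (d : ℝ) * (1 - r)) := by
        rw [pow_succ, mul_assoc]
        apply mul_le_mul_of_nonneg_left _ hp
        push_cast
        have hd : (0 : ℝ) ≤ d := Nat.cast_nonneg d
        nlinarith [mul_nonneg (mul_nonneg hd (sub_nonneg.2 h1)) (sub_nonneg.2 h1),
          sq_nonneg (1 - r)]
      exact h2.trans ih
  have hp : 0 ≤ r ^ d := pow_nonneg h0 d
  have hx : 0 ≤ (d : ℝ) * (1 - r) := mul_nonneg (Nat.cast_nonneg d) (by linarith)
  generalize r ^ d = p at key hp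
  generalize (d : ℝ) * (1 - r) = x at key hx
  rcases le_total x 1 with h | h
  · refine (min_le_right _ _).trans ?_
    by_contra hcon
    push Not at hcon
    have h3 : 1 - x / 2 < p := by linarith
    have h4 : (1 - x / 2) * (1 + x) < p * (1 + x) := mul_lt_mul_of_pos_right h3 (by linarith)
    nlinarith
  · refine (min_le_left _ _).trans ?_
    nlinarith

theorem ebs_pow_sub (ζ z : ℂ) (h1 : ‖ζ‖ ≤ 1) (h2 : ‖z‖ ≤ 1) (d : ℕ) :
    ‖ζ ^ d - z ^ d‖ ≤ d * ‖z - ζ‖ := by
  induction d with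
  | zero => simp
  | succ d ih =>
    have e : ζ ^ (d + 1) - z ^ (d + 1) = ζ ^ d * (ζ - z) + (ζ ^ d - z ^ d) * z := by ring
    rw [e]
    refine (norm_add_le _ _).trans ?_
    rw [norm_mul, norm_mul, norm_pow]
    have h3 : ‖ζ‖ ^ d ≤ 1 := pow_le_one₀ (norm_nonneg _) h1
    have h4 : ‖ζ - z‖ = ‖z - ζ‖ := norm_sub_rev _ _
    rw [h4]
    have h5 : ‖ζ‖ ^ d * ‖z - ζ‖ ≤ 1 * ‖z - ζ‖ := mul_le_mul_of_nonneg_right h3 (norm_nonneg _)
    have h6 : ‖ζ ^ d - z ^ d‖ * ‖z‖ ≤ (d * ‖z - ζ‖) * 1 :=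
      mul_le_mul ih h2 (norm_nonneg _) (by positivity)
    push_cast
    linarith

/-- Stolz angles over a `B₀`-set: a bad gap series -/
theorem exists_bad_stolz (E : Set ℂ) (hE : ∀ ζ ∈ E, ‖ζ‖ = 1) (d : ℕ → ℕ) (hd : StrictMono d) (B : ℝ)
    (hD : ∀ ζ ∈ E, ∀ J : ℕ, ∑ j ∈ range J, ‖ζ ^ (d j) - 1‖ ≤ B) (C : ℝ) :
    ∃ (c : ℕ → ℂ), IsGap 2 c ∧ (¬ Summable (fun k => ‖c k‖)) ∧
      ∃ M : ℝ, ∀ z ∈ Stolz E C, ‖F c z‖ ≤ M := by
  obtain ⟨ms, ms0, mss⟩ : ∃ ms : ℕ → ℕ, ms 0 = 1 ∧
      ∀ j, ms (j + 1) = 2 * (ms j + d (ms j)) :=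
    ⟨fun j => Nat.rec (motive := fun _ => ℕ) 1 (fun _ m => 2 * (m + d m)) j, rfl, fun j => rfl⟩
  have hms1 : ∀ j, 1 ≤ ms j := by
    intro j
    induction j with
    | zero => exact le_of_eq ms0.symm
    | succ j ih => rw [mss]; omega
  have hdm : ∀ j, ms j ≤ d (ms j) := fun j => hd.le_apply
  have hd1 : ∀ j, 1 ≤ d (ms j) := fun j => (hms1 j).trans (hdm j)
  have hmsm : StrictMono ms := strictMono_nat_of_lt_succ fun j => by
    rw [mss]
    have := hms1 j
    omega
  obtain ⟨p, hp⟩ : ∃ p : ℕ → ℕ → ℂ, ∀ j k : ℕ, p j k = if k = ms j then (1 / 2 : ℂ) else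
    if k = ms j + d (ms j) then (-(1 / 2) : ℂ) else 0 := ⟨_, fun j k => rfl⟩
  have hp1 : ∀ j, p j (ms j) = 1 / 2 := fun j => by rw [hp, if_pos rfl]
  have hne : ∀ j, ms j + d (ms j) ≠ ms j := fun j => by have := hd1 j; omega
  have hp2 : ∀ j, p j (ms j + d (ms j)) = -(1 / 2) := fun j => by
    rw [hp, if_neg (hne j), if_pos rfl]
  have hp3 : ∀ j k, k ∉ ({ms j, ms j + d (ms j)} : Finset ℕ) → p j k = 0 := by
    intro j k hk
    simp only [Finset.mem_insert, Finset.mem_singleton, not_or] at hk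
    rw [hp, if_neg hk.1, if_neg hk.2]
  have hp4 : ∀ j k, p j k ≠ 0 → k = ms j ∨ k = ms j + d (ms j) := by
    intro j k hk
    by_contra hcon
    exact hk (hp3 j k (by simpa using hcon))
  obtain ⟨c, hc1, hc2, hc3⟩ := glue 2 one_lt_two p ms (hms1 0)
    (fun j => by rw [mss]; have := hms1 j; omega)
    (fun j k hk => by
      rcases hp4 j k hk with h | h
      · subst h
        refine ⟨le_rfl, ?_⟩
        rw [mss]; push_cast
        have : (0:ℝ) ≤ (d (ms j) : ℝ) := Nat.cast_nonneg _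
        linarith
      · subst h
        refine ⟨by omega, ?_⟩
        rw [mss]; push_cast
        linarith)
    (fun j a ha b hb hab => by
      have ha' := hp4 j a ha
      have hb' := hp4 j b hb
      have := hdm j
      have h1 : a = ms j := by
        rcases ha' with h | h
        · exact h
        · rcases hb' with h' | h'
          · omega
          · omega
      have h2 : b = ms j + d (ms j) := by
        rcases hb' with h | h
        · omega
        · exact h
      have h3 : 2 * a ≤ b := by omega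
      exact_mod_cast h3)
    (fun j => by
      rw [tsum_eq_sum (s := ({ms j, ms j + d (ms j)} : Finset ℕ))
        (fun k hk => by rw [hp3 j k hk, norm_zero])]
      rw [Finset.sum_pair (hne j).symm, hp1, hp2, norm_neg]
      norm_num)
  refine ⟨c, hc1, hc2, |B| + 2 * max 1 C, ?_⟩
  intro z hz
  obtain ⟨hz1, ζ, hζ, hζ2⟩ := hz
  have hF : ∀ j, F (p j) z = 1 / 2 * (z ^ (ms j) * (1 - z ^ (d (ms j)))) := by
    intro j
    unfold F
    rw [tsum_eq_sum (s := ({ms j, ms j + d (ms j)} : Finset ℕ))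
        (fun k hk => by rw [hp3 j k hk, zero_mul])]
    rw [Finset.sum_pair (hne j).symm, hp1, hp2, pow_add]
    ring
  set r := ‖z‖ with hr
  have hr0 : 0 ≤ r := norm_nonneg z
  set K := max 1 C with hK
  have hK1 : 1 ≤ K := le_max_left _ _
  have hKC : C ≤ K := le_max_right _ _
  have hterm : ∀ j, ‖F (p j) z‖ ≤ 1 / 2 * ‖ζ ^ (d (ms j)) - 1‖ +
      2 * K * (r ^ ms j - r ^ ms (j + 1)) := by
    intro j
    set e := d (ms j) with he
    have hζ1 := hE ζ hζ
    have h2 : ‖ζ ^ e - z ^ e‖ ≤ 4 * K * (1 - r ^ e) := by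
      have h3 := min_le_two_mul r hr0 hz1.le e
      have h4 : ‖ζ ^ e - z ^ e‖ ≤ 2 * K * min 1 ((e : ℝ) * (1 - r)) := by
        rcases le_total 1 ((e : ℝ) * (1 - r)) with h | h
        · rw [min_eq_left h]
          refine (norm_sub_le _ _).trans ?_
          rw [norm_pow, norm_pow, hζ1, one_pow]
          have : ‖z‖ ^ e ≤ 1 := pow_le_one₀ hr0 hz1.le
          linarith
        · rw [min_eq_right h]
          refine (ebs_pow_sub ζ z hζ1.le hz1.le e).trans ?_
          have h5 : (e : ℝ) * ‖z - ζ‖ ≤ e * (K * (1 - r)) := by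
            apply mul_le_mul_of_nonneg_left _ (Nat.cast_nonneg _)
            refine hζ2.trans ?_
            exact mul_le_mul_of_nonneg_right hKC (by linarith)
          have h6 : 0 ≤ (e : ℝ) * (K * (1 - r)) := by
            have : 0 ≤ 1 - r := by linarith
            positivity
          linarith
      refine h4.trans ?_
      have := mul_le_mul_of_nonneg_left h3 (by positivity : 0 ≤ 2 * K)
      linarith
    have h7 : ‖1 - z ^ e‖ ≤ ‖ζ ^ e - 1‖ + 4 * K * (1 - r ^ e) := by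
      have e' : 1 - z ^ e = (1 - ζ ^ e) + (ζ ^ e - z ^ e) := by ring
      rw [e']
      refine (norm_add_le _ _).trans (add_le_add ?_ h2)
      rw [norm_sub_rev]
    rw [hF, norm_mul, norm_mul, norm_pow, ← hr]
    have h8 : ‖(1 / 2 : ℂ)‖ = 1 / 2 := by norm_num
    rw [h8, ← he]
    have hrm0 : 0 ≤ r ^ ms j := by positivity
    have hrm1 : r ^ ms j ≤ 1 := pow_le_one₀ hr0 hz1.le
    have h9 : r ^ ms j * ‖1 - z ^ e‖ ≤ r ^ ms j * (‖ζ ^ e - 1‖ + 4 * K * (1 - r ^ e)) :=
      mul_le_mul_of_nonneg_left h7 hrm0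
    have h10 : r ^ ms j * ‖ζ ^ e - 1‖ ≤ 1 * ‖ζ ^ e - 1‖ :=
      mul_le_mul_of_nonneg_right hrm1 (norm_nonneg _)
    have h11 : r ^ ms (j + 1) ≤ r ^ ms j * r ^ e := by
      rw [← pow_add]
      apply pow_le_pow_of_le_one hr0 hz1.le
      rw [mss]
      omega
    have h12 : 2 * K * (r ^ ms j - r ^ ms j * r ^ e) ≤ 2 * K * (r ^ ms j - r ^ ms (j + 1)) :=
      mul_le_mul_of_nonneg_left (by linarith) (by positivity)
    nlinarith
  have hsumB : ∀ J, ∑ j ∈ range J, ‖ζ ^ (d (ms j)) - 1‖ ≤ B := by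
    intro J
    refine le_trans ?_ (hD ζ hζ (ms J))
    rw [← Finset.sum_image (s := range J) (g := ms) (f := fun i => ‖ζ ^ (d i) - 1‖)
      (fun a _ b _ h => hmsm.injective h)]
    apply Finset.sum_le_sum_of_subset_of_nonneg
    · intro i hi
      rw [Finset.mem_image] at hi
      obtain ⟨j, hj, rfl⟩ := hi
      rw [Finset.mem_range] at hj ⊢
      exact hmsm hj
    · intro i _ _
      exact norm_nonneg _
  have hpart : ∀ J, ‖∑ j ∈ range J, F (p j) z‖ ≤ |B| + 2 * K := by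
    intro J
    have h1 : ‖∑ j ∈ range J, F (p j) z‖ ≤ ∑ j ∈ range J,
        (1 / 2 * ‖ζ ^ (d (ms j)) - 1‖ + 2 * K * (r ^ ms j - r ^ ms (j + 1))) :=
      (norm_sum_le _ _).trans (Finset.sum_le_sum fun j _ => hterm j)
    rw [Finset.sum_add_distrib, ← Finset.mul_sum, ← Finset.mul_sum,
      Finset.sum_range_sub' (fun j => r ^ ms j) J] at h1
    have h4 : r ^ ms 0 ≤ 1 := pow_le_one₀ hr0 hz1.le
    have h5 : 0 ≤ r ^ ms J := by positivity
    have h6 : 2 * K * (r ^ ms 0 - r ^ ms J) ≤ 2 * K * 1 :=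
      mul_le_mul_of_nonneg_left (by linarith) (by positivity)
    have h7 := hsumB J
    have h8 := le_abs_self B
    have h9 := abs_nonneg B
    linarith
  exact le_of_tendsto (hc3 z hz1).norm (Filter.Eventually.of_forall hpart)

/-- continuity of the sum in the disc -/
theorem continuousOn_F (c : ℕ → ℂ) (hc : ∀ z : ℂ, ‖z‖ < 1 → Summable (fun k : ℕ => c k * z ^ k)) :
    ContinuousOn (F c) (Metric.ball 0 1) := by
  intro z0 hz0
  rw [Metric.mem_ball, dist_zero_right] at hz0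
  have hn0 : 0 ≤ ‖z0‖ := norm_nonneg _
  obtain ⟨r, hr⟩ : ∃ r : ℝ, r = (‖z0‖ + 1) / 2 := ⟨_, rfl⟩
  have hr0 : 0 ≤ r := by linarith
  have hr1 : r < 1 := by linarith
  have hrz : ‖z0‖ < r := by linarith
  have hnr : ‖(r : ℂ)‖ = r := by rw [Complex.norm_real, Real.norm_eq_abs, abs_of_nonneg hr0]
  have hs := (hc (r : ℂ) (by rw [hnr]; exact hr1)).norm
  have h1 : ContinuousOn (fun z : ℂ => ∑' k : ℕ, c k * z ^ k) (Metric.ball 0 r) := by
    refine continuousOn_tsum (fun k => ?_) hs (fun k z hz => ?_)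
    · exact (continuous_const.mul (continuous_pow k)).continuousOn
    · rw [Metric.mem_ball, dist_zero_right] at hz
      rw [norm_mul, norm_mul, norm_pow, norm_pow, hnr]
      exact mul_le_mul_of_nonneg_left (pow_le_pow_left₀ (norm_nonneg _) hz.le k) (norm_nonneg _)
  have h2 : z0 ∈ Metric.ball (0 : ℂ) r := by
    rw [Metric.mem_ball, dist_zero_right]; exact hrz
  exact (h1.continuousAt (Metric.isOpen_ball.mem_nhds h2)).continuousWithinAt

end Pool.Agent.Helper414.HG
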