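import Pool.Agent.Helper414.HgR

set_option autoImplicit false

/-!
# A compact set of measure zero with vanishing porosity
-/

namespace Pool.Agent.Helper414.HG

open Finset

/-- lengths of the intervals of the Cantor construction -/
noncomputable def ell (k : ℕ) : ℝ := (1 / 2) ^ k / (k + 1)

/-- the weights of the digits -/
noncomputable def dd (k : ℕ) : ℝ := ell k - ell (k + 1)

/-- left end point of the interval number `k` -/
noncomputable def lpt (b : ℕ → Bool) (k : ℕ) : ℝ := ∑ j ∈ range k, if b j then dd j else 0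

/-- the point with digits `b` -/
noncomputable def pt (b : ℕ → Bool) : ℝ := ∑' j : ℕ, if b j then dd j else 0

/-- the Cantor set -/
def CE : Set ℝ := Set.range pt

theorem ell_facts_pos (k : ℕ) : 0 < ell k := by
  unfold ell
  positivity

theorem ell_facts_succ (k : ℕ) : ell (k + 1) = (1 / 2) ^ k / 2 / ((k : ℝ) + 2) := by
  unfold ell
  rw [pow_succ]
  push_cast
  ring

theorem ell_facts_two (k : ℕ) : ell k - 2 * ell (k + 1) = ell k / (k + 2) := by
  rw [ell_facts_succ]
  unfold ell
  field_simp
  ring

theorem ell_facts_four (k : ℕ) : ell k ≤ 4 * ell (k + 1) := by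
  rw [ell_facts_succ]
  unfold ell
  have h : (0 : ℝ) < (1 / 2) ^ k := by positivity
  have h2 : 4 * ((1 / 2 : ℝ) ^ k / 2 / ((k : ℝ) + 2)) = (2 * (1 / 2) ^ k) / ((k : ℝ) + 2) := by
    ring
  rw [h2, div_le_div_iff₀ (by positivity) (by positivity)]
  have hk : (0 : ℝ) ≤ k := Nat.cast_nonneg k
  nlinarith

theorem ell_facts_tendsto : Filter.Tendsto ell Filter.atTop (nhds 0) := by
  have h1 : Filter.Tendsto (fun k : ℕ => (1 / 2 : ℝ) ^ k) Filter.atTop (nhds 0) :=
    tendsto_pow_atTop_nhds_zero_of_lt_one (by norm_num) (by norm_num)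
  refine squeeze_zero (fun k => (ell_facts_pos k).le) (fun k => ?_) h1
  unfold ell
  refine div_le_self (by positivity) ?_
  have hk : (0 : ℝ) ≤ k := Nat.cast_nonneg k
  linarith

theorem ell_facts_tele (k N : ℕ) : ∑ j ∈ range N, dd (j + k) = ell k - ell (N + k) := by
  induction N with
  | zero => simp
  | succ N ih =>
    rw [Finset.sum_range_succ, ih]
    unfold dd
    rw [show N + 1 + k = N + k + 1 by ring]
    ring

theorem ell_facts : (∀ k, 0 < ell k) ∧ (∀ k, 2 * ell (k + 1) ≤ ell k) ∧
    (∀ k : ℕ, ell k - 2 * ell (k + 1) = ell k / (k + 2)) ∧ (∀ k, ell k ≤ 4 * ell (k + 1)) ∧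
    (∀ k, 0 ≤ dd k) ∧ Filter.Tendsto ell Filter.atTop (nhds 0) ∧
    (∀ k, HasSum (fun j => dd (j + k)) (ell k)) := by
  have h2 : ∀ k, 2 * ell (k + 1) ≤ ell k := fun k => by
    have h := ell_facts_two k
    have h3 : 0 ≤ ell k / ((k : ℝ) + 2) := by
      have := ell_facts_pos k
      positivity
    linarith
  have h5 : ∀ k, 0 ≤ dd k := fun k => by
    have := h2 k
    have := ell_facts_pos (k + 1)
    unfold dd
    linarith
  refine ⟨ell_facts_pos, h2, ell_facts_two, ell_facts_four, h5, ell_facts_tendsto, fun k => ?_⟩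
  rw [hasSum_iff_tendsto_nat_of_nonneg (fun j => h5 (j + k))]
  have h6 : (fun n => ∑ i ∈ range n, dd (i + k)) = fun n => ell k - ell (n + k) :=
    funext fun N => ell_facts_tele k N
  rw [h6]
  have h7 := (ell_facts_tendsto.comp (Filter.tendsto_add_atTop_nat k)).const_sub (ell k)
  rw [sub_zero] at h7
  exact h7

theorem pt_mem (b : ℕ → Bool) (k : ℕ) : lpt b k ≤ pt b ∧ pt b ≤ lpt b k + ell k := by
  obtain ⟨_, _, _, _, hdd, _, hsum⟩ := ell_facts
  have h0 : ∀ j, 0 ≤ (if b j then dd j else 0) := by
    intro j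
    split_ifs
    · exact hdd j
    · exact le_refl 0
  have h1 : ∀ j, (if b j then dd j else 0) ≤ dd j := by
    intro j
    split_ifs
    · exact le_refl _
    · exact hdd j
  have hs0 : Summable dd := by
    have h := (hsum 0).summable
    simpa using h
  have hs : Summable (fun j => if b j then dd j else 0) := Summable.of_nonneg_of_le h0 h1 hs0
  have hsk : Summable (fun j => if b (j + k) then dd (j + k) else 0) :=
    (summable_nat_add_iff (f := fun j => if b j then dd j else 0) k).mpr hs
  have hsplit : pt b = lpt b k + ∑' j, (if b (j + k) then dd (j + k) else 0) := by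
    unfold pt lpt
    exact (hs.sum_add_tsum_nat_add k).symm
  have hnn : 0 ≤ ∑' j, (if b (j + k) then dd (j + k) else 0) := tsum_nonneg (fun j => h0 (j + k))
  have hle : ∑' j, (if b (j + k) then dd (j + k) else 0) ≤ ell k := by
    rw [← (hsum k).tsum_eq]
    exact hsk.tsum_le_tsum (fun j => h1 (j + k)) (hsum k).summable
  rw [hsplit]
  constructor
  · linarith
  · linarith

/-- the right end point of an interval of the construction belongs to the Cantor set -/
theorem pt_right (b : ℕ → Bool) (k : ℕ) (h : ∀ j, k ≤ j → b j = true) : pt b = lpt b k + ell k := by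
  have hs := ell_facts.2.2.2.2.2.2 k
  have hf : (fun j => (if b (j + k) then dd (j + k) else 0)) = fun j => dd (j + k) := by
    funext j
    rw [h (j + k) (by omega)]
    simp
  have hsum : Summable (fun j => if b j then dd j else 0) := by
    rw [← summable_nat_add_iff k]
    show Summable (fun j => (if b (j + k) then dd (j + k) else 0))
    rw [hf]
    exact hs.summable
  unfold pt lpt
  rw [← hsum.sum_add_tsum_nat_add k]
  congr 1
  show ∑' j, (if b (j + k) then dd (j + k) else 0) = ell k
  rw [hf]
  exact hs.tsum_eq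

theorem lpt_succ_of (b c : ℕ → Bool) (k : ℕ) (h : ∀ j, j < k → c j = b j) :
    lpt c (k + 1) = lpt b k + if c k then dd k else 0 := by
  unfold lpt
  rw [sum_range_succ]
  congr 1
  apply sum_congr rfl
  intro j hj
  rw [h j (mem_range.1 hj)]

theorem dense_aux (i : ℕ) : ∀ (b : ℕ → Bool) (k : ℕ) (y : ℝ), lpt b k ≤ y → y ≤ lpt b k + ell k →
    ∃ x' ∈ CE, |x' - y| ≤ max (ell k / (k + 2)) (ell (k + i)) := by
  obtain ⟨hpos, h2, h3, -, -, -, -⟩ := ell_facts
  induction i with
  | zero =>
    intro b k y h1 h4
    refine ⟨pt b, ⟨b, rfl⟩, le_max_of_le_right ?_⟩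
    obtain ⟨p1, p2⟩ := pt_mem b k
    rw [add_zero, abs_le]
    constructor <;> linarith
  | succ i ih =>
    intro b k y h1 h4
    have hk : ell (k + 1) / (((k + 1 : ℕ) : ℝ) + 2) ≤ ell k / (k + 2) := by
      have e1 : ell (k + 1) ≤ ell k := by linarith [h2 k, hpos (k + 1)]
      push_cast
      apply div_le_div₀ (hpos k).le e1 (by positivity) (by linarith)
    have hmax : max (ell (k + 1) / (((k + 1 : ℕ) : ℝ) + 2)) (ell (k + 1 + i)) ≤
        max (ell k / (k + 2)) (ell (k + (i + 1))) := by
      have e : k + 1 + i = k + (i + 1) := by omega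
      rw [e]
      exact max_le_max hk le_rfl
    by_cases c1 : y ≤ lpt b k + ell (k + 1)
    · have e := lpt_succ_of b (Function.update b k false) k
        (fun j hj => Function.update_of_ne hj.ne _ _)
      rw [Function.update_self, if_neg (by simp), add_zero] at e
      obtain ⟨x', hx, hx'⟩ := ih (Function.update b k false) (k + 1) y (by rw [e]; exact h1)
        (by rw [e]; exact c1)
      exact ⟨x', hx, hx'.trans hmax⟩
    · by_cases c2 : lpt b k + dd k ≤ y
      · have e := lpt_succ_of b (Function.update b k true) k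
          (fun j hj => Function.update_of_ne hj.ne _ _)
        rw [Function.update_self, if_pos rfl] at e
        obtain ⟨x', hx, hx'⟩ := ih (Function.update b k true) (k + 1) y (by rw [e]; exact c2)
          (by rw [e]; unfold dd; linarith)
        exact ⟨x', hx, hx'.trans hmax⟩
      · let c : ℕ → Bool := fun j => if j < k then b j else if j = k then false else true
        have hc1 : ∀ j, j < k → c j = b j := fun j hj => by simp [c, hj]
        have hc2 : c k = false := by simp [c]
        have hc3 : ∀ j, k + 1 ≤ j → c j = true := fun j hj => by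
          have a1 : ¬ j < k := by omega
          have a2 : j ≠ k := by omega
          simp [c, a1, a2]
        have e := lpt_succ_of b c k hc1
        rw [hc2, if_neg (by simp), add_zero] at e
        have e2 := pt_right c (k + 1) hc3
        rw [e] at e2
        refine ⟨pt c, ⟨c, rfl⟩, le_max_of_le_left ?_⟩
        push Not at c1 c2
        rw [e2, ← h3 k, abs_le]
        unfold dd at c2
        constructor <;> linarith [h2 k, hpos (k+1)]

/-- the Cantor set is dense at scale `ell k / (k + 2)` in the intervals of stage `k` -/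
theorem dense_ce (b : ℕ → Bool) (k : ℕ) (y : ℝ) (h1 : lpt b k ≤ y) (h2 : y ≤ lpt b k + ell k) :
    ∃ x' ∈ CE, |x' - y| ≤ ell k / (k + 2) := by
  obtain ⟨i, hi⟩ : ∃ i : ℕ, ell (k + i) ≤ ell k / (k + 2) := by
    have h := ell_facts.2.2.2.2.2.1
    have hpos : (0:ℝ) < ell k / (k + 2) := div_pos (ell_facts.1 k) (by positivity)
    have h' := (h.eventually (gt_mem_nhds hpos)).and (Filter.eventually_ge_atTop k)
    obtain ⟨n, hn1, hn2⟩ := h'.exists
    refine ⟨n - k, ?_⟩
    rw [Nat.add_sub_cancel' hn2]
    exact hn1.le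
  obtain ⟨x', hx, hx'⟩ := dense_aux i b k y h1 h2
  exact ⟨x', hx, hx'.trans (max_le le_rfl hi)⟩

/-- the Cantor set has vanishing porosity -/
theorem vp_ce (η : ℝ) (hη : 0 < η) : ∃ r₀ : ℝ, 0 < r₀ ∧ VP CE η r₀ := by
  classical
  obtain ⟨hpos, hhalf, -, h4, -, htend, -⟩ := ell_facts
  have hanti : Antitone ell := by
    apply antitone_nat_of_succ_le
    intro n
    have := hhalf n
    have := hpos (n + 1)
    linarith
  obtain ⟨K, hK⟩ := exists_nat_gt (8 / η)
  have hK2 : 8 ≤ η * ((K : ℝ) + 2) := by
    have h1 : 8 < K * η := (div_lt_iff₀ hη).mp hK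
    nlinarith
  refine ⟨ell K / 2, by have := hpos K; linarith, ?_⟩
  rintro x ⟨b, rfl⟩ R hR hRr
  have hex : ∃ k', ell k' < 2 * R := by
    have h2 : ∀ᶠ n in Filter.atTop, ell n < 2 * R :=
      htend.eventually (gt_mem_nhds (by linarith))
    exact h2.exists
  set k' := Nat.find hex with hk'
  have hk1 : ell k' < 2 * R := Nat.find_spec hex
  have hkK : K < k' := by
    by_contra hle
    push Not at hle
    have := hanti hle
    linarith
  obtain ⟨k, hk⟩ : ∃ k, k' = k + 1 := ⟨k' - 1, by omega⟩
  have hk2 : 2 * R ≤ ell k := by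
    have := Nat.find_min hex (m := k) (by omega)
    exact not_lt.mp this
  have hKk : K ≤ k := by omega
  rw [hk] at hk1
  obtain ⟨hx1, hx2⟩ := pt_mem b k
  obtain ⟨y0, hy1, hy2, hy3⟩ : ∃ y0, |y0 - pt b| ≤ R ∧ lpt b k + R ≤ y0 ∧
      y0 ≤ lpt b k + ell k - R := by
    rcases le_total (pt b) (lpt b k + R) with h | h
    · refine ⟨lpt b k + R, ?_, le_rfl, by linarith⟩
      rw [abs_le]; constructor <;> linarith
    · rcases le_total (pt b) (lpt b k + ell k - R) with h' | h'
      · refine ⟨pt b, ?_, h, h'⟩
        rw [sub_self, abs_zero]; exact hR.le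
      · refine ⟨lpt b k + ell k - R, ?_, by linarith, le_rfl⟩
        rw [abs_le]; constructor <;> linarith
  refine ⟨y0, hy1, ?_⟩
  intro y hy
  rw [abs_le] at hy
  obtain ⟨x', hx', hd⟩ := dense_ce b k y (by linarith [hy.1]) (by linarith [hy.2])
  refine ⟨x', hx', hd.trans ?_⟩
  have hkpos : (0 : ℝ) < (k : ℝ) + 2 := by positivity
  rw [div_le_iff₀ hkpos]
  have h5 := h4 k
  have h6 : (K : ℝ) ≤ k := by exact_mod_cast hKk
  have h7 : 8 ≤ η * ((k : ℝ) + 2) := by nlinarith
  nlinarith [mul_le_mul_of_nonneg_right h7 hR.le]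

/-- the Cantor set has measure zero -/
theorem vol_ce : MeasureTheory.volume CE = 0 := by
  have key : ∀ k : ℕ, MeasureTheory.volume CE ≤ ENNReal.ofReal (1 / ((k : ℝ) + 1)) := by
    intro k
    let ext : (Fin k → Bool) → ℕ → Bool := fun v j => if h : j < k then v ⟨j, h⟩ else false
    have hsub : CE ⊆ ⋃ v : Fin k → Bool, Set.Icc (lpt (ext v) k) (lpt (ext v) k + ell k) := by
      rintro x ⟨b, rfl⟩
      rw [Set.mem_iUnion]
      refine ⟨fun i => b i, ?_⟩
      have h : lpt (ext fun i => b i) k = lpt b k := by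
        apply Finset.sum_congr rfl
        intro j hj
        have hj' : j < k := Finset.mem_range.1 hj
        simp only [ext, dif_pos hj']
      rw [h]
      exact pt_mem b k
    have h2 : (2 : ℝ) ^ k * ell k = 1 / ((k : ℝ) + 1) := by
      unfold ell
      have : (2 : ℝ) ^ k * ((1 / 2) ^ k / ((k : ℝ) + 1)) = (2 * (1 / 2)) ^ k / ((k : ℝ) + 1) := by
        rw [mul_pow]
        ring
      rw [this]
      norm_num
    calc MeasureTheory.volume CE
        ≤ MeasureTheory.volume (⋃ v : Fin k → Bool,
            Set.Icc (lpt (ext v) k) (lpt (ext v) k + ell k)) := MeasureTheory.measure_mono hsub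
      _ ≤ ∑ v : Fin k → Bool, MeasureTheory.volume
            (Set.Icc (lpt (ext v) k) (lpt (ext v) k + ell k)) :=
          MeasureTheory.measure_iUnion_fintype_le _ _
      _ = ∑ v : Fin k → Bool, ENNReal.ofReal (ell k) := by
          apply Finset.sum_congr rfl
          intro v _
          rw [Real.volume_Icc, add_sub_cancel_left]
      _ = ENNReal.ofReal (1 / ((k : ℝ) + 1)) := by
          rw [Finset.sum_const, Finset.card_univ, Fintype.card_fun, Fintype.card_bool,
            Fintype.card_fin, ← h2, ENNReal.ofReal_mul (by positivity), nsmul_eq_mul,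
            ENNReal.ofReal_pow (by norm_num)]
          norm_num
  have hlim : Filter.Tendsto (fun k : ℕ => ENNReal.ofReal (1 / ((k : ℝ) + 1))) Filter.atTop
      (nhds 0) := by
    have := ENNReal.tendsto_ofReal (tendsto_one_div_add_atTop_nhds_zero_nat (𝕜 := ℝ))
    rwa [ENNReal.ofReal_zero] at this
  exact le_antisymm (ge_of_tendsto' hlim key) bot_le

/-- the Cantor set is compact -/
theorem compact_ce : IsCompact CE := by
  obtain ⟨h1, h2, h3, h4, h5, h6, h7⟩ := ell_facts
  have hs : Summable dd := by
    have := (h7 0).summable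
    simpa using this
  have hc : Continuous pt := by
    unfold pt
    refine continuous_tsum (u := dd) ?_ hs ?_
    · intro j
      have hf : Continuous (fun c : Bool => if c then dd j else 0) := continuous_of_discreteTopology
      exact hf.comp (continuous_apply j)
    · intro j b
      by_cases hb : b j = true
      · simp only [hb, if_true]
        rw [Real.norm_of_nonneg (h5 j)]
      · simp only [hb]
        simpa using h5 j
  exact isCompact_range hc

end Pool.Agent.Helper414.HG
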