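import Pool.Agent.Helper414.HgA

set_option autoImplicit false

/-!
# Sets without accumulation point in the disc are not forcing
-/

namespace Pool.Agent.Helper414.HG

open Finset

/-- simultaneous recurrence -/
theorem recur (A : Finset ℂ) (hA : ∀ z ∈ A, ‖z‖ = 1) (ε : ℝ) (hε : 0 < ε) (N : ℕ) :
    ∃ T : ℕ, N ≤ T ∧ ∀ z ∈ A, ‖z ^ T - 1‖ ≤ ε := by
  classical
  let v : ℕ → (A → ℂ) := fun T z => (z : ℂ) ^ ((N + 1) * T)
  have hv : ∀ T, v T ∈ Metric.closedBall (0 : A → ℂ) 1 := by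
    intro T
    rw [mem_closedBall_zero_iff, pi_norm_le_iff_of_nonneg zero_le_one]
    intro z
    show ‖(z : ℂ) ^ ((N + 1) * T)‖ ≤ 1
    rw [norm_pow, hA z z.2, one_pow]
  obtain ⟨a, -, φ, hφ, hlim⟩ := (isCompact_closedBall (0 : A → ℂ) 1).tendsto_subseq hv
  obtain ⟨n0, hn0⟩ := Metric.cauchySeq_iff'.mp hlim.cauchySeq ε hε
  have h1 := hn0 (n0 + 1) (Nat.le_succ n0)
  have hlt : φ n0 < φ (n0 + 1) := hφ (Nat.lt_succ_self n0)
  refine ⟨(N + 1) * (φ (n0 + 1) - φ n0), ?_, ?_⟩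
  · have h2 : 1 ≤ φ (n0 + 1) - φ n0 := by omega
    nlinarith
  · intro z hz
    have h2 : dist (v (φ (n0 + 1)) ⟨z, hz⟩) (v (φ n0) ⟨z, hz⟩) < ε :=
      lt_of_le_of_lt (dist_le_pi_dist _ _ _) h1
    have h3 : v (φ (n0 + 1)) ⟨z, hz⟩ - v (φ n0) ⟨z, hz⟩
        = z ^ ((N + 1) * φ n0) * (z ^ ((N + 1) * (φ (n0 + 1) - φ n0)) - 1) := by
      show z ^ ((N + 1) * φ (n0 + 1)) - z ^ ((N + 1) * φ n0) = _
      have h4 : (N + 1) * φ (n0 + 1) = (N + 1) * φ n0 + (N + 1) * (φ (n0 + 1) - φ n0) := by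
        rw [← Nat.mul_add]
        congr 1
        omega
      rw [h4, pow_add]
      ring
    rw [dist_eq_norm, h3, norm_mul, norm_pow, hA z hz, one_pow, one_mul] at h2
    exact h2.le

theorem ip_near {d : ℕ} (V : Fin d → Fin d → ℂ) (hV : (Matrix.of V).det ≠ 0) :
    ∃ ε : ℝ, 0 < ε ∧ ∃ K : ℝ, 0 < K ∧ ∀ M : Fin d → Fin d → ℂ, (∀ i l, ‖M i l - V i l‖ ≤ ε) →
      (Matrix.of M).det ≠ 0 ∧ ∀ l i, ‖((Matrix.of M).det)⁻¹ * (Matrix.of M).adjugate l i‖ ≤ K := by
  have hdet : Continuous (fun M : Fin d → Fin d → ℂ => (Matrix.of M).det) :=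
    Continuous.matrix_det (A := fun M : Fin d → Fin d → ℂ => Matrix.of M) continuous_id
  have hadj : ∀ l i, Continuous (fun M : Fin d → Fin d → ℂ => (Matrix.of M).adjugate l i) := by
    intro l i
    have h1 : Continuous (fun M : Fin d → Fin d → ℂ => (Matrix.of M).adjugate) :=
      Continuous.matrix_adjugate (A := fun M : Fin d → Fin d → ℂ => Matrix.of M) continuous_id
    exact h1.matrix_elem l i
  obtain ⟨K, hK⟩ : ∃ K : ℝ, K = 1 + ∑ l, ∑ i, ‖((Matrix.of V).det)⁻¹ * (Matrix.of V).adjugate l i‖ :=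
    ⟨_, rfl⟩
  have hK1 : ∀ l i, ‖((Matrix.of V).det)⁻¹ * (Matrix.of V).adjugate l i‖ < K := by
    intro l i
    have h1 : ‖((Matrix.of V).det)⁻¹ * (Matrix.of V).adjugate l i‖ ≤
        ∑ i, ‖((Matrix.of V).det)⁻¹ * (Matrix.of V).adjugate l i‖ :=
      Finset.single_le_sum (f := fun i => ‖((Matrix.of V).det)⁻¹ * (Matrix.of V).adjugate l i‖)
        (fun _ _ => norm_nonneg _) (Finset.mem_univ i)
    have h2 : ∑ i, ‖((Matrix.of V).det)⁻¹ * (Matrix.of V).adjugate l i‖ ≤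
        ∑ l, ∑ i, ‖((Matrix.of V).det)⁻¹ * (Matrix.of V).adjugate l i‖ :=
      Finset.single_le_sum (f := fun l => ∑ i, ‖((Matrix.of V).det)⁻¹ *
        (Matrix.of V).adjugate l i‖)
        (fun _ _ => Finset.sum_nonneg (fun _ _ => norm_nonneg _)) (Finset.mem_univ l)
    rw [hK]
    linarith
  have hKpos : 0 < K := by
    rw [hK]
    have : 0 ≤ ∑ l, ∑ i, ‖((Matrix.of V).det)⁻¹ * (Matrix.of V).adjugate l i‖ :=
      Finset.sum_nonneg (fun _ _ => Finset.sum_nonneg (fun _ _ => norm_nonneg _))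
    linarith
  have hev1 : ∀ᶠ M in nhds V, (Matrix.of M).det ≠ 0 :=
    hdet.continuousAt.eventually_ne hV
  have hev2 : ∀ l i, ∀ᶠ M in nhds V,
      ‖((Matrix.of M).det)⁻¹ * (Matrix.of M).adjugate l i‖ < K := by
    intro l i
    have h1 : ContinuousAt (fun M : Fin d → Fin d → ℂ =>
        ‖((Matrix.of M).det)⁻¹ * (Matrix.of M).adjugate l i‖) V :=
      ((hdet.continuousAt.inv₀ hV).mul (hadj l i).continuousAt).norm
    exact h1.eventually_lt continuousAt_const (hK1 l i)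
  have hev3 : ∀ᶠ M in nhds V, ∀ l i,
      ‖((Matrix.of M).det)⁻¹ * (Matrix.of M).adjugate l i‖ < K := by
    rw [Filter.eventually_all]
    intro l
    rw [Filter.eventually_all]
    intro i
    exact hev2 l i
  obtain ⟨ε, hε, hball⟩ := Metric.eventually_nhds_iff.mp (hev1.and hev3)
  refine ⟨ε / 2, by linarith, K, hKpos, ?_⟩
  intro M hM
  have h1 : dist M V < ε := by
    rw [dist_pi_lt_iff hε]
    intro i
    rw [dist_pi_lt_iff hε]
    intro l
    rw [dist_eq_norm]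
    have := hM i l
    linarith
  obtain ⟨h2, h3⟩ := hball h1
  exact ⟨h2, fun l i => (h3 l i).le⟩

/-- bounded interpolation by lacunary polynomials on the unit circle -/
theorem interp1 (A : Finset ℂ) (hA : ∀ z ∈ A, ‖z‖ = 1) (Q : ℝ) :
    ∃ K : ℝ, 0 < K ∧ ∀ (N : ℕ) (v : ℂ → ℂ), ∃ (n : ℕ → ℕ) (b : ℕ → ℂ), StrictMono n ∧ N ≤ n 0 ∧
      (∀ l, Q * (n l : ℝ) ≤ (n (l + 1) : ℝ)) ∧
      (∀ z ∈ A, ∑ l ∈ range A.card, b l * z ^ (n l) = v z) ∧
      ∀ l, l < A.card → ‖b l‖ ≤ K * ∑ z ∈ A, ‖v z‖ := by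
  obtain ⟨w, hw1, hw2, hw3, hw4⟩ : ∃ w : Fin A.card → ℂ, Function.Injective w ∧ (∀ i, w i ∈ A) ∧
      (∀ z ∈ A, ∃ i, w i = z) ∧ ∀ f : ℂ → ℝ, ∑ i, f (w i) = ∑ z ∈ A, f z := by
    refine ⟨fun i => (A.equivFin.symm i : ℂ), ?_, ?_, ?_, ?_⟩
    · intro i j hij
      exact A.equivFin.symm.injective (Subtype.ext hij)
    · intro i
      exact (A.equivFin.symm i).2
    · intro z hz
      refine ⟨A.equivFin ⟨z, hz⟩, ?_⟩
      show ((A.equivFin.symm (A.equivFin ⟨z, hz⟩) : A) : ℂ) = z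
      rw [Equiv.symm_apply_apply]
    · intro f
      rw [← Finset.sum_coe_sort A f]
      exact Equiv.sum_comp A.equivFin.symm (fun z : A => f z)
  have hV : (Matrix.of (fun (i l : Fin A.card) => (w i) ^ (l : ℕ))).det ≠ 0 := by
    have h1 : (Matrix.vandermonde w).det ≠ 0 := Matrix.det_vandermonde_ne_zero_iff.mpr hw1
    exact h1
  obtain ⟨ε, hε, K, hK, hnear⟩ := ip_near (fun (i l : Fin A.card) => (w i) ^ (l : ℕ)) hV
  refine ⟨K, hK, ?_⟩
  intro N v
  choose R hR1 hR2 using fun N => recur A hA ε hε N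
  obtain ⟨T, hT0, hT1⟩ : ∃ T : ℕ → ℕ, T 0 = R N ∧
      ∀ l, T (l + 1) = R (⌈|Q| * ((l + T l : ℕ) : ℝ)⌉₊ + T l + 1) :=
    ⟨fun l => Nat.rec (motive := fun _ => ℕ) (R N)
      (fun l Tl => R (⌈|Q| * ((l + Tl : ℕ) : ℝ)⌉₊ + Tl + 1)) l, rfl, fun l => rfl⟩
  have hTz : ∀ l, ∀ z ∈ A, ‖z ^ T l - 1‖ ≤ ε := by
    intro l
    cases l with
    | zero =>
      rw [hT0]
      exact hR2 N
    | succ l =>
      rw [hT1]
      exact hR2 _
  have hTl : ∀ l, ⌈|Q| * ((l + T l : ℕ) : ℝ)⌉₊ + T l + 1 ≤ T (l + 1) := by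
    intro l
    rw [hT1]
    exact hR1 _
  obtain ⟨n, hn⟩ : ∃ n : ℕ → ℕ, ∀ l, n l = l + T l := ⟨fun l => l + T l, fun l => rfl⟩
  obtain ⟨M, hM⟩ : ∃ M : Fin A.card → Fin A.card → ℂ, ∀ i l, M i l = (w i) ^ (n l) :=
    ⟨fun i l => (w i) ^ (n l), fun i l => rfl⟩
  have hMV : ∀ i l, ‖M i l - (w i) ^ (l : ℕ)‖ ≤ ε := by
    intro i l
    have h1 : M i l - (w i) ^ (l : ℕ) = (w i) ^ (l : ℕ) * ((w i) ^ (T l) - 1) := by
      rw [hM, hn, pow_add]
      ring
    rw [h1, norm_mul, norm_pow, hA _ (hw2 i), one_pow, one_mul]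
    exact hTz l _ (hw2 i)
  obtain ⟨hdet, hadj⟩ := hnear M hMV
  obtain ⟨vv, hvv⟩ : ∃ vv : Fin A.card → ℂ, ∀ i, vv i = v (w i) := ⟨fun i => v (w i), fun i => rfl⟩
  obtain ⟨b', hb'⟩ : ∃ b' : Fin A.card → ℂ,
      b' = ((Matrix.of M).det)⁻¹ • ((Matrix.of M).adjugate.mulVec vv) := ⟨_, rfl⟩
  have hsolve : (Matrix.of M).mulVec b' = vv := by
    rw [hb', Matrix.mulVec_smul, Matrix.mulVec_mulVec, Matrix.mul_adjugate, Matrix.smul_mulVec,
      Matrix.one_mulVec, smul_smul, inv_mul_cancel₀ hdet, one_smul]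
  refine ⟨n, fun l => if h : l < A.card then b' ⟨l, h⟩ else 0, ?_, ?_, ?_, ?_, ?_⟩
  · apply strictMono_nat_of_lt_succ
    intro l
    have := hTl l
    rw [hn, hn]
    omega
  · rw [hn, hT0, zero_add]
    exact hR1 N
  · intro l
    have h1 := hTl l
    have h2 := Nat.le_ceil (|Q| * ((l + T l : ℕ) : ℝ))
    have h3 : ((⌈|Q| * ((l + T l : ℕ) : ℝ)⌉₊ : ℕ) : ℝ) ≤ ((n (l + 1) : ℕ) : ℝ) := by
      have : ⌈|Q| * ((l + T l : ℕ) : ℝ)⌉₊ ≤ n (l + 1) := by
        rw [hn]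
        omega
      exact_mod_cast this
    have h4 : Q * (n l : ℝ) ≤ |Q| * ((l + T l : ℕ) : ℝ) := by
      rw [hn]
      exact mul_le_mul_of_nonneg_right (le_abs_self Q) (Nat.cast_nonneg _)
    linarith
  · intro z hz
    obtain ⟨i, hi⟩ := hw3 z hz
    rw [Finset.sum_range]
    have h1 := congrFun hsolve i
    rw [hvv, hi] at h1
    rw [← h1]
    show _ = ∑ l, (Matrix.of M) i l * b' l
    apply Finset.sum_congr rfl
    intro l _
    show (if h : (l : ℕ) < A.card then b' ⟨(l : ℕ), h⟩ else 0) * z ^ n l = M i l * b' l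
    rw [dif_pos l.2]
    show b' l * z ^ n l = M i l * b' l
    rw [hM, hi, mul_comm]
  · intro l hl
    show ‖(if h : l < A.card then b' ⟨l, h⟩ else 0)‖ ≤ K * ∑ z ∈ A, ‖v z‖
    rw [dif_pos hl]
    have h1 : b' ⟨l, hl⟩ = ∑ i, (((Matrix.of M).det)⁻¹ * (Matrix.of M).adjugate ⟨l, hl⟩ i) * vv i := by
      rw [hb']
      show ((Matrix.of M).det)⁻¹ * ∑ i, (Matrix.of M).adjugate ⟨l, hl⟩ i * vv i = _
      rw [Finset.mul_sum]
      apply Finset.sum_congr rfl
      intro i _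
      ring
    rw [h1, ← hw4 (fun z => ‖v z‖), Finset.mul_sum]
    refine norm_sum_le_of_le _ (fun i _ => ?_)
    rw [norm_mul, hvv]
    exact mul_le_mul_of_nonneg_right (hadj _ _) (norm_nonneg _)

/-- interpolation by lacunary polynomials at points of the same modulus -/
theorem block (A : Finset ℂ) (ρ ρ' : ℝ) (h0 : 0 ≤ ρ') (h1 : ρ' < ρ) (hA : ∀ z ∈ A, ‖z‖ = ρ)
    (q : ℝ) (hq : 1 < q) (N : ℕ) (v : ℂ → ℂ) (ε : ℝ) (hε : 0 < ε) :
    ∃ p : ℕ → ℂ, (Function.support p).Finite ∧ Lac q (Function.support p) ∧ (∀ k, p k ≠ 0 → N ≤ k) ∧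
      (∀ z ∈ A, F p z = v z) ∧ ∑' k : ℕ, ‖p k‖ * ρ' ^ k ≤ ε := by
  classical
  have hρ : 0 < ρ := h0.trans_lt h1
  have hρc : (ρ : ℂ) ≠ 0 := by exact_mod_cast hρ.ne'
  set A' : Finset ℂ := A.image (fun z => z / (ρ : ℂ)) with hA'
  have hA1 : ∀ w ∈ A', ‖w‖ = 1 := by
    intro w hw
    rw [hA', Finset.mem_image] at hw
    obtain ⟨z, hz, rfl⟩ := hw
    rw [norm_div, hA z hz, Complex.norm_real, Real.norm_eq_abs, abs_of_pos hρ, div_self hρ.ne']
  obtain ⟨K, hK, H⟩ := interp1 A' hA1 q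
  set v' : ℂ → ℂ := fun w => v ((ρ : ℂ) * w) with hv'
  set S0 : ℝ := ∑ w ∈ A', ‖v' w‖ with hS0
  have hS0n : 0 ≤ S0 := Finset.sum_nonneg fun _ _ => norm_nonneg _
  set d : ℕ := A'.card with hd
  set r : ℝ := ρ' / ρ with hr
  have hr0 : 0 ≤ r := div_nonneg h0 hρ.le
  have hr1 : r < 1 := (div_lt_one hρ).2 h1
  have hD : 0 ≤ (d : ℝ) * (K * S0) := by positivity
  obtain ⟨n1, hn1⟩ := exists_pow_lt_of_lt_one (show 0 < ε / ((d : ℝ) * (K * S0) + 1) by positivity) hr1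
  obtain ⟨n, b, hn, hN, hlac, hval, hb⟩ := H (max N n1) v'
  set a : ℕ → ℂ := fun l => b l / (ρ : ℂ) ^ (n l) with ha
  set p : ℕ → ℂ := fun k => ∑ l ∈ range d, if k = n l then a l else 0 with hp
  have hge : ∀ l, max N n1 ≤ n l := fun l => hN.trans (hn.monotone (Nat.zero_le l))
  have hsup : ∀ k, p k ≠ 0 → ∃ l, l < d ∧ k = n l := by
    intro k hk
    by_contra hcon
    push Not at hcon
    apply hk
    rw [hp]
    refine Finset.sum_eq_zero fun l hl => ?_
    rw [if_neg (hcon l (Finset.mem_range.1 hl))]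
  refine ⟨p, ?_, ?_, ?_, ?_, ?_⟩
  · refine Set.Finite.subset ((range d).image n).finite_toSet ?_
    intro k hk
    obtain ⟨l, hl, rfl⟩ := hsup k hk
    simp only [Finset.coe_image, Set.mem_image, Finset.coe_range, Set.mem_Iio]
    exact ⟨l, hl, rfl⟩
  · intro m hm m' hm' hlt
    obtain ⟨l, hl, rfl⟩ := hsup m hm
    obtain ⟨l', hl', rfl⟩ := hsup m' hm'
    have h2 : l < l' := hn.lt_iff_lt.1 hlt
    refine (hlac l).trans ?_
    exact_mod_cast hn.monotone (Nat.succ_le_of_lt h2)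
  · intro k hk
    obtain ⟨l, hl, rfl⟩ := hsup k hk
    exact (le_max_left _ _).trans (hge l)
  · intro z hz
    have hs : HasSum (fun k : ℕ => ∑ l ∈ range d, if k = n l then a l * z ^ (n l) else 0)
        (∑ l ∈ range d, a l * z ^ (n l)) :=
      hasSum_sum fun l _ => hasSum_ite_eq (n l) (a l * z ^ (n l))
    have he : (fun k : ℕ => p k * z ^ k) =
        fun k : ℕ => ∑ l ∈ range d, if k = n l then a l * z ^ (n l) else 0 := by
      ext k
      rw [hp]
      simp only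
      rw [Finset.sum_mul]
      refine Finset.sum_congr rfl fun l _ => ?_
      split_ifs with h
      · rw [h]
      · rw [zero_mul]
    unfold F
    rw [he, hs.tsum_eq]
    have hw : z / (ρ : ℂ) ∈ A' := by
      rw [hA', Finset.mem_image]; exact ⟨z, hz, rfl⟩
    have h3 := hval _ hw
    rw [hv'] at h3
    simp only at h3
    rw [mul_div_cancel₀ _ hρc] at h3
    rw [← h3]
    refine Finset.sum_congr rfl fun l _ => ?_
    rw [ha]
    simp only
    rw [div_pow]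
    ring
  · have hs : HasSum (fun k : ℕ => ∑ l ∈ range d, if k = n l then ‖a l‖ * ρ' ^ (n l) else 0)
        (∑ l ∈ range d, ‖a l‖ * ρ' ^ (n l)) :=
      hasSum_sum fun l _ => hasSum_ite_eq (n l) (‖a l‖ * ρ' ^ (n l))
    have hle : ∀ k : ℕ, ‖p k‖ * ρ' ^ k ≤
        ∑ l ∈ range d, if k = n l then ‖a l‖ * ρ' ^ (n l) else 0 := by
      intro k
      have h4 : ‖p k‖ ≤ ∑ l ∈ range d, if k = n l then ‖a l‖ else 0 := by
        rw [hp]
        refine (norm_sum_le _ _).trans (Finset.sum_le_sum fun l _ => ?_)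
        split_ifs
        · exact le_rfl
        · rw [norm_zero]
      refine (mul_le_mul_of_nonneg_right h4 (pow_nonneg h0 k)).trans ?_
      rw [Finset.sum_mul]
      refine Finset.sum_le_sum fun l _ => ?_
      split_ifs with h
      · rw [h]
      · rw [zero_mul]
    have hnn : ∀ k : ℕ, 0 ≤ ‖p k‖ * ρ' ^ k := fun k => mul_nonneg (norm_nonneg _) (pow_nonneg h0 k)
    have hsum : Summable (fun k : ℕ => ‖p k‖ * ρ' ^ k) :=
      Summable.of_nonneg_of_le hnn hle hs.summable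
    have h5 : ∑' k : ℕ, ‖p k‖ * ρ' ^ k ≤ ∑ l ∈ range d, ‖a l‖ * ρ' ^ (n l) := by
      rw [← hs.tsum_eq]
      exact hsum.tsum_le_tsum hle hs.summable
    have h6 : ∀ l ∈ range d, ‖a l‖ * ρ' ^ (n l) ≤ K * S0 * r ^ n1 := by
      intro l hl
      have h7 : ‖a l‖ * ρ' ^ (n l) = ‖b l‖ * r ^ (n l) := by
        rw [ha, hr]
        simp only
        rw [norm_div, norm_pow, Complex.norm_real, Real.norm_eq_abs, abs_of_pos hρ, div_pow]
        ring
      rw [h7]
      have h8 : r ^ (n l) ≤ r ^ n1 :=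
        pow_le_pow_of_le_one hr0 hr1.le ((le_max_right _ _).trans (hge l))
      exact mul_le_mul (hb l (Finset.mem_range.1 hl)) h8 (pow_nonneg hr0 _) (by positivity)
    have h9 := Finset.sum_le_sum h6
    rw [Finset.sum_const, Finset.card_range, nsmul_eq_mul] at h9
    have h10 : r ^ n1 * ((d : ℝ) * (K * S0) + 1) < ε := (lt_div_iff₀ (by positivity)).1 hn1
    have h11 : 0 ≤ r ^ n1 := pow_nonneg hr0 _
    calc ∑' k : ℕ, ‖p k‖ * ρ' ^ k ≤ (d : ℝ) * (K * S0 * r ^ n1) := h5.trans h9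
      _ = r ^ n1 * ((d : ℝ) * (K * S0)) := by ring
      _ ≤ r ^ n1 * ((d : ℝ) * (K * S0) + 1) := by nlinarith
      _ ≤ ε := h10.le

theorem bm_sum {E : Type*} [NormedAddCommGroup E] (f : ℕ → E) (p : ℕ → ℂ)
    (hp : (Function.support p).Finite) (hf : ∀ k, p k = 0 → f k = 0) : Summable f := by
  refine summable_of_ne_finset_zero (s := hp.toFinset) fun k hk => hf k ?_
  by_contra h
  exact hk (hp.mem_toFinset.2 h)

theorem bm_main (ρ' : ℝ) (h0 : 0 ≤ ρ') (q : ℝ) (hq : 1 < q) : ∀ (n : ℕ) (A : Finset ℂ),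
    A.card = n → (∀ z ∈ A, ρ' < ‖z‖) → ∀ (N : ℕ) (v : ℂ → ℂ) (ε : ℝ), 0 < ε →
    ∃ p : ℕ → ℂ, (Function.support p).Finite ∧ Lac q (Function.support p) ∧ (∀ k, p k ≠ 0 → N ≤ k) ∧
      (∀ z ∈ A, ‖F p z - v z‖ ≤ ε) ∧ ∑' k : ℕ, ‖p k‖ * ρ' ^ k ≤ ε := by
  intro n
  induction n using Nat.strong_induction_on with
  | _ n ih =>
    intro A hcard hA N v ε hε
    rcases A.eq_empty_or_nonempty with hE | hne
    · refine ⟨fun _ => 0, ?_, ?_, ?_, ?_, ?_⟩
      · simp
      · intro m hm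
        exact absurd rfl hm
      · intro k hk
        exact absurd rfl hk
      · intro z hz
        rw [hE] at hz
        exact absurd hz (Finset.notMem_empty _)
      · simp only [norm_zero, zero_mul, tsum_zero]
        exact hε.le
    · obtain ⟨z0, hz0, hmax⟩ := Finset.exists_max_image A (fun z => ‖z‖) hne
      obtain ⟨ρ, hρ⟩ : ∃ ρ : ℝ, ρ = ‖z0‖ := ⟨_, rfl⟩
      have hA2 : (A.filter fun z => ‖z‖ ≠ ρ).card < n := by
        rw [← hcard]
        apply Finset.card_lt_card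
        refine ⟨Finset.filter_subset _ _, fun h => ?_⟩
        exact (Finset.mem_filter.1 (h hz0)).2 hρ.symm
      obtain ⟨p2, hf2, hl2, hN2, hi2, hs2⟩ := ih _ hA2 (A.filter fun z => ‖z‖ ≠ ρ) rfl
        (fun z hz => hA z (Finset.mem_filter.1 hz).1) N v (ε / 2) (half_pos hε)
      -- the radius
      have hne' : (insert ρ' ((A.filter fun z => ‖z‖ ≠ ρ).image fun z => ‖z‖)).Nonempty :=
        Finset.insert_nonempty _ _
      obtain ⟨ρ2, hρ2a, hρ2b, hρ2c⟩ : ∃ ρ2 : ℝ, ρ' ≤ ρ2 ∧ ρ2 < ρ ∧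
          ∀ z ∈ A.filter (fun z => ‖z‖ ≠ ρ), ‖z‖ ≤ ρ2 := by
        refine ⟨(insert ρ' ((A.filter fun z => ‖z‖ ≠ ρ).image fun z => ‖z‖)).max' hne',
          Finset.le_max' _ ρ' (Finset.mem_insert_self _ _), ?_, fun z hz => ?_⟩
        · rw [Finset.max'_lt_iff _ hne']
          intro y hy
          rcases Finset.mem_insert.1 hy with rfl | hy
          · rw [hρ]
            exact hA z0 hz0
          · obtain ⟨z, hz, rfl⟩ := Finset.mem_image.1 hy
            obtain ⟨hz1, hz2⟩ := Finset.mem_filter.1 hz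
            refine lt_of_le_of_ne ?_ hz2
            rw [hρ]
            exact hmax z hz1
        · exact Finset.le_max' _ _ (Finset.mem_insert_of_mem (Finset.mem_image_of_mem _ hz))
      obtain ⟨M, hM⟩ := hf2.bddAbove
      obtain ⟨N1, hN1a, hN1b, hN1c⟩ : ∃ N1 : ℕ, N ≤ N1 ∧ M < N1 ∧ q * (M : ℝ) ≤ N1 := by
        refine ⟨max N (max (M + 1) ⌈q * (M : ℝ)⌉₊), le_max_left _ _, ?_, ?_⟩
        · exact lt_of_lt_of_le (Nat.lt_succ_self M) (le_trans (le_max_left _ _) (le_max_right _ _))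
        · refine le_trans (Nat.le_ceil _) ?_
          exact_mod_cast le_trans (le_max_right _ _) (le_max_right _ _)
      have hρ20 : 0 ≤ ρ2 := le_trans h0 hρ2a
      obtain ⟨p1, hf1, hl1, hN1, hi1, hs1⟩ := block (A.filter fun z => ‖z‖ = ρ) ρ ρ2 hρ20 hρ2b
        (fun z hz => (Finset.mem_filter.1 hz).2) q hq N1 (fun z => v z - F p2 z) (ε / 2)
        (half_pos hε)
      have hb2 : ∀ k, p2 k ≠ 0 → k ≤ M := fun k hk => hM hk
      have hFadd : ∀ z, F (fun k => p1 k + p2 k) z = F p1 z + F p2 z := by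
        intro z
        unfold F
        rw [← Summable.tsum_add (bm_sum (fun k => p1 k * z ^ k) p1 hf1 fun k hk => by
            rw [hk, zero_mul]) (bm_sum (fun k => p2 k * z ^ k) p2 hf2 fun k hk => by
            rw [hk, zero_mul])]
        exact tsum_congr fun k => by ring
      have hsupp : ∀ k, p1 k + p2 k ≠ 0 → p1 k ≠ 0 ∨ p2 k ≠ 0 := by
        intro k hk
        by_contra h
        push Not at h
        rw [h.1, h.2, add_zero] at hk
        exact hk rfl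
      have hsum : ∀ (p : ℕ → ℂ) (r : ℝ), (Function.support p).Finite →
          Summable fun k => ‖p k‖ * r ^ k := fun p r hp =>
        bm_sum _ p hp fun k hk => by rw [hk, norm_zero, zero_mul]
      refine ⟨fun k => p1 k + p2 k, ?_, ?_, ?_, ?_, ?_⟩
      · refine (hf1.union hf2).subset ?_
        intro k hk
        exact hsupp k hk
      · intro m hm m' hm' hlt
        rcases hsupp m hm with hm | hm <;> rcases hsupp m' hm' with hm' | hm'
        · exact hl1 m hm m' hm' hlt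
        · have e1 := hN1 m hm
          have e2 := hb2 m' hm'
          omega
        · have e1 := hb2 m hm
          have e2 := hN1 m' hm'
          have e3 : (m : ℝ) ≤ M := by exact_mod_cast e1
          have e4 : (N1 : ℝ) ≤ m' := by exact_mod_cast e2
          have e5 := mul_le_mul_of_nonneg_left e3 (by linarith : 0 ≤ q)
          linarith
        · exact hl2 m hm m' hm' hlt
      · intro k hk
        rcases hsupp k hk with hk | hk
        · exact le_trans hN1a (hN1 k hk)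
        · exact hN2 k hk
      · intro z hz
        rw [hFadd]
        by_cases hzρ : ‖z‖ = ρ
        · rw [hi1 z (Finset.mem_filter.2 ⟨hz, hzρ⟩)]
          have e1 : v z - F p2 z + F p2 z - v z = 0 := by ring
          rw [e1, norm_zero]
          exact hε.le
        · have hz2 : z ∈ A.filter fun z => ‖z‖ ≠ ρ := Finset.mem_filter.2 ⟨hz, hzρ⟩
          have e1 := hi2 z hz2
          have e2 : ‖F p1 z‖ ≤ ∑' k : ℕ, ‖p1 k‖ * ρ2 ^ k := by
            unfold F
            have s1 : Summable fun k => ‖p1 k * z ^ k‖ := bm_sum _ p1 hf1 fun k hk => by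
              rw [hk, zero_mul, norm_zero]
            refine le_trans (norm_tsum_le_tsum_norm s1) ?_
            refine Summable.tsum_le_tsum (fun k => ?_) s1 (hsum p1 ρ2 hf1)
            rw [norm_mul, norm_pow]
            exact mul_le_mul_of_nonneg_left
              (pow_le_pow_left₀ (norm_nonneg _) (hρ2c z hz2) k) (norm_nonneg _)
          have e3 : F p1 z + F p2 z - v z = F p1 z + (F p2 z - v z) := by ring
          rw [e3]
          refine le_trans (norm_add_le _ _) ?_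
          linarith
      · have e1 : ∑' k : ℕ, ‖p1 k + p2 k‖ * ρ' ^ k ≤
            ∑' k : ℕ, (‖p1 k‖ * ρ2 ^ k + ‖p2 k‖ * ρ' ^ k) := by
          refine Summable.tsum_le_tsum (fun k => ?_) ?_ ((hsum p1 ρ2 hf1).add (hsum p2 ρ' hf2))
          · have e2 : ‖p1 k + p2 k‖ * ρ' ^ k ≤ (‖p1 k‖ + ‖p2 k‖) * ρ' ^ k :=
              mul_le_mul_of_nonneg_right (norm_add_le _ _) (pow_nonneg h0 k)
            have e3 : ‖p1 k‖ * ρ' ^ k ≤ ‖p1 k‖ * ρ2 ^ k :=
              mul_le_mul_of_nonneg_left (pow_le_pow_left₀ h0 hρ2a k) (norm_nonneg _)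
            have e4 : (‖p1 k‖ + ‖p2 k‖) * ρ' ^ k = ‖p1 k‖ * ρ' ^ k + ‖p2 k‖ * ρ' ^ k := by ring
            linarith
          · refine hsum (fun k => p1 k + p2 k) ρ' ((hf1.union hf2).subset ?_)
            intro k hk
            exact hsupp k hk
        rw [Summable.tsum_add (hsum p1 ρ2 hf1) (hsum p2 ρ' hf2)] at e1
        show ∑' k : ℕ, ‖p1 k + p2 k‖ * ρ' ^ k ≤ ε
        linarith

/-- approximate interpolation by lacunary polynomials at finitely many points -/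
theorem block_multi (A : Finset ℂ) (ρ' : ℝ) (h0 : 0 ≤ ρ') (hA : ∀ z ∈ A, ρ' < ‖z‖)
    (q : ℝ) (hq : 1 < q) (N : ℕ) (v : ℂ → ℂ) (ε : ℝ) (hε : 0 < ε) :
    ∃ p : ℕ → ℂ, (Function.support p).Finite ∧ Lac q (Function.support p) ∧ (∀ k, p k ≠ 0 → N ≤ k) ∧
      (∀ z ∈ A, ‖F p z - v z‖ ≤ ε) ∧ ∑' k : ℕ, ‖p k‖ * ρ' ^ k ≤ ε :=
  bm_main ρ' h0 q hq A.card A rfl hA N v ε hε

/-- gluing of lacunary polynomials -/
theorem glue2 (q : ℝ) (hq : 1 < q) (p : ℕ → ℕ → ℂ) (m : ℕ → ℕ) (r : ℕ → ℝ) (hm0 : 1 ≤ m 0)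
    (hmono : ∀ j, m j < m (j + 1)) (hsupp : ∀ j k, p j k ≠ 0 → m j ≤ k ∧ q * (k : ℝ) ≤ (m (j + 1) : ℝ))
    (hlac : ∀ j, Lac q (Function.support (p j))) (hsum : ∀ j, 1 ≤ ∑' k, ‖p j k‖)
    (hr0 : ∀ j, 0 ≤ r j) (hr : ∀ z : ℂ, ‖z‖ < 1 → ∃ J, ∀ j, J ≤ j → ‖z‖ ≤ r j)
    (hsm : ∀ j, ∑' k, ‖p j k‖ * r j ^ k ≤ (1 / 2) ^ j) :
    ∃ c : ℕ → ℂ, IsGap q c ∧ (¬ Summable (fun k => ‖c k‖)) ∧
      ∀ z : ℂ, ‖z‖ < 1 → Filter.Tendsto (fun J => ∑ j ∈ range J, F (p j) z) Filter.atTop (nhds (F c z)) := by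
  obtain ⟨hm, hmj, hS, hC⟩ := glue_aux q hq p m hm0 hmono hsupp
  set c : ℕ → ℂ := fun k => ∑ i ∈ range (k + 1), p i k with hc
  have hC1 : ∀ k, c k ≠ 0 → ∃ j, m j ≤ k ∧ k < m (j + 1) ∧ c k = p j k ∧ p j k ≠ 0 := by
    intro k hk
    obtain ⟨j, _, hj⟩ := Finset.exists_ne_zero_of_sum_ne_zero hk
    obtain ⟨h1, h2⟩ := hS j k hj
    exact ⟨j, h1, h2, hC j k h1 h2, hj⟩
  have hC0 : ∀ k, k < m 0 → c k = 0 := by
    intro k hk
    by_contra h
    obtain ⟨j, h1, _⟩ := hC1 k h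
    have : m 0 ≤ m j := hm.monotone (Nat.zero_le j)
    omega
  have hconv : ∀ z : ℂ, ‖z‖ < 1 → Summable (fun k : ℕ => c k * z ^ k) := by
    intro z hz
    apply Summable.of_norm
    obtain ⟨J, hJ⟩ := hr z hz
    set f : ℕ → ℝ := fun k => ‖c k * z ^ k‖ with hf
    have hf0 : ∀ k, 0 ≤ f k := fun k => norm_nonneg _
    have hmonoS : ∀ a b : ℕ, a ≤ b → ∑ k ∈ range a, f k ≤ ∑ k ∈ range b, f k := by
      intro a b hab
      exact Finset.sum_le_sum_of_subset_of_nonneg (Finset.range_mono hab) (fun k _ _ => hf0 k)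
    have hblock : ∀ j, J ≤ j → ∑ k ∈ Finset.Ico (m j) (m (j + 1)), f k ≤ (1 / 2) ^ j := by
      intro j hj
      refine le_trans ?_ (hsm j)
      rw [tsum_eq_sum (s := Finset.Ico (m j) (m (j + 1)))]
      · refine Finset.sum_le_sum fun k hk => ?_
        rw [Finset.mem_Ico] at hk
        have he : c k = p j k := hC j k hk.1 hk.2
        rw [hf]
        dsimp only
        rw [he, norm_mul, norm_pow]
        exact mul_le_mul_of_nonneg_left (pow_le_pow_left₀ (norm_nonneg _) (hJ j hj) k)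
          (norm_nonneg _)
      · intro k hk
        have : p j k = 0 := by
          by_contra hne
          exact hk (Finset.mem_Ico.2 (hS j k hne))
        rw [this, norm_zero, zero_mul]
    have hP : ∀ n : ℕ, ∑ k ∈ range (m n), f k ≤
        ∑ k ∈ range (m J), f k + ∑ j ∈ range n, (1 / (2 : ℝ)) ^ j := by
      intro n
      induction n with
      | zero =>
        rw [Finset.range_zero, Finset.sum_empty, add_zero]
        exact hmonoS _ _ (hm.monotone (Nat.zero_le J))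
      | succ n ih =>
        rcases le_or_gt J n with h | h
        · rw [← Finset.sum_range_add_sum_Ico f (hmono n).le, Finset.sum_range_succ]
          linarith [hblock n h]
        · have h1 := hmonoS (m (n + 1)) (m J) (hm.monotone (by omega))
          have h2 : 0 ≤ ∑ j ∈ range (n + 1), (1 / (2 : ℝ)) ^ j :=
            Finset.sum_nonneg fun _ _ => by positivity
          linarith
    refine summable_of_sum_range_le (c := ∑ k ∈ range (m J), f k + 2) hf0 fun n => ?_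
    have h1 := hmonoS n (m n) (by have := hmj n; omega)
    have h2 := hP n
    have h3 := sum_geometric_two_le n
    linarith
  refine ⟨c, ⟨?_, ?_, hconv⟩, ?_, ?_⟩
  · exact hC0 0 (by omega)
  · intro k hk k' hk' hlt
    obtain ⟨i, hi1, hi2, hi3, hi4⟩ := hC1 k hk
    obtain ⟨j, hj1, hj2, hj3, hj4⟩ := hC1 k' hk'
    rcases lt_trichotomy i j with h | h | h
    · have h1 : m (i + 1) ≤ m j := hm.monotone (by omega)
      have h2 : (m (i + 1) : ℝ) ≤ (k' : ℝ) := by exact_mod_cast h1.trans hj1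
      exact (hsupp i k hi4).2.trans h2
    · subst h
      exact hlac i k hi4 k' hj4 hlt
    · exfalso
      have h1 : m (j + 1) ≤ m i := hm.monotone (by omega)
      omega
  · intro hs
    have hJ : ∀ J : ℕ, (J : ℝ) ≤ ∑ k ∈ range (m J), ‖c k‖ := by
      intro J
      induction J with
      | zero => push_cast; exact Finset.sum_nonneg fun _ _ => norm_nonneg _
      | succ J ih =>
        rw [← Finset.sum_range_add_sum_Ico (fun k => ‖c k‖) (hmono J).le]
        have h1 : 1 ≤ ∑ k ∈ Finset.Ico (m J) (m (J + 1)), ‖c k‖ := by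
          refine (hsum J).trans ?_
          rw [tsum_eq_sum (s := Finset.Ico (m J) (m (J + 1)))]
          · refine (Finset.sum_congr rfl fun k hk => ?_).le
            rw [Finset.mem_Ico] at hk
            have he : c k = p J k := hC J k hk.1 hk.2
            rw [he]
          · intro k hk
            by_contra hne
            rw [norm_eq_zero] at hne
            exact hk (Finset.mem_Ico.2 (hS J k hne))
        push_cast; linarith
    obtain ⟨J, hJ2⟩ := exists_nat_gt (∑' k, ‖c k‖)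
    have h1 := hs.sum_le_tsum (range (m J)) (fun _ _ => norm_nonneg _)
    have h2 := hJ J
    linarith
  · intro z hz
    have h1 : ∀ J, ∑ k ∈ range (m J), c k * z ^ k = ∑ j ∈ range J, F (p j) z := by
      intro J
      induction J with
      | zero =>
        rw [Finset.range_zero, Finset.sum_empty]
        apply Finset.sum_eq_zero
        intro k hk
        rw [hC0 k (Finset.mem_range.1 hk), zero_mul]
      | succ J ih =>
        rw [← Finset.sum_range_add_sum_Ico (fun k => c k * z ^ k) (hmono J).le, ih,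
          Finset.sum_range_succ]
        congr 1
        unfold F
        rw [tsum_eq_sum (s := Finset.Ico (m J) (m (J + 1)))]
        · refine Finset.sum_congr rfl fun k hk => ?_
          rw [Finset.mem_Ico] at hk
          have he : c k = p J k := hC J k hk.1 hk.2
          rw [he]
        · intro k hk
          have : p J k = 0 := by
            by_contra hne
            exact hk (Finset.mem_Ico.2 (hS J k hne))
          rw [this, zero_mul]
    have h2 := (hconv z hz).hasSum.tendsto_sum_nat.comp hm.tendsto_atTop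
    refine h2.congr fun J => ?_
    exact h1 J

theorem hv_summ (p : ℕ → ℂ) (hp : (Function.support p).Finite) (f : ℕ → ℝ) :
    Summable (fun k => ‖p k‖ * f k) := by
  apply summable_of_finite_support
  apply hp.subset
  intro k hk h0
  apply hk
  simp [h0]

theorem hv_summ2 (p : ℕ → ℂ) (hp : (Function.support p).Finite) (z : ℂ) :
    Summable (fun k => p k * z ^ k) := by
  apply summable_of_finite_support
  apply hp.subset
  intro k hk h0
  apply hk
  simp [h0]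

theorem hv_F_le (p : ℕ → ℂ) (hp : (Function.support p).Finite) (z : ℂ) (r : ℝ) (h : ‖z‖ ≤ r) :
    ‖F p z‖ ≤ ∑' k, ‖p k‖ * r ^ k := by
  unfold F
  have hs : Summable (fun k => ‖p k‖ * r ^ k) := hv_summ p hp _
  have hs2 : Summable (fun k => ‖p k * z ^ k‖) := by
    have := hv_summ p hp (fun k => ‖z‖ ^ k)
    simpa [norm_mul, norm_pow] using this
  calc ‖∑' k, p k * z ^ k‖ ≤ ∑' k, ‖p k * z ^ k‖ := norm_tsum_le_tsum_norm hs2
    _ ≤ ∑' k, ‖p k‖ * r ^ k := by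
        refine hs2.tsum_le_tsum (fun k => ?_) hs
        rw [norm_mul, norm_pow]
        gcongr

theorem hv_F_add (g p : ℕ → ℂ) (hg : (Function.support g).Finite)
    (hp : (Function.support p).Finite) (z : ℂ) : F (g + p) z = F g z + F p z := by
  unfold F
  rw [← (hv_summ2 g hg z).tsum_add (hv_summ2 p hp z)]
  congr 1
  ext k
  simp [add_mul]

theorem hv_supp_add (g p : ℕ → ℂ) (hg : (Function.support g).Finite)
    (hp : (Function.support p).Finite) : (Function.support (g + p)).Finite :=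
  (hg.union hp).subset (Function.support_add _ _)

/-- one step -/
theorem hv_step (S : Set ℂ)
    (hfin : ∀ r : ℝ, r < 1 → (S ∩ {z : ℂ | ‖z‖ ≤ r}).Finite) (q : ℝ) (hq : 1 < q)
    (r0 r1 : ℝ) (h0 : 0 ≤ r0) (h01 : r0 < r1) (h1 : r1 < 1) (ε : ℝ) (hε : 0 < ε) (hε1 : ε ≤ 1)
    (g : ℕ → ℂ) (m : ℕ) :
    ∃ (p : ℕ → ℂ) (m' : ℕ), (Function.support p).Finite ∧ Lac q (Function.support p) ∧
      (∀ k, p k ≠ 0 → m ≤ k ∧ q * (k : ℝ) ≤ (m' : ℝ)) ∧ m < m' ∧
      (∀ z ∈ S, r0 < ‖z‖ → ‖z‖ ≤ r1 → ‖F g z + F p z‖ ≤ 5) ∧ 1 ≤ ∑' k, ‖p k‖ ∧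
      ∑' k, ‖p k‖ * r0 ^ k ≤ ε := by
  classical
  have hr1n : ‖((r1 : ℝ) : ℂ)‖ = r1 := by
    rw [Complex.norm_real, Real.norm_eq_abs, abs_of_nonneg (by linarith)]
  obtain ⟨τ, hτ, hτ2⟩ : ∃ τ : ℂ, ‖τ‖ ≤ 4 ∧ 2 ≤ ‖τ - F g (r1 : ℂ)‖ := by
    by_cases h : 2 ≤ ‖(0:ℂ) - F g (r1 : ℂ)‖
    · exact ⟨0, by simp, h⟩
    · refine ⟨4, by simp, ?_⟩
      push Not at h
      have h4 : ‖(4:ℂ)‖ ≤ ‖(4:ℂ) - F g (r1 : ℂ)‖ + ‖F g (r1 : ℂ)‖ := by
        have := norm_add_le ((4:ℂ) - F g (r1 : ℂ)) (F g (r1 : ℂ))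
        simpa using this
      have h5 : ‖(4:ℂ)‖ = 4 := by simp
      have h6 : ‖(0:ℂ) - F g (r1 : ℂ)‖ = ‖F g (r1 : ℂ)‖ := by simp
      rw [h6] at h
      rw [h5] at h4
      linarith
  let A : Finset ℂ := insert ((r1 : ℝ) : ℂ) ((hfin r1 h1).toFinset.filter (fun z => r0 < ‖z‖))
  have hA : ∀ z ∈ A, r0 < ‖z‖ := by
    intro z hz
    rcases Finset.mem_insert.1 hz with h | h
    · rw [h, hr1n]; exact h01
    · exact (Finset.mem_filter.1 h).2
  obtain ⟨p, hp1, hp2, hp3, hp4, hp5⟩ := block_multi A r0 h0 hA q hq m (fun z => τ - F g z) ε hε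
  obtain ⟨M, hM⟩ := (hp1.image (fun k : ℕ => q * (k : ℝ))).bddAbove
  obtain ⟨N, hN⟩ := exists_nat_ge M
  refine ⟨p, max N (m + 1), hp1, hp2, ?_, ?_, ?_, ?_, hp5⟩
  · intro k hk
    refine ⟨hp3 k hk, ?_⟩
    have h2 : q * (k : ℝ) ≤ M := hM ⟨k, hk, rfl⟩
    have h3 : (N : ℝ) ≤ ((max N (m + 1) : ℕ) : ℝ) := by exact_mod_cast le_max_left _ _
    linarith
  · exact lt_of_lt_of_le (Nat.lt_succ_self m) (le_max_right _ _)
  · intro z hz hz0 hz1
    have hzA : z ∈ A := by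
      apply Finset.mem_insert_of_mem
      rw [Finset.mem_filter]
      refine ⟨?_, hz0⟩
      rw [Set.Finite.mem_toFinset]
      exact ⟨hz, hz1⟩
    have h2 := hp4 z hzA
    have h3 : F g z + F p z = (F p z - (τ - F g z)) + τ := by ring
    rw [h3]
    have := norm_add_le (F p z - (τ - F g z)) τ
    linarith
  · have h2 := hp4 ((r1 : ℝ) : ℂ) (Finset.mem_insert_self _ _)
    have h3 : τ - F g (r1 : ℂ) = F p (r1 : ℂ) - (F p (r1 : ℂ) - (τ - F g (r1 : ℂ))) := by ring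
    have h4 : ‖τ - F g (r1 : ℂ)‖ ≤ ‖F p (r1 : ℂ)‖ + ‖F p (r1 : ℂ) - (τ - F g (r1 : ℂ))‖ := by
      conv_lhs => rw [h3]
      exact norm_sub_le _ _
    have h5 := hv_F_le p hp1 (r1 : ℂ) 1 (by rw [hr1n]; exact h1.le)
    simp only [one_pow, mul_one] at h5
    linarith

/-- a set without accumulation point in the disc carries a bad gap series -/
theorem exists_bad_discrete (S : Set ℂ) (hS : ∀ z ∈ S, ‖z‖ < 1)
    (hfin : ∀ r : ℝ, r < 1 → (S ∩ {z : ℂ | ‖z‖ ≤ r}).Finite) (q : ℝ) (hq : 1 < q) :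
    ∃ c : ℕ → ℂ, IsGap q c ∧ (¬ Summable (fun k => ‖c k‖)) ∧ ∃ M : ℝ, ∀ z ∈ S, ‖F c z‖ ≤ M := by
  classical
  let r : ℕ → ℝ := fun j => ((j:ℝ) + 1) / ((j:ℝ) + 2)
  have hr0 : ∀ j, 0 ≤ r j := fun j => by positivity
  have hr1 : ∀ j, r j < 1 := fun j => by
    show ((j:ℝ) + 1) / ((j:ℝ) + 2) < 1
    rw [div_lt_one (by positivity)]
    linarith
  have hrs : ∀ j, r j < r (j + 1) := fun j => by
    show ((j:ℝ) + 1) / ((j:ℝ) + 2) < (((j + 1 : ℕ):ℝ) + 1) / (((j + 1 : ℕ):ℝ) + 2)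
    rw [div_lt_div_iff₀ (by positivity) (by positivity)]
    push_cast
    nlinarith [Nat.cast_nonneg (α := ℝ) j]
  have hrm : StrictMono r := strictMono_nat_of_lt_succ hrs
  have hrl : ∀ z : ℂ, ‖z‖ < 1 → ∃ J, ∀ j, J ≤ j → ‖z‖ ≤ r j := by
    intro z hz
    obtain ⟨J, hJ⟩ := exists_nat_one_div_lt (show 0 < 1 - ‖z‖ by linarith)
    refine ⟨J, fun j hj => le_trans ?_ (hrm.monotone hj)⟩
    have h1 : r J = 1 - 1 / ((J:ℝ) + 2) := by
      show ((J:ℝ) + 1) / ((J:ℝ) + 2) = _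
      field_simp
      ring
    have h2 : 1 / ((J:ℝ) + 2) ≤ 1 / ((J:ℝ) + 1) := by
      apply one_div_le_one_div_of_le (by positivity); linarith
    rw [h1]
    linarith
  have hstep := fun (s : {s : (ℕ → ℂ) × ℕ // (Function.support s.1).Finite ∧ 1 ≤ s.2}) (j : ℕ) =>
    hv_step S hfin q hq (r j) (r (j+1)) (hr0 j) (hrs j) (hr1 (j+1)) ((1/2)^j) (by positivity)
      (pow_le_one₀ (by norm_num) (by norm_num)) s.1.1 s.1.2
  choose pf mf h1 h2 h3 h4 h5 h6 h7 using hstep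
  let st : ℕ → {s : (ℕ → ℂ) × ℕ // (Function.support s.1).Finite ∧ 1 ≤ s.2} := fun j =>
    Nat.rec (⟨(0, 1), by simp⟩ : {s : (ℕ → ℂ) × ℕ // (Function.support s.1).Finite ∧ 1 ≤ s.2})
      (fun j s => ⟨(s.1.1 + pf s j, mf s j), hv_supp_add _ _ s.2.1 (h1 s j),
        le_trans s.2.2 (h4 s j).le⟩) j
  have hst : ∀ j, st (j+1) = ⟨((st j).1.1 + pf (st j) j, mf (st j) j),
      hv_supp_add _ _ (st j).2.1 (h1 (st j) j), le_trans (st j).2.2 (h4 (st j) j).le⟩ := fun j => rfl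
  let p : ℕ → ℕ → ℂ := fun j => pf (st j) j
  let m : ℕ → ℕ := fun j => (st j).1.2
  have hm : ∀ j, m (j+1) = mf (st j) j := fun j => rfl
  have hFg : ∀ j z, F (st j).1.1 z = ∑ i ∈ range j, F (p i) z := by
    intro j z
    induction j with
    | zero =>
      show F 0 z = _
      simp [F]
    | succ j ih =>
      rw [Finset.sum_range_succ, ← ih]
      exact hv_F_add _ _ (st j).2.1 (h1 (st j) j) z
  obtain ⟨c, hc1, hc2, hc3⟩ := glue2 q hq p m r (le_refl 1) (fun j => h4 (st j) j)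
    (fun j k hk => h3 (st j) j k hk) (fun j => h2 (st j) j) (fun j => h6 (st j) j) hr0 hrl
    (fun j => h7 (st j) j)
  refine ⟨c, hc1, hc2, 7, fun z hz => ?_⟩
  have key : ∃ j0, ‖∑ i ∈ range j0, F (p i) z‖ ≤ 5 ∧ ∀ i, j0 ≤ i → ‖z‖ ≤ r i := by
    obtain ⟨J, hJ⟩ := hrl z (hS z hz)
    have hex : ∃ j, ‖z‖ ≤ r j := ⟨J, hJ J le_rfl⟩
    have hfind := Nat.find_spec hex
    rcases Nat.eq_zero_or_pos (Nat.find hex) with h | h
    · refine ⟨0, by simp, fun i _ => ?_⟩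
      rw [h] at hfind
      exact hfind.trans (hrm.monotone (Nat.zero_le i))
    · obtain ⟨j, hj⟩ : ∃ j, Nat.find hex = j + 1 := ⟨Nat.find hex - 1, by omega⟩
      have hlt : r j < ‖z‖ := by
        by_contra hcon
        push Not at hcon
        have := Nat.find_min' hex hcon
        omega
      rw [hj] at hfind
      refine ⟨j + 1, ?_, fun i hi => hfind.trans (hrm.monotone hi)⟩
      rw [Finset.sum_range_succ, ← hFg]
      exact h5 (st j) j z hz hlt hfind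
  obtain ⟨j0, hj0, hj1⟩ := key
  have hpart : ∀ J, j0 ≤ J → ‖∑ i ∈ range J, F (p i) z‖ ≤ 5 + ∑ i ∈ range J, (1/2:ℝ)^i := by
    intro J hJ
    induction J, hJ using Nat.le_induction with
    | base =>
      have : (0:ℝ) ≤ ∑ i ∈ range j0, (1/2:ℝ)^i := by positivity
      linarith
    | succ J hJ ih =>
      rw [Finset.sum_range_succ, Finset.sum_range_succ]
      have h8 := norm_add_le (∑ i ∈ range J, F (p i) z) (F (p J) z)
      have h9 := (hv_F_le (p J) (h1 (st J) J) z (r J) (hj1 J hJ)).trans (h7 (st J) J)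
      linarith
  have hlim := (hc3 z (hS z hz)).norm
  refine le_of_tendsto hlim ?_
  filter_upwards [Filter.eventually_ge_atTop j0] with J hJ
  have h10 := hpart J hJ
  have h11 : ∑ i ∈ range J, (1/2:ℝ)^i ≤ 2 := sum_geometric_two_le J
  linarith

end Pool.Agent.Helper414.HG
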