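import Mathlib

set_option autoImplicit false

/-!
# Sets forcing boundedness of Hadamard gap series (MP_c80ac4_an): definitions
-/

namespace Pool.Agent.Helper414.HG

/-- `Λ` is `q`-lacunary: `m' ≥ q m` for all elements `m < m'` of `Λ`. -/
def Lac (q : ℝ) (Λ : Set ℕ) : Prop := ∀ m ∈ Λ, ∀ m' ∈ Λ, m < m' → q * (m : ℝ) ≤ (m' : ℝ)

/-- the sum of the power series with coefficients `c` -/
noncomputable def F (c : ℕ → ℂ) (z : ℂ) : ℂ := ∑' k : ℕ, c k * z ^ k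

/-- `∑ c k z ^ k` is a power series without constant term, convergent in the unit disc, whose exponents
(with non-zero coefficient) satisfy the Hadamard gap condition with ratio `q`. -/
structure IsGap (q : ℝ) (c : ℕ → ℂ) : Prop where
  zero : c 0 = 0
  lac : Lac q (Function.support c)
  conv : ∀ z : ℂ, ‖z‖ < 1 → Summable (fun k : ℕ => c k * z ^ k)

/-- `S` is forcing: every Hadamard gap series bounded on `S` is bounded on the unit disc. -/
def Forcing (S : Set ℂ) : Prop :=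
  ∀ (q : ℝ) (c : ℕ → ℂ), 1 < q → IsGap q c →
    (∃ M : ℝ, ∀ z ∈ S, ‖F c z‖ ≤ M) → ∃ M : ℝ, ∀ z : ℂ, ‖z‖ < 1 → ‖F c z‖ ≤ M

/-- The Sidon type criterion: for every `q > 1` there are `δ > 0` and `m` such that
`δ ∑ |c k| ≤ sup_S |P|` for every `q`-lacunary polynomial `P = ∑ c k z ^ k` with all exponents `≥ m`. -/
def Crit (S : Set ℂ) : Prop :=
  ∀ q : ℝ, 1 < q → ∃ δ : ℝ, 0 < δ ∧ ∃ m : ℕ, ∀ c : ℕ → ℂ, (Function.support c).Finite →
    Lac q (Function.support c) → (∀ k, c k ≠ 0 → m ≤ k) →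
    ∀ B : ℝ, (∀ z ∈ S, ‖F c z‖ ≤ B) → δ * ∑' k : ℕ, ‖c k‖ ≤ B

/-- the union of the Stolz angles of aperture `C` with vertices in `E` -/
def Stolz (E : Set ℂ) (C : ℝ) : Set ℂ := {z : ℂ | ‖z‖ < 1 ∧ ∃ ζ ∈ E, ‖z - ζ‖ ≤ C * (1 - ‖z‖)}

end Pool.Agent.Helper414.HG
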