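import Pool.Agent.Helper414.HgDefs

set_option autoImplicit false

/-!
# Sets forcing boundedness of Hadamard gap series: further definitions
-/

namespace Pool.Agent.Helper414.HG

/-- the limit points of `S` on the unit circle -/
def Lim (S : Set ℂ) : Set ℂ := {ζ : ℂ | ‖ζ‖ = 1 ∧ ζ ∈ closure S}

/-- the Sidon type inequality with constant `δ` for `q`-lacunary polynomials with exponents at least `m` -/
def SidonIneq (E : Set ℂ) (q δ : ℝ) (m : ℕ) : Prop :=
  ∀ c : ℕ → ℂ, (Function.support c).Finite → Lac q (Function.support c) → (∀ k, c k ≠ 0 → m ≤ k) →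
    ∀ B : ℝ, (∀ z ∈ E, ‖F c z‖ ≤ B) → δ * ∑' k : ℕ, ‖c k‖ ≤ B

/-- every point of the window of radius `R` centred at `y₀` is within `η R` of `E` -/
def Win (E : Set ℝ) (η R y₀ : ℝ) : Prop := ∀ y : ℝ, |y - y₀| ≤ R → ∃ x' ∈ E, |x' - y| ≤ η * R

/-- small (one-sided) porosity: every point of `E` lies, at each scale `R ≤ r₀`, in a window of radius `R`
in which `E` is `η R`-dense -/
def VP (E : Set ℝ) (η r₀ : ℝ) : Prop :=
  ∀ x ∈ E, ∀ R : ℝ, 0 < R → R ≤ r₀ → ∃ y₀ : ℝ, |y₀ - x| ≤ R ∧ Win E η R y₀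

end Pool.Agent.Helper414.HG
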