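import Pool.Agent.Helper414.HgDefs2

set_option autoImplicit false

/-!
# Sidon type inequality on sets of small porosity: averaging operators
-/

namespace Pool.Agent.Helper414.HG

open Finset

/-- `e^{i n x}` -/
noncomputable def ex (n x : ℝ) : ℂ := Complex.exp (((n * x : ℝ) : ℂ) * Complex.I)

/-- a level: window radius `R`, indicator `ε` (0 or 1), special frequency `n`, phase `φ` -/
structure Lev where
  R : ℝ
  ε : ℝ
  n : ℝ
  φ : ℝ

/-- grid points of the window of radius `R` -/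
noncomputable def gp (T : ℕ) (R : ℝ) (t : ℕ) : ℝ := R * ((2 * (t : ℝ) + 1 - T) / T)

/-- the weights -/
noncomputable def wt (T : ℕ) (l : Lev) (x : ℝ) (t : ℕ) : ℝ :=
  (1 + l.ε * Real.cos (l.n * (x + gp T l.R t) + l.φ)) / T

/-- discrete Dirichlet kernel -/
noncomputable def Dk (T : ℕ) (y : ℝ) : ℝ :=
  (∑ t ∈ range T, Real.cos (y * ((2 * (t : ℝ) + 1 - T) / T))) / T

/-- admissible levels -/
def LevOK (T : ℕ) (r₀ : ℝ) (l : Lev) : Prop :=
  0 < l.R ∧ l.R ≤ r₀ ∧
    (l.ε = 0 ∨ (l.ε = 1 ∧ 0 < l.n ∧ ∃ k : ℕ, 1 ≤ k ∧ 2 * k < T ∧ l.n * l.R = Real.pi * k))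

theorem norm_ex (n x : ℝ) : ‖ex n x‖ = 1 := by
  unfold ex
  exact Complex.norm_exp_ofReal_mul_I _

theorem ex_sub_le (n x y : ℝ) : ‖ex n x - ex n y‖ ≤ |n| * |x - y| := by
  have h1 : ex n x - ex n y = ex n y * (Complex.exp (Complex.I * ((n * (x - y) : ℝ) : ℂ)) - 1) := by
    unfold ex
    rw [mul_sub, mul_one, ← Complex.exp_add]
    congr 2
    push_cast
    ring
  rw [h1, norm_mul, norm_ex, one_mul]
  have h2 := Real.norm_exp_I_mul_ofReal_sub_one_le (x := n * (x - y))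
  calc ‖Complex.exp (Complex.I * ((n * (x - y) : ℝ) : ℂ)) - 1‖ ≤ ‖n * (x - y)‖ := h2
    _ = |n| * |x - y| := by rw [Real.norm_eq_abs, abs_mul]

theorem gp_le (T : ℕ) (hT : 1 ≤ T) (R : ℝ) (hR : 0 ≤ R) (t : ℕ) (ht : t < T) : |gp T R t| ≤ R := by
  unfold gp
  have hT0 : (0 : ℝ) < T := by exact_mod_cast hT
  have h1 : (t : ℝ) + 1 ≤ T := by exact_mod_cast ht
  have h2 : (0 : ℝ) ≤ t := by positivity
  rw [abs_mul, abs_of_nonneg hR]
  have h3 : |(2 * (t : ℝ) + 1 - T) / T| ≤ 1 := by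
    rw [abs_div, abs_of_pos hT0, div_le_one hT0, abs_le]
    constructor <;> linarith
  calc R * |(2 * (t : ℝ) + 1 - T) / T| ≤ R * 1 := mul_le_mul_of_nonneg_left h3 hR
    _ = R := mul_one R

theorem avg_ex (T : ℕ) (hT : 1 ≤ T) (R n x : ℝ) :
    (∑ t ∈ range T, ex n (x + gp T R t)) / (T : ℂ) = (Dk T (n * R) : ℂ) * ex n x := by
  have hT0 : (T : ℝ) ≠ 0 := by
    have : (0 : ℝ) < T := by exact_mod_cast hT
    exact this.ne'
  set th : ℕ → ℝ := fun t => n * R * ((2 * (t : ℝ) + 1 - T) / T) with hth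
  have hterm : ∀ t, ex n (x + gp T R t) =
      ex n x * (((Real.cos (th t) : ℝ) : ℂ) + ((Real.sin (th t) : ℝ) : ℂ) * Complex.I) := by
    intro t
    have h1 : (((n * (x + gp T R t) : ℝ) : ℂ) * Complex.I) =
        ((n * x : ℝ) : ℂ) * Complex.I + ((th t : ℝ) : ℂ) * Complex.I := by
      rw [← add_mul, ← Complex.ofReal_add]
      congr 2
      rw [hth]
      unfold gp
      ring
    unfold ex
    rw [h1, Complex.exp_add, Complex.exp_mul_I (((th t : ℝ) : ℂ)), Complex.ofReal_cos, Complex.ofReal_sin]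
  have hsin : ∑ t ∈ range T, Real.sin (th t) = 0 := by
    have h1 := Finset.sum_range_reflect (fun t => Real.sin (th t)) T
    have h2 : ∑ t ∈ range T, Real.sin (th (T - 1 - t)) = ∑ t ∈ range T, - Real.sin (th t) := by
      apply Finset.sum_congr rfl
      intro t ht
      rw [Finset.mem_range] at ht
      rw [← Real.sin_neg]
      congr 1
      have hc : ((T - 1 - t : ℕ) : ℝ) = (T : ℝ) - 1 - t := by
        rw [Nat.cast_sub (by omega), Nat.cast_sub (by omega)]
        simp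
      simp only [hth]
      rw [hc]
      ring
    rw [h2, Finset.sum_neg_distrib] at h1
    linarith
  have hsum : ∑ t ∈ range T, ex n (x + gp T R t) =
      ex n x * ((∑ t ∈ range T, Real.cos (th t) : ℝ) : ℂ) := by
    rw [Finset.sum_congr rfl (fun t _ => hterm t), ← Finset.mul_sum, Finset.sum_add_distrib,
      ← Finset.sum_mul, ← Complex.ofReal_sum, ← Complex.ofReal_sum, hsin]
    simp
  rw [hsum]
  unfold Dk
  rw [Complex.ofReal_div, Complex.ofReal_natCast]
  ring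

theorem Dk_le_one (T : ℕ) (hT : 1 ≤ T) (y : ℝ) : |Dk T y| ≤ 1 := by
  unfold Dk
  have hT' : (0 : ℝ) < T := by exact_mod_cast hT
  rw [abs_div, abs_of_pos hT', div_le_one hT']
  calc |∑ t ∈ range T, Real.cos (y * ((2 * (t : ℝ) + 1 - T) / T))|
      ≤ ∑ t ∈ range T, |Real.cos (y * ((2 * (t : ℝ) + 1 - T) / T))| :=
        Finset.abs_sum_le_sum_abs _ _
    _ ≤ ∑ t ∈ range T, (1 : ℝ) := Finset.sum_le_sum (fun t _ => Real.abs_cos_le_one _)
    _ = T := by simp

theorem Dk_le (T : ℕ) (hT : 1 ≤ T) (y : ℝ) (hy : y ≠ 0) (hyT : |y| ≤ Real.pi * T / 2) :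
    |Dk T y| ≤ Real.pi / (2 * |y|) := by
  have hT0 : (0 : ℝ) < T := by exact_mod_cast hT
  have hy0 : 0 < |y| := abs_pos.mpr hy
  have htel : Real.sin (y / T) * (∑ t ∈ range T, Real.cos (y * ((2 * (t : ℝ) + 1 - T) / T))) =
      Real.sin y := by
    have h1 : ∀ t : ℕ, Real.sin (y / T) * Real.cos (y * ((2 * (t : ℝ) + 1 - T) / T)) =
        Real.sin (y * ((2 * ((t + 1 : ℕ) : ℝ) - T) / T)) / 2 -
          Real.sin (y * ((2 * (t : ℝ) - T) / T)) / 2 := by
      intro t
      have e1 : y * ((2 * ((t + 1 : ℕ) : ℝ) - T) / T) =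
          y * ((2 * (t : ℝ) + 1 - T) / T) + y / T := by
        push_cast; field_simp; ring
      have e2 : y * ((2 * (t : ℝ) - T) / T) = y * ((2 * (t : ℝ) + 1 - T) / T) - y / T := by
        field_simp; ring
      rw [e1, e2, Real.sin_add, Real.sin_sub]
      ring
    rw [mul_sum, sum_congr rfl (fun t _ => h1 t),
      sum_range_sub (fun t : ℕ => Real.sin (y * ((2 * (t : ℝ) - T) / T)) / 2)]
    have e3 : y * ((2 * (T : ℝ) - T) / T) = y := by field_simp; ring
    have e4 : y * ((2 * ((0 : ℕ) : ℝ) - T) / T) = -y := by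
      push_cast; field_simp; ring
    rw [e3, e4, Real.sin_neg]
    ring
  have hs : 2 / Real.pi * |y / T| ≤ |Real.sin (y / T)| := by
    apply Real.mul_abs_le_abs_sin
    rw [abs_div, abs_of_pos hT0, div_le_iff₀ hT0]
    linarith
  rw [abs_div, abs_of_pos hT0] at hs
  have habs : |Real.sin (y / T)| * |∑ t ∈ range T, Real.cos (y * ((2 * (t : ℝ) + 1 - T) / T))| ≤ 1 := by
    rw [← abs_mul, htel]
    exact Real.abs_sin_le_one y
  unfold Dk
  rw [abs_div, abs_of_pos hT0, div_le_div_iff₀ hT0 (by positivity)]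
  have h2 : 2 / Real.pi * (|y| / T) *
      |∑ t ∈ range T, Real.cos (y * ((2 * (t : ℝ) + 1 - T) / T))| ≤ 1 :=
    le_trans (mul_le_mul_of_nonneg_right hs (abs_nonneg _)) habs
  have hpi := Real.pi_pos
  have h3 := mul_le_mul_of_nonneg_left h2 (by positivity : 0 ≤ Real.pi * T)
  have h4 : Real.pi * T * (2 / Real.pi * (|y| / T) *
      |∑ t ∈ range T, Real.cos (y * ((2 * (t : ℝ) + 1 - T) / T))|) =
      |∑ t ∈ range T, Real.cos (y * ((2 * (t : ℝ) + 1 - T) / T))| * (2 * |y|) := by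
    field_simp
  linarith

theorem Dk_zero (T : ℕ) (k : ℕ) (hk : 1 ≤ k) (hkT : k < T) : Dk T (Real.pi * k) = 0 := by
  have hT : (0:ℝ) < T := by
    have : 0 < T := by omega
    exact_mod_cast this
  have hT0 : (T:ℝ) ≠ 0 := hT.ne'
  have hk0 : (0:ℝ) < k := by exact_mod_cast (by omega : 0 < k)
  have hkT' : (k:ℝ) < T := by exact_mod_cast hkT
  unfold Dk
  set y : ℝ := Real.pi * k with hy
  have hs : 0 < Real.sin (y / T) := by
    apply Real.sin_pos_of_pos_of_lt_pi
    · have := Real.pi_pos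
      positivity
    · rw [div_lt_iff₀ hT, hy]
      exact mul_lt_mul_of_pos_left hkT' Real.pi_pos
  have key : (∑ t ∈ range T, Real.cos (y * ((2 * (t : ℝ) + 1 - T) / T))) * (2 * Real.sin (y / T)) = 0 := by
    rw [Finset.sum_mul]
    have e : ∀ t ∈ range T, Real.cos (y * ((2 * (t : ℝ) + 1 - T) / T)) * (2 * Real.sin (y / T))
        = Real.sin (y * ((2 * ((t + 1 : ℕ) : ℝ) - T) / T)) - Real.sin (y * ((2 * (t : ℝ) - T) / T)) := by
      intro t _
      have h1 : y * ((2 * ((t + 1 : ℕ) : ℝ) - T) / T) = y * ((2 * (t : ℝ) + 1 - T) / T) + y / T := by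
        push_cast; field_simp; ring
      have h2 : y * ((2 * (t : ℝ) - T) / T) = y * ((2 * (t : ℝ) + 1 - T) / T) - y / T := by
        field_simp; ring
      rw [h1, h2, Real.sin_add, Real.sin_sub]
      ring
    rw [Finset.sum_congr rfl e, Finset.sum_range_sub (fun t : ℕ => Real.sin (y * ((2 * (t : ℝ) - T) / T)))]
    have h3 : y * ((2 * (T : ℝ) - T) / T) = y := by field_simp; ring
    have h4 : y * ((2 * ((0:ℕ) : ℝ) - T) / T) = -y := by push_cast; field_simp; ring
    rw [h3, h4, Real.sin_neg]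
    have h5 : Real.sin y = 0 := by rw [hy, mul_comm]; exact Real.sin_nat_mul_pi k
    rw [h5]; ring
  have hz : (∑ t ∈ range T, Real.cos (y * ((2 * (t : ℝ) + 1 - T) / T))) = 0 := by
    rcases mul_eq_zero.mp key with h | h
    · exact h
    · exfalso; linarith
  rw [hz, zero_div]

theorem wt_nonneg (T : ℕ) (r₀ : ℝ) (l : Lev) (hl : LevOK T r₀ l) (x : ℝ) (t : ℕ) : 0 ≤ wt T l x t := by
  unfold wt
  apply div_nonneg _ (Nat.cast_nonneg T)
  have hc := Real.neg_one_le_cos (l.n * (x + gp T l.R t) + l.φ)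
  rcases hl.2.2 with h | h
  · rw [h]; norm_num
  · rw [h.1]; linarith

theorem sum_wt (T : ℕ) (hT : 1 ≤ T) (r₀ : ℝ) (l : Lev) (hl : LevOK T r₀ l) (x : ℝ) :
    ∑ t ∈ range T, wt T l x t = 1 := by
  have hT0 : (T : ℝ) ≠ 0 := by
    have : (0 : ℝ) < T := by exact_mod_cast hT
    exact this.ne'
  have hTc : (T : ℂ) ≠ 0 := by exact_mod_cast hT0
  obtain ⟨_, _, h3⟩ := hl
  have key : l.ε * ∑ t ∈ range T, Real.cos (l.n * (x + gp T l.R t) + l.φ) = 0 := by
    rcases h3 with h0 | ⟨h1, h2, k, hk, hkT, hnR⟩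
    · rw [h0, zero_mul]
    · have h4 := avg_ex T hT l.R l.n x
      rw [hnR, Dk_zero T k hk (by omega), Complex.ofReal_zero, zero_mul,
        div_eq_zero_iff] at h4
      have h5 : ∑ t ∈ range T, ex l.n (x + gp T l.R t) = 0 := h4.resolve_right hTc
      have h6 : ∀ t : ℕ, Real.cos (l.n * (x + gp T l.R t) + l.φ) =
          (Complex.exp ((l.φ : ℂ) * Complex.I) * ex l.n (x + gp T l.R t)).re := by
        intro t
        unfold ex
        rw [← Complex.exp_add, ← add_mul, ← Complex.ofReal_add, Complex.exp_ofReal_mul_I_re,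
          add_comm]
      have h7 : ∑ t ∈ range T, Real.cos (l.n * (x + gp T l.R t) + l.φ) = 0 := by
        rw [Finset.sum_congr rfl (fun t _ => h6 t), ← Complex.re_sum, ← Finset.mul_sum, h5,
          mul_zero, Complex.zero_re]
      rw [h7, mul_zero]
  unfold wt
  rw [← Finset.sum_div, Finset.sum_add_distrib, ← Finset.mul_sum, key, add_zero,
    Finset.sum_const, Finset.card_range, nsmul_eq_mul, mul_one, div_self hT0]

end Pool.Agent.Helper414.HG
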