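import Pool.Agent.Helper414.HgP

set_option autoImplicit false

/-!
# Sidon type inequality on sets of small porosity
-/

namespace Pool.Agent.Helper414.HG

open Finset

/-- `ct R x` is the centre of a window containing `x`, and `p R y` a point of `E` close to `y` -/
def Sel (E : Set ℝ) (η r₀ : ℝ) (ct p : ℝ → ℝ → ℝ) : Prop :=
  ∀ x ∈ E, ∀ R : ℝ, 0 < R → R ≤ r₀ → |ct R x - x| ≤ R ∧
    ∀ y : ℝ, |y - ct R x| ≤ R → p R y ∈ E ∧ |p R y - y| ≤ η * R

/-- one averaging operator -/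
noncomputable def op (T : ℕ) (ct p : ℝ → ℝ → ℝ) (l : Lev) (g : ℝ → ℂ) (x : ℝ) : ℂ :=
  ∑ t ∈ range T, (wt T l (ct l.R x) t : ℂ) * g (p l.R (ct l.R x + gp T l.R t))

/-- product of averaging operators -/
noncomputable def ops (T : ℕ) (ct p : ℝ → ℝ → ℝ) : List Lev → (ℝ → ℂ) → ℝ → ℂ
  | [], g => g
  | l :: ls, g => op T ct p l (ops T ct p ls g)

open Classical in
/-- existence of selections -/
theorem exists_sel (E : Set ℝ) (η' η r₀ : ℝ) (hη : η' ≤ η) (h : VP E η' r₀) :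
    ∃ ct p : ℝ → ℝ → ℝ, Sel E η r₀ ct p ∧ ∀ R x : ℝ, Win E η R x → ct R x = x := by
  refine ⟨fun R x => if Win E η R x then x else
      if h : ∃ y0, |y0 - x| ≤ R ∧ Win E η R y0 then h.choose else 0,
    fun R y => if h : ∃ x' ∈ E, |x' - y| ≤ η * R then h.choose else 0, ?_, ?_⟩
  · intro x hx R hR hRr
    obtain ⟨y0, hy0, hW⟩ := h x hx R hR hRr
    have hW' : Win E η R y0 := by
      intro y hy
      obtain ⟨x', hx', hxy⟩ := hW y hy
      exact ⟨x', hx', hxy.trans (mul_le_mul_of_nonneg_right hη hR.le)⟩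
    have hex : ∃ y0, |y0 - x| ≤ R ∧ Win E η R y0 := ⟨y0, hy0, hW'⟩
    have hct : ∀ c, c = (if Win E η R x then x else
        if h : ∃ y0, |y0 - x| ≤ R ∧ Win E η R y0 then h.choose else 0) → |c - x| ≤ R ∧ Win E η R c := by
      intro c hc
      by_cases hw : Win E η R x
      · rw [if_pos hw] at hc
        subst hc
        exact ⟨by simp [hR.le], hw⟩
      · rw [if_neg hw, dif_pos hex] at hc
        subst hc
        exact hex.choose_spec
    obtain ⟨c1, c2⟩ := hct _ rfl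
    refine ⟨c1, ?_⟩
    intro y hy
    have hy' := c2 y hy
    show (if h : ∃ x' ∈ E, |x' - y| ≤ η * R then h.choose else 0) ∈ E ∧
      |(if h : ∃ x' ∈ E, |x' - y| ≤ η * R then h.choose else 0) - y| ≤ η * R
    rw [dif_pos hy']
    exact hy'.choose_spec
  · intro R x hw
    show (if Win E η R x then x else _) = x
    rw [if_pos hw]

/-- one of the values is at least as large as the average -/
theorem ops_max (T : ℕ) (hT : 1 ≤ T) (E : Set ℝ) (η r₀ : ℝ) (ct p : ℝ → ℝ → ℝ) (hp : Sel E η r₀ ct p)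
    (g : ℝ → ℂ) (ls : List Lev) (hls : ∀ l ∈ ls, LevOK T r₀ l) (x : ℝ) (hx : x ∈ E) :
    ∃ x' ∈ E, (ops T ct p ls g x).re ≤ (g x').re := by
  induction ls generalizing x with
  | nil => exact ⟨x, hx, le_of_eq rfl⟩
  | cons l ls ih =>
    have hl : LevOK T r₀ l := hls l (by simp)
    have hls' : ∀ l' ∈ ls, LevOK T r₀ l' := fun l' h => hls l' (by simp [h])
    have hmem : ∀ t ∈ range T, p l.R (ct l.R x + gp T l.R t) ∈ E := by
      intro t ht
      have h1 := gp_le T hT l.R hl.1.le t (Finset.mem_range.mp ht)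
      refine ((hp x hx l.R hl.1 hl.2.1).2 (ct l.R x + gp T l.R t) ?_).1
      rw [add_sub_cancel_left]
      exact h1
    have hre : (ops T ct p (l :: ls) g x).re
        = ∑ t ∈ range T, wt T l (ct l.R x) t *
            (ops T ct p ls g (p l.R (ct l.R x + gp T l.R t))).re := by
      change (∑ t ∈ range T, (wt T l (ct l.R x) t : ℂ) *
        ops T ct p ls g (p l.R (ct l.R x + gp T l.R t))).re = _
      rw [Complex.re_sum]
      refine Finset.sum_congr rfl fun t _ => ?_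
      rw [Complex.re_ofReal_mul]
    have hw := sum_wt T hT r₀ l hl (ct l.R x)
    have hex : ∃ t ∈ range T, (ops T ct p (l :: ls) g x).re
        ≤ (ops T ct p ls g (p l.R (ct l.R x + gp T l.R t))).re := by
      by_contra hcon
      push Not at hcon
      have h2 : ∑ t ∈ range T, wt T l (ct l.R x) t *
            (ops T ct p ls g (p l.R (ct l.R x + gp T l.R t))).re
          < ∑ t ∈ range T, wt T l (ct l.R x) t * (ops T ct p (l :: ls) g x).re := by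
        have hpos : ∃ t ∈ range T, 0 < wt T l (ct l.R x) t := by
          by_contra h3
          push Not at h3
          have : ∑ t ∈ range T, wt T l (ct l.R x) t ≤ 0 := Finset.sum_nonpos h3
          linarith
        obtain ⟨t0, ht0, hpt0⟩ := hpos
        refine Finset.sum_lt_sum (fun t ht => ?_) ⟨t0, ht0, ?_⟩
        · exact mul_le_mul_of_nonneg_left (hcon t ht).le (wt_nonneg T r₀ l hl (ct l.R x) t)
        · exact mul_lt_mul_of_pos_left (hcon t0 ht0) hpt0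
      rw [← Finset.sum_mul, hw, one_mul, ← hre] at h2
      exact lt_irrefl _ h2
    obtain ⟨t, ht, hle⟩ := hex
    obtain ⟨x', hx', hle'⟩ := ih hls' (p l.R (ct l.R x + gp T l.R t)) (hmem t ht)
    exact ⟨x', hx', hle.trans hle'⟩

/-- averages stay close to a constant -/
theorem ops_near (T : ℕ) (hT : 1 ≤ T) (E : Set ℝ) (η r₀ : ℝ) (ct p : ℝ → ℝ → ℝ) (hp : Sel E η r₀ ct p)
    (g : ℝ → ℂ) (c : ℂ) (K : ℝ) (hg : ∀ x ∈ E, ‖g x - c‖ ≤ K) (ls : List Lev)
    (hls : ∀ l ∈ ls, LevOK T r₀ l) (x : ℝ) (hx : x ∈ E) : ‖ops T ct p ls g x - c‖ ≤ K := by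
  induction ls generalizing x with
  | nil => exact hg x hx
  | cons l ls ih =>
    have hl : LevOK T r₀ l := hls l (by simp)
    have hls' : ∀ l' ∈ ls, LevOK T r₀ l' := fun l' h' => hls l' (by simp [h'])
    have hmem : ∀ t ∈ range T, ‖ops T ct p ls g (p l.R (ct l.R x + gp T l.R t)) - c‖ ≤ K := by
      intro t ht
      apply ih hls'
      have h1 := (hp x hx l.R hl.1 hl.2.1).2 (ct l.R x + gp T l.R t) (by
        have := gp_le T hT l.R hl.1.le t (Finset.mem_range.1 ht)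
        simpa using this)
      exact h1.1
    have hs : (∑ t ∈ range T, (wt T l (ct l.R x) t : ℂ)) = 1 := by
      have := sum_wt T hT r₀ l hl (ct l.R x)
      exact_mod_cast this
    have e : ops T ct p (l :: ls) g x - c =
        ∑ t ∈ range T, (wt T l (ct l.R x) t : ℂ) *
          (ops T ct p ls g (p l.R (ct l.R x + gp T l.R t)) - c) := by
      simp only [mul_sub, Finset.sum_sub_distrib, ← Finset.sum_mul, hs, one_mul]
      rfl
    rw [e]
    calc ‖∑ t ∈ range T, (wt T l (ct l.R x) t : ℂ) *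
          (ops T ct p ls g (p l.R (ct l.R x + gp T l.R t)) - c)‖
        ≤ ∑ t ∈ range T, wt T l (ct l.R x) t * K := by
          apply norm_sum_le_of_le
          intro t ht
          rw [norm_mul, Complex.norm_real, Real.norm_of_nonneg (wt_nonneg T r₀ l hl (ct l.R x) t)]
          exact mul_le_mul_of_nonneg_left (hmem t ht) (wt_nonneg T r₀ l hl (ct l.R x) t)
      _ = K := by
          rw [← Finset.sum_mul, sum_wt T hT r₀ l hl (ct l.R x), one_mul]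

/-- one average, difference of two functions -/
theorem op_sub_le (T : ℕ) (hT : 1 ≤ T) (E : Set ℝ) (η r₀ : ℝ) (ct p : ℝ → ℝ → ℝ) (hp : Sel E η r₀ ct p)
    (g h : ℝ → ℂ) (K : ℝ) (hg : ∀ x ∈ E, ‖g x - h x‖ ≤ K) (l : Lev)
    (hl : LevOK T r₀ l) (x : ℝ) (hx : x ∈ E) : ‖op T ct p l g x - op T ct p l h x‖ ≤ K := by
  have hR0 : 0 < l.R := hl.1
  have hR1 : l.R ≤ r₀ := hl.2.1
  have hmem : ∀ t ∈ range T, p l.R (ct l.R x + gp T l.R t) ∈ E := by
    intro t ht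
    refine ((hp x hx l.R hR0 hR1).2 (ct l.R x + gp T l.R t) ?_).1
    have := gp_le T hT l.R hR0.le t (mem_range.1 ht)
    simpa using this
  unfold op
  rw [← Finset.sum_sub_distrib]
  calc ‖∑ t ∈ range T, ((wt T l (ct l.R x) t : ℂ) * g (p l.R (ct l.R x + gp T l.R t)) -
          (wt T l (ct l.R x) t : ℂ) * h (p l.R (ct l.R x + gp T l.R t)))‖
      ≤ ∑ t ∈ range T, ‖((wt T l (ct l.R x) t : ℂ) * g (p l.R (ct l.R x + gp T l.R t)) -
          (wt T l (ct l.R x) t : ℂ) * h (p l.R (ct l.R x + gp T l.R t)))‖ := norm_sum_le _ _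
    _ ≤ ∑ t ∈ range T, wt T l (ct l.R x) t * K := by
        apply Finset.sum_le_sum
        intro t ht
        rw [← mul_sub, norm_mul]
        have hw := wt_nonneg T r₀ l hl (ct l.R x) t
        have h1 : ‖(wt T l (ct l.R x) t : ℂ)‖ = wt T l (ct l.R x) t := by
          rw [Complex.norm_real, Real.norm_eq_abs, abs_of_nonneg hw]
        rw [h1]
        exact mul_le_mul_of_nonneg_left (hg _ (hmem t ht)) hw
    _ = K := by rw [← Finset.sum_mul, sum_wt T hT r₀ l hl (ct l.R x), one_mul]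

/-- linearity -/
theorem ops_sum (T : ℕ) (ct p : ℝ → ℝ → ℝ) (ls : List Lev) (s : Finset ℕ) (c : ℕ → ℂ) (g : ℕ → ℝ → ℂ)
    (x : ℝ) : ops T ct p ls (fun y => ∑ n ∈ s, c n * g n y) x = ∑ n ∈ s, c n * ops T ct p ls (g n) x := by
  induction ls generalizing x with
  | nil => rfl
  | cons l ls ih =>
    have hf : ops T ct p ls (fun y => ∑ n ∈ s, c n * g n y) =
        fun y => ∑ n ∈ s, c n * ops T ct p ls (g n) y := funext fun y => ih y
    show op T ct p l (ops T ct p ls (fun y => ∑ n ∈ s, c n * g n y)) x =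
      ∑ n ∈ s, c n * op T ct p l (ops T ct p ls (g n)) x
    rw [hf]
    unfold op
    simp only [Finset.mul_sum]
    rw [Finset.sum_comm]
    refine Finset.sum_congr rfl fun n _ => ?_
    refine Finset.sum_congr rfl fun t _ => ?_
    ring

theorem ops_append (T : ℕ) (ct p : ℝ → ℝ → ℝ) (ls₁ ls₂ : List Lev) (g : ℝ → ℂ) :
    ops T ct p (ls₁ ++ ls₂) g = ops T ct p ls₁ (ops T ct p ls₂ g) := by
  induction ls₁ with
  | nil => rfl
  | cons l ls ih =>
    show op T ct p l (ops T ct p (ls ++ ls₂) g) = op T ct p l (ops T ct p ls (ops T ct p ls₂ g))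
    rw [ih]

theorem op_ex_sub (T : ℕ) (hT : 1 ≤ T) (E : Set ℝ) (η r₀ : ℝ) (hη : η ≤ 1) (ct p : ℝ → ℝ → ℝ)
    (hp : Sel E η r₀ ct p) (n : ℝ) (hn : 0 ≤ n) (l : Lev) (hl : LevOK T r₀ l)
    (x : ℝ) (hx : x ∈ E) : ‖op T ct p l (ex n) x - ex n x‖ ≤ 3 * n * l.R := by
  have hs := sum_wt T hT r₀ l hl (ct l.R x)
  have hsC : (∑ t ∈ range T, (wt T l (ct l.R x) t : ℂ)) = 1 := by
    rw [← Complex.ofReal_sum, hs, Complex.ofReal_one]
  have h1 : op T ct p l (ex n) x - ex n x =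
      ∑ t ∈ range T, (wt T l (ct l.R x) t : ℂ) * (ex n (p l.R (ct l.R x + gp T l.R t)) - ex n x) := by
    unfold op
    simp_rw [mul_sub]
    rw [Finset.sum_sub_distrib, ← Finset.sum_mul, hsC, one_mul]
  rw [h1]
  refine (norm_sum_le _ _).trans ?_
  have h2 : ∀ t ∈ range T, ‖(wt T l (ct l.R x) t : ℂ) *
      (ex n (p l.R (ct l.R x + gp T l.R t)) - ex n x)‖ ≤
      wt T l (ct l.R x) t * (3 * n * l.R) := by
    intro t ht
    have ht' : t < T := Finset.mem_range.1 ht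
    have hR : 0 < l.R := hl.1
    have hg := gp_le T hT l.R hR.le t ht'
    have hw := wt_nonneg T r₀ l hl (ct l.R x) t
    rw [norm_mul, Complex.norm_real, Real.norm_eq_abs, abs_of_nonneg hw]
    refine mul_le_mul_of_nonneg_left ?_ hw
    refine (ex_sub_le n _ _).trans ?_
    rw [abs_of_nonneg hn]
    have hy : |ct l.R x + gp T l.R t - ct l.R x| ≤ l.R := by rw [add_sub_cancel_left]; exact hg
    obtain ⟨hc, hpp⟩ := hp x hx l.R hR hl.2.1
    have hq := (hpp (ct l.R x + gp T l.R t) hy).2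
    have h3 : |p l.R (ct l.R x + gp T l.R t) - x| ≤ 3 * l.R := by
      have : p l.R (ct l.R x + gp T l.R t) - x = (p l.R (ct l.R x + gp T l.R t) -
          (ct l.R x + gp T l.R t)) + gp T l.R t + (ct l.R x - x) := by
        ring
      rw [this]
      refine (abs_add_le _ _).trans ?_
      have h4 := abs_add_le (p l.R (ct l.R x + gp T l.R t) - (ct l.R x + gp T l.R t)) (gp T l.R t)
      have h5 : η * l.R ≤ 1 * l.R := mul_le_mul_of_nonneg_right hη hR.le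
      linarith
    have h6 : n * |p l.R (ct l.R x + gp T l.R t) - x| ≤ n * (3 * l.R) :=
      mul_le_mul_of_nonneg_left h3 hn
    linarith
  refine (Finset.sum_le_sum h2).trans ?_
  rw [← Finset.sum_mul, hs, one_mul]

/-- levels much finer than the wave length do not change `ex n` -/
theorem ops_high (T : ℕ) (hT : 1 ≤ T) (E : Set ℝ) (η r₀ : ℝ) (hη : η ≤ 1) (ct p : ℝ → ℝ → ℝ)
    (hp : Sel E η r₀ ct p) (n : ℝ) (hn : 0 ≤ n) (ls : List Lev) (hls : ∀ l ∈ ls, LevOK T r₀ l)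
    (x : ℝ) (hx : x ∈ E) : ‖ops T ct p ls (ex n) x - ex n x‖ ≤ (ls.map (fun l => 3 * n * l.R)).sum := by
  induction ls generalizing x with
  | nil => simp [ops]
  | cons l ls ih =>
    have hl : LevOK T r₀ l := hls l List.mem_cons_self
    have hls' : ∀ l ∈ ls, LevOK T r₀ l := fun l' hl' => hls l' (List.mem_cons_of_mem _ hl')
    have hA := op_sub_le T hT E η r₀ ct p hp (ops T ct p ls (ex n)) (ex n) _
      (fun y hy => ih hls' y hy) l hl x hx
    have hB := op_ex_sub T hT E η r₀ hη ct p hp n hn l hl x hx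
    rw [List.map_cons, List.sum_cons]
    show ‖op T ct p l (ops T ct p ls (ex n)) x - ex n x‖ ≤ _
    have : op T ct p l (ops T ct p ls (ex n)) x - ex n x =
        (op T ct p l (ops T ct p ls (ex n)) x - op T ct p l (ex n) x) +
          (op T ct p l (ex n) x - ex n x) := by ring
    rw [this]
    refine (norm_add_le _ _).trans ?_
    linarith

/-- the action of one level on its special frequency -/
theorem op_own (T : ℕ) (hT : 1 ≤ T) (E : Set ℝ) (η r₀ : ℝ) (ct p : ℝ → ℝ → ℝ) (hp : Sel E η r₀ ct p)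
    (l : Lev) (hl : LevOK T r₀ l) (hε : l.ε = 1) (x : ℝ) (hx : x ∈ E) :
    ‖op T ct p l (ex l.n) x - (1 / 2 : ℂ) * Complex.exp (-(l.φ : ℂ) * Complex.I)‖ ≤ l.n * η * l.R := by
  obtain ⟨hR, hRr, h0⟩ := id hl
  have h1 : 0 < l.n ∧ ∃ k : ℕ, 1 ≤ k ∧ 2 * k < T ∧ l.n * l.R = Real.pi * k := by
    rcases h0 with h | h
    · rw [hε] at h; norm_num at h
    · exact h.2
  obtain ⟨hn, k, hk1, hkT, hkR⟩ := h1
  have hT0 : (T : ℂ) ≠ 0 := by
    have : T ≠ 0 := by omega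
    exact_mod_cast this
  have main : ∑ t ∈ range T, (wt T l (ct l.R x) t : ℂ) * ex l.n (ct l.R x + gp T l.R t) =
      (1 / 2 : ℂ) * Complex.exp (-(l.φ : ℂ) * Complex.I) := by
    have e : ∀ t, (wt T l (ct l.R x) t : ℂ) * ex l.n (ct l.R x + gp T l.R t) =
        ex l.n (ct l.R x + gp T l.R t) / (T : ℂ) +
          (1 / 2 : ℂ) * Complex.exp ((l.φ : ℂ) * Complex.I) * (ex (2 * l.n) (ct l.R x + gp T l.R t) / (T : ℂ)) +
          (1 / 2 : ℂ) * Complex.exp (-(l.φ : ℂ) * Complex.I) * (1 / (T : ℂ)) := by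
      intro t
      unfold wt ex
      rw [hε]
      set th : ℝ := l.n * (ct l.R x + gp T l.R t) with hth
      have e2 : (2 * l.n * (ct l.R x + gp T l.R t) : ℝ) = th + th := by rw [hth]; ring
      rw [e2]
      push_cast
      rw [Complex.cos]
      have a1 : Complex.exp (((th : ℂ) + (th : ℂ)) * Complex.I) =
          Complex.exp ((th : ℂ) * Complex.I) * Complex.exp ((th : ℂ) * Complex.I) := by
        rw [← Complex.exp_add]; ring_nf
      have a2 : Complex.exp (((th : ℂ) + (l.φ : ℂ)) * Complex.I) =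
          Complex.exp ((th : ℂ) * Complex.I) * Complex.exp ((l.φ : ℂ) * Complex.I) := by
        rw [← Complex.exp_add]; ring_nf
      have a3 : Complex.exp (-((th : ℂ) + (l.φ : ℂ)) * Complex.I) * Complex.exp ((th : ℂ) * Complex.I) =
          Complex.exp (-(l.φ : ℂ) * Complex.I) := by
        rw [← Complex.exp_add]; ring_nf
      rw [a1, a2, ← a3]
      field_simp
      ring
    simp_rw [e]
    rw [sum_add_distrib, sum_add_distrib, ← sum_div, ← mul_sum, ← sum_div, sum_const, card_range,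
      avg_ex T hT l.R l.n (ct l.R x), avg_ex T hT l.R (2 * l.n) (ct l.R x)]
    have d1 : Dk T (l.n * l.R) = 0 := by
      rw [hkR]; exact Dk_zero T k hk1 (by omega)
    have d2 : Dk T (2 * l.n * l.R) = 0 := by
      have : 2 * l.n * l.R = Real.pi * ((2 * k : ℕ) : ℝ) := by
        push_cast; rw [mul_assoc, hkR]; ring
      rw [this]; exact Dk_zero T (2 * k) (by omega) hkT
    rw [d1, d2]
    simp only [Complex.ofReal_zero, zero_mul, mul_zero, zero_add, nsmul_eq_mul]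
    field_simp
  rw [← main]
  unfold op
  rw [← sum_sub_distrib]
  calc ‖∑ t ∈ range T, ((wt T l (ct l.R x) t : ℂ) * ex l.n (p l.R (ct l.R x + gp T l.R t)) -
        (wt T l (ct l.R x) t : ℂ) * ex l.n (ct l.R x + gp T l.R t))‖
      ≤ ∑ t ∈ range T, ‖(wt T l (ct l.R x) t : ℂ) * ex l.n (p l.R (ct l.R x + gp T l.R t)) -
        (wt T l (ct l.R x) t : ℂ) * ex l.n (ct l.R x + gp T l.R t)‖ := norm_sum_le _ _
    _ ≤ ∑ t ∈ range T, wt T l (ct l.R x) t * (l.n * η * l.R) := by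
        refine sum_le_sum fun t ht => ?_
        have hw := wt_nonneg T r₀ l hl (ct l.R x) t
        rw [← mul_sub, norm_mul, Complex.norm_real, Real.norm_eq_abs, abs_of_nonneg hw]
        apply mul_le_mul_of_nonneg_left _ hw
        refine (ex_sub_le _ _ _).trans ?_
        have hy : |ct l.R x + gp T l.R t - ct l.R x| ≤ l.R := by
          rw [add_sub_cancel_left]
          exact gp_le T hT l.R hR.le t (mem_range.1 ht)
        have h2 := ((hp x hx l.R hR hRr).2 (ct l.R x + gp T l.R t) hy).2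
        rw [abs_of_pos hn, mul_assoc]
        exact mul_le_mul_of_nonneg_left h2 hn.le
    _ = l.n * η * l.R := by
        rw [← sum_mul, sum_wt T hT r₀ l hl (ct l.R x), one_mul]

/-- the action of one level on another frequency -/
theorem op_other (T : ℕ) (hT : 1 ≤ T) (E : Set ℝ) (η r₀ : ℝ) (ct p : ℝ → ℝ → ℝ) (hp : Sel E η r₀ ct p)
    (l : Lev) (hl : LevOK T r₀ l) (n : ℝ) (hn : 0 ≤ n) (x : ℝ) (hx : x ∈ E) :
    ‖op T ct p l (ex n) x - (Dk T (n * l.R) : ℂ) * ex n (ct l.R x)‖ ≤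
      l.ε / 2 * (|Dk T ((n + l.n) * l.R)| + |Dk T ((n - l.n) * l.R)|) + n * η * l.R := by
  have hR : 0 < l.R := hl.1
  have hRr : l.R ≤ r₀ := hl.2.1
  have hε0 : 0 ≤ l.ε := by
    rcases hl.2.2 with h | ⟨h, _⟩ <;> rw [h]
    norm_num
  have hTC : (T : ℂ) ≠ 0 := by
    have : T ≠ 0 := by omega
    exact_mod_cast this
  -- step 1: replace selected points by grid points
  have h1 : ‖op T ct p l (ex n) x - ∑ t ∈ range T, (wt T l (ct l.R x) t : ℂ) * ex n (ct l.R x + gp T l.R t)‖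
      ≤ n * η * l.R := by
    unfold op
    rw [← Finset.sum_sub_distrib]
    refine (norm_sum_le _ _).trans ?_
    have hterm : ∀ t ∈ range T, ‖(wt T l (ct l.R x) t : ℂ) * ex n (p l.R (ct l.R x + gp T l.R t)) -
        (wt T l (ct l.R x) t : ℂ) * ex n (ct l.R x + gp T l.R t)‖ ≤ wt T l (ct l.R x) t * (n * η * l.R) := by
      intro t ht
      have htT : t < T := Finset.mem_range.mp ht
      have hw : 0 ≤ wt T l (ct l.R x) t := wt_nonneg T r₀ l hl (ct l.R x) t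
      rw [← mul_sub, norm_mul, Complex.norm_real, Real.norm_of_nonneg hw]
      refine mul_le_mul_of_nonneg_left ?_ hw
      refine (ex_sub_le _ _ _).trans ?_
      rw [abs_of_nonneg hn]
      have hg : |ct l.R x + gp T l.R t - ct l.R x| ≤ l.R := by
        rw [add_sub_cancel_left]
        exact gp_le T hT l.R hR.le t htT
      have := ((hp x hx l.R hR hRr).2 (ct l.R x + gp T l.R t) hg).2
      calc n * |p l.R (ct l.R x + gp T l.R t) - (ct l.R x + gp T l.R t)| ≤ n * (η * l.R) :=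
            mul_le_mul_of_nonneg_left this hn
        _ = n * η * l.R := by ring
    refine (Finset.sum_le_sum hterm).trans ?_
    rw [← Finset.sum_mul, sum_wt T hT r₀ l hl (ct l.R x), one_mul]
  -- step 2: the exact average
  have h2 : ∑ t ∈ range T, (wt T l (ct l.R x) t : ℂ) * ex n (ct l.R x + gp T l.R t) =
      (Dk T (n * l.R) : ℂ) * ex n (ct l.R x) +
      (l.ε : ℂ) * ((1 / 2 : ℂ) * (Complex.exp ((l.φ : ℂ) * Complex.I) *
          ((Dk T ((n + l.n) * l.R) : ℂ) * ex (n + l.n) (ct l.R x)) +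
        Complex.exp (-((l.φ : ℂ) * Complex.I)) *
          ((Dk T ((n - l.n) * l.R) : ℂ) * ex (n - l.n) (ct l.R x)))) := by
    rw [← avg_ex T hT l.R n (ct l.R x), ← avg_ex T hT l.R (n + l.n) (ct l.R x), ← avg_ex T hT l.R (n - l.n) (ct l.R x)]
    rw [Finset.sum_div, Finset.sum_div, Finset.sum_div, Finset.mul_sum, Finset.mul_sum,
      ← Finset.sum_add_distrib, Finset.mul_sum, Finset.mul_sum, ← Finset.sum_add_distrib]
    refine Finset.sum_congr rfl ?_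
    intro t _
    set y : ℝ := ct l.R x + gp T l.R t with hy
    have hwt : (wt T l (ct l.R x) t : ℂ) = (1 + (l.ε : ℂ) * Complex.cos ((l.n : ℂ) * y + l.φ)) / T := by
      unfold wt
      push_cast
      rw [hy]
      push_cast
      ring_nf
    have e1 : Complex.exp ((l.φ : ℂ) * Complex.I) * ex (n + l.n) y =
        Complex.exp (((l.n : ℂ) * y + l.φ) * Complex.I) * ex n y := by
      unfold ex
      rw [← Complex.exp_add, ← Complex.exp_add]
      congr 1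
      push_cast
      ring
    have e2 : Complex.exp (-((l.φ : ℂ) * Complex.I)) * ex (n - l.n) y =
        Complex.exp (-((l.n : ℂ) * y + l.φ) * Complex.I) * ex n y := by
      unfold ex
      rw [← Complex.exp_add, ← Complex.exp_add]
      congr 1
      push_cast
      ring
    have e3 : Complex.exp ((l.φ : ℂ) * Complex.I) * (ex (n + l.n) y / T) +
        Complex.exp (-((l.φ : ℂ) * Complex.I)) * (ex (n - l.n) y / T) =
        (Complex.exp (((l.n : ℂ) * y + l.φ) * Complex.I) +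
          Complex.exp (-((l.n : ℂ) * y + l.φ) * Complex.I)) * ex n y / T := by
      rw [← mul_div_assoc, ← mul_div_assoc, e1, e2]
      ring
    rw [e3, hwt, Complex.cos]
    ring
  have h3 : ‖(l.ε : ℂ) * ((1 / 2 : ℂ) * (Complex.exp ((l.φ : ℂ) * Complex.I) *
          ((Dk T ((n + l.n) * l.R) : ℂ) * ex (n + l.n) (ct l.R x)) +
        Complex.exp (-((l.φ : ℂ) * Complex.I)) *
          ((Dk T ((n - l.n) * l.R) : ℂ) * ex (n - l.n) (ct l.R x))))‖ ≤
      l.ε / 2 * (|Dk T ((n + l.n) * l.R)| + |Dk T ((n - l.n) * l.R)|) := by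
    have n1 : ‖Complex.exp ((l.φ : ℂ) * Complex.I)‖ = 1 := Complex.norm_exp_ofReal_mul_I _
    have n2 : ‖Complex.exp (-((l.φ : ℂ) * Complex.I))‖ = 1 := by
      have : -((l.φ : ℂ) * Complex.I) = ((-l.φ : ℝ) : ℂ) * Complex.I := by
        push_cast; ring
      rw [this]
      exact Complex.norm_exp_ofReal_mul_I _
    have n3 : ‖Complex.exp ((l.φ : ℂ) * Complex.I) *
          ((Dk T ((n + l.n) * l.R) : ℂ) * ex (n + l.n) (ct l.R x))‖ = |Dk T ((n + l.n) * l.R)| := by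
      rw [norm_mul, norm_mul, n1, norm_ex, Complex.norm_real, Real.norm_eq_abs]
      ring
    have n4 : ‖Complex.exp (-((l.φ : ℂ) * Complex.I)) *
          ((Dk T ((n - l.n) * l.R) : ℂ) * ex (n - l.n) (ct l.R x))‖ = |Dk T ((n - l.n) * l.R)| := by
      rw [norm_mul, norm_mul, n2, norm_ex, Complex.norm_real, Real.norm_eq_abs]
      ring
    rw [norm_mul, norm_mul, Complex.norm_real, Real.norm_of_nonneg hε0]
    have n5 : ‖(1 / 2 : ℂ)‖ = 1 / 2 := by norm_num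
    rw [n5]
    have n6 := norm_add_le (Complex.exp ((l.φ : ℂ) * Complex.I) *
          ((Dk T ((n + l.n) * l.R) : ℂ) * ex (n + l.n) (ct l.R x)))
        (Complex.exp (-((l.φ : ℂ) * Complex.I)) *
          ((Dk T ((n - l.n) * l.R) : ℂ) * ex (n - l.n) (ct l.R x)))
    rw [n3, n4] at n6
    calc l.ε * (1 / 2 * _) ≤ l.ε * (1 / 2 * (|Dk T ((n + l.n) * l.R)| + |Dk T ((n - l.n) * l.R)|)) := by
          gcongr
      _ = _ := by ring
  calc ‖op T ct p l (ex n) x - (Dk T (n * l.R) : ℂ) * ex n (ct l.R x)‖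
      = ‖(op T ct p l (ex n) x - ∑ t ∈ range T, (wt T l (ct l.R x) t : ℂ) * ex n (ct l.R x + gp T l.R t)) +
        (l.ε : ℂ) * ((1 / 2 : ℂ) * (Complex.exp ((l.φ : ℂ) * Complex.I) *
          ((Dk T ((n + l.n) * l.R) : ℂ) * ex (n + l.n) (ct l.R x)) +
        Complex.exp (-((l.φ : ℂ) * Complex.I)) *
          ((Dk T ((n - l.n) * l.R) : ℂ) * ex (n - l.n) (ct l.R x))))‖ := by
        congr 1
        rw [h2]
        ring
    _ ≤ n * η * l.R + l.ε / 2 * (|Dk T ((n + l.n) * l.R)| + |Dk T ((n - l.n) * l.R)|) :=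
        (norm_add_le _ _).trans (add_le_add h1 h3)
    _ = _ := by ring

/-- counting grid points -/
theorem card_near (T : ℕ) (hT : 1 ≤ T) (η R y0 a b : ℝ) (hη : 0 ≤ η) (hR : 0 < R) (hab : a ≤ b)
    (x : ℕ → ℝ) (hx : ∀ t, t < T → |x t - (y0 + gp T R t)| ≤ η * R) (S : Finset ℕ)
    (hS : ∀ t ∈ S, t < T ∧ a ≤ x t ∧ x t ≤ b) :
    (S.card : ℝ) ≤ T * ((b - a) / (2 * R) + η) + 1 := by
  have hTpos : (0 : ℝ) < T := by exact_mod_cast hT
  rcases S.eq_empty_or_nonempty with h0 | hne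
  · subst h0
    have h1 : 0 ≤ (b - a) / (2 * R) := div_nonneg (by linarith) (by linarith)
    have h2 : 0 ≤ (T : ℝ) * ((b - a) / (2 * R) + η) := mul_nonneg hTpos.le (by linarith)
    simp only [Finset.card_empty, Nat.cast_zero]
    linarith
  · obtain ⟨ht0, ha0, hb0⟩ := hS _ (S.min'_mem hne)
    obtain ⟨ht1, ha1, hb1⟩ := hS _ (S.max'_mem hne)
    set t0 := S.min' hne with ht0def
    set t1 := S.max' hne with ht1def
    have hle : t0 ≤ t1 := S.min'_le _ (S.max'_mem hne)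
    have hsub : S ⊆ Finset.Icc t0 t1 := fun t ht =>
      Finset.mem_Icc.2 ⟨S.min'_le _ ht, S.le_max' _ ht⟩
    have hcard : S.card ≤ t1 + 1 - t0 := by
      have := Finset.card_le_card hsub
      rwa [Nat.card_Icc] at this
    have hcard' : (S.card : ℝ) ≤ (t1 : ℝ) - t0 + 1 := by
      have h3 : S.card + t0 ≤ t1 + 1 := by omega
      have h4 : ((S.card + t0 : ℕ) : ℝ) ≤ ((t1 + 1 : ℕ) : ℝ) := by exact_mod_cast h3
      push_cast at h4
      linarith
    have hx0 := abs_le.1 (hx t0 ht0)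
    have hx1 := abs_le.1 (hx t1 ht1)
    have hgp : gp T R t1 - gp T R t0 = ((t1 : ℝ) - t0) * (2 * R) / T := by
      unfold gp
      field_simp
      ring
    have hkey : ((t1 : ℝ) - t0) * (2 * R) / T ≤ (b - a) + 2 * (η * R) := by
      rw [← hgp]
      linarith [hx0.1, hx0.2, hx1.1, hx1.2]
    have hkey2 : ((t1 : ℝ) - t0) * (2 * R) ≤ ((b - a) + 2 * (η * R)) * T := by
      rwa [div_le_iff₀ hTpos] at hkey
    have hkey3 : (t1 : ℝ) - t0 ≤ T * ((b - a) / (2 * R) + η) := by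
      have h2R : (0 : ℝ) < 2 * R := by linarith
      have h5 : T * ((b - a) / (2 * R) + η) = ((b - a) + 2 * (η * R)) * T / (2 * R) := by
        field_simp
      rw [h5, le_div_iff₀ h2R]
      exact hkey2
    linarith

/-- points with a hole on their right are clustered -/
theorem bad_right (E : Set ℝ) (η' η r₀ R r y0 : ℝ) (hvp : VP E η' r₀) (hR : 0 < R) (hRr : R ≤ r₀)
    (hr : 0 < r) (hrR : r ≤ R) (hη0 : 0 ≤ η) (hη1 : η' * R ≤ η * r) (x₁ x₂ z₁ z₂ : ℝ) (hx1 : x₁ ∈ E)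
    (hx12 : x₂ ≤ x₁) (h1 : x₁ ≤ y0 + R + η * R)
    (hz1 : x₁ ≤ z₁ ∧ z₁ ≤ x₁ + r) (hh1 : ∀ x' ∈ E, η * r < |x' - z₁|)
    (hz2 : x₂ ≤ z₂ ∧ z₂ ≤ x₂ + r) (hh2 : ∀ x' ∈ E, η * r < |x' - z₂|) :
    x₁ - r ≤ x₂ ∨ x₂ ≤ y0 - R + η * R + r := by
  obtain ⟨y, hy, hw⟩ := hvp x₁ hx1 R hR hRr
  rw [abs_le] at hy
  have key : ∀ z : ℝ, (∀ x' ∈ E, η * r < |x' - z|) → z < y - R ∨ y + R < z := by
    intro z hz
    by_contra hcon
    push Not at hcon
    obtain ⟨x', hx', hd⟩ := hw z (by rw [abs_le]; constructor <;> linarith [hcon.1, hcon.2])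
    have := hz x' hx'
    linarith
  rcases key z₁ hh1 with h | h
  · linarith [hy.1, hy.2, hz1.1]
  · rcases key z₂ hh2 with h' | h'
    · right
      linarith [hy.1, hy.2, hz1.1, hz1.2, hz2.1, hz2.2]
    · left
      linarith [hy.1, hy.2, hz1.1, hz1.2, hz2.1, hz2.2]

/-- points with a hole on their left are clustered -/
theorem bad_left (E : Set ℝ) (η' η r₀ R r y0 : ℝ) (hvp : VP E η' r₀) (hR : 0 < R) (hRr : R ≤ r₀)
    (hr : 0 < r) (hrR : r ≤ R) (hη0 : 0 ≤ η) (hη1 : η' * R ≤ η * r) (x₁ x₂ z₁ z₂ : ℝ) (hx1 : x₁ ∈ E)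
    (hx12 : x₁ ≤ x₂) (h1 : y0 - R - η * R ≤ x₁)
    (hz1 : x₁ - r ≤ z₁ ∧ z₁ ≤ x₁) (hh1 : ∀ x' ∈ E, η * r < |x' - z₁|)
    (hz2 : x₂ - r ≤ z₂ ∧ z₂ ≤ x₂) (hh2 : ∀ x' ∈ E, η * r < |x' - z₂|) :
    x₂ ≤ x₁ + r ∨ y0 + R - η * R - r ≤ x₂ := by
  obtain ⟨y, hy1, hy2⟩ := hvp x₁ hx1 R hR hRr
  have a1 : R < |z₁ - y| := by
    by_contra hc
    push Not at hc
    obtain ⟨x', hx', hx''⟩ := hy2 z₁ hc
    have := hh1 x' hx'
    linarith
  have a2 : R < |z₂ - y| := by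
    by_contra hc
    push Not at hc
    obtain ⟨x', hx', hx''⟩ := hy2 z₂ hc
    have := hh2 x' hx'
    linarith
  obtain ⟨b1, b2⟩ := abs_le.mp hy1
  have c1 : z₁ < y - R := by
    rcases lt_abs.mp a1 with h | h
    · linarith [hz1.2]
    · linarith
  rcases lt_abs.mp a2 with h | h
  · right
    linarith [hz1.1, hz2.2]
  · left
    linarith [hz2.1]

theorem hz_rng (T : ℕ) (hT : 1 ≤ T) (η R y0 : ℝ) (hR : 0 < R) (x : ℕ → ℝ)
    (hx : ∀ t, t < T → |x t - (y0 + gp T R t)| ≤ η * R) (t : ℕ) (ht : t < T) :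
    y0 - R - η * R ≤ x t ∧ x t ≤ y0 + R + η * R := by
  have h1 := abs_le.mp (hx t ht)
  have h2 := abs_le.mp (gp_le T hT R hR.le t ht)
  constructor <;> linarith [h1.1, h1.2, h2.1, h2.2]

theorem hz_A (T : ℕ) (hT : 1 ≤ T) (E : Set ℝ) (η' η r₀ R r y0 : ℝ) (hvp : VP E η' r₀) (hR : 0 < R)
    (hRr : R ≤ r₀) (hr : 0 < r) (hrR : r ≤ R) (hη0 : 0 ≤ η) (hη1 : η' * R ≤ η * r) (x : ℕ → ℝ)
    (hxE : ∀ t, t < T → x t ∈ E) (hx : ∀ t, t < T → |x t - (y0 + gp T R t)| ≤ η * R)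
    (S : Finset ℕ) (hS : ∀ t ∈ S, t < T ∧ ∃ z, (x t ≤ z ∧ z ≤ x t + r) ∧ ∀ x' ∈ E, η * r < |x' - z|) :
    (S.card : ℝ) ≤ T * (r / R + 3 * η) + 2 := by
  classical
  have hT0 : (0:ℝ) ≤ T := Nat.cast_nonneg _
  have hηR : 0 ≤ η * R := mul_nonneg hη0 hR.le
  rcases S.eq_empty_or_nonempty with rfl | hne
  · have h1 : 0 ≤ (T:ℝ) * (r / R + 3 * η) := mul_nonneg hT0 (by positivity)
    simp only [Finset.card_empty, Nat.cast_zero]
    linarith
  · obtain ⟨t1, ht1, hmax⟩ := Finset.exists_max_image S x hne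
    obtain ⟨ht1T, z1, hz1, hh1⟩ := hS t1 ht1
    have hcl : ∀ t ∈ S, x t1 - r ≤ x t ∨ x t ≤ y0 - R + η * R + r := by
      intro t ht
      obtain ⟨htT, z2, hz2, hh2⟩ := hS t ht
      exact bad_right E η' η r₀ R r y0 hvp hR hRr hr hrR hη0 hη1 (x t1) (x t) z1 z2 (hxE t1 ht1T)
        (hmax t ht) (hz_rng T hT η R y0 hR x hx t1 ht1T).2 hz1 hh1 hz2 hh2
    have c1 := card_near T hT η R y0 (x t1 - r) (x t1) hη0 hR (by linarith) x hx
      (S.filter (fun t => x t1 - r ≤ x t)) (by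
        intro t ht
        rw [Finset.mem_filter] at ht
        exact ⟨(hS t ht.1).1, ht.2, hmax t ht.1⟩)
    have c2 := card_near T hT η R y0 (y0 - R - η * R) (y0 - R + η * R + r) hη0 hR (by linarith) x hx
      (S.filter (fun t => ¬ (x t1 - r ≤ x t))) (by
        intro t ht
        rw [Finset.mem_filter] at ht
        refine ⟨(hS t ht.1).1, (hz_rng T hT η R y0 hR x hx t (hS t ht.1).1).1, ?_⟩
        rcases hcl t ht.1 with h | h
        · exact absurd h ht.2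
        · exact h)
    have c3 : (S.card : ℝ) = ((S.filter (fun t => x t1 - r ≤ x t)).card : ℝ)
        + ((S.filter (fun t => ¬ (x t1 - r ≤ x t))).card : ℝ) := by
      rw [← Nat.cast_add, Finset.card_filter_add_card_filter_not]
    have e1 : (x t1 - (x t1 - r)) / (2 * R) = (r / R) / 2 := by
      field_simp
      ring
    have e2 : (y0 - R + η * R + r - (y0 - R - η * R)) / (2 * R) = η + (r / R) / 2 := by
      field_simp
      ring
    rw [e1] at c1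
    rw [e2] at c2
    nlinarith

theorem hz_B (T : ℕ) (hT : 1 ≤ T) (E : Set ℝ) (η' η r₀ R r y0 : ℝ) (hvp : VP E η' r₀) (hR : 0 < R)
    (hRr : R ≤ r₀) (hr : 0 < r) (hrR : r ≤ R) (hη0 : 0 ≤ η) (hη1 : η' * R ≤ η * r) (x : ℕ → ℝ)
    (hxE : ∀ t, t < T → x t ∈ E) (hx : ∀ t, t < T → |x t - (y0 + gp T R t)| ≤ η * R)
    (S : Finset ℕ) (hS : ∀ t ∈ S, t < T ∧ ∃ z, (x t - r ≤ z ∧ z ≤ x t) ∧ ∀ x' ∈ E, η * r < |x' - z|) :
    (S.card : ℝ) ≤ T * (r / R + 3 * η) + 2 := by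
  classical
  have hT0 : (0:ℝ) ≤ T := Nat.cast_nonneg _
  have hηR : 0 ≤ η * R := mul_nonneg hη0 hR.le
  rcases S.eq_empty_or_nonempty with rfl | hne
  · have h1 : 0 ≤ (T:ℝ) * (r / R + 3 * η) := mul_nonneg hT0 (by positivity)
    simp only [Finset.card_empty, Nat.cast_zero]
    linarith
  · obtain ⟨t1, ht1, hmin⟩ := Finset.exists_min_image S x hne
    obtain ⟨ht1T, z1, hz1, hh1⟩ := hS t1 ht1
    have hcl : ∀ t ∈ S, x t ≤ x t1 + r ∨ y0 + R - η * R - r ≤ x t := by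
      intro t ht
      obtain ⟨htT, z2, hz2, hh2⟩ := hS t ht
      exact bad_left E η' η r₀ R r y0 hvp hR hRr hr hrR hη0 hη1 (x t1) (x t) z1 z2 (hxE t1 ht1T)
        (hmin t ht) (hz_rng T hT η R y0 hR x hx t1 ht1T).1 hz1 hh1 hz2 hh2
    have c1 := card_near T hT η R y0 (x t1) (x t1 + r) hη0 hR (by linarith) x hx
      (S.filter (fun t => x t ≤ x t1 + r)) (by
        intro t ht
        rw [Finset.mem_filter] at ht
        exact ⟨(hS t ht.1).1, hmin t ht.1, ht.2⟩)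
    have c2 := card_near T hT η R y0 (y0 + R - η * R - r) (y0 + R + η * R) hη0 hR (by linarith) x hx
      (S.filter (fun t => ¬ (x t ≤ x t1 + r))) (by
        intro t ht
        rw [Finset.mem_filter] at ht
        refine ⟨(hS t ht.1).1, ?_, (hz_rng T hT η R y0 hR x hx t (hS t ht.1).1).2⟩
        rcases hcl t ht.1 with h | h
        · exact absurd h ht.2
        · exact h)
    have c3 : (S.card : ℝ) = ((S.filter (fun t => x t ≤ x t1 + r)).card : ℝ)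
        + ((S.filter (fun t => ¬ (x t ≤ x t1 + r))).card : ℝ) := by
      rw [← Nat.cast_add, Finset.card_filter_add_card_filter_not]
    have e1 : (x t1 + r - x t1) / (2 * R) = (r / R) / 2 := by
      field_simp
      ring
    have e2 : (y0 + R + η * R - (y0 + R - η * R - r)) / (2 * R) = η + (r / R) / 2 := by
      field_simp
      ring
    rw [e1] at c1
    rw [e2] at c2
    nlinarith

open Classical in
/-- most of the selected points have a centred window at the next scale -/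
theorem count_bad (T : ℕ) (hT : 1 ≤ T) (E : Set ℝ) (η' η r₀ R r y0 : ℝ) (hvp : VP E η' r₀) (hR : 0 < R)
    (hRr : R ≤ r₀) (hr : 0 < r) (hrR : r ≤ R) (hη0 : 0 ≤ η) (hη1 : η' * R ≤ η * r) (x : ℕ → ℝ)
    (hxE : ∀ t, t < T → x t ∈ E) (hx : ∀ t, t < T → |x t - (y0 + gp T R t)| ≤ η * R) :
    (((range T).filter (fun t => ¬ Win E η r (x t))).card : ℝ) ≤ T * (4 * r / R + 8 * η + 8 / T) := by
  have hT1 : (1:ℝ) ≤ T := by exact_mod_cast hT
  have hT0 : (0:ℝ) < T := by linarith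
  have hA := hz_A T hT E η' η r₀ R r y0 hvp hR hRr hr hrR hη0 hη1 x hxE hx
    ((range T).filter (fun t => ∃ z, (x t ≤ z ∧ z ≤ x t + r) ∧ ∀ x' ∈ E, η * r < |x' - z|)) (by
      intro t ht
      rw [Finset.mem_filter, Finset.mem_range] at ht
      exact ht)
  have hB := hz_B T hT E η' η r₀ R r y0 hvp hR hRr hr hrR hη0 hη1 x hxE hx
    ((range T).filter (fun t => ∃ z, (x t - r ≤ z ∧ z ≤ x t) ∧ ∀ x' ∈ E, η * r < |x' - z|)) (by
      intro t ht
      rw [Finset.mem_filter, Finset.mem_range] at ht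
      exact ht)
  have hsub : (range T).filter (fun t => ¬ Win E η r (x t)) ⊆
      ((range T).filter (fun t => ∃ z, (x t ≤ z ∧ z ≤ x t + r) ∧ ∀ x' ∈ E, η * r < |x' - z|)) ∪
      ((range T).filter (fun t => ∃ z, (x t - r ≤ z ∧ z ≤ x t) ∧ ∀ x' ∈ E, η * r < |x' - z|)) := by
    intro t ht
    rw [Finset.mem_filter] at ht
    obtain ⟨htT, hw⟩ := ht
    unfold Win at hw
    push Not at hw
    obtain ⟨z, hz, hz2⟩ := hw
    have hz' := abs_le.mp hz
    rw [Finset.mem_union, Finset.mem_filter, Finset.mem_filter]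
    rcases le_total (x t) z with h | h
    · left
      exact ⟨htT, z, ⟨h, by linarith [hz'.2]⟩, hz2⟩
    · right
      exact ⟨htT, z, ⟨by linarith [hz'.1], h⟩, hz2⟩
  have hcard : (((range T).filter (fun t => ¬ Win E η r (x t))).card : ℝ) ≤
      (((range T).filter (fun t => ∃ z, (x t ≤ z ∧ z ≤ x t + r) ∧ ∀ x' ∈ E, η * r < |x' - z|)).card : ℝ) +
      (((range T).filter (fun t => ∃ z, (x t - r ≤ z ∧ z ≤ x t) ∧ ∀ x' ∈ E, η * r < |x' - z|)).card : ℝ) := by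
    have := (Finset.card_le_card hsub).trans (Finset.card_union_le _ _)
    exact_mod_cast this
  have e1 : (T:ℝ) * (4 * r / R + 8 * η + 8 / T) = 4 * (T * (r / R)) + 8 * (T * η) + 8 := by
    field_simp
  have e2 : (T:ℝ) * (r / R + 3 * η) = T * (r / R) + 3 * (T * η) := by ring
  have p1 : 0 ≤ (T:ℝ) * (r / R) := by positivity
  have p2 : 0 ≤ (T:ℝ) * η := by positivity
  rw [e1]
  rw [e2] at hA hB
  linarith

/-- two consecutive levels kill a frequency between them -/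
theorem kill (T : ℕ) (hT : 1 ≤ T) (E : Set ℝ) (η' η r₀ : ℝ) (hvp : VP E η' r₀) (hη0 : 0 ≤ η)
    (ct p : ℝ → ℝ → ℝ) (hp : Sel E η r₀ ct p) (hc : ∀ R x : ℝ, Win E η R x → ct R x = x)
    (n β κ D : ℝ) (l₁ l₂ : Lev) (rest : List Lev) (h1 : LevOK T r₀ l₁) (h2 : LevOK T r₀ l₂)
    (hR12 : l₂.R ≤ l₁.R) (hη1 : η' * l₁.R ≤ η * l₂.R) (hκ : 4 * l₂.R / l₁.R + 8 * η + 8 / T ≤ κ)
    (hr : ∀ x ∈ E, ‖ops T ct p rest (ex n) x - ex n x‖ ≤ β) (hD : |D| ≤ 1)
    (hb2 : ∀ x ∈ E, ‖op T ct p l₂ (ex n) x - (D : ℂ) * ex n (ct l₂.R x)‖ ≤ β)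
    (hb1 : ∀ x ∈ E, ‖op T ct p l₁ (ex n) x‖ ≤ β) (x : ℝ) (hx : x ∈ E) :
    ‖ops T ct p (l₁ :: l₂ :: rest) (ex n) x‖ ≤ 3 * β + 4 * κ := by
  classical
  set g : ℝ → ℂ := ops T ct p rest (ex n) with hg
  have hT0 : (0 : ℝ) < T := by exact_mod_cast hT
  have e0 : ops T ct p (l₁ :: l₂ :: rest) (ex n) x = op T ct p l₁ (op T ct p l₂ g) x := rfl
  have a1 : ∀ y ∈ E, ‖op T ct p l₂ g y - op T ct p l₂ (ex n) y‖ ≤ β := fun y hy =>
    op_sub_le T hT E η r₀ ct p hp g (ex n) β hr l₂ h2 y hy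
  have a2 : ∀ y ∈ E, ‖op T ct p l₂ g y - (D : ℂ) * ex n (ct l₂.R y)‖ ≤ 2 * β := by
    intro y hy
    have b1 := a1 y hy
    have b2 := hb2 y hy
    calc ‖op T ct p l₂ g y - (D : ℂ) * ex n (ct l₂.R y)‖
        = ‖(op T ct p l₂ g y - op T ct p l₂ (ex n) y) +
            (op T ct p l₂ (ex n) y - (D : ℂ) * ex n (ct l₂.R y))‖ := by
          congr 1; ring
      _ ≤ _ := norm_add_le _ _
      _ ≤ 2 * β := by linarith
  have a3 : ‖op T ct p l₁ (op T ct p l₂ g) x -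
      op T ct p l₁ (fun y => (D : ℂ) * ex n (ct l₂.R y)) x‖ ≤ 2 * β :=
    op_sub_le T hT E η r₀ ct p hp (op T ct p l₂ g) (fun y => (D : ℂ) * ex n (ct l₂.R y)) (2 * β)
      a2 l₁ h1 x hx
  obtain ⟨hct, hpt⟩ := hp x hx l₁.R h1.1 h1.2.1
  have hx1 : ∀ t, t < T → p l₁.R (ct l₁.R x + gp T l₁.R t) ∈ E ∧
      |p l₁.R (ct l₁.R x + gp T l₁.R t) - (ct l₁.R x + gp T l₁.R t)| ≤ η * l₁.R := by
    intro t ht
    refine hpt _ ?_
    have := gp_le T hT l₁.R h1.1.le t ht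
    simpa using this
  set xt : ℕ → ℝ := fun t => p l₁.R (ct l₁.R x + gp T l₁.R t) with hxt
  have hcard := count_bad T hT E η' η r₀ l₁.R l₂.R (ct l₁.R x) hvp h1.1 h1.2.1 h2.1 hR12 hη0 hη1 xt
    (fun t ht => (hx1 t ht).1) (fun t ht => (hx1 t ht).2)
  have a4 : ‖op T ct p l₁ (fun y => (D : ℂ) * ex n (ct l₂.R y)) x -
      (D : ℂ) * op T ct p l₁ (ex n) x‖ ≤ 4 * κ := by
    have e1 : op T ct p l₁ (fun y => (D : ℂ) * ex n (ct l₂.R y)) x -
        (D : ℂ) * op T ct p l₁ (ex n) x =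
        ∑ t ∈ range T, (wt T l₁ (ct l₁.R x) t : ℂ) * ((D : ℂ) * (ex n (ct l₂.R (xt t)) - ex n (xt t))) := by
      unfold op
      rw [Finset.mul_sum, ← Finset.sum_sub_distrib]
      refine Finset.sum_congr rfl fun t _ => ?_
      simp only [hxt]
      ring
    have e2 : ∀ t ∈ range T, ‖(wt T l₁ (ct l₁.R x) t : ℂ) *
        ((D : ℂ) * (ex n (ct l₂.R (xt t)) - ex n (xt t)))‖ ≤
        if ¬ Win E η l₂.R (xt t) then 4 / (T : ℝ) else 0 := by
      intro t ht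
      by_cases hw : ¬ Win E η l₂.R (xt t)
      · rw [if_pos hw]
        have w0 := wt_nonneg T r₀ l₁ h1 (ct l₁.R x) t
        have w1 : wt T l₁ (ct l₁.R x) t ≤ 2 / T := by
          unfold wt
          have hcos1 := Real.cos_le_one (l₁.n * (ct l₁.R x + gp T l₁.R t) + l₁.φ)
          have : 1 + l₁.ε * Real.cos (l₁.n * (ct l₁.R x + gp T l₁.R t) + l₁.φ) ≤ 2 := by
            rcases h1.2.2 with h | h
            · rw [h]; norm_num
            · rw [h.1]; linarith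
          exact div_le_div_of_nonneg_right this hT0.le
        have w2 : ‖ex n (ct l₂.R (xt t)) - ex n (xt t)‖ ≤ 2 := by
          refine (norm_sub_le _ _).trans ?_
          rw [norm_ex, norm_ex]; norm_num
        rw [norm_mul, norm_mul, Complex.norm_real, Complex.norm_real, Real.norm_eq_abs,
          Real.norm_eq_abs, abs_of_nonneg w0]
        have w3 : |D| * ‖ex n (ct l₂.R (xt t)) - ex n (xt t)‖ ≤ 1 * 2 :=
          mul_le_mul hD w2 (norm_nonneg _) (by norm_num)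
        calc wt T l₁ (ct l₁.R x) t * (|D| * ‖ex n (ct l₂.R (xt t)) - ex n (xt t)‖)
            ≤ (2 / T) * (1 * 2) := mul_le_mul w1 w3 (by positivity) (by positivity)
          _ = 4 / T := by ring
      · have hw' : Win E η l₂.R (xt t) := not_not.mp hw
        rw [if_neg hw, hc l₂.R (xt t) hw', sub_self, mul_zero, mul_zero, norm_zero]
    rw [e1]
    calc ‖∑ t ∈ range T, (wt T l₁ (ct l₁.R x) t : ℂ) *
            ((D : ℂ) * (ex n (ct l₂.R (xt t)) - ex n (xt t)))‖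
        ≤ ∑ t ∈ range T, ‖(wt T l₁ (ct l₁.R x) t : ℂ) *
            ((D : ℂ) * (ex n (ct l₂.R (xt t)) - ex n (xt t)))‖ := norm_sum_le _ _
      _ ≤ ∑ t ∈ range T, (if ¬ Win E η l₂.R (xt t) then 4 / (T : ℝ) else 0) :=
          Finset.sum_le_sum e2
      _ = (((range T).filter (fun t => ¬ Win E η l₂.R (xt t))).card : ℝ) * (4 / T) := by
          rw [← Finset.sum_filter, Finset.sum_const, nsmul_eq_mul]
      _ ≤ (T * (4 * l₂.R / l₁.R + 8 * η + 8 / T)) * (4 / T) := by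
          refine mul_le_mul_of_nonneg_right ?_ (by positivity)
          convert hcard using 3
      _ = 4 * (4 * l₂.R / l₁.R + 8 * η + 8 / T) := by
          field_simp
      _ ≤ 4 * κ := by linarith
  have a5 := hb1 x hx
  have hβ : 0 ≤ β := (norm_nonneg _).trans a5
  have a6 : ‖(D : ℂ) * op T ct p l₁ (ex n) x‖ ≤ β := by
    rw [norm_mul, Complex.norm_real, Real.norm_eq_abs]
    calc |D| * ‖op T ct p l₁ (ex n) x‖ ≤ 1 * β := mul_le_mul hD a5 (norm_nonneg _) (by norm_num)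
      _ = β := one_mul β
  rw [e0]
  calc ‖op T ct p l₁ (op T ct p l₂ g) x‖
      = ‖(op T ct p l₁ (op T ct p l₂ g) x - op T ct p l₁ (fun y => (D : ℂ) * ex n (ct l₂.R y)) x) +
          ((op T ct p l₁ (fun y => (D : ℂ) * ex n (ct l₂.R y)) x - (D : ℂ) * op T ct p l₁ (ex n) x) +
          (D : ℂ) * op T ct p l₁ (ex n) x)‖ := by congr 1; ring
    _ ≤ _ := norm_add_le _ _
    _ ≤ 2 * β + (4 * κ + β) := add_le_add a3 ((norm_add_le _ _).trans (add_le_add a4 a6))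
    _ = 3 * β + 4 * κ := by ring

/-- choice of constants -/
theorem consts (q : ℝ) (hq : 1 < q) : ∃ (s L T : ℕ) (η : ℝ), 1 ≤ s ∧ 1 ≤ L ∧ 1 ≤ T ∧ 0 < η ∧ η ≤ 1 ∧
    2 ≤ q ^ s ∧ q / ((q - 1) * L) ≤ 1 / (200 * s) ∧
    6 * Real.pi * q * (L + 1) / q ^ s ≤ 1 / (200 * s) ∧
    Real.pi * q ^ s * (L + 1) * η ≤ 1 / (200 * s) ∧
    8 / q ^ s + 8 * η + 8 / T ≤ 1 / (200 * s) ∧
    4 * q ^ s * (L + 1) ≤ T ∧ 2 * (L * q + 2) < T := by
  have hq0 : 0 < q := by linarith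
  have hq1 : 0 < q - 1 := by linarith
  have hpi := Real.pi_gt_three
  obtain ⟨A, hA⟩ := exists_nat_ge (200 * q / (q - 1))
  have hApos : (0 : ℝ) < A := lt_of_lt_of_le (by positivity) hA
  have hA1 : 1 ≤ A := by
    have : 0 < A := by exact_mod_cast hApos
    exact this
  have hA1r : (1 : ℝ) ≤ A := by exact_mod_cast hA1
  have hc : 0 < 1 / (4800 * Real.pi * q * (A + 1)) := by positivity
  have hev := (tendsto_pow_const_div_const_pow_of_one_lt 2 hq).eventually_lt_const hc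
  obtain ⟨s, hs1, hs⟩ := (hev.and (Filter.eventually_ge_atTop 1)).exists
  have hs1r : (1 : ℝ) ≤ s := by exact_mod_cast hs
  have hqs : 0 < q ^ s := by positivity
  rw [div_lt_div_iff₀ hqs (by positivity), one_mul] at hs1
  have hmain : 4800 * Real.pi * q * (A + 1) * (s : ℝ) ^ 2 ≤ q ^ s := by linarith
  have hs2 : (s : ℝ) ≤ (s : ℝ) ^ 2 := by nlinarith
  have hs3 : (1 : ℝ) ≤ (s : ℝ) ^ 2 := by linarith
  have h2 : (1 : ℝ) ≤ Real.pi * q := by nlinarith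
  have h3 : (1 : ℝ) ≤ Real.pi * q * (A + 1) := by nlinarith
  have h4 : (s : ℝ) ^ 2 ≤ Real.pi * q * (A + 1) * (s : ℝ) ^ 2 := le_mul_of_one_le_left (by positivity) h3
  have hmain2 : 4800 * (s : ℝ) ≤ q ^ s := by
    have e : 4800 * Real.pi * q * (A + 1) * (s : ℝ) ^ 2 =
      4800 * (Real.pi * q * (A + 1) * (s : ℝ) ^ 2) := by ring
    rw [e] at hmain
    linarith
  have hq2 : 2 ≤ q ^ s := by linarith
  have hLr : ((A * s : ℕ) : ℝ) + 1 ≤ (A + 1) * s := by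
    push_cast
    nlinarith
  have hL0 : (0 : ℝ) < ((A * s : ℕ) : ℝ) := by
    push_cast
    positivity
  obtain ⟨L, hL⟩ : ∃ L : ℕ, L = A * s := ⟨_, rfl⟩
  rw [← hL] at hLr hL0
  have hLe : (L : ℝ) = A * s := by rw [hL]; push_cast; rfl
  obtain ⟨T, hT⟩ := exists_nat_ge (4 * q ^ s * (L + 1) + 4800 * s +
    2 * (L * q + 2) + 1)
  have t1 : 0 ≤ 4 * q ^ s * ((L : ℝ) + 1) := by positivity
  have t3 : 0 ≤ 2 * ((L : ℝ) * q + 2) := by positivity
  have hTpos : (0 : ℝ) < T := by linarith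
  have h5 : (1 : ℝ) ≤ Real.pi * q ^ s := by nlinarith
  have h6 : (1 : ℝ) ≤ Real.pi * q ^ s * (L + 1) := by nlinarith
  have h7 : (0 : ℝ) < Real.pi * q ^ s * (L + 1) := by linarith
  have hs0 : (0 : ℝ) < s := by linarith
  refine ⟨s, L, T, 1 / (4800 * s * (Real.pi * q ^ s * (L + 1))), hs, ?_, ?_, by positivity, ?_,
    hq2, ?_, ?_, ?_, ?_, by linarith, by linarith⟩
  · have : 0 < L := by exact_mod_cast hL0
    exact this
  · have : (1 : ℝ) ≤ T := by linarith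
    exact_mod_cast this
  · rw [div_le_one (by positivity)]
    nlinarith
  · rw [div_le_div_iff₀ (by positivity) (by positivity), one_mul, hLe]
    rw [div_le_iff₀ hq1] at hA
    have : 200 * q * s ≤ A * (q - 1) * s := mul_le_mul_of_nonneg_right hA (by positivity)
    linarith
  · rw [div_le_div_iff₀ hqs (by positivity), one_mul]
    calc 6 * Real.pi * q * (L + 1) * (200 * s) ≤ 6 * Real.pi * q * ((A + 1) * s) * (200 * s) := by
          gcongr
      _ = 1200 * Real.pi * q * (A + 1) * (s : ℝ) ^ 2 := by ring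
      _ ≤ 4800 * Real.pi * q * (A + 1) * (s : ℝ) ^ 2 := by
          have : 0 ≤ Real.pi * q * (A + 1) * (s : ℝ) ^ 2 := by positivity
          nlinarith
      _ ≤ q ^ s := hmain
  · have e : Real.pi * q ^ s * (L + 1) * (1 / (4800 * s * (Real.pi * q ^ s * (L + 1)))) =
        1 / (4800 * s) := by
      field_simp
    rw [e]
    apply one_div_le_one_div_of_le (by positivity)
    linarith
  · have a1 : 8 / q ^ s ≤ 1 / (600 * s) := by
      rw [div_le_div_iff₀ hqs (by positivity)]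
      linarith
    have a2 : 8 * (1 / (4800 * s * (Real.pi * q ^ s * (L + 1)))) ≤ 1 / (600 * s) := by
      rw [← mul_div_assoc, div_le_div_iff₀ (by positivity) (by positivity)]
      have : 4800 * (s : ℝ) * 1 ≤ 4800 * s * (Real.pi * q ^ s * (L + 1)) :=
        mul_le_mul_of_nonneg_left h6 (by positivity)
      linarith
    have a3 : 8 / (T : ℝ) ≤ 1 / (600 * s) := by
      rw [div_le_div_iff₀ hTpos (by positivity)]
      linarith
    have a4 : 1 / (200 * (s : ℝ)) = 1 / (600 * s) + 1 / (600 * s) + 1 / (600 * s) := by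
      field_simp
      norm_num
    rw [a4]
    linarith

/-- the parameters -/
structure Par (q θ : ℝ) (s L T : ℕ) (η' η r₀ Λ₀ : ℝ) : Prop where
  hq : 1 < q
  hs : 1 ≤ s
  hL : 1 ≤ L
  hT : 1 ≤ T
  hη : 0 < η
  hη1 : η ≤ 1
  hη' : η' * (2 * q ^ s) = η
  h2 : 2 ≤ q ^ s
  a1 : q / ((q - 1) * L) ≤ θ
  a2 : 6 * Real.pi * q * (L + 1) / q ^ s ≤ θ
  a3 : Real.pi * q ^ s * (L + 1) * η ≤ θ
  a4 : 8 / q ^ s + 8 * η + 8 / T ≤ θ
  a5 : 4 * q ^ s * (L + 1) ≤ T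
  a6 : 2 * (L * q + 2) < T
  hΛ : 0 < Λ₀
  hr : Real.pi * (L + 1) ≤ r₀ * Λ₀

open Classical in
/-- the level of the scale `Λ` for the coefficients `c` -/
noncomputable def lvl (q : ℝ) (L : ℕ) (c : ℕ → ℂ) (Λ : ℝ) : Lev :=
  if h : ∃ n : ℕ, c n ≠ 0 ∧ Λ ≤ (n : ℝ) ∧ (n : ℝ) < q * Λ then
    ⟨Real.pi * (⌈(L : ℝ) * (h.choose : ℝ) / Λ⌉₊ : ℝ) / (h.choose : ℝ), 1, (h.choose : ℝ),
      Complex.arg (c h.choose)⟩
  else ⟨Real.pi * L / Λ, 0, 0, 0⟩

/-- the levels number `a, …, a + k - 1` -/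
noncomputable def lvs (q : ℝ) (s L : ℕ) (c : ℕ → ℂ) (Λ₀ : ℝ) (a k : ℕ) : List Lev :=
  (List.range' a k).map (fun j => lvl q L c (Λ₀ * (q ^ s) ^ j))

theorem lvl_R (q : ℝ) (hq : 1 < q) (L : ℕ) (hL : 1 ≤ L) (c : ℕ → ℂ) (Λ : ℝ) (hΛ : 0 < Λ) :
    Real.pi * L / Λ ≤ (lvl q L c Λ).R ∧ (lvl q L c Λ).R ≤ Real.pi * (L + 1) / Λ := by
  have hpi := Real.pi_pos
  unfold lvl
  split_ifs with h
  · have hs := h.choose_spec
    set n := h.choose with hn
    obtain ⟨-, h1, -⟩ := hs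
    have hn0 : (0 : ℝ) < (n : ℝ) := lt_of_lt_of_le hΛ h1
    have hx0 : (0 : ℝ) ≤ (L : ℝ) * (n : ℝ) / Λ := by positivity
    have hc1 : (L : ℝ) * (n : ℝ) / Λ ≤ ((⌈(L : ℝ) * (n : ℝ) / Λ⌉₊ : ℕ) : ℝ) := Nat.le_ceil _
    have hc2 : ((⌈(L : ℝ) * (n : ℝ) / Λ⌉₊ : ℕ) : ℝ) < (L : ℝ) * (n : ℝ) / Λ + 1 :=
      Nat.ceil_lt_add_one hx0
    set k : ℝ := ((⌈(L : ℝ) * (n : ℝ) / Λ⌉₊ : ℕ) : ℝ) with hk
    have e1 : (L : ℝ) * (n : ℝ) ≤ k * Λ := by
      rw [div_le_iff₀ hΛ] at hc1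
      exact hc1
    have e2 : k * Λ ≤ (L : ℝ) * (n : ℝ) + Λ := by
      have : k * Λ ≤ ((L : ℝ) * (n : ℝ) / Λ + 1) * Λ :=
        mul_le_mul_of_nonneg_right hc2.le hΛ.le
      have h3 : ((L : ℝ) * (n : ℝ) / Λ + 1) * Λ = (L : ℝ) * (n : ℝ) + Λ := by
        field_simp
      linarith
    constructor
    · show Real.pi * L / Λ ≤ Real.pi * k / (n : ℝ)
      rw [div_le_div_iff₀ hΛ hn0]
      have := mul_le_mul_of_nonneg_left e1 hpi.le
      nlinarith [this]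
    · show Real.pi * k / (n : ℝ) ≤ Real.pi * (L + 1) / Λ
      rw [div_le_div_iff₀ hn0 hΛ]
      have h4 : k * Λ ≤ ((L : ℝ) + 1) * (n : ℝ) := by nlinarith
      have := mul_le_mul_of_nonneg_left h4 hpi.le
      nlinarith [this]
  · constructor
    · show Real.pi * L / Λ ≤ Real.pi * L / Λ
      exact le_rfl
    · show Real.pi * L / Λ ≤ Real.pi * (L + 1) / Λ
      apply div_le_div_of_nonneg_right _ hΛ.le
      nlinarith

theorem lvl_n (q : ℝ) (hq : 1 < q) (L : ℕ) (hL : 1 ≤ L) (c : ℕ → ℂ) (hc : Lac q (Function.support c))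
    (Λ : ℝ) (hΛ : 0 < Λ) (n : ℕ) (hn : c n ≠ 0) (h1 : Λ ≤ (n : ℝ)) (h2 : (n : ℝ) < q * Λ) :
    (lvl q L c Λ).ε = 1 ∧ (lvl q L c Λ).n = (n : ℝ) ∧ (lvl q L c Λ).φ = Complex.arg (c n) := by
  have h : ∃ n : ℕ, c n ≠ 0 ∧ Λ ≤ (n : ℝ) ∧ (n : ℝ) < q * Λ := ⟨n, hn, h1, h2⟩
  have hspec := h.choose_spec
  have heq : h.choose = n := by
    obtain ⟨g0, g1, g2⟩ := hspec
    have hq0 : 0 < q := by linarith
    rcases lt_trichotomy h.choose n with hlt | he | hgt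
    · have := hc h.choose (Function.mem_support.mpr g0) n (Function.mem_support.mpr hn) hlt
      have h3 : q * Λ ≤ q * (h.choose : ℝ) := mul_le_mul_of_nonneg_left g1 hq0.le
      linarith
    · exact he
    · have := hc n (Function.mem_support.mpr hn) h.choose (Function.mem_support.mpr g0) hgt
      have h3 : q * Λ ≤ q * (n : ℝ) := mul_le_mul_of_nonneg_left h1 hq0.le
      linarith
  unfold lvl
  rw [dif_pos h]
  refine ⟨rfl, ?_, ?_⟩
  · simp only [heq]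
  · simp only [heq]

theorem lvl_cases (q : ℝ) (L : ℕ) (c : ℕ → ℂ) (Λ : ℝ) :
    ((lvl q L c Λ).ε = 0) ∨ ((lvl q L c Λ).ε = 1 ∧
      ∃ n : ℕ, (lvl q L c Λ).n = (n : ℝ) ∧ c n ≠ 0 ∧ Λ ≤ (n : ℝ) ∧ (n : ℝ) < q * Λ) := by
  classical
  by_cases h : ∃ n : ℕ, c n ≠ 0 ∧ Λ ≤ (n : ℝ) ∧ (n : ℝ) < q * Λ
  · right
    have e : lvl q L c Λ =
        ⟨Real.pi * (⌈(L : ℝ) * (h.choose : ℝ) / Λ⌉₊ : ℝ) / (h.choose : ℝ), 1, (h.choose : ℝ),
          Complex.arg (c h.choose)⟩ := by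
      unfold lvl
      rw [dif_pos h]
    refine ⟨by rw [e], h.choose, by rw [e], h.choose_spec.1, h.choose_spec.2.1,
      h.choose_spec.2.2⟩
  · left
    have e : lvl q L c Λ = ⟨Real.pi * L / Λ, 0, 0, 0⟩ := by
      unfold lvl
      rw [dif_neg h]
    rw [e]

theorem lvl_ok (q : ℝ) (hq : 1 < q) (L T : ℕ) (hL : 1 ≤ L) (hT : 2 * ((L : ℝ) * q + 2) < T) (r₀ : ℝ)
    (c : ℕ → ℂ) (Λ : ℝ) (hΛ : 0 < Λ) (hr : Real.pi * (L + 1) ≤ r₀ * Λ) : LevOK T r₀ (lvl q L c Λ) := by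
  have hR := lvl_R q hq L hL c Λ hΛ
  have hpi := Real.pi_pos
  have hLpos : (0:ℝ) < L := by exact_mod_cast hL
  refine ⟨lt_of_lt_of_le (by positivity) hR.1, hR.2.trans ?_, ?_⟩
  · rw [div_le_iff₀ hΛ]
    exact hr
  · by_cases h : ∃ n : ℕ, c n ≠ 0 ∧ Λ ≤ (n : ℝ) ∧ (n : ℝ) < q * Λ
    · right
      obtain ⟨h1, h2, h3⟩ := h.choose_spec
      have hn : (0:ℝ) < (h.choose : ℝ) := lt_of_lt_of_le hΛ h2
      have hx : (0:ℝ) < (L : ℝ) * (h.choose : ℝ) / Λ := by positivity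
      have hx2 : (L : ℝ) * (h.choose : ℝ) / Λ ≤ L * q := by
        rw [div_le_iff₀ hΛ]
        nlinarith
      unfold lvl
      rw [dif_pos h]
      refine ⟨rfl, hn, ⌈(L : ℝ) * (h.choose : ℝ) / Λ⌉₊, Nat.ceil_pos.mpr hx, ?_, ?_⟩
      · have h4 := Nat.ceil_lt_add_one hx.le
        have h5 : ((2 * ⌈(L : ℝ) * (h.choose : ℝ) / Λ⌉₊ : ℕ) : ℝ) < (T : ℝ) := by
          push_cast
          linarith
        exact_mod_cast h5
      · show (h.choose : ℝ) * (Real.pi * (⌈(L : ℝ) * (h.choose : ℝ) / Λ⌉₊ : ℝ) / (h.choose : ℝ)) = _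
        exact mul_div_cancel₀ _ hn.ne'
    · left
      unfold lvl
      rw [dif_neg h]

theorem lvs_ok (q θ : ℝ) (s L T : ℕ) (η' η r₀ Λ₀ : ℝ) (P : Par q θ s L T η' η r₀ Λ₀) (c : ℕ → ℂ)
    (a k : ℕ) : ∀ l ∈ lvs q s L c Λ₀ a k, LevOK T r₀ l := by
  intro l hl
  unfold lvs at hl
  rw [List.mem_map] at hl
  obtain ⟨j, -, rfl⟩ := hl
  have hqs : (1 : ℝ) ≤ q ^ s := one_le_pow₀ P.hq.le
  have hpow : (1 : ℝ) ≤ (q ^ s) ^ j := one_le_pow₀ hqs
  have hpi := Real.pi_pos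
  have hpos : 0 < Real.pi * ((L : ℝ) + 1) := by positivity
  have hr0 : 0 < r₀ := by
    by_contra h
    have h1 : r₀ ≤ 0 := not_lt.1 h
    have h2 : r₀ * Λ₀ ≤ 0 := mul_nonpos_of_nonpos_of_nonneg h1 P.hΛ.le
    have := P.hr
    linarith
  refine lvl_ok q P.hq L T P.hL P.a6 r₀ c _ (mul_pos P.hΛ (by linarith)) ?_
  refine P.hr.trans (mul_le_mul_of_nonneg_left ?_ hr0.le)
  calc Λ₀ = Λ₀ * 1 := (mul_one _).symm
    _ ≤ Λ₀ * (q ^ s) ^ j := mul_le_mul_of_nonneg_left hpow P.hΛ.le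

/-- the radii of two consecutive levels -/
theorem ratio (q θ : ℝ) (s L T : ℕ) (η' η r₀ Λ₀ : ℝ) (P : Par q θ s L T η' η r₀ Λ₀) (c : ℕ → ℂ) (j : ℕ) :
    (lvl q L c (Λ₀ * (q ^ s) ^ (j + 1))).R ≤ (lvl q L c (Λ₀ * (q ^ s) ^ j)).R ∧
    η' * (lvl q L c (Λ₀ * (q ^ s) ^ j)).R ≤ η * (lvl q L c (Λ₀ * (q ^ s) ^ (j + 1))).R ∧
    4 * (lvl q L c (Λ₀ * (q ^ s) ^ (j + 1))).R / (lvl q L c (Λ₀ * (q ^ s) ^ j)).R + 8 * η + 8 / T ≤ θ := by
  have hQ : 2 ≤ q ^ s := P.h2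
  have hQ0 : 0 < q ^ s := by linarith
  have hL : (1 : ℝ) ≤ (L : ℝ) := by exact_mod_cast P.hL
  have hΛ : 0 < Λ₀ * (q ^ s) ^ j := mul_pos P.hΛ (pow_pos hQ0 j)
  have hΛ' : 0 < Λ₀ * (q ^ s) ^ (j + 1) := mul_pos P.hΛ (pow_pos hQ0 _)
  obtain ⟨l1, u1⟩ := lvl_R q P.hq L P.hL c _ hΛ
  obtain ⟨l2, u2⟩ := lvl_R q P.hq L P.hL c _ hΛ'
  have hLL : Λ₀ * (q ^ s) ^ (j + 1) = Λ₀ * (q ^ s) ^ j * q ^ s := by ring
  rw [hLL] at l2 u2 hΛ' ⊢
  generalize Λ₀ * (q ^ s) ^ j = Λ at *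
  generalize hR' : (lvl q L c (Λ * q ^ s)).R = R' at *
  generalize hR : (lvl q L c Λ).R = R at *
  have h2 := P.hη'
  have h4 := P.a4
  have hη := P.hη
  generalize q ^ s = Q at *
  have hpi := Real.pi_pos
  have hX : 0 < Real.pi * L / Λ := by positivity
  have hR0 : 0 < R := lt_of_lt_of_le hX l1
  have k1 : R' ≤ (2 / Q) * (Real.pi * L / Λ) := by
    refine u2.trans ?_
    rw [show (2 / Q) * (Real.pi * L / Λ) = Real.pi * (2 * L) / (Λ * Q) by field_simp]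
    gcongr
    linarith
  have k2 : R ≤ 2 * Q * R' := by
    have : R ≤ 2 * Q * (Real.pi * L / (Λ * Q)) := by
      refine u1.trans ?_
      rw [show 2 * Q * (Real.pi * L / (Λ * Q)) = Real.pi * (2 * L) / Λ by field_simp]
      gcongr
      linarith
    refine this.trans ?_
    gcongr
  have k3 : R' ≤ (2 / Q) * R := k1.trans (by gcongr)
  have hη' : 0 < η' := by
    by_contra hn
    have : η' * (2 * Q) ≤ 0 := mul_nonpos_of_nonpos_of_nonneg (not_lt.1 hn) (by linarith)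
    linarith
  refine ⟨?_, ?_, ?_⟩
  · refine k3.trans ?_
    have : 2 / Q ≤ 1 := by rw [div_le_one hQ0]; exact hQ
    nlinarith
  · rw [← h2]
    calc η' * R ≤ η' * (2 * Q * R') := by gcongr
      _ = η' * (2 * Q) * R' := by ring
  · have k4 : 4 * R' / R ≤ 8 / Q := by
      rw [div_le_iff₀ hR0]
      calc 4 * R' ≤ 4 * ((2 / Q) * R) := by gcongr
        _ = 8 / Q * R := by ring
    linarith

theorem rest_small (q θ : ℝ) (s L T : ℕ) (η' η r₀ Λ₀ : ℝ) (P : Par q θ s L T η' η r₀ Λ₀) (c : ℕ → ℂ)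
    (n : ℝ) (hn : 0 ≤ n) (a k : ℕ) :
    ((lvs q s L c Λ₀ a k).map (fun l => 3 * n * l.R)).sum ≤
      6 * n * Real.pi * (L + 1) / (Λ₀ * (q ^ s) ^ a) := by
  have hΛ := P.hΛ
  have hQ2 := P.h2
  have hQ : 0 < q ^ s := by linarith
  have hpi := Real.pi_pos
  induction k generalizing a with
  | zero =>
    simp only [lvs, List.range'_zero, List.map_nil, List.sum_nil]
    positivity
  | succ k ih =>
    have h1 : lvs q s L c Λ₀ a (k + 1) =
        lvl q L c (Λ₀ * (q ^ s) ^ a) :: lvs q s L c Λ₀ (a + 1) k := by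
      simp only [lvs, List.range'_succ, List.map_cons]
    rw [h1, List.map_cons, List.sum_cons]
    have h2 := ih (a + 1)
    have h3 := (lvl_R q P.hq L P.hL c (Λ₀ * (q ^ s) ^ a) (by positivity)).2
    set X := n * Real.pi * (L + 1) / (Λ₀ * (q ^ s) ^ a) with hX
    have hX0 : 0 ≤ X := by positivity
    have h4 : 3 * n * (lvl q L c (Λ₀ * (q ^ s) ^ a)).R ≤ 3 * X := by
      have := mul_le_mul_of_nonneg_left h3 (show 0 ≤ 3 * n by positivity)
      calc 3 * n * (lvl q L c (Λ₀ * (q ^ s) ^ a)).R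
          ≤ 3 * n * (Real.pi * (L + 1) / (Λ₀ * (q ^ s) ^ a)) := this
        _ = 3 * X := by rw [hX]; ring
    have h5 : 6 * n * Real.pi * (L + 1) / (Λ₀ * (q ^ s) ^ (a + 1)) ≤ 3 * X := by
      have e1 : 6 * n * Real.pi * (L + 1) / (Λ₀ * (q ^ s) ^ (a + 1)) = 6 * X / q ^ s := by
        rw [hX, pow_succ]
        field_simp
      rw [e1, div_le_iff₀ hQ]
      nlinarith
    have h6 : 6 * n * Real.pi * (L + 1) / (Λ₀ * (q ^ s) ^ a) = 6 * X := by
      rw [hX]; ring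
    rw [h6]
    linarith

theorem hb2_D (q θ : ℝ) (L T : ℕ) (hq : 1 < q) (hL : 1 ≤ L) (hT : 1 ≤ T)
    (a1 : q / ((q - 1) * L) ≤ θ) (y : ℝ) (hy : (1 - 1 / q) * (Real.pi * L) ≤ |y|)
    (hyT : |y| ≤ Real.pi * T / 2) : |Dk T y| ≤ θ / 2 := by
  have hL' : (0 : ℝ) < L := by exact_mod_cast hL
  have hq0 : 0 < q := by linarith
  have hq1 : 0 < q - 1 := by linarith
  have hpi := Real.pi_pos
  have hm : 0 < (1 - 1 / q) * (Real.pi * L) := by
    have : 0 < 1 - 1 / q := by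
      rw [sub_pos, div_lt_one hq0]
      exact hq
    positivity
  have hy0 : 0 < |y| := lt_of_lt_of_le hm hy
  have h1 := Dk_le T hT y (abs_pos.1 hy0) hyT
  have h2 : Real.pi / (2 * |y|) ≤ Real.pi / (2 * ((1 - 1 / q) * (Real.pi * L))) := by
    gcongr
  have h3 : Real.pi / (2 * ((1 - 1 / q) * (Real.pi * L))) = q / ((q - 1) * L) / 2 := by
    have : q - 1 ≠ 0 := hq1.ne'
    field_simp
  linarith

/-- a level acting on a lower frequency -/
theorem hb2 (q θ : ℝ) (s L T : ℕ) (η' η r₀ Λ₀ : ℝ) (P : Par q θ s L T η' η r₀ Λ₀) (c : ℕ → ℂ)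
    (hc : Lac q (Function.support c)) (E : Set ℝ) (ct p : ℝ → ℝ → ℝ) (hp : Sel E η r₀ ct p) (j : ℕ)
    (n : ℕ) (hn : c n ≠ 0) (h1 : (n : ℝ) < Λ₀ * (q ^ s) ^ j) (x : ℝ) (hx : x ∈ E) :
    ‖op T ct p (lvl q L c (Λ₀ * (q ^ s) ^ j)) (ex n) x -
      (Dk T (n * (lvl q L c (Λ₀ * (q ^ s) ^ j)).R) : ℂ) *
        ex n (ct (lvl q L c (Λ₀ * (q ^ s) ^ j)).R x)‖ ≤ 2 * θ := by
  obtain ⟨hq, hs, hL, hT, hη, hη1, hη', h2, a1, a2, a3, a4, a5, a6, hΛ0, hr⟩ := P
  obtain ⟨Λ, hΛdef⟩ : ∃ Λ, Λ = Λ₀ * (q ^ s) ^ j := ⟨_, rfl⟩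
  rw [← hΛdef] at h1 ⊢
  have hpi := Real.pi_pos
  have hq0 : 0 < q := by linarith
  have hL' : (0 : ℝ) < L := by exact_mod_cast hL
  have hQ1 : 1 ≤ q ^ s := by linarith
  have hQq : q ≤ q ^ s := by
    calc q = q ^ 1 := (pow_one q).symm
      _ ≤ q ^ s := pow_le_pow_right₀ hq.le hs
  have hΛle : Λ₀ ≤ Λ := by
    rw [hΛdef]
    exact le_mul_of_one_le_right hΛ0.le (one_le_pow₀ hQ1)
  have hΛ : 0 < Λ := lt_of_lt_of_le hΛ0 hΛle
  have hr0 : 0 < r₀ := by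
    have h3 : 0 < r₀ * Λ₀ := lt_of_lt_of_le (by positivity) hr
    exact (pos_iff_pos_of_mul_pos h3).2 hΛ0
  have hr' : Real.pi * (L + 1) ≤ r₀ * Λ := hr.trans (mul_le_mul_of_nonneg_left hΛle hr0.le)
  have hok := lvl_ok q hq L T hL a6 r₀ c Λ hΛ hr'
  obtain ⟨hR1, hR2⟩ := lvl_R q hq L hL c Λ hΛ
  have hop := op_other T hT E η r₀ ct p hp _ hok n (Nat.cast_nonneg n) x hx
  refine hop.trans ?_
  obtain ⟨R, hRdef⟩ : ∃ R, R = (lvl q L c Λ).R := ⟨_, rfl⟩
  rw [← hRdef] at hR1 hR2 ⊢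
  have hR0 : 0 < R := lt_of_lt_of_le (by positivity) hR1
  have hRΛ : R * Λ ≤ Real.pi * (L + 1) := by
    rwa [le_div_iff₀ hΛ] at hR2
  have hRΛ' : Real.pi * L ≤ R * Λ := by
    rwa [div_le_iff₀ hΛ] at hR1
  have hθ1 : Real.pi * (L + 1) * η ≤ θ := by
    have h3 : Real.pi * (L + 1) * η ≤ Real.pi * q ^ s * (L + 1) * η := by
      have h4 : 0 ≤ Real.pi * (L + 1) * η := by positivity
      nlinarith
    linarith
  have hnR : (n : ℝ) * η * R ≤ θ := by
    have h3 : (n : ℝ) * η * R ≤ Λ * η * R := by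
      gcongr
    have h4 : Λ * η * R = (R * Λ) * η := by ring
    have h5 : (R * Λ) * η ≤ Real.pi * (L + 1) * η := by gcongr
    linarith
  have hθ0 : 0 ≤ θ := le_trans (by positivity) hθ1
  rcases lvl_cases q L c Λ with h0 | ⟨he, n2, hn2, hc2, hΛn, hnq⟩
  · rw [h0]
    linarith
  · rw [he, hn2]
    have hlt : n < n2 := by
      have : (n : ℝ) < n2 := lt_of_lt_of_le h1 hΛn
      exact_mod_cast this
    have hlac := hc n (Function.mem_support.2 hn) n2 (Function.mem_support.2 hc2) hlt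
    have hn2pos : (0 : ℝ) < n2 := lt_of_lt_of_le hΛ hΛn
    have hn0 : (0 : ℝ) ≤ n := Nat.cast_nonneg n
    have hT5 : q * (Real.pi * (L + 1)) ≤ Real.pi * T / 4 := by
      have h3 : q * (Real.pi * (L + 1)) ≤ q ^ s * (Real.pi * (L + 1)) := by gcongr
      have h4 : Real.pi * (4 * q ^ s * (L + 1)) ≤ Real.pi * T := by gcongr
      nlinarith
    have hn2R : (n2 : ℝ) * R ≤ q * (Real.pi * (L + 1)) := by
      calc (n2 : ℝ) * R ≤ (q * Λ) * R := by gcongr
        _ = q * (R * Λ) := by ring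
        _ ≤ _ := by gcongr
    have hn2R' : Real.pi * L ≤ (n2 : ℝ) * R := by
      calc Real.pi * L ≤ R * Λ := hRΛ'
        _ ≤ R * n2 := by gcongr
        _ = _ := by ring
    have hinv : 0 < 1 - 1 / q := by
      rw [sub_pos, div_lt_one hq0]
      exact hq
    have hinv1 : 1 - 1 / q ≤ 1 := by
      have : 0 ≤ 1 / q := by positivity
      linarith
    have hnn2 : (n : ℝ) ≤ n2 / q := by
      rw [le_div_iff₀ hq0]
      linarith
    have hD1 : |Dk T ((n + n2) * R)| ≤ θ / 2 := by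
      apply hb2_D q θ L T hq hL hT a1
      · rw [abs_of_nonneg (by positivity)]
        calc (1 - 1 / q) * (Real.pi * L) ≤ 1 * (Real.pi * L) := by gcongr
          _ ≤ n2 * R := by rw [one_mul]; exact hn2R'
          _ ≤ (n + n2) * R := by
            have : 0 ≤ (n : ℝ) * R := by positivity
            linarith
      · rw [abs_of_nonneg (by positivity)]
        have h3 : (n : ℝ) * R ≤ n2 * R := by
          have : (n : ℝ) ≤ n2 := by exact_mod_cast hlt.le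
          gcongr
        have h4 : ((n : ℝ) + n2) * R = n * R + n2 * R := by ring
        linarith
    have hD2 : |Dk T ((n - n2) * R)| ≤ θ / 2 := by
      have habs : |((n : ℝ) - n2) * R| = (n2 - n) * R := by
        have h3 : ((n : ℝ) - n2) * R = -((n2 - n) * R) := by ring
        rw [h3, abs_neg, abs_of_nonneg]
        have : (n : ℝ) ≤ n2 := by exact_mod_cast hlt.le
        exact mul_nonneg (by linarith) hR0.le
      apply hb2_D q θ L T hq hL hT a1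
      · rw [habs]
        calc (1 - 1 / q) * (Real.pi * L) ≤ (1 - 1 / q) * (n2 * R) := by gcongr
          _ = (n2 - n2 / q) * R := by ring
          _ ≤ (n2 - n) * R := by gcongr
      · rw [habs]
        have h3 : ((n2 : ℝ) - n) * R ≤ n2 * R := by
          have : 0 ≤ (n : ℝ) * R := by positivity
          linarith
        have h5 : 0 ≤ Real.pi * T := by positivity
        linarith
    linarith

/-- a level acting on a higher frequency -/
theorem hb1 (q θ : ℝ) (s L T : ℕ) (η' η r₀ Λ₀ : ℝ) (P : Par q θ s L T η' η r₀ Λ₀) (c : ℕ → ℂ)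
    (hc : Lac q (Function.support c)) (E : Set ℝ) (ct p : ℝ → ℝ → ℝ) (hp : Sel E η r₀ ct p) (j : ℕ)
    (n : ℕ) (hn : c n ≠ 0) (h1 : q * (Λ₀ * (q ^ s) ^ j) ≤ (n : ℝ)) (h2 : (n : ℝ) < Λ₀ * (q ^ s) ^ (j + 1))
    (x : ℝ) (hx : x ∈ E) :
    ‖op T ct p (lvl q L c (Λ₀ * (q ^ s) ^ j)) (ex n) x‖ ≤ 2 * θ := by
  obtain ⟨hq, hs, hL, hT, hη, hη1, hη', hQ2, a1, a2, a3, a4, a5, a6, hΛ0, hr⟩ := P
  have hπ := Real.pi_pos
  have hL1 : (1 : ℝ) ≤ (L : ℝ) := by exact_mod_cast hL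
  have hL0 : (0 : ℝ) < (L : ℝ) := by linarith
  have hq0 : (0 : ℝ) < q := by linarith
  have hq1 : (0 : ℝ) < q - 1 := by linarith
  have hQ0 : (0 : ℝ) < q ^ s := by positivity
  set Λ : ℝ := Λ₀ * (q ^ s) ^ j with hΛdef
  have hΛ : 0 < Λ := by positivity
  have hn2 : (n : ℝ) < Λ * q ^ s := by
    have : Λ₀ * (q ^ s) ^ (j + 1) = Λ * q ^ s := by rw [hΛdef, pow_succ]; ring
    rwa [this] at h2
  have hr₀ : 0 < r₀ := by
    have h3 : 0 < r₀ * Λ₀ := lt_of_lt_of_le (by positivity) hr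
    exact (pos_iff_pos_of_mul_pos h3).mpr hΛ0
  have hΛ0Λ : Λ₀ ≤ Λ := by
    have h3 : (1 : ℝ) ≤ (q ^ s) ^ j := one_le_pow₀ (by linarith)
    calc Λ₀ = Λ₀ * 1 := (mul_one _).symm
      _ ≤ Λ := mul_le_mul_of_nonneg_left h3 hΛ0.le
  have hrΛ : Real.pi * (L + 1) ≤ r₀ * Λ := hr.trans (mul_le_mul_of_nonneg_left hΛ0Λ hr₀.le)
  have hOK : LevOK T r₀ (lvl q L c Λ) := lvl_ok q hq L T hL a6 r₀ c Λ hΛ hrΛ
  obtain ⟨hR1, hR2⟩ := lvl_R q hq L hL c Λ hΛ
  have hcases := lvl_cases q L c Λ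
  set l := lvl q L c Λ with hl
  have hR0 : 0 < l.R := hOK.1
  have hn0 : (0 : ℝ) < (n : ℝ) := lt_of_lt_of_le (by positivity) h1
  -- bounds for n R
  have hnR1 : q * Real.pi * L ≤ (n : ℝ) * l.R := by
    calc q * Real.pi * L = (q * Λ) * (Real.pi * L / Λ) := by field_simp
      _ ≤ (n : ℝ) * l.R := mul_le_mul h1 hR1 (by positivity) hn0.le
  have hnR2 : (n : ℝ) * l.R ≤ Real.pi * q ^ s * (L + 1) := by
    calc (n : ℝ) * l.R ≤ (Λ * q ^ s) * (Real.pi * (L + 1) / Λ) :=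
          mul_le_mul hn2.le hR2 hR0.le (by positivity)
      _ = Real.pi * q ^ s * (L + 1) := by field_simp
  have hT4 : 2 * (Real.pi * q ^ s * (L + 1)) ≤ Real.pi * T / 2 := by
    have := mul_le_mul_of_nonneg_left a5 hπ.le
    linarith
  have hbig : 0 ≤ Real.pi * q ^ s * (L + 1) := by positivity
  have hθ0 : 0 < θ := lt_of_lt_of_le (by positivity) a1
  have hDk : ∀ y a : ℝ, 0 < a → a ≤ y → y ≤ Real.pi * T / 2 → |Dk T y| ≤ Real.pi / (2 * a) := by
    intro y a ha hay hy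
    have hy0 : 0 < y := lt_of_lt_of_le ha hay
    have h3 := Dk_le T hT y hy0.ne' (by rwa [abs_of_pos hy0])
    rw [abs_of_pos hy0] at h3
    refine h3.trans ?_
    exact div_le_div_of_nonneg_left hπ.le (by positivity) (by linarith)
  have t1 : Real.pi / (2 * (q * Real.pi * L)) ≤ θ / 2 := by
    have e1 : Real.pi / (2 * (q * Real.pi * L)) = (1 / (q * L)) / 2 := by
      field_simp
    have e2 : 1 / (q * L) ≤ q / ((q - 1) * L) := by
      rw [div_le_div_iff₀ (by positivity) (by positivity)]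
      nlinarith [mul_pos hq0 hL0, mul_pos (mul_pos hq0 hq1) hL0]
    rw [e1]
    linarith
  have t2 : Real.pi / (2 * ((q - 1) * Real.pi * L)) ≤ θ / 2 := by
    have e1 : Real.pi / (2 * ((q - 1) * Real.pi * L)) = (1 / ((q - 1) * L)) / 2 := by
      field_simp
    have e2 : 1 / ((q - 1) * L) ≤ q / ((q - 1) * L) :=
      div_le_div_of_nonneg_right hq.le (by positivity)
    rw [e1]
    linarith
  have b1 : |Dk T ((n : ℝ) * l.R)| ≤ θ / 2 :=
    (hDk _ _ (by positivity) hnR1 (by linarith)).trans t1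
  have b2 : (n : ℝ) * η * l.R ≤ θ := by
    calc (n : ℝ) * η * l.R = ((n : ℝ) * l.R) * η := by ring
      _ ≤ (Real.pi * q ^ s * (L + 1)) * η := mul_le_mul_of_nonneg_right hnR2 hη.le
      _ ≤ θ := a3
  have b3 : l.ε / 2 * (|Dk T (((n : ℝ) + l.n) * l.R)| + |Dk T (((n : ℝ) - l.n) * l.R)|) ≤ θ / 2 := by
    rcases hcases with h | ⟨hε, n1, hn1, hcn1, hn1a, hn1b⟩
    · rw [h]
      linarith
    · rw [hε, hn1]
      have hlt : (n1 : ℝ) < (n : ℝ) := lt_of_lt_of_le hn1b h1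
      have hlt' : n1 < n := by exact_mod_cast hlt
      have hgap : q * (n1 : ℝ) ≤ (n : ℝ) :=
        hc n1 (Function.mem_support.mpr hcn1) n (Function.mem_support.mpr hn) hlt'
      have hn10 : (0 : ℝ) ≤ (n1 : ℝ) := Nat.cast_nonneg _
      have c1 : q * Real.pi * L ≤ ((n : ℝ) + n1) * l.R := by
        have : 0 ≤ (n1 : ℝ) * l.R := by positivity
        linarith
      have c2 : ((n : ℝ) + n1) * l.R ≤ Real.pi * T / 2 := by
        have : (n1 : ℝ) * l.R ≤ (n : ℝ) * l.R := mul_le_mul_of_nonneg_right hlt.le hR0.le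
        linarith
      have c3 : (q - 1) * Real.pi * L ≤ ((n : ℝ) - n1) * l.R := by
        have d1 : (q - 1) * (n : ℝ) ≤ q * ((n : ℝ) - n1) := by linarith
        have d2 : (q - 1) * (n : ℝ) * l.R ≤ q * ((n : ℝ) - n1) * l.R :=
          mul_le_mul_of_nonneg_right d1 hR0.le
        have d3 : (q - 1) * (q * Real.pi * L) ≤ (q - 1) * ((n : ℝ) * l.R) :=
          mul_le_mul_of_nonneg_left hnR1 hq1.le
        have d4 : q * ((q - 1) * Real.pi * L) ≤ q * (((n : ℝ) - n1) * l.R) := by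
          calc q * ((q - 1) * Real.pi * L) = (q - 1) * (q * Real.pi * L) := by ring
            _ ≤ (q - 1) * ((n : ℝ) * l.R) := d3
            _ = (q - 1) * (n : ℝ) * l.R := by ring
            _ ≤ q * ((n : ℝ) - n1) * l.R := d2
            _ = q * (((n : ℝ) - n1) * l.R) := by ring
        exact le_of_mul_le_mul_left d4 hq0
      have c4 : ((n : ℝ) - n1) * l.R ≤ Real.pi * T / 2 := by
        have : 0 ≤ (n1 : ℝ) * l.R := by positivity
        linarith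
      have e1 := (hDk _ _ (by positivity) c1 c2).trans t1
      have e2 := (hDk _ _ (by positivity) c3 c4).trans t2
      linarith
  have hop := op_other T hT E η r₀ ct p hp l hOK (n : ℝ) hn0.le x hx
  have hmain : ‖(Dk T ((n : ℝ) * l.R) : ℂ) * ex n (ct l.R x)‖ ≤ θ / 2 := by
    rw [norm_mul, norm_ex, mul_one, Complex.norm_real, Real.norm_eq_abs]
    exact b1
  calc ‖op T ct p l (ex n) x‖
      = ‖(op T ct p l (ex n) x - (Dk T ((n : ℝ) * l.R) : ℂ) * ex n (ct l.R x)) +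
          (Dk T ((n : ℝ) * l.R) : ℂ) * ex n (ct l.R x)‖ := by congr 1; ring
    _ ≤ _ := norm_add_le _ _
    _ ≤ (l.ε / 2 * (|Dk T (((n : ℝ) + l.n) * l.R)| + |Dk T (((n : ℝ) - l.n) * l.R)|) +
          (n : ℝ) * η * l.R) + θ / 2 := add_le_add hop hmain
    _ ≤ 2 * θ := by linarith

/-- frequencies in the class -/
theorem est_class (q θ : ℝ) (s L T : ℕ) (η' η r₀ Λ₀ : ℝ) (P : Par q θ s L T η' η r₀ Λ₀) (c : ℕ → ℂ)
    (hc : Lac q (Function.support c)) (E : Set ℝ) (ct p : ℝ → ℝ → ℝ) (hp : Sel E η r₀ ct p) (j J : ℕ)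
    (hj : j < J) (n : ℕ) (hn : c n ≠ 0) (h1 : Λ₀ * (q ^ s) ^ j ≤ (n : ℝ))
    (h2 : (n : ℝ) < q * (Λ₀ * (q ^ s) ^ j)) (x : ℝ) (hx : x ∈ E) :
    ‖ops T ct p (lvs q s L c Λ₀ 0 J) (ex n) x -
      (1 / 2 : ℂ) * Complex.exp (-(Complex.arg (c n) : ℂ) * Complex.I)‖ ≤ 2 * θ := by
  have hq1 : 1 < q := P.hq
  have hq0 : 0 < q := by linarith
  have hQ : 0 < q ^ s := by positivity
  have hΛj : 0 < Λ₀ * (q ^ s) ^ j := mul_pos P.hΛ (by positivity)
  have hT := P.hT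
  have hπ := Real.pi_pos
  have hη := P.hη
  obtain ⟨m, rfl⟩ : ∃ m, J = j + (m + 1) := ⟨J - j - 1, by omega⟩
  have hsplit : lvs q s L c Λ₀ 0 (j + (m + 1)) = lvs q s L c Λ₀ 0 j ++
      (lvl q L c (Λ₀ * (q ^ s) ^ j) :: lvs q s L c Λ₀ (j + 1) m) := by
    unfold lvs
    rw [← List.range'_append_1, List.range'_succ, List.map_append, List.map_cons]
    simp
  rw [hsplit, ops_append]
  obtain ⟨hR1, hR2⟩ := lvl_R q hq1 L P.hL c (Λ₀ * (q ^ s) ^ j) hΛj
  obtain ⟨hε, hln, hlφ⟩ := lvl_n q hq1 L P.hL c hc (Λ₀ * (q ^ s) ^ j) hΛj n hn h1 h2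
  have hok : LevOK T r₀ (lvl q L c (Λ₀ * (q ^ s) ^ j)) := by
    apply lvs_ok q θ s L T η' η r₀ Λ₀ P c 0 (j + (m + 1))
    rw [hsplit]
    simp
  refine ops_near T hT E η r₀ ct p hp _ _ _ ?_ _ (lvs_ok q θ s L T η' η r₀ Λ₀ P c 0 j) x hx
  intro y hy
  have hn0 : (0:ℝ) ≤ (n:ℝ) := Nat.cast_nonneg n
  -- the rest
  have hrest : ∀ z ∈ E, ‖ops T ct p (lvs q s L c Λ₀ (j + 1) m) (ex n) z - ex n z‖ ≤ θ := by
    intro z hz
    refine (ops_high T hT E η r₀ P.hη1 ct p hp n hn0 _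
      (lvs_ok q θ s L T η' η r₀ Λ₀ P c (j + 1) m) z hz).trans ?_
    refine (rest_small q θ s L T η' η r₀ Λ₀ P c n hn0 (j + 1) m).trans ?_
    refine le_trans ?_ P.a2
    rw [div_le_div_iff₀ (mul_pos P.hΛ (by positivity)) hQ]
    have e1 : 6 * Real.pi * q * ((L:ℝ) + 1) * (Λ₀ * (q ^ s) ^ (j + 1)) =
        (6 * Real.pi * ((L:ℝ) + 1) * q ^ s) * (q * (Λ₀ * (q ^ s) ^ j)) := by
      rw [pow_succ (q ^ s) j]; ring
    have e2 : 6 * (n:ℝ) * Real.pi * ((L:ℝ) + 1) * q ^ s =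
        (6 * Real.pi * ((L:ℝ) + 1) * q ^ s) * (n:ℝ) := by ring
    rw [e1, e2]
    exact mul_le_mul_of_nonneg_left h2.le (by positivity)
  have hA := op_sub_le T hT E η r₀ ct p hp _ _ θ hrest _ hok y hy
  have hB := op_own T hT E η r₀ ct p hp _ hok hε y hy
  rw [hln, hlφ] at hB
  have hC : (n:ℝ) * η * (lvl q L c (Λ₀ * (q ^ s) ^ j)).R ≤ θ := by
    refine le_trans ?_ P.a3
    have hqs : q ≤ q ^ s := by
      calc q = q ^ 1 := (pow_one q).symm
        _ ≤ q ^ s := pow_le_pow_right₀ hq1.le P.hs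
    have hRpos : 0 < (lvl q L c (Λ₀ * (q ^ s) ^ j)).R := hok.1
    calc (n:ℝ) * η * (lvl q L c (Λ₀ * (q ^ s) ^ j)).R
        ≤ (q * (Λ₀ * (q ^ s) ^ j)) * η * (Real.pi * (L + 1) / (Λ₀ * (q ^ s) ^ j)) := by
          gcongr
      _ = q * (Real.pi * (L + 1) * η) := by
          have hne : (Λ₀ * (q ^ s) ^ j) ≠ 0 := hΛj.ne'
          generalize (Λ₀ * (q ^ s) ^ j) = W at hne ⊢
          field_simp
      _ ≤ q ^ s * (Real.pi * (L + 1) * η) := by
          gcongr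
      _ = Real.pi * q ^ s * (L + 1) * η := by ring
  have hD : ops T ct p (lvl q L c (Λ₀ * (q ^ s) ^ j) :: lvs q s L c Λ₀ (j + 1) m) (ex n) y =
      op T ct p (lvl q L c (Λ₀ * (q ^ s) ^ j)) (ops T ct p (lvs q s L c Λ₀ (j + 1) m) (ex n)) y := rfl
  rw [hD]
  calc ‖op T ct p (lvl q L c (Λ₀ * (q ^ s) ^ j)) (ops T ct p (lvs q s L c Λ₀ (j + 1) m) (ex n)) y -
        (1 / 2 : ℂ) * Complex.exp (-(Complex.arg (c n) : ℂ) * Complex.I)‖
      = ‖(op T ct p (lvl q L c (Λ₀ * (q ^ s) ^ j)) (ops T ct p (lvs q s L c Λ₀ (j + 1) m) (ex n)) y -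
          op T ct p (lvl q L c (Λ₀ * (q ^ s) ^ j)) (ex n) y) +
        (op T ct p (lvl q L c (Λ₀ * (q ^ s) ^ j)) (ex n) y -
          (1 / 2 : ℂ) * Complex.exp (-(Complex.arg (c n) : ℂ) * Complex.I))‖ := by
          congr 1; ring
    _ ≤ θ + θ := (norm_add_le _ _).trans (add_le_add hA (hB.trans hC))
    _ = 2 * θ := by ring

/-- frequencies outside the class -/
theorem est_nonclass (q θ : ℝ) (s L T : ℕ) (η' η r₀ Λ₀ : ℝ) (P : Par q θ s L T η' η r₀ Λ₀) (c : ℕ → ℂ)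
    (hc : Lac q (Function.support c)) (E : Set ℝ) (hvp : VP E η' r₀) (ct p : ℝ → ℝ → ℝ)
    (hp : Sel E η r₀ ct p) (hct : ∀ R x : ℝ, Win E η R x → ct R x = x) (j J : ℕ)
    (hj : j + 1 < J) (n : ℕ) (hn : c n ≠ 0) (h1 : q * (Λ₀ * (q ^ s) ^ j) ≤ (n : ℝ))
    (h2 : (n : ℝ) < Λ₀ * (q ^ s) ^ (j + 1)) (x : ℝ) (hx : x ∈ E) :
    ‖ops T ct p (lvs q s L c Λ₀ 0 J) (ex n) x‖ ≤ 10 * θ := by
  have hq := P.hq
  have hq0 : 0 < q := by linarith
  have hqs : 0 < q ^ s := by positivity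
  have hΛ := P.hΛ
  have hπ := Real.pi_pos
  have hθ : 0 ≤ θ := by
    refine le_trans ?_ P.a4
    have := P.hη
    positivity
  obtain ⟨k, rfl⟩ : ∃ k, J = j + (k + 2) := ⟨J - j - 2, by omega⟩
  set l1 : Lev := lvl q L c (Λ₀ * (q ^ s) ^ j) with hl1
  set l2 : Lev := lvl q L c (Λ₀ * (q ^ s) ^ (j + 1)) with hl2
  set rest : List Lev := lvs q s L c Λ₀ (j + 2) k with hrest
  have hsplit : lvs q s L c Λ₀ 0 (j + (k + 2)) = lvs q s L c Λ₀ 0 j ++ (l1 :: l2 :: rest) := by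
    have h3 : List.range' 0 (j + (k + 2)) = List.range' 0 j ++ (j :: (j + 1) ::
        List.range' (j + 2) k) := by
      rw [← List.range'_append_1, zero_add, List.range'_succ, List.range'_succ]
    simp only [lvs, h3, List.map_append, List.map_cons, hl1, hl2, hrest]
  have hok1 : LevOK T r₀ l1 := lvs_ok q θ s L T η' η r₀ Λ₀ P c j 1 l1 (by simp [lvs, hl1])
  have hok2 : LevOK T r₀ l2 := lvs_ok q θ s L T η' η r₀ Λ₀ P c (j + 1) 1 l2 (by simp [lvs, hl2])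
  obtain ⟨hr1, hr2, hr3⟩ := ratio q θ s L T η' η r₀ Λ₀ P c j
  have hrs : ∀ y ∈ E, ‖ops T ct p rest (ex n) y - ex n y‖ ≤ 2 * θ := by
    intro y hy
    refine (ops_high T P.hT E η r₀ P.hη1 ct p hp n (Nat.cast_nonneg n) rest
      (lvs_ok q θ s L T η' η r₀ Λ₀ P c (j + 2) k) y hy).trans ?_
    refine (rest_small q θ s L T η' η r₀ Λ₀ P c n (Nat.cast_nonneg n) (j + 2) k).trans ?_
    have hLp : (0 : ℝ) ≤ 6 * Real.pi * (L + 1) := by positivity
    have h3 : 6 * (n : ℝ) * Real.pi * (L + 1) / (Λ₀ * (q ^ s) ^ (j + 2)) ≤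
        6 * Real.pi * (L + 1) / q ^ s := by
      rw [div_le_div_iff₀ (by positivity) hqs]
      have e1 : (Λ₀ * (q ^ s) ^ (j + 2)) = (Λ₀ * (q ^ s) ^ (j + 1)) * q ^ s := by ring
      rw [e1]
      calc 6 * (n : ℝ) * Real.pi * (L + 1) * q ^ s = (6 * Real.pi * (L + 1)) * ((n : ℝ) * q ^ s) := by
            ring
        _ ≤ (6 * Real.pi * (L + 1)) * ((Λ₀ * (q ^ s) ^ (j + 1)) * q ^ s) := by gcongr
        _ = _ := by ring
    have h4 : 6 * Real.pi * (L + 1) / q ^ s ≤ 6 * Real.pi * q * (L + 1) / q ^ s := by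
      apply div_le_div_of_nonneg_right _ hqs.le
      have e : 0 ≤ 6 * Real.pi * (L + 1) * (q - 1) := mul_nonneg hLp (by linarith)
      nlinarith
    have h5 := P.a2
    linarith
  rw [hsplit, ops_append]
  have hmain := ops_near T P.hT E η r₀ ct p hp (ops T ct p (l1 :: l2 :: rest) (ex n)) 0 (10 * θ)
    (by
      intro y hy
      rw [sub_zero]
      have := kill T P.hT E η' η r₀ hvp P.hη.le ct p hp hct n (2 * θ) θ (Dk T (n * l2.R)) l1 l2 rest
        hok1 hok2 hr1 hr2 hr3 hrs (Dk_le_one T P.hT _)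
        (fun y hy => hb2 q θ s L T η' η r₀ Λ₀ P c hc E ct p hp (j + 1) n hn h2 y hy)
        (fun y hy => hb1 q θ s L T η' η r₀ Λ₀ P c hc E ct p hp j n hn h1 h2 y hy) y hy
      linarith)
    (lvs q s L c Λ₀ 0 j) (lvs_ok q θ s L T η' η r₀ Λ₀ P c 0 j) x hx
  rwa [sub_zero] at hmain

/-- pigeonhole for the classes -/
theorem pigeon (q : ℝ) (hq : 1 < q) (s : ℕ) (hs : 1 ≤ s) (Λ : ℝ) (hΛ : 0 < Λ) (sp : Finset ℕ)
    (a : ℕ → ℝ) (ha : ∀ n, 0 ≤ a n) (hsp : ∀ n ∈ sp, Λ * q ^ s ≤ (n : ℝ)) :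
    ∃ τ : ℕ, τ < s ∧ ∃ A : Finset ℕ, A ⊆ sp ∧ (∑ n ∈ sp, a n) ≤ s * ∑ n ∈ A, a n ∧
      (∀ n ∈ A, ∃ j : ℕ, Λ * q ^ τ * (q ^ s) ^ j ≤ (n : ℝ) ∧ (n : ℝ) < q * (Λ * q ^ τ * (q ^ s) ^ j)) ∧
      (∀ n ∈ sp, n ∉ A → ∃ j : ℕ, q * (Λ * q ^ τ * (q ^ s) ^ j) ≤ (n : ℝ) ∧
        (n : ℝ) < Λ * q ^ τ * (q ^ s) ^ (j + 1)) := by
  have hex : ∀ n : ℕ, ∃ i : ℕ, n ∈ sp → s ≤ i ∧ Λ * q ^ i ≤ (n : ℝ) ∧ (n : ℝ) < Λ * q ^ (i + 1) := by
    intro n
    by_cases hn : n ∈ sp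
    · have h1 := hsp n hn
      have h2 : q ^ s ≤ (n : ℝ) / Λ := by rw [le_div_iff₀ hΛ]; linarith
      have h3 : 1 ≤ (n : ℝ) / Λ := le_trans (one_le_pow₀ hq.le) h2
      obtain ⟨i, hi1, hi2⟩ := exists_nat_pow_near h3 hq
      refine ⟨i, fun _ => ⟨?_, ?_, ?_⟩⟩
      · by_contra hc
        push Not at hc
        have : q ^ (i + 1) ≤ q ^ s := pow_le_pow_right₀ hq.le (by omega)
        linarith
      · rw [le_div_iff₀ hΛ] at hi1; linarith
      · rw [div_lt_iff₀ hΛ] at hi2; linarith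
    · exact ⟨0, fun h => absurd h hn⟩
  choose idx hidx using hex
  have hpig : ∃ τ ∈ range s, (∑ n ∈ sp, a n) ≤ s * ∑ n ∈ sp.filter (fun n => idx n % s = τ), a n := by
    apply Finset.exists_le_of_sum_le (by rw [nonempty_range_iff]; omega)
    rw [sum_const, card_range, nsmul_eq_mul, ← mul_sum,
      Finset.sum_fiberwise_of_maps_to (g := fun n => idx n % s)]
    intro n _
    rw [mem_range]
    exact Nat.mod_lt _ (by omega)
  obtain ⟨τ, hτ, hle⟩ := hpig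
  rw [mem_range] at hτ
  refine ⟨τ, hτ, sp.filter (fun n => idx n % s = τ), filter_subset _ _, hle, ?_, ?_⟩
  · intro n hn
    rw [mem_filter] at hn
    obtain ⟨_, h1, h2⟩ := hidx n hn.1
    have hi : idx n = τ + s * (idx n / s) := by
      have := Nat.mod_add_div (idx n) s
      omega
    refine ⟨idx n / s, ?_, ?_⟩
    · calc Λ * q ^ τ * (q ^ s) ^ (idx n / s) = Λ * q ^ (τ + s * (idx n / s)) := by
            rw [pow_add, pow_mul]; ring
        _ ≤ n := by rw [← hi]; exact h1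
    · calc (n : ℝ) < Λ * q ^ (idx n + 1) := h2
        _ = q * (Λ * q ^ τ * (q ^ s) ^ (idx n / s)) := by
            conv_lhs => rw [hi]
            rw [pow_add, pow_add, pow_mul]; ring
  · intro n hn hnA
    obtain ⟨h0, h1, h2⟩ := hidx n hn
    have hne : idx n % s ≠ τ := fun h => hnA (mem_filter.mpr ⟨hn, h⟩)
    obtain ⟨j, hj⟩ : ∃ j, j = (idx n - τ) / s := ⟨_, rfl⟩
    obtain ⟨r, hr⟩ : ∃ r, r = (idx n - τ) % s := ⟨_, rfl⟩
    have hjr : idx n - τ = r + s * j := by rw [hj, hr]; exact (Nat.mod_add_div _ s).symm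
    have hrs : r < s := by rw [hr]; exact Nat.mod_lt _ (by omega)
    have hidn : idx n = τ + r + s * j := by omega
    have hr0 : r ≠ 0 := by
      intro h
      apply hne
      rw [hidn, h, add_zero, Nat.add_mul_mod_self_left, Nat.mod_eq_of_lt hτ]
    refine ⟨j, ?_, ?_⟩
    · calc q * (Λ * q ^ τ * (q ^ s) ^ j) = Λ * q ^ (τ + s * j + 1) := by
            rw [pow_add, pow_add, pow_mul]; ring
        _ ≤ Λ * q ^ (idx n) := by
            apply mul_le_mul_of_nonneg_left _ hΛ.le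
            exact pow_le_pow_right₀ hq.le (by omega)
        _ ≤ n := h1
    · calc (n : ℝ) < Λ * q ^ (idx n + 1) := h2
        _ ≤ Λ * q ^ (τ + s * (j + 1)) := by
            apply mul_le_mul_of_nonneg_left _ hΛ.le
            apply pow_le_pow_right₀ hq.le
            rw [Nat.mul_succ]
            omega
        _ = Λ * q ^ τ * (q ^ s) ^ (j + 1) := by
            rw [pow_add, pow_mul]; ring

/-- the main estimate -/
theorem main_tau (q θ : ℝ) (s L T : ℕ) (η' η r₀ Λ₀ : ℝ) (P : Par q θ s L T η' η r₀ Λ₀) (c : ℕ → ℂ)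
    (hc : Lac q (Function.support c)) (E : Set ℝ) (hE : E.Nonempty) (hvp : VP E η' r₀)
    (sp A : Finset ℕ) (hsp : ∀ n ∈ sp, c n ≠ 0) (hA : A ⊆ sp)
    (h1 : ∀ n ∈ A, ∃ j : ℕ, Λ₀ * (q ^ s) ^ j ≤ (n : ℝ) ∧ (n : ℝ) < q * (Λ₀ * (q ^ s) ^ j))
    (h2 : ∀ n ∈ sp, n ∉ A → ∃ j : ℕ, q * (Λ₀ * (q ^ s) ^ j) ≤ (n : ℝ) ∧ (n : ℝ) < Λ₀ * (q ^ s) ^ (j + 1)) :
    ∃ x ∈ E, (1 / 2) * ∑ n ∈ A, ‖c n‖ - 10 * θ * ∑ n ∈ sp, ‖c n‖ ≤ (∑ n ∈ sp, c n * ex n x).re := by
  have hη'η : η' ≤ η := by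
    have e1 := P.hη'
    have e2 := P.h2
    have e3 := P.hη
    have hpos : 0 < η' := by
      by_contra hcon
      push Not at hcon
      have : η' * (2 * q ^ s) ≤ 0 := mul_nonpos_of_nonpos_of_nonneg hcon (by linarith)
      linarith
    rw [← e1]
    have : η' * 1 ≤ η' * (2 * q ^ s) := mul_le_mul_of_nonneg_left (by linarith) hpos.le
    linarith
  have hθ : 0 ≤ θ := by
    refine le_trans ?_ P.a1
    have := P.hq
    apply div_nonneg (by linarith)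
    exact mul_nonneg (by linarith) (Nat.cast_nonneg _)
  obtain ⟨ct, p, hp, hct⟩ := exists_sel E η' η r₀ hη'η hvp
  obtain ⟨x0, hx0⟩ := hE
  choose! j1 hj1 using h1
  choose! j2 hj2 using h2
  obtain ⟨J, hJ⟩ : ∃ J : ℕ, J = ∑ n ∈ sp, (j1 n + j2 n) + 2 := ⟨_, rfl⟩
  have hJle : ∀ n ∈ sp, j1 n + j2 n + 2 ≤ J := by
    intro n hn
    have : j1 n + j2 n ≤ ∑ n ∈ sp, (j1 n + j2 n) :=
      Finset.single_le_sum (f := fun n => j1 n + j2 n) (fun _ _ => Nat.zero_le _) hn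
    omega
  obtain ⟨x, hx, hle⟩ := ops_max T P.hT E η r₀ ct p hp (fun y => ∑ n ∈ sp, c n * ex n y)
    (lvs q s L c Λ₀ 0 J) (lvs_ok q θ s L T η' η r₀ Λ₀ P c 0 J) x0 hx0
  refine ⟨x, hx, le_trans ?_ hle⟩
  have hsum := ops_sum T ct p (lvs q s L c Λ₀ 0 J) sp c (fun n => ex n) x0
  rw [hsum, Complex.re_sum]
  have key : ∀ n ∈ sp, (if n ∈ A then (1 / 2) * ‖c n‖ else 0) - 10 * θ * ‖c n‖ ≤
      (c n * ops T ct p (lvs q s L c Λ₀ 0 J) (ex n) x0).re := by
    intro n hn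
    have hJn := hJle n hn
    have hc0 : 0 ≤ ‖c n‖ := norm_nonneg _
    by_cases hnA : n ∈ A
    · rw [if_pos hnA]
      obtain ⟨ha, hb⟩ := hj1 n hnA
      have hest := est_class q θ s L T η' η r₀ Λ₀ P c hc E ct p hp (j1 n) J (by omega) n
        (hsp n hn) ha hb x0 hx0
      obtain ⟨W, hW⟩ : ∃ W : ℂ, W = ops T ct p (lvs q s L c Λ₀ 0 J) (ex n) x0 -
        (1 / 2 : ℂ) * Complex.exp (-(Complex.arg (c n) : ℂ) * Complex.I) := ⟨_, rfl⟩
      rw [← hW] at hest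
      have hO : ops T ct p (lvs q s L c Λ₀ 0 J) (ex n) x0 = W +
        (1 / 2 : ℂ) * Complex.exp (-(Complex.arg (c n) : ℂ) * Complex.I) := by
        rw [hW]; ring
      have hce : c n * Complex.exp (-(Complex.arg (c n) : ℂ) * Complex.I) = (‖c n‖ : ℂ) := by
        have hpol := Complex.norm_mul_exp_arg_mul_I (c n)
        calc c n * Complex.exp (-(Complex.arg (c n) : ℂ) * Complex.I)
            = ((‖c n‖ : ℂ) * Complex.exp ((Complex.arg (c n) : ℂ) * Complex.I)) *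
              Complex.exp (-(Complex.arg (c n) : ℂ) * Complex.I) := by rw [hpol]
          _ = (‖c n‖ : ℂ) := by
              rw [mul_assoc, ← Complex.exp_add]
              simp
      have hce2 : c n * ops T ct p (lvs q s L c Λ₀ 0 J) (ex n) x0 =
          c n * W + ((1 / 2 * ‖c n‖ : ℝ) : ℂ) := by
        rw [hO, mul_add]
        congr 1
        rw [mul_left_comm, hce]
        push_cast
        ring
      rw [hce2, Complex.add_re, Complex.ofReal_re]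
      have h3 : -(‖c n‖ * (2 * θ)) ≤ (c n * W).re := by
        have h4 := Complex.abs_re_le_norm (c n * W)
        rw [norm_mul] at h4
        have h5 : ‖c n‖ * ‖W‖ ≤ ‖c n‖ * (2 * θ) := mul_le_mul_of_nonneg_left hest hc0
        linarith [neg_abs_le (c n * W).re]
      have h6 : 0 ≤ ‖c n‖ * θ := mul_nonneg hc0 hθ
      linarith
    · rw [if_neg hnA]
      obtain ⟨ha, hb⟩ := hj2 n hn hnA
      have hest := est_nonclass q θ s L T η' η r₀ Λ₀ P c hc E hvp ct p hp hct (j2 n) J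
        (by omega) n (hsp n hn) ha hb x0 hx0
      have h4 := Complex.abs_re_le_norm (c n * ops T ct p (lvs q s L c Λ₀ 0 J) (ex n) x0)
      rw [norm_mul] at h4
      have h5 := mul_le_mul_of_nonneg_left hest hc0
      have h7 := neg_abs_le (c n * ops T ct p (lvs q s L c Λ₀ 0 J) (ex n) x0).re
      linarith
  refine le_trans (le_of_eq ?_) (Finset.sum_le_sum key)
  rw [Finset.sum_sub_distrib, Finset.sum_ite_mem, Finset.inter_eq_right.2 hA, ← Finset.mul_sum,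
    ← Finset.mul_sum]

/-- Sidon type inequality on sets of small porosity -/
theorem sidonE (q : ℝ) (hq : 1 < q) : ∃ δ : ℝ, 0 < δ ∧ ∃ η' : ℝ, 0 < η' ∧ ∀ (E : Set ℝ) (r₀ : ℝ),
    E.Nonempty → 0 < r₀ → VP E η' r₀ → ∃ m : ℕ, ∀ (c : ℕ → ℂ) (sp : Finset ℕ),
      Function.support c ⊆ ↑sp → Lac q (Function.support c) → (∀ k, c k ≠ 0 → m ≤ k) →
      ∃ x ∈ E, δ * ∑ k ∈ sp, ‖c k‖ ≤ ‖∑ k ∈ sp, c k * ex k x‖ := by
  classical
  obtain ⟨s, L, T, η, hs, hL, hT, hη, hη1, h2, a1, a2, a3, a4, a5, a6⟩ := consts q hq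
  have hs' : (0 : ℝ) < s := by exact_mod_cast hs
  have hq0 : (0 : ℝ) < q := by linarith
  have hqs : (0 : ℝ) < q ^ s := by positivity
  refine ⟨1 / (4 * s), by positivity, η / (2 * q ^ s), by positivity, ?_⟩
  intro E r₀ hE hr₀ hvp
  obtain ⟨Λ, hΛdef⟩ : ∃ Λ : ℝ, Λ = Real.pi * (L + 1) / r₀ := ⟨_, rfl⟩
  have hΛ : 0 < Λ := by rw [hΛdef]; positivity
  refine ⟨⌈Λ * q ^ s⌉₊, ?_⟩
  intro c sp hsup hlac hm
  have hsp' : ∀ n ∈ sp.filter (fun n => c n ≠ 0), Λ * q ^ s ≤ (n : ℝ) := by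
    intro n hn
    have h3 := hm n (Finset.mem_filter.1 hn).2
    exact (Nat.le_ceil _).trans (by exact_mod_cast h3)
  obtain ⟨τ, hτ, A, hA, hsum, hj1, hj2⟩ := pigeon q hq s hs Λ hΛ (sp.filter (fun n => c n ≠ 0))
    (fun n => ‖c n‖) (fun n => norm_nonneg _) hsp'
  have hqτ : (1 : ℝ) ≤ q ^ τ := one_le_pow₀ hq.le
  have hP : Par q (1 / (200 * s)) s L T (η / (2 * q ^ s)) η r₀ (Λ * q ^ τ) :=
    { hq := hq
      hs := hs
      hL := hL
      hT := hT
      hη := hη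
      hη1 := hη1
      hη' := by
        have : (2 * q ^ s : ℝ) ≠ 0 := by positivity
        exact div_mul_cancel₀ η this
      h2 := h2
      a1 := a1
      a2 := a2
      a3 := a3
      a4 := a4
      a5 := a5
      a6 := a6
      hΛ := by positivity
      hr := by
        have e : r₀ * (Λ * q ^ τ) = Real.pi * (L + 1) * q ^ τ := by
          rw [hΛdef]
          field_simp
        rw [e]
        have h5 : 0 ≤ Real.pi * ((L : ℝ) + 1) := by positivity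
        nlinarith }
  obtain ⟨x, hx, hmain⟩ := main_tau q (1 / (200 * s)) s L T (η / (2 * q ^ s)) η r₀ (Λ * q ^ τ) hP c
    hlac E hE hvp (sp.filter (fun n => c n ≠ 0)) A (fun n hn => (Finset.mem_filter.1 hn).2) hA hj1 hj2
  refine ⟨x, hx, ?_⟩
  have e1 : ∑ n ∈ sp.filter (fun n => c n ≠ 0), ‖c n‖ = ∑ k ∈ sp, ‖c k‖ := by
    refine Finset.sum_filter_of_ne fun n _ hn h0 => hn ?_
    rw [h0, norm_zero]
  have e2 : ∑ n ∈ sp.filter (fun n => c n ≠ 0), c n * ex n x = ∑ k ∈ sp, c k * ex k x := by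
    refine Finset.sum_filter_of_ne fun n _ hn h0 => hn ?_
    rw [h0, zero_mul]
  rw [e1] at hsum hmain
  rw [e2] at hmain
  have h6 : (∑ k ∈ sp, c k * ex k x).re ≤ ‖∑ k ∈ sp, c k * ex k x‖ := Complex.re_le_norm _
  have hS0 : 0 ≤ ∑ k ∈ sp, ‖c k‖ := Finset.sum_nonneg fun k _ => norm_nonneg _
  generalize (∑ k ∈ sp, ‖c k‖) = S at *
  generalize (∑ n ∈ A, ‖c n‖) = SA at *
  have h7 : S / s ≤ SA := by
    rw [div_le_iff₀ hs']
    linarith
  have h8 : 1 / (4 * s) * S ≤ (1 / 2) * (S / s) - 10 * (1 / (200 * s)) * S := by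
    have e3 : (1 / 2) * (S / s) - 10 * (1 / (200 * s)) * S = (9 / 20) * (S / s) := by
      field_simp
      ring
    have e4 : 1 / (4 * s) * S = (1 / 4) * (S / s) := by
      field_simp
    rw [e3, e4]
    have : 0 ≤ S / s := by positivity
    linarith
  linarith

/-- the radial set over a set of angles -/
def Rad (E : Set ℝ) : Set ℂ :=
  {z : ℂ | ∃ x ∈ E, ∃ t : ℝ, 0 ≤ t ∧ t < 1 ∧ z = (t : ℂ) * Complex.exp ((x : ℂ) * Complex.I)}

/-- the criterion holds for the radial set over a set of vanishing porosity -/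
theorem crit_radial (E : Set ℝ) (hE : E.Nonempty) (h : ∀ η : ℝ, 0 < η → ∃ r₀ : ℝ, 0 < r₀ ∧ VP E η r₀) :
    Crit (Rad E) := by
  intro q hq
  obtain ⟨δ, hδ, η', hη', H⟩ := sidonE q hq
  obtain ⟨r₀, hr₀, hVP⟩ := h η' hη'
  obtain ⟨m, hm⟩ := H E r₀ hE hr₀ hVP
  refine ⟨δ, hδ, m, fun c hfin hlac hck B hB => ?_⟩
  obtain ⟨x, hxE, hx⟩ := hm c hfin.toFinset (by simp) hlac hck
  have h0 : ∀ k ∉ hfin.toFinset, c k = 0 := by
    intro k hk
    simpa using hk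
  have hts : ∑' k : ℕ, ‖c k‖ = ∑ k ∈ hfin.toFinset, ‖c k‖ :=
    tsum_eq_sum fun k hk => by rw [h0 k hk, norm_zero]
  rw [hts]
  refine hx.trans ?_
  have hcont : Continuous fun t : ℝ => ‖∑ k ∈ hfin.toFinset, c k * ((t : ℂ) * Complex.exp ((x : ℂ) * Complex.I)) ^ k‖ := by
    fun_prop
  have hlim := (hcont.tendsto 1).mono_left (nhdsWithin_le_nhds (s := Set.Iio 1))
  have h1 : ‖∑ k ∈ hfin.toFinset, c k * (((1:ℝ) : ℂ) * Complex.exp ((x : ℂ) * Complex.I)) ^ k‖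
      = ‖∑ k ∈ hfin.toFinset, c k * ex k x‖ := by
    congr 1
    refine Finset.sum_congr rfl fun k _ => ?_
    unfold ex
    rw [Complex.ofReal_one, one_mul, ← Complex.exp_nat_mul]
    congr 2
    push_cast
    ring
  rw [h1] at hlim
  refine le_of_tendsto hlim ?_
  filter_upwards [Ioo_mem_nhdsLT (zero_lt_one' ℝ)] with t ht
  have h2 := hB ((t : ℂ) * Complex.exp ((x : ℂ) * Complex.I)) ⟨x, hxE, t, ht.1.le, ht.2, rfl⟩
  have h3 : F c ((t : ℂ) * Complex.exp ((x : ℂ) * Complex.I))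
      = ∑ k ∈ hfin.toFinset, c k * ((t : ℂ) * Complex.exp ((x : ℂ) * Complex.I)) ^ k :=
    tsum_eq_sum fun k hk => by rw [h0 k hk, zero_mul]
  rwa [h3] at h2

end Pool.Agent.Helper414.HG
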