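import Pool.Agent.GapSector
import Pool.Agent.Helper414.HgDefs

set_option autoImplicit false

namespace Pool.Agent.Helper414.HG
open Finset

/-- a gap series with non-summable coefficients attains every value in every sector -/
theorem attains (q : ℝ) (c : ℕ → ℂ) (hq : 1 < q) (hc : IsGap q c)
    (hns : ¬ Summable (fun k => ‖c k‖)) (w : ℂ) (α β : ℝ) (hαβ : α < β) :
    ∃ r θ : ℝ, 0 < r ∧ r < 1 ∧ α < θ ∧ θ < β ∧
      F c ((r : ℂ) * Complex.exp ((θ : ℂ) * Complex.I)) = w := by
  have hinf : (setOf (fun m => c m ≠ 0)).Infinite := by
    intro hfin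
    apply hns
    apply summable_of_finite_support
    apply hfin.subset
    intro k hk
    have hk' : c k ≠ 0 := by simpa using hk
    exact hk'
  set n : ℕ → ℕ := Nat.nth (fun m => c m ≠ 0) with hn
  have hmono : StrictMono n := Nat.nth_strictMono hinf
  have hmem : ∀ k, c (n k) ≠ 0 := fun k => Nat.nth_mem_of_infinite hinf k
  have hrange : Set.range n = {m | c m ≠ 0} := Nat.range_nth_of_infinite hinf
  have hsub : ∀ z : ℂ, Function.support (fun m => c m * z ^ m) ⊆ Set.range n := by
    intro z m hm
    rw [hrange]
    intro h0
    apply hm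
    simp [h0]
  have hpos : ∀ k, 0 < n k := by
    intro k
    rcases Nat.eq_zero_or_pos (n k) with h | h
    · exact absurd (h ▸ hc.zero) (hmem k)
    · exact h
  obtain ⟨r, θ, h1, h2, h3, h4, h5⟩ := Pool.Agent.GapSector.sector ((1 + q) / 2) n (fun k => c (n k))
    (by linarith) (by
      intro k
      have h6 := hc.lac (n k) (hmem k) (n (k + 1)) (hmem (k + 1)) (hmono (Nat.lt_succ_self k))
      have h7 : (0 : ℝ) < n k := by exact_mod_cast hpos k
      nlinarith) (by
      intro z hz
      have := (hmono.injective.summable_iff (f := fun m => c m * z ^ m) (by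
        intro m hm
        by_contra h
        exact hm (hsub z h))).2 (hc.conv z hz)
      exact this) (by
      intro h
      apply hns
      have := (hmono.injective.summable_iff (f := fun m => ‖c m‖) (by
        intro m hm
        by_contra h
        apply hm
        rw [hrange]
        simpa using h)).1 h
      exact this) w α β hαβ
  refine ⟨r, θ, h1, h2, h3, h4, ?_⟩
  rw [← h5]
  unfold F
  exact (hmono.injective.tsum_eq (hsub _)).symm

end Pool.Agent.Helper414.HG
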