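import Pool.Agent.Helper414.HgR

import Pool.Agent.Helper414.HgA

set_option autoImplicit false

/-!
# Sets of uniformly small porosity at radii tending to one are forcing
-/

namespace Pool.Agent.Helper414.HG

open Finset

/-- Sidon type inequality, uniform in the set -/
theorem sidonU (q : ℝ) (hq : 1 < q) : ∃ δ : ℝ, 0 < δ ∧ ∃ η' : ℝ, 0 < η' ∧ ∀ r₀ : ℝ, 0 < r₀ →
    ∃ m : ℕ, ∀ E : Set ℝ, E.Nonempty → VP E η' r₀ → ∀ (c : ℕ → ℂ) (sp : Finset ℕ),
      Function.support c ⊆ ↑sp → Lac q (Function.support c) → (∀ k, c k ≠ 0 → m ≤ k) →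
      ∃ x ∈ E, δ * ∑ k ∈ sp, ‖c k‖ ≤ ‖∑ k ∈ sp, c k * ex k x‖ := by
  classical
  obtain ⟨s, L, T, η, hs, hL, hT, hη, hη1, h2, a1, a2, a3, a4, a5, a6⟩ := consts q hq
  have hs' : (0 : ℝ) < s := by exact_mod_cast hs
  have hq0 : (0 : ℝ) < q := by linarith
  have hqs : (0 : ℝ) < q ^ s := by positivity
  refine ⟨1 / (4 * s), by positivity, η / (2 * q ^ s), by positivity, ?_⟩
  intro r₀ hr₀
  obtain ⟨Λ, hΛdef⟩ : ∃ Λ : ℝ, Λ = Real.pi * (L + 1) / r₀ := ⟨_, rfl⟩
  have hΛ : 0 < Λ := by rw [hΛdef]; positivity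
  refine ⟨⌈Λ * q ^ s⌉₊, ?_⟩
  intro E hE hvp c sp hsup hlac hm
  have hsp' : ∀ n ∈ sp.filter (fun n => c n ≠ 0), Λ * q ^ s ≤ (n : ℝ) := by
    intro n hn
    have h3 := hm n (Finset.mem_filter.1 hn).2
    exact (Nat.le_ceil _).trans (by exact_mod_cast h3)
  obtain ⟨τ, hτ, A, hA, hsum, hj1, hj2⟩ := pigeon q hq s hs Λ hΛ (sp.filter (fun n => c n ≠ 0))
    (fun n => ‖c n‖) (fun n => norm_nonneg _) hsp'
  have hqτ : (1 : ℝ) ≤ q ^ τ := one_le_pow₀ hq.le
  have hP : Par q (1 / (200 * s)) s L T (η / (2 * q ^ s)) η r₀ (Λ * q ^ τ) :=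
    { hq := hq
      hs := hs
      hL := hL
      hT := hT
      hη := hη
      hη1 := hη1
      hη' := by
        have : (2 * q ^ s : ℝ) ≠ 0 := by positivity
        exact div_mul_cancel₀ η this
      h2 := h2
      a1 := a1
      a2 := a2
      a3 := a3
      a4 := a4
      a5 := a5
      a6 := a6
      hΛ := by positivity
      hr := by
        have e : r₀ * (Λ * q ^ τ) = Real.pi * (L + 1) * q ^ τ := by
          rw [hΛdef]
          field_simp
        rw [e]
        have h5 : 0 ≤ Real.pi * ((L : ℝ) + 1) := by positivity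
        nlinarith }
  obtain ⟨x, hx, hmain⟩ := main_tau q (1 / (200 * s)) s L T (η / (2 * q ^ s)) η r₀ (Λ * q ^ τ) hP c
    hlac E hE hvp (sp.filter (fun n => c n ≠ 0)) A (fun n hn => (Finset.mem_filter.1 hn).2) hA hj1 hj2
  refine ⟨x, hx, ?_⟩
  have e1 : ∑ n ∈ sp.filter (fun n => c n ≠ 0), ‖c n‖ = ∑ k ∈ sp, ‖c k‖ := by
    refine Finset.sum_filter_of_ne fun n _ hn h0 => hn ?_
    rw [h0, norm_zero]
  have e2 : ∑ n ∈ sp.filter (fun n => c n ≠ 0), c n * ex n x = ∑ k ∈ sp, c k * ex k x := by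
    refine Finset.sum_filter_of_ne fun n _ hn h0 => hn ?_
    rw [h0, zero_mul]
  rw [e1] at hsum hmain
  rw [e2] at hmain
  have h6 : (∑ k ∈ sp, c k * ex k x).re ≤ ‖∑ k ∈ sp, c k * ex k x‖ := Complex.re_le_norm _
  have hS0 : 0 ≤ ∑ k ∈ sp, ‖c k‖ := Finset.sum_nonneg fun k _ => norm_nonneg _
  generalize (∑ k ∈ sp, ‖c k‖) = S at *
  generalize (∑ n ∈ A, ‖c n‖) = SA at *
  have h7 : S / s ≤ SA := by
    rw [div_le_iff₀ hs']
    linarith
  have h8 : 1 / (4 * s) * S ≤ (1 / 2) * (S / s) - 10 * (1 / (200 * s)) * S := by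
    have e3 : (1 / 2) * (S / s) - 10 * (1 / (200 * s)) * S = (9 / 20) * (S / s) := by
      field_simp
      ring
    have e4 : 1 / (4 * s) * S = (1 / 4) * (S / s) := by
      field_simp
    rw [e3, e4]
    have : 0 ≤ S / s := by positivity
    linarith
  linarith

/-- Sidon type inequality for infinite sums -/
theorem sidon_series (q : ℝ) (hq : 1 < q) : ∃ δ : ℝ, 0 < δ ∧ ∃ η' : ℝ, 0 < η' ∧ ∀ r₀ : ℝ, 0 < r₀ →
    ∃ m : ℕ, ∀ E : Set ℝ, E.Nonempty → VP E η' r₀ → ∀ c : ℕ → ℂ,
      Summable (fun k => ‖c k‖) → Lac q (Function.support c) → (∀ k, c k ≠ 0 → m ≤ k) →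
      ∀ B : ℝ, (∀ x ∈ E, ‖∑' k : ℕ, c k * ex k x‖ ≤ B) → δ * ∑' k : ℕ, ‖c k‖ ≤ B := by
  obtain ⟨δ, hδ, η', hη', H⟩ := sidonU q hq
  refine ⟨δ, hδ, η', hη', fun r₀ hr => ?_⟩
  obtain ⟨m, Hm⟩ := H r₀ hr
  refine ⟨m, fun E hE hV c hc hL hm B hB => ?_⟩
  have key : ∀ N : ℕ, δ * ∑ k ∈ range N, ‖c k‖ ≤ B + (∑' k : ℕ, ‖c k‖ - ∑ k ∈ range N, ‖c k‖) := by
    intro N
    have hsup : ∀ k, (if k < N then c k else 0) ≠ 0 → k < N ∧ c k ≠ 0 := by
      intro k hk
      by_cases h : k < N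
      · rw [if_pos h] at hk
        exact ⟨h, hk⟩
      · rw [if_neg h] at hk
        exact absurd rfl hk
    obtain ⟨x, hx, hle⟩ := Hm E hE hV (fun k => if k < N then c k else 0) (range N)
      (by
        intro k hk
        rw [Finset.coe_range]
        exact (hsup k hk).1)
      (by
        intro a ha b hb hab
        exact hL a (hsup a ha).2 b (hsup b hb).2 hab)
      (fun k hk => hm k (hsup k hk).2)
    have e1 : ∑ k ∈ range N, ‖(fun k => if k < N then c k else 0) k‖ = ∑ k ∈ range N, ‖c k‖ := by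
      apply Finset.sum_congr rfl
      intro k hk
      simp only [if_pos (Finset.mem_range.mp hk)]
    have e2 : ∑ k ∈ range N, (fun k => if k < N then c k else 0) k * ex k x =
        ∑ k ∈ range N, c k * ex k x := by
      apply Finset.sum_congr rfl
      intro k hk
      simp only [if_pos (Finset.mem_range.mp hk)]
    rw [e1, e2] at hle
    have hn : ∀ k : ℕ, ‖c k * ex k x‖ = ‖c k‖ := by
      intro k
      rw [norm_mul, norm_ex, mul_one]
    have hs : Summable (fun k : ℕ => c k * ex k x) := by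
      apply Summable.of_norm
      simpa only [hn] using hc
    have h1 := hs.sum_add_tsum_nat_add N
    have h2 := hc.sum_add_tsum_nat_add N
    have h3 : ‖∑' k : ℕ, c (k + N) * ex ((k + N : ℕ) : ℝ) x‖ ≤ ∑' k : ℕ, ‖c (k + N)‖ := by
      have h4 : Summable (fun k : ℕ => ‖c (k + N) * ex ((k + N : ℕ) : ℝ) x‖) := by
        have := (summable_nat_add_iff N).mpr hc
        simpa only [hn] using this
      have h5 := norm_tsum_le_tsum_norm h4
      simpa only [hn] using h5
    have h6 : ∑ k ∈ range N, c k * ex k x = (∑' k : ℕ, c k * ex k x) -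
        ∑' k : ℕ, c (k + N) * ex ((k + N : ℕ) : ℝ) x := by
      rw [← h1]; ring
    have h7 := norm_sub_le (∑' k : ℕ, c k * ex k x)
      (∑' k : ℕ, c (k + N) * ex ((k + N : ℕ) : ℝ) x)
    rw [← h6] at h7
    have h8 := hB x hx
    linarith
  have t1 := hc.hasSum.tendsto_sum_nat
  have t2 := t1.const_mul δ
  have t3 := (tendsto_const_nhds (x := ∑' k : ℕ, ‖c k‖)).sub t1
  have t4 := (tendsto_const_nhds (x := B)).add t3
  have := le_of_tendsto_of_tendsto' t2 t4 key
  simpa using this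

/-- sets containing, at radii tending to one, sets of uniformly small porosity are forcing -/
theorem forcing_uniform (S : Set ℂ) (hS : ∀ z ∈ S, ‖z‖ < 1)
    (h : ∀ η : ℝ, 0 < η → ∃ r₀ : ℝ, 0 < r₀ ∧ ∀ ρ : ℝ, ρ < 1 → ∃ r : ℝ, ρ < r ∧ r < 1 ∧
      ∃ E : Set ℝ, E.Nonempty ∧ VP E η r₀ ∧
        ∀ x ∈ E, (r : ℂ) * Complex.exp ((x : ℂ) * Complex.I) ∈ closure S) : Forcing S := by
  intro q c hq hc hMex
  obtain ⟨M, hM⟩ := hMex
  have hcl : ∀ z ∈ closure S, ‖z‖ < 1 → ‖F c z‖ ≤ M := by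
    intro z hz hz1
    obtain ⟨u, hu, hut⟩ := mem_closure_iff_seq_limit.mp hz
    have hcont : ContinuousAt (F c) z :=
      (continuousOn_F c hc.conv).continuousAt
        (Metric.isOpen_ball.mem_nhds (by rw [Metric.mem_ball, dist_zero_right]; exact hz1))
    have ht := (hcont.tendsto.comp hut).norm
    exact le_of_tendsto' ht fun n => hM _ (hu n)
  obtain ⟨δ, hδ, η', hη', hsid⟩ := sidon_series q hq
  obtain ⟨r₀, hr₀, hρ⟩ := h η' hη'
  obtain ⟨m, hm⟩ := hsid r₀ hr₀
  obtain ⟨C0, hC0⟩ : ∃ C0 : ℝ, C0 = ∑ k ∈ range m, ‖c k‖ := ⟨_, rfl⟩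
  -- bound for radii
  have hrad : ∀ ρ : ℝ, ρ < 1 → ∃ r : ℝ, ρ < r ∧ r < 1 ∧ ∀ K : ℕ,
      ∑ k ∈ range K, (if k < m then 0 else ‖c k‖ * r ^ k) ≤ (M + C0) / δ := by
    intro ρ hρ1
    obtain ⟨r, hr1, hr2, E, hE, hVP, hcE⟩ := hρ (max ρ 0) (max_lt hρ1 one_pos)
    have hr0 : 0 < r := lt_of_le_of_lt (le_max_right _ _) hr1
    refine ⟨r, lt_of_le_of_lt (le_max_left _ _) hr1, hr2, fun K => ?_⟩
    have hnr : ‖(r : ℂ)‖ = r := by rw [Complex.norm_real, Real.norm_of_nonneg hr0.le]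
    obtain ⟨c', hc'⟩ : ∃ c' : ℕ → ℂ, ∀ k, c' k = if k < m then 0 else c k * (r : ℂ) ^ k :=
      ⟨_, fun _ => rfl⟩
    have hnc' : ∀ k, ‖c' k‖ = if k < m then 0 else ‖c k‖ * r ^ k := by
      intro k
      rw [hc']
      split_ifs
      · simp
      · rw [norm_mul, norm_pow, hnr]
    have hsum' : Summable (fun k => ‖c' k‖) := by
      have h1 := (hc.conv (r : ℂ) (by rw [hnr]; exact hr2)).norm
      refine Summable.of_nonneg_of_le (fun k => norm_nonneg _) (fun k => ?_) h1
      rw [hnc', norm_mul, norm_pow, hnr]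
      split_ifs
      · positivity
      · exact le_refl _
    have hlac' : Lac q (Function.support c') := by
      intro a ha b hb hab
      have haux : ∀ a, a ∈ Function.support c' → a ∈ Function.support c := by
        intro a ha hca
        apply ha
        rw [hc', hca]; simp
      exact hc.lac a (haux a ha) b (haux b hb) hab
    have hm' : ∀ k, c' k ≠ 0 → m ≤ k := by
      intro k hk
      by_contra hcon
      push Not at hcon
      apply hk
      rw [hc', if_pos hcon]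
    have hbd : ∀ x ∈ E, ‖∑' k : ℕ, c' k * ex k x‖ ≤ M + C0 := by
      intro x hx
      obtain ⟨z, hz⟩ : ∃ z : ℂ, z = (r : ℂ) * Complex.exp ((x : ℂ) * Complex.I) := ⟨_, rfl⟩
      have hzn : ‖z‖ = r := by
        rw [hz, norm_mul, hnr, Complex.norm_exp_ofReal_mul_I, mul_one]
      have hzk : ∀ k : ℕ, z ^ k = (r : ℂ) ^ k * ex k x := by
        intro k
        rw [hz, mul_pow, ← Complex.exp_nat_mul]
        unfold ex
        congr 2
        push_cast
        ring
      have hs1 : Summable (fun k => c k * z ^ k) := hc.conv z (by rw [hzn]; exact hr2)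
      have hs2 : Summable (fun k => if k < m then c k * z ^ k else 0) := by
        apply summable_of_ne_finset_zero (s := range m)
        intro k hk
        rw [Finset.mem_range] at hk
        rw [if_neg hk]
      have e1 : (fun k : ℕ => c' k * ex k x) =
          fun k => c k * z ^ k - (if k < m then c k * z ^ k else 0) := by
        funext k
        rw [hc', hzk]
        split_ifs
        · ring
        · ring
      have e2 : ∑' k : ℕ, (if k < m then c k * z ^ k else 0) = ∑ k ∈ range m, c k * z ^ k := by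
        rw [tsum_eq_sum (s := range m)]
        · refine Finset.sum_congr rfl fun k hk => ?_
          rw [if_pos (Finset.mem_range.mp hk)]
        · intro k hk
          rw [Finset.mem_range] at hk
          rw [if_neg hk]
      rw [e1, hs1.tsum_sub hs2, e2]
      have e3 : ‖F c z‖ ≤ M := hcl z (by rw [hz]; exact hcE x hx) (by rw [hzn]; exact hr2)
      have e4 : ‖∑ k ∈ range m, c k * z ^ k‖ ≤ C0 := by
        rw [hC0]
        refine (norm_sum_le _ _).trans (Finset.sum_le_sum fun k _ => ?_)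
        rw [norm_mul, norm_pow, hzn]
        exact mul_le_of_le_one_right (norm_nonneg _) (pow_le_one₀ hr0.le hr2.le)
      exact (norm_sub_le _ _).trans (add_le_add e3 e4)
    have hfin := hm E hE hVP c' hsum' hlac' hm' (M + C0) hbd
    rw [le_div_iff₀ hδ, mul_comm]
    refine le_trans (mul_le_mul_of_nonneg_left ?_ hδ.le) hfin
    calc ∑ k ∈ range K, (if k < m then 0 else ‖c k‖ * r ^ k) = ∑ k ∈ range K, ‖c' k‖ :=
          Finset.sum_congr rfl fun k _ => (hnc' k).symm
      _ ≤ ∑' k, ‖c' k‖ := hsum'.sum_le_tsum _ (fun k _ => norm_nonneg _)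
  -- limit
  have hlim : ∀ K : ℕ, ∑ k ∈ range K, (if k < m then 0 else ‖c k‖) ≤ (M + C0) / δ := by
    intro K
    by_contra hcon
    push Not at hcon
    have hG : Continuous (fun r : ℝ => ∑ k ∈ range K, (if k < m then 0 else ‖c k‖ * r ^ k)) := by
      refine continuous_finset_sum _ fun k _ => ?_
      split_ifs
      · exact continuous_const
      · fun_prop
    have h1 : (M + C0) / δ < (fun r : ℝ => ∑ k ∈ range K,
        (if k < m then 0 else ‖c k‖ * r ^ k)) 1 := by
      simpa using hcon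
    have h2 := hG.continuousAt.eventually (lt_mem_nhds h1)
    rw [Metric.eventually_nhds_iff] at h2
    obtain ⟨ε, hε, h3⟩ := h2
    obtain ⟨r, hr1, hr2, hr3⟩ := hrad (1 - ε) (by linarith)
    have h4 := h3 (y := r) (by rw [Real.dist_eq, abs_lt]; constructor <;> linarith)
    exact absurd (hr3 K) (not_le.mpr h4)
  apply bounded_of_summable c
  refine summable_of_sum_range_le (c := C0 + (M + C0) / δ) (fun k => norm_nonneg _) fun K => ?_
  have e1 : ∑ k ∈ range K, ‖c k‖ = ∑ k ∈ range K, (if k < m then ‖c k‖ else 0) +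
      ∑ k ∈ range K, (if k < m then 0 else ‖c k‖) := by
    rw [← Finset.sum_add_distrib]
    refine Finset.sum_congr rfl fun k _ => ?_
    split_ifs <;> simp
  rw [e1]
  refine add_le_add ?_ (hlim K)
  rw [← Finset.sum_filter, hC0]
  refine Finset.sum_le_sum_of_subset_of_nonneg ?_ fun k _ _ => norm_nonneg _
  intro k hk
  rw [Finset.mem_filter] at hk
  exact Finset.mem_range.mpr hk.2

end Pool.Agent.Helper414.HG
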