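import Pool.Agent.Helper414.HgA
import Pool.Agent.Helper414.HgDefs2

set_option autoImplicit false

/-!
# The limit set of a forcing set satisfies the criterion
-/

namespace Pool.Agent.Helper414.HG

open Finset



/-- a polynomial small on the limit set of `S` is small on `S` outside a smaller disc -/
theorem nbhd (S : Set ℂ) (hS : ∀ z ∈ S, ‖z‖ < 1) (p : ℕ → ℂ) (hp : (Function.support p).Finite) (ε : ℝ)
    (hε : 0 < ε) (h : ∀ ζ : ℂ, ‖ζ‖ = 1 → ζ ∈ closure S → ‖F p ζ‖ ≤ ε) :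
    ∃ ρ : ℝ, 0 < ρ ∧ ρ < 1 ∧ ∀ z ∈ S, ρ < ‖z‖ → ‖F p z‖ ≤ 2 * ε := by
  have hF : ∀ z, F p z = ∑ k ∈ hp.toFinset, p k * z ^ k := by
    intro z
    unfold F
    apply tsum_eq_sum
    intro k hk
    have : p k = 0 := by
      by_contra hne
      exact hk (hp.mem_toFinset.mpr hne)
    rw [this, zero_mul]
  have hc : Continuous (F p) := by
    have : F p = fun z => ∑ k ∈ hp.toFinset, p k * z ^ k := funext hF
    rw [this]
    fun_prop
  by_contra hcon
  push Not at hcon
  have hρ : ∀ n : ℕ, ∃ z ∈ S, 1 - 1 / ((n : ℝ) + 2) < ‖z‖ ∧ 2 * ε < ‖F p z‖ := by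
    intro n
    have h2 : (0 : ℝ) < (n : ℝ) + 2 := by positivity
    have h3 : (1 : ℝ) / ((n : ℝ) + 2) < 1 := by
      rw [div_lt_one h2]
      have : (0 : ℝ) ≤ n := Nat.cast_nonneg n
      linarith
    have h4 : (0 : ℝ) < 1 / ((n : ℝ) + 2) := by positivity
    obtain ⟨z, hz, h5, h6⟩ := hcon (1 - 1 / ((n : ℝ) + 2)) (by linarith) (by linarith)
    exact ⟨z, hz, h5, h6⟩
  choose z hzS hz1 hz2 using hρ
  have hK : IsCompact (Metric.closedBall (0 : ℂ) 1) := isCompact_closedBall _ _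
  have hmem : ∀ n, z n ∈ Metric.closedBall (0 : ℂ) 1 := by
    intro n
    rw [mem_closedBall_zero_iff]
    exact (hS _ (hzS n)).le
  obtain ⟨ζ, hζ, φ, hφ, hlim⟩ := hK.tendsto_subseq hmem
  have hcl : ζ ∈ closure S :=
    mem_closure_of_tendsto hlim (Filter.Eventually.of_forall fun n => hzS (φ n))
  have hle : ‖ζ‖ ≤ 1 := by rwa [mem_closedBall_zero_iff] at hζ
  have hge : 1 ≤ ‖ζ‖ := by
    have hn : Filter.Tendsto (fun n => ‖z (φ n)‖) Filter.atTop (nhds ‖ζ‖) :=
      (continuous_norm.tendsto ζ).comp hlim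
    have hl : Filter.Tendsto (fun n : ℕ => 1 - 1 / (((φ n : ℕ) : ℝ) + 2)) Filter.atTop
        (nhds (1 - 0)) := by
      apply Filter.Tendsto.const_sub
      have h1 : Filter.Tendsto (fun m : ℕ => 1 / ((m : ℝ) + 2)) Filter.atTop (nhds 0) := by
        have := (tendsto_one_div_add_atTop_nhds_zero_nat (𝕜 := ℝ)).comp
          (Filter.tendsto_add_atTop_nat 1)
        refine this.congr fun m => ?_
        simp only [Function.comp]
        push_cast
        ring_nf
      exact h1.comp hφ.tendsto_atTop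
    rw [sub_zero] at hl
    exact le_of_tendsto_of_tendsto' hl hn (fun n => (hz1 (φ n)).le)
  have hFl : Filter.Tendsto (fun n => ‖F p (z (φ n))‖) Filter.atTop (nhds ‖F p ζ‖) :=
    ((continuous_norm.comp hc).tendsto ζ).comp hlim
  have h7 : 2 * ε ≤ ‖F p ζ‖ := ge_of_tendsto' hFl (fun n => (hz2 (φ n)).le)
  have h8 := h ζ (le_antisymm hle hge) hcl
  linarith

theorem ebl_bound (p : ℕ → ℂ) (hp : (Function.support p).Finite) (m : ℕ)
    (hm : ∀ k, p k ≠ 0 → m ≤ k) (x : ℝ) (hx0 : 0 ≤ x) (hx1 : x ≤ 1) (z : ℂ) (hz : ‖z‖ ≤ x) :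
    ‖F p z‖ ≤ x ^ m * ∑' k, ‖p k‖ := by
  have h1 : F p z = ∑ k ∈ hp.toFinset, p k * z ^ k := by
    unfold F
    refine tsum_eq_sum fun k hk => ?_
    have : p k = 0 := by simpa using hk
    simp [this]
  have h2 : ∑' k, ‖p k‖ = ∑ k ∈ hp.toFinset, ‖p k‖ := by
    refine tsum_eq_sum fun k hk => ?_
    have : p k = 0 := by simpa using hk
    simp [this]
  rw [h1, h2, Finset.mul_sum]
  refine (norm_sum_le _ _).trans (Finset.sum_le_sum fun k hk => ?_)
  have hk' : p k ≠ 0 := by simpa using hk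
  rw [norm_mul, norm_pow, mul_comm (x ^ m)]
  refine mul_le_mul_of_nonneg_left ?_ (norm_nonneg _)
  calc ‖z‖ ^ k ≤ x ^ k := pow_le_pow_left₀ (norm_nonneg _) hz k
    _ ≤ x ^ m := pow_le_pow_of_le_one hx0 hx1 (hm k hk')

theorem ebl_step (K : Set ℂ) (q : ℝ) (hq : 1 < q)
    (hc : ∀ (δ : ℝ), 0 < δ → ∀ (m : ℕ), ∃ c : ℕ → ℂ, (Function.support c).Finite ∧
      Lac q (Function.support c) ∧ (∀ (k : ℕ), c k ≠ 0 → m ≤ k) ∧
        ∃ B, (∀ z ∈ K, ‖F c z‖ ≤ B) ∧ B < δ * ∑' (k : ℕ), ‖c k‖) (m j : ℕ) :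
    ∃ p : ℕ → ℂ, ∃ M : ℕ, m < M ∧ (Function.support p).Finite ∧
      (∀ k, p k ≠ 0 → m ≤ k ∧ q * (k:ℝ) ≤ (M:ℝ)) ∧ Lac q (Function.support p) ∧
      ∑' k, ‖p k‖ = 1 ∧ ∀ z ∈ K, ‖F p z‖ ≤ (1/4:ℝ)^j := by
  rcases K.eq_empty_or_nonempty with hK | ⟨z0, hz0⟩
  · obtain ⟨M0, hM0⟩ := exists_nat_ge (q * (m:ℝ))
    have hs : Function.support (Pi.single m 1 : ℕ → ℂ) = {m} := by
      ext k
      by_cases hk : k = m
      · subst hk; simp
      · simp [hk]
    refine ⟨Pi.single m 1, max M0 (m+1), ?_, ?_, ?_, ?_, ?_, ?_⟩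
    · exact lt_of_lt_of_le (Nat.lt_succ_self m) (le_max_right _ _)
    · rw [hs]; exact Set.finite_singleton m
    · intro k hk
      have hk' : k ∈ ({m} : Set ℕ) := hs ▸ hk
      have hk'' : k = m := hk'
      subst hk''
      exact ⟨le_refl _, hM0.trans (by exact_mod_cast le_max_left _ _)⟩
    · rw [hs]
      intro a ha b hb hab
      have ha' : a = m := ha
      have hb' : b = m := hb
      omega
    · rw [tsum_eq_single m]
      · simp
      · intro k hk
        simp [hk]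
    · intro z hz
      rw [hK] at hz
      exact absurd hz (Set.notMem_empty z)
  · obtain ⟨c, hfin, hlac, hm, B, hB, hlt⟩ := hc ((1/4:ℝ)^j) (by positivity) m
    have hB0 : 0 ≤ B := (norm_nonneg _).trans (hB z0 hz0)
    obtain ⟨T, hT⟩ : ∃ T : ℝ, T = ∑' k, ‖c k‖ := ⟨_, rfl⟩
    rw [← hT] at hlt
    have hTpos : 0 < T := by
      by_contra h
      push Not at h
      have : (1/4:ℝ)^j * T ≤ 0 := mul_nonpos_of_nonneg_of_nonpos (by positivity) h
      linarith
    have hsupp : Function.support (fun k => c k / (T:ℂ)) = Function.support c := by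
      ext k
      simp [hTpos.ne']
    obtain ⟨N, hN⟩ := hfin.bddAbove
    obtain ⟨M0, hM0⟩ := exists_nat_ge (q * (N:ℝ))
    refine ⟨fun k => c k / (T:ℂ), max M0 (m+1), ?_, ?_, ?_, ?_, ?_, ?_⟩
    · exact lt_of_lt_of_le (Nat.lt_succ_self m) (le_max_right _ _)
    · rw [hsupp]; exact hfin
    · intro k hk
      have hk' : c k ≠ 0 := by
        intro h0
        apply hk
        simp [h0]
      refine ⟨hm k hk', ?_⟩
      have h1 : k ≤ N := hN hk'
      have h2 : (k:ℝ) ≤ N := by exact_mod_cast h1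
      calc q * (k:ℝ) ≤ q * N := by nlinarith
        _ ≤ M0 := hM0
        _ ≤ ((max M0 (m+1) : ℕ) : ℝ) := by exact_mod_cast le_max_left _ _
    · rw [hsupp]
      exact hlac
    · have h3 : ∀ k, ‖c k / (T:ℂ)‖ = ‖c k‖ / T := by
        intro k
        rw [norm_div, Complex.norm_real, Real.norm_of_nonneg hTpos.le]
      simp only [h3]
      rw [tsum_div_const, ← hT]
      exact div_self hTpos.ne'
    · intro z hz
      have h4 : F (fun k => c k / (T:ℂ)) z = F c z / T := by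
        unfold F
        rw [← tsum_div_const]
        congr 1
        funext k
        ring
      rw [h4, norm_div, Complex.norm_real, Real.norm_of_nonneg hTpos.le, div_le_iff₀ hTpos]
      exact (hB z hz).trans hlt.le

/-- if the set of limit points of `S` on the unit circle does not satisfy the criterion then `S` carries a bad gap
series -/
theorem exists_bad_limit (S : Set ℂ) (hS : ∀ z ∈ S, ‖z‖ < 1)
    (hcrit : ¬ Crit {ζ : ℂ | ‖ζ‖ = 1 ∧ ζ ∈ closure S}) :
    ∃ (q : ℝ) (c : ℕ → ℂ), 1 < q ∧ IsGap q c ∧ (¬ Summable (fun k => ‖c k‖)) ∧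
      ∃ M : ℝ, ∀ z ∈ S, ‖F c z‖ ≤ M := by
  unfold Crit at hcrit
  push Not at hcrit
  obtain ⟨q, hq, hc⟩ := hcrit
  have step := ebl_step _ q hq hc
  let R : Type := {ρ : ℝ // 0 < ρ ∧ ρ < 1}
  have step2 : ∀ (m j : ℕ) (ρ : R), ∃ (p : ℕ → ℂ) (M : ℕ) (ρ' : R), m < M ∧
      (∀ k, p k ≠ 0 → m ≤ k ∧ q * (k:ℝ) ≤ (M:ℝ)) ∧ Lac q (Function.support p) ∧
      ∑' k, ‖p k‖ = 1 ∧ ρ.1 ≤ ρ'.1 ∧ (∀ z ∈ S, ρ'.1 < ‖z‖ → ‖F p z‖ ≤ 2 * (1/4:ℝ)^j) ∧
      (∀ z : ℂ, ‖z‖ ≤ ρ.1 → ‖F p z‖ ≤ (1/2:ℝ)^j) ∧ (∀ z : ℂ, ‖z‖ ≤ 1 → ‖F p z‖ ≤ 1) := by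
    intro m j ρ
    obtain ⟨n, hn⟩ := exists_pow_lt_of_lt_one (show (0:ℝ) < (1/2:ℝ)^j by positivity) ρ.2.2
    obtain ⟨p, M, h1, h2, h3, h4, h5, h6⟩ := step (max m n) j
    obtain ⟨ρ1, h7, h8, h9⟩ := nbhd S hS p h2 ((1/4:ℝ)^j) (by positivity)
      (fun ζ hζ1 hζ2 => h6 ζ ⟨hζ1, hζ2⟩)
    refine ⟨p, M, ⟨max ρ.1 ρ1, lt_max_of_lt_left ρ.2.1, max_lt ρ.2.2 h8⟩, ?_, ?_, h4, h5,
      le_max_left _ _, ?_, ?_, ?_⟩
    · exact lt_of_le_of_lt (le_max_left _ _) h1
    · intro k hk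
      exact ⟨(le_max_left _ _).trans (h3 k hk).1, (h3 k hk).2⟩
    · intro z hz hz2
      exact h9 z hz (lt_of_le_of_lt (le_max_right _ _) hz2)
    · intro z hz
      have := ebl_bound p h2 (max m n) (fun k hk => (h3 k hk).1) ρ.1 ρ.2.1.le ρ.2.2.le z hz
      rw [h5, mul_one] at this
      exact this.trans ((pow_le_pow_of_le_one ρ.2.1.le ρ.2.2.le (le_max_right _ _)).trans hn.le)
    · intro z hz
      have := ebl_bound p h2 (max m n) (fun k hk => (h3 k hk).1) 1 zero_le_one le_rfl z hz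
      rwa [h5, mul_one, one_pow] at this
  choose p M ρ' hM hp hl hs hmono hF1 hF2 hF3 using step2
  obtain ⟨ρ0, hρ0⟩ : ∃ ρ0 : R, ρ0.1 = 1/2 := ⟨⟨1/2, by norm_num, by norm_num⟩, rfl⟩
  obtain ⟨st, hst0, hstS⟩ : ∃ st : ℕ → ℕ × R, st 0 = (1, ρ0) ∧
      ∀ j, st (j+1) = (M (st j).1 j (st j).2, ρ' (st j).1 j (st j).2) :=
    ⟨fun j => Nat.rec (1, ρ0) (fun j s => (M s.1 j s.2, ρ' s.1 j s.2)) j, rfl, fun j => rfl⟩
  obtain ⟨c, hgap, hns, hlim⟩ := glue q hq (fun j => p (st j).1 j (st j).2) (fun j => (st j).1)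
    (by simp [hst0])
    (fun j => by show (st j).1 < (st (j+1)).1; rw [hstS]; exact hM _ _ _)
    (fun j k hk => by
      show (st j).1 ≤ k ∧ q * (k:ℝ) ≤ ((st (j+1)).1 : ℝ)
      rw [hstS]; exact hp _ _ _ k hk)
    (fun j => hl _ _ _) (fun j => hs _ _ _)
  refine ⟨q, c, hq, hgap, hns, 5, fun z hz => ?_⟩
  obtain ⟨r, hr⟩ : ∃ r : ℕ → ℝ, r = fun j => (st j).2.1 := ⟨_, rfl⟩
  have hrmono : ∀ j, r j ≤ r (j+1) := by
    intro j
    rw [hr]
    show (st j).2.1 ≤ (st (j+1)).2.1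
    rw [hstS]
    exact hmono _ _ _
  have hterm : ∀ j, ‖F (p (st j).1 j (st j).2) z‖ ≤ 2 * (1/2:ℝ)^j +
      (if r j < ‖z‖ ∧ ‖z‖ ≤ r (j+1) then (1:ℝ) else 0) := by
    intro j
    have hpos : (0:ℝ) < (1/2:ℝ)^j := by positivity
    by_cases h1 : ‖z‖ ≤ r j
    · have h2 := hF2 (st j).1 j (st j).2 z (by rw [hr] at h1; exact h1)
      rw [if_neg (fun h => absurd h.1 (not_lt.2 h1))]
      linarith
    · rw [not_le] at h1
      by_cases h2 : ‖z‖ ≤ r (j+1)
      · rw [if_pos ⟨h1, h2⟩]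
        have h3 := hF3 (st j).1 j (st j).2 z (hS z hz).le
        linarith
      · rw [if_neg (fun h => h2 h.2)]
        rw [not_le] at h2
        have h3 := hF1 (st j).1 j (st j).2 z hz (by
          rw [hr] at h2
          have h4 : (st (j+1)).2.1 < ‖z‖ := h2
          rw [hstS] at h4
          exact h4)
        have h5 : (1/4:ℝ)^j ≤ (1/2:ℝ)^j := pow_le_pow_left₀ (by norm_num) (by norm_num) j
        linarith
  have hind : ∀ J, ∑ j ∈ range J, (if r j < ‖z‖ ∧ ‖z‖ ≤ r (j+1) then (1:ℝ) else 0) ≤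
      if ‖z‖ ≤ r J then (1:ℝ) else 0 := by
    intro J
    induction J with
    | zero => simp only [range_zero, sum_empty]; split_ifs <;> norm_num
    | succ J ih =>
      rw [sum_range_succ]
      by_cases h1 : ‖z‖ ≤ r J
      · rw [if_pos h1] at ih
        rw [if_neg (fun h => absurd h.1 (not_lt.2 h1)), if_pos (h1.trans (hrmono J))]
        linarith
      · rw [if_neg h1] at ih
        rw [not_le] at h1
        by_cases h2 : ‖z‖ ≤ r (J+1)
        · rw [if_pos ⟨h1, h2⟩, if_pos h2]; linarith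
        · rw [if_neg (fun h => h2 h.2), if_neg h2]; linarith
  refine le_of_tendsto (hlim z (hS z hz)).norm (Filter.Eventually.of_forall fun J => ?_)
  refine (norm_sum_le _ _).trans ((Finset.sum_le_sum (fun j _ => hterm j)).trans ?_)
  rw [sum_add_distrib, ← mul_sum]
  have e1 := sum_geometric_two_le J
  have e2 := hind J
  have e3 : (if ‖z‖ ≤ r J then (1:ℝ) else 0) ≤ 1 := by split_ifs <;> norm_num
  linarith



theorem forcing_of_crit_circle_series (E : Set ℂ) (hE : ∀ ζ ∈ E, ‖ζ‖ = 1) (q δ : ℝ) (m : ℕ)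
    (H : ∀ c : ℕ → ℂ, (Function.support c).Finite →
    Lac q (Function.support c) → (∀ k, c k ≠ 0 → m ≤ k) →
    ∀ B : ℝ, (∀ z ∈ E, ‖F c z‖ ≤ B) → δ * ∑' k : ℕ, ‖c k‖ ≤ B)
    (c : ℕ → ℂ) (hc : Summable (fun k => ‖c k‖)) (hL : Lac q (Function.support c))
    (hm : ∀ k, c k ≠ 0 → m ≤ k) (B : ℝ) (hB : ∀ z ∈ E, ‖F c z‖ ≤ B) :
    δ * ∑' k : ℕ, ‖c k‖ ≤ B := by
  have key : ∀ N : ℕ, δ * ∑ k ∈ range N, ‖c k‖ ≤ B + (∑' k : ℕ, ‖c k‖ - ∑ k ∈ range N, ‖c k‖) := by
    intro N
    have hsup : ∀ k, (if k < N then c k else 0) ≠ 0 → k < N ∧ c k ≠ 0 := by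
      intro k hk
      by_cases h : k < N
      · rw [if_pos h] at hk
        exact ⟨h, hk⟩
      · rw [if_neg h] at hk
        exact absurd rfl hk
    have e1 : ∑' k : ℕ, ‖(fun k => if k < N then c k else 0) k‖ = ∑ k ∈ range N, ‖c k‖ := by
      rw [tsum_eq_sum (s := range N)]
      · apply Finset.sum_congr rfl
        intro k hk
        simp only [if_pos (Finset.mem_range.mp hk)]
      · intro k hk
        rw [Finset.mem_range] at hk
        simp only [if_neg hk, norm_zero]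
    have hH := H (fun k => if k < N then c k else 0)
      (by
        apply Set.Finite.subset (Finset.finite_toSet (range N))
        intro k hk
        rw [Finset.coe_range]
        exact (hsup k hk).1)
      (by
        intro a ha b hb hab
        exact hL a (hsup a ha).2 b (hsup b hb).2 hab)
      (fun k hk => hm k (hsup k hk).2)
      (B + (∑' k : ℕ, ‖c k‖ - ∑ k ∈ range N, ‖c k‖))
      (by
        intro x hx
        have e2 : F (fun k => if k < N then c k else 0) x = ∑ k ∈ range N, c k * x ^ k := by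
          unfold F
          rw [tsum_eq_sum (s := range N)]
          · apply Finset.sum_congr rfl
            intro k hk
            simp only [if_pos (Finset.mem_range.mp hk)]
          · intro k hk
            rw [Finset.mem_range] at hk
            simp only [if_neg hk, zero_mul]
        rw [e2]
        have hn : ∀ k : ℕ, ‖c k * x ^ k‖ = ‖c k‖ := by
          intro k
          rw [norm_mul, norm_pow, hE x hx, one_pow, mul_one]
        have hs : Summable (fun k : ℕ => c k * x ^ k) := by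
          apply Summable.of_norm
          simpa only [hn] using hc
        have h1 := hs.sum_add_tsum_nat_add N
        have h2 := hc.sum_add_tsum_nat_add N
        have h3 : ‖∑' k : ℕ, c (k + N) * x ^ (k + N)‖ ≤ ∑' k : ℕ, ‖c (k + N)‖ := by
          have h4 : Summable (fun k : ℕ => ‖c (k + N) * x ^ (k + N)‖) := by
            have := (summable_nat_add_iff N).mpr hc
            simpa only [hn] using this
          have h5 := norm_tsum_le_tsum_norm h4
          simpa only [hn] using h5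
        have h6 : ∑ k ∈ range N, c k * x ^ k = (∑' k : ℕ, c k * x ^ k) -
            ∑' k : ℕ, c (k + N) * x ^ (k + N) := by
          rw [← h1]; ring
        have h7 := norm_sub_le (∑' k : ℕ, c k * x ^ k)
          (∑' k : ℕ, c (k + N) * x ^ (k + N))
        rw [← h6] at h7
        have h8 := hB x hx
        unfold F at h8
        linarith)
    rw [e1] at hH
    exact hH
  have t1 := hc.hasSum.tendsto_sum_nat
  have t2 := t1.const_mul δ
  have t3 := (tendsto_const_nhds (x := ∑' k : ℕ, ‖c k‖)).sub t1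
  have t4 := (tendsto_const_nhds (x := B)).add t3
  have := le_of_tendsto_of_tendsto' t2 t4 key
  simpa using this

/-- a set is forcing if its sections on circles of radii tending to one satisfy uniform Sidon inequalities -/
theorem forcing_of_family (S : Set ℂ) (hS : ∀ z ∈ S, ‖z‖ < 1)
    (h : ∀ q : ℝ, 1 < q → ∃ δ : ℝ, 0 < δ ∧ ∃ m : ℕ, ∀ ρ : ℝ, ρ < 1 → ∃ r : ℝ, ρ < r ∧ r < 1 ∧
      SidonIneq {ζ : ℂ | ‖ζ‖ = 1 ∧ (r : ℂ) * ζ ∈ closure S} q δ m) : Forcing S := by
  intro q c hq hc hMex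
  obtain ⟨M, hM⟩ := hMex
  have hcl : ∀ z ∈ closure S, ‖z‖ < 1 → ‖F c z‖ ≤ M := by
    intro z hz hz1
    obtain ⟨u, hu, hut⟩ := mem_closure_iff_seq_limit.mp hz
    have hcont : ContinuousAt (F c) z :=
      (continuousOn_F c hc.conv).continuousAt
        (Metric.isOpen_ball.mem_nhds (by rw [Metric.mem_ball, dist_zero_right]; exact hz1))
    have ht := (hcont.tendsto.comp hut).norm
    exact le_of_tendsto' ht fun n => hM _ (hu n)
  obtain ⟨δ, hδ, m, hfam⟩ := h q hq
  obtain ⟨C0, hC0⟩ : ∃ C0 : ℝ, C0 = ∑ k ∈ range m, ‖c k‖ := ⟨_, rfl⟩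
  -- bound for radii
  have hrad : ∀ ρ : ℝ, ρ < 1 → ∃ r : ℝ, ρ < r ∧ r < 1 ∧ ∀ K : ℕ,
      ∑ k ∈ range K, (if k < m then 0 else ‖c k‖ * r ^ k) ≤ (M + C0) / δ := by
    intro ρ hρ1
    obtain ⟨r, hr1, hr2, hSid⟩ := hfam (max ρ 0) (max_lt hρ1 one_pos)
    have hEn : ∀ ζ ∈ {ζ : ℂ | ‖ζ‖ = 1 ∧ (r : ℂ) * ζ ∈ closure S}, ‖ζ‖ = 1 := fun ζ hζ => hζ.1
    have hm := forcing_of_crit_circle_series _ hEn q δ m hSid
    have hr0 : 0 < r := lt_of_le_of_lt (le_max_right _ _) hr1
    refine ⟨r, lt_of_le_of_lt (le_max_left _ _) hr1, hr2, fun K => ?_⟩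
    have hnr : ‖(r : ℂ)‖ = r := by rw [Complex.norm_real, Real.norm_of_nonneg hr0.le]
    obtain ⟨c', hc'⟩ : ∃ c' : ℕ → ℂ, ∀ k, c' k = if k < m then 0 else c k * (r : ℂ) ^ k :=
      ⟨_, fun _ => rfl⟩
    have hnc' : ∀ k, ‖c' k‖ = if k < m then 0 else ‖c k‖ * r ^ k := by
      intro k
      rw [hc']
      split_ifs
      · simp
      · rw [norm_mul, norm_pow, hnr]
    have hsum' : Summable (fun k => ‖c' k‖) := by
      have h1 := (hc.conv (r : ℂ) (by rw [hnr]; exact hr2)).norm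
      refine Summable.of_nonneg_of_le (fun k => norm_nonneg _) (fun k => ?_) h1
      rw [hnc', norm_mul, norm_pow, hnr]
      split_ifs
      · positivity
      · exact le_refl _
    have hlac' : Lac q (Function.support c') := by
      intro a ha b hb hab
      have haux : ∀ a, a ∈ Function.support c' → a ∈ Function.support c := by
        intro a ha hca
        apply ha
        rw [hc', hca]; simp
      exact hc.lac a (haux a ha) b (haux b hb) hab
    have hm' : ∀ k, c' k ≠ 0 → m ≤ k := by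
      intro k hk
      by_contra hcon
      push Not at hcon
      apply hk
      rw [hc', if_pos hcon]
    have hbd : ∀ x ∈ {ζ : ℂ | ‖ζ‖ = 1 ∧ (r : ℂ) * ζ ∈ closure S}, ‖F c' x‖ ≤ M + C0 := by
      intro x hx
      unfold F
      obtain ⟨z, hz⟩ : ∃ z : ℂ, z = (r : ℂ) * x := ⟨_, rfl⟩
      have hzn : ‖z‖ = r := by
        rw [hz, norm_mul, hnr, hx.1, mul_one]
      have hzk : ∀ k : ℕ, z ^ k = (r : ℂ) ^ k * x ^ k := by
        intro k
        rw [hz, mul_pow]
      have hs1 : Summable (fun k => c k * z ^ k) := hc.conv z (by rw [hzn]; exact hr2)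
      have hs2 : Summable (fun k => if k < m then c k * z ^ k else 0) := by
        apply summable_of_ne_finset_zero (s := range m)
        intro k hk
        rw [Finset.mem_range] at hk
        rw [if_neg hk]
      have e1 : (fun k : ℕ => c' k * x ^ k) =
          fun k => c k * z ^ k - (if k < m then c k * z ^ k else 0) := by
        funext k
        rw [hc', hzk]
        split_ifs
        · ring
        · ring
      have e2 : ∑' k : ℕ, (if k < m then c k * z ^ k else 0) = ∑ k ∈ range m, c k * z ^ k := by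
        rw [tsum_eq_sum (s := range m)]
        · refine Finset.sum_congr rfl fun k hk => ?_
          rw [if_pos (Finset.mem_range.mp hk)]
        · intro k hk
          rw [Finset.mem_range] at hk
          rw [if_neg hk]
      rw [e1, hs1.tsum_sub hs2, e2]
      have e3 : ‖F c z‖ ≤ M := hcl z (by rw [hz]; exact hx.2) (by rw [hzn]; exact hr2)
      have e4 : ‖∑ k ∈ range m, c k * z ^ k‖ ≤ C0 := by
        rw [hC0]
        refine (norm_sum_le _ _).trans (Finset.sum_le_sum fun k _ => ?_)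
        rw [norm_mul, norm_pow, hzn]
        exact mul_le_of_le_one_right (norm_nonneg _) (pow_le_one₀ hr0.le hr2.le)
      exact (norm_sub_le _ _).trans (add_le_add e3 e4)
    have hfin := hm c' hsum' hlac' hm' (M + C0) hbd
    rw [le_div_iff₀ hδ, mul_comm]
    refine le_trans (mul_le_mul_of_nonneg_left ?_ hδ.le) hfin
    calc ∑ k ∈ range K, (if k < m then 0 else ‖c k‖ * r ^ k) = ∑ k ∈ range K, ‖c' k‖ :=
          Finset.sum_congr rfl fun k _ => (hnc' k).symm
      _ ≤ ∑' k, ‖c' k‖ := hsum'.sum_le_tsum _ (fun k _ => norm_nonneg _)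
  -- limit
  have hlim : ∀ K : ℕ, ∑ k ∈ range K, (if k < m then 0 else ‖c k‖) ≤ (M + C0) / δ := by
    intro K
    by_contra hcon
    push Not at hcon
    have hG : Continuous (fun r : ℝ => ∑ k ∈ range K, (if k < m then 0 else ‖c k‖ * r ^ k)) := by
      refine continuous_finset_sum _ fun k _ => ?_
      split_ifs
      · exact continuous_const
      · fun_prop
    have h1 : (M + C0) / δ < (fun r : ℝ => ∑ k ∈ range K,
        (if k < m then 0 else ‖c k‖ * r ^ k)) 1 := by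
      simpa using hcon
    have h2 := hG.continuousAt.eventually (lt_mem_nhds h1)
    rw [Metric.eventually_nhds_iff] at h2
    obtain ⟨ε, hε, h3⟩ := h2
    obtain ⟨r, hr1, hr2, hr3⟩ := hrad (1 - ε) (by linarith)
    have h4 := h3 (y := r) (by rw [Real.dist_eq, abs_lt]; constructor <;> linarith)
    exact absurd (hr3 K) (not_le.mpr h4)
  apply bounded_of_summable c
  refine summable_of_sum_range_le (c := C0 + (M + C0) / δ) (fun k => norm_nonneg _) fun K => ?_
  have e1 : ∑ k ∈ range K, ‖c k‖ = ∑ k ∈ range K, (if k < m then ‖c k‖ else 0) +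
      ∑ k ∈ range K, (if k < m then 0 else ‖c k‖) := by
    rw [← Finset.sum_add_distrib]
    refine Finset.sum_congr rfl fun k _ => ?_
    split_ifs <;> simp
  rw [e1]
  refine add_le_add ?_ (hlim K)
  rw [← Finset.sum_filter, hC0]
  refine Finset.sum_le_sum_of_subset_of_nonneg ?_ fun k _ _ => norm_nonneg _
  intro k hk
  rw [Finset.mem_filter] at hk
  exact Finset.mem_range.mpr hk.2

end Pool.Agent.Helper414.HG
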